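import Pool.Agent.Lib.MP_75bae7_al.Sp4

/-!
A basis of `sp(4)` and a family of representations by differential operators.
-/

set_option autoImplicit false

namespace Pool.Agent.Lib.MP_75bae7_al

open Matrix

attribute [local instance 100] LieRing.ofAssociativeRing

/-- the symplectic Lie algebra of rank two -/
abbrev Sp := LieAlgebra.Symplectic.sp (Fin 2) ℂ

/-- integral basis -/
def bZ : ℕ → Matrix (Fin 2 ⊕ Fin 2) (Fin 2 ⊕ Fin 2) ℤ
  | 0 => fromBlocks 0 !![2, 0; 0, 0] 0 0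
  | 1 => fromBlocks 0 !![0, 1; 1, 0] 0 0
  | 2 => fromBlocks 0 !![0, 0; 0, 2] 0 0
  | 3 => fromBlocks !![0, 1; 0, 0] 0 0 !![0, 0; -1, 0]
  | 4 => fromBlocks !![1, 0; 0, 0] 0 0 !![-1, 0; 0, 0]
  | 5 => fromBlocks !![0, 0; 0, 1] 0 0 !![0, 0; 0, -1]
  | 6 => fromBlocks !![0, 0; 1, 0] 0 0 !![0, -1; 0, 0]
  | 7 => fromBlocks 0 0 !![2, 0; 0, 0] 0
  | 8 => fromBlocks 0 0 !![0, 1; 1, 0] 0
  | _ => fromBlocks 0 0 !![0, 0; 0, 2] 0

theorem bZ_skew (i : ℕ) : (bZ i)ᵀ * J (Fin 2) ℤ = J (Fin 2) ℤ * (-bZ i) := by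
  have : ∀ i < 10, (bZ i)ᵀ * J (Fin 2) ℤ = J (Fin 2) ℤ * (-bZ i) := by decide +kernel
  rcases Nat.lt_or_ge i 9 with h | h
  · exact this i (by omega)
  · obtain ⟨n, rfl⟩ := Nat.exists_eq_add_of_le' h
    exact this 9 (by omega)

theorem bZ_tab : ∀ i < 10, ∀ j < i, bZ i * bZ j - bZ j * bZ i = lin bZ (spB i j) := by
  decide +kernel

theorem mem_sp {x : Matrix (Fin 2 ⊕ Fin 2) (Fin 2 ⊕ Fin 2) ℂ} :
    x ∈ Sp ↔ xᵀ * J (Fin 2) ℂ = J (Fin 2) ℂ * (-x) :=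
  (mem_skewAdjointMatricesLieSubalgebra _ _).trans (mem_skewAdjointMatricesSubmodule _ _)

/-- basis of `sp(4)` -/
noncomputable def bS (i : ℕ) : Sp := ⟨(Int.castRingHom ℂ).mapMatrix (bZ i), by
  rw [mem_sp]
  have := congrArg (Int.castRingHom ℂ).mapMatrix (bZ_skew i)
  rw [map_mul, map_mul, map_neg, RingHom.mapMatrix_apply _ (J _ _), map_J] at this
  exact this⟩

theorem bS_lie (i : ℕ) (hi : i < 10) (j : ℕ) (hj : j < i) : ⁅bS i, bS j⁆ = lin bS (spB i j) := by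
  apply Subtype.ext
  have h1 := map_lin Sp.toSubmodule.subtype bS (spB i j)
  have h2 := congrArg (Int.castRingHom ℂ).mapMatrix (bZ_tab i hi j hj)
  rw [map_lin, map_sub, map_mul, map_mul] at h2
  exact h2.trans h1.symm

theorem tab_lieHom {A : Type} [Ring A] [Algebra ℂ A] (φ : Sp →ₗ⁅ℂ⁆ A) :
    Tab spC spB fun i => φ (bS i) := by
  intro i hi j hj
  rw [← Ring.lie_def, ← LieHom.map_lie, bS_lie i hi j hj, spC, Int.cast_zero, zero_add]
  exact map_lin φ.toLinearMap bS _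

/-- inclusion -/
noncomputable def inc : Sp →ₗ[ℂ] Matrix (Fin 2 ⊕ Fin 2) (Fin 2 ⊕ Fin 2) ℂ := Sp.toSubmodule.subtype

theorem inc_apply (x : Sp) : inc x = x.1 := rfl

/-- coordinates -/
noncomputable def co (i : Fin 10) : Sp →ₗ[ℂ] ℂ :=
  (![(2 : ℂ)⁻¹ • entryLinearMap ℂ ℂ (.inl 0) (.inr 0), entryLinearMap ℂ ℂ (.inl 0) (.inr 1),
    (2 : ℂ)⁻¹ • entryLinearMap ℂ ℂ (.inl 1) (.inr 1), entryLinearMap ℂ ℂ (.inl 0) (.inl 1),
    entryLinearMap ℂ ℂ (.inl 0) (.inl 0), entryLinearMap ℂ ℂ (.inl 1) (.inl 1),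
    entryLinearMap ℂ ℂ (.inl 1) (.inl 0), (2 : ℂ)⁻¹ • entryLinearMap ℂ ℂ (.inr 0) (.inl 0),
    entryLinearMap ℂ ℂ (.inr 0) (.inl 1), (2 : ℂ)⁻¹ • entryLinearMap ℂ ℂ (.inr 1) (.inl 1)] i :
      Matrix (Fin 2 ⊕ Fin 2) (Fin 2 ⊕ Fin 2) ℂ →ₗ[ℂ] ℂ) ∘ₗ inc

theorem co_bS (i j : Fin 10) : co i (bS j) = if i = j then 1 else 0 := by
  fin_cases i <;> fin_cases j <;> simp [co, bS, bZ, inc_apply]

theorem sp_span (x : Sp) : x = ∑ i : Fin 10, co i x • bS i := by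
  obtain ⟨x, hx⟩ := x
  have h := mem_sp.1 hx
  have h' : ∀ a b, (xᵀ * J (Fin 2) ℂ) a b = (J (Fin 2) ℂ * (-x)) a b := fun a b =>
    congrFun (congrFun h a) b
  have e1 := h' (.inl 0) (.inl 1)
  have e2 := h' (.inr 0) (.inr 1)
  have e3 := h' (.inr 0) (.inl 0)
  have e4 := h' (.inr 0) (.inl 1)
  have e5 := h' (.inr 1) (.inl 0)
  have e6 := h' (.inr 1) (.inl 1)
  simp [Matrix.mul_apply, J, Fintype.sum_sum_type, Matrix.one_apply] at e1 e2 e3 e4 e5 e6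
  apply Subtype.ext
  rw [← inc_apply (∑ _ : Fin 10, _), map_sum]
  ext a b
  rcases a with a | a <;> rcases b with b | b <;> fin_cases a <;> fin_cases b <;>
    simp [Matrix.sum_apply, Fin.sum_univ_succ, co, bS, bZ, inc_apply, e1, e2, e3, e4, e5, e6] <;>
    ring

theorem exists_lieHom {A : Type} [Ring A] [Algebra ℂ A] {r : ℕ → A} (T : Tab spC spB r) :
    ∃ φ : Sp →ₗ⁅ℂ⁆ A, ∀ i < 10, φ (bS i) = r i := by
  let φ : Sp →ₗ[ℂ] A := ∑ i : Fin 10, (co i).smulRight (r i)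
  have h1 : ∀ i < 10, φ (bS i) = r i := by
    intro i hi
    have := fun j => co_bS j ⟨i, hi⟩
    simp only at this
    simp [φ, this]
  have h2 : ∀ i < 10, ∀ j < i, φ ⁅bS i, bS j⁆ = ⁅φ (bS i), φ (bS j)⁆ := by
    intro i hi j hj
    rw [bS_lie i hi j hj, map_lin, h1 i hi, h1 j (by omega), Ring.lie_def, T i hi j hj, spC,
      Int.cast_zero, zero_add, lin, lin]
    congr 1
    refine List.map_congr_left fun t ht => ?_
    have : ∀ i < 10, ∀ j < i, ∀ t ∈ spB i j, t.2 < 10 := by decide +kernel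
    rw [h1 _ (this i hi j hj t ht)]
  have h3 : ∀ i j : Fin 10, φ ⁅bS i, bS j⁆ = ⁅φ (bS i), φ (bS j)⁆ := by
    intro i j
    rcases lt_trichotomy (j : ℕ) i with h | h | h
    · exact h2 i i.2 j h
    · rw [h, lie_self, lie_self, map_zero]
    · rw [← lie_skew, map_neg, h2 j j.2 i h, lie_skew]
  refine ⟨⟨φ, fun {x y} => ?_⟩, h1⟩
  change φ _ = ⁅φ x, φ y⁆
  rw [sp_span x, sp_span y]
  simp only [sum_lie, lie_sum, smul_lie, lie_smul, map_sum, map_smul, h3]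

open MvPolynomial

theorem pderiv_comm' {σ R : Type} [CommRing R] (a b : σ) (f : MvPolynomial σ R) :
    pderiv a (pderiv b f) = pderiv b (pderiv a f) := by
  classical
  induction f using MvPolynomial.induction_on with
  | C c => simp
  | add p q hp hq => simp [hp, hq]
  | mul_X p c hp =>
    simp only [Derivation.leibniz, smul_eq_mul, map_add, hp, pderiv_X, Pi.single_apply]
    split_ifs <;> simp <;> ring

/-- generators of the Weyl algebra acting on polynomials -/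
noncomputable def wop (l1 l2 : ℂ) : ℕ → Module.End ℂ (MvPolynomial (Fin 4) ℂ)
  | 0 => algebraMap ℂ _ l1
  | 1 => algebraMap ℂ _ l2
  | 2 => LinearMap.mulLeft ℂ (X 0)
  | 3 => LinearMap.mulLeft ℂ (X 1)
  | 4 => LinearMap.mulLeft ℂ (X 2)
  | 5 => LinearMap.mulLeft ℂ (X 3)
  | 6 => (pderiv 0).toLinearMap
  | 7 => (pderiv 1).toLinearMap
  | 8 => (pderiv 2).toLinearMap
  | _ => (pderiv 3).toLinearMap

theorem tab_wop (l1 l2 : ℂ) : Tab wC wB (wop l1 l2) := by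
  intro i hi j hj
  refine LinearMap.ext fun f => ?_
  interval_cases i <;> interval_cases j <;>
    simp [wop, wC, wB, lin, mul_left_comm, smul_smul, mul_comm, mul_assoc, pderiv_X, Nat.beq, Nat.ble,
      pderiv_comm' (1 : Fin 4) 0, pderiv_comm' (2 : Fin 4) 0, pderiv_comm' (3 : Fin 4) 0,
      pderiv_comm' (2 : Fin 4) 1, pderiv_comm' (3 : Fin 4) 1, pderiv_comm' (3 : Fin 4) 2]

end Pool.Agent.Lib.MP_75bae7_al
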