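import Pool.Agent.Lib.MP_75bae7_al.NF

/-!
Identities in the enveloping algebra of `sp(4)` and in a generalised Verma module.
-/

set_option autoImplicit false

namespace Pool.Agent.Lib.MP_75bae7_al

open Ex

/-- brackets of the basis of `sp(4)` -/
def spB : ℕ → ℕ → List (ℤ × ℕ)
  | 3, 1 => [(1, 0)] | 3, 2 => [(2, 1)]
  | 4, 0 => [(2, 0)] | 4, 1 => [(1, 1)] | 4, 3 => [(1, 3)]
  | 5, 1 => [(1, 1)] | 5, 2 => [(2, 2)] | 5, 3 => [(-1, 3)]
  | 6, 0 => [(2, 1)] | 6, 1 => [(1, 2)] | 6, 3 => [(1, 5), (-1, 4)] | 6, 4 => [(1, 6)]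
  | 6, 5 => [(-1, 6)]
  | 7, 0 => [(-4, 4)] | 7, 1 => [(-2, 6)] | 7, 3 => [(2, 8)] | 7, 4 => [(2, 7)]
  | 8, 0 => [(-2, 3)] | 8, 1 => [(-1, 4), (-1, 5)] | 8, 2 => [(-2, 6)] | 8, 3 => [(1, 9)]
  | 8, 4 => [(1, 8)] | 8, 5 => [(1, 8)] | 8, 6 => [(1, 7)]
  | 9, 1 => [(-2, 3)] | 9, 2 => [(-4, 5)] | 9, 5 => [(2, 9)] | 9, 6 => [(2, 8)]
  | _, _ => []

/-- no constant terms -/
def spC : ℕ → ℕ → ℤ := fun _ _ => 0
/-- constants of the Weyl algebra table -/
def wC : ℕ → ℕ → ℤ := fun i j => cond (Nat.beq i (j + 4) && Nat.ble 2 j) 1 0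
/-- no linear terms -/
def wB : ℕ → ℕ → List (ℤ × ℕ) := fun _ _ => []

/-- determinant -/
def xW : Ex := g 1 * g 1 - g 0 * g 2
/-- quadratic semi-invariant -/
def xJ : Ex := g 1 * (g 4 - g 5) + g 2 * g 3 - g 0 * g 6
/-- lower part -/
def xC' : Ex := 3 * g 0 * g 5 - 2 * g 0 - g 0 * g 5 * g 5 - 4 * g 1 * g 3 + 2 * g 1 * g 3 * g 5
  - g 2 * g 3 * g 3
/-- cubic semi-invariant -/
def xC : Ex := xW * g 9 + xC'
/-- lower part -/
def xB' : Ex := 2 * g 0 * g 6 - g 0 * g 5 * g 6 + 2 * g 1 + g 1 * g 3 * g 6 - 2 * g 1 * g 4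
  + g 1 * g 4 * g 5 - g 1 * g 5 + g 2 * g 3 - g 2 * g 3 * g 4
/-- second cubic element -/
def xB : Ex := xW * g 8 + xB'
/-- lower part -/
def xc' : Ex := 2 * g 1 * g 8 + g 2 * g 9 + 2 * g 3 * g 6 - 4 * g 4 + g 4 * g 4 - 2 * g 5
  + g 5 * g 5
/-- Casimir element -/
def xc : Ex := g 0 * g 7 + xc'
/-- quartic semi-invariant -/
def xY : Ex := xJ.com xC
/-- quintic semi-invariant -/
def xD : Ex := xJ.com xY
/-- numerator of the second central element -/
def xQ : Ex := xD * xD - 4 * xW * (xY * xY)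
  - 4 * g 0 * g 0 * xJ * xJ * (xJ * xJ - 2 * (xc + 2) * xW)

/-- differential operators of the representation -/
def rho : ℕ → Ex
  | 0 => g 2
  | 1 => g 3
  | 2 => g 4
  | 3 => g 2 * g 7 + 2 * g 3 * g 8 + g 5
  | 4 => g 0 + 2 * g 2 * g 6 + g 3 * g 7 + g 5 * g 9
  | 5 => g 1 + g 3 * g 7 + 2 * g 4 * g 8 - g 5 * g 9
  | 6 => (g 1 - g 0) * g 9 + 2 * g 3 * g 6 + g 4 * g 7 - g 5 * g 9 * g 9
  | 7 => 2 * g 0 * g 7 * g 9 - 4 * g 0 * g 6 - 2 * g 1 * g 7 * g 9 - 4 * g 2 * g 6 * g 6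
      - 4 * g 3 * g 6 * g 7 - g 4 * g 7 * g 7 - 4 * g 5 * g 6 * g 9 + 2 * g 5 * g 7 * g 9 * g 9
  | 8 => 2 * g 0 * g 8 * g 9 - g 0 * g 7 - g 1 * g 7 - 2 * g 1 * g 8 * g 9 - 2 * g 2 * g 6 * g 7
      - 4 * g 3 * g 6 * g 8 - g 3 * g 7 * g 7 - 2 * g 4 * g 7 * g 8 - 2 * g 5 * g 6
      + 2 * g 5 * g 8 * g 9 * g 9
  | _ => 4 * g 5 * g 8 * g 9 - 4 * g 1 * g 8 - g 2 * g 7 * g 7 - 4 * g 3 * g 7 * g 8
      - 4 * g 4 * g 8 * g 8 - 2 * g 5 * g 7

/-- semi-invariants of given weight -/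
structure Inv {A : Type} [Ring A] (g : ℕ → A) (x : A) (m n : ℤ) : Prop where
  c0 : Commute (g 0) x
  c1 : Commute (g 1) x
  c2 : Commute (g 2) x
  c3 : Commute (g 3) x
  w4 : g 4 * x - x * g 4 = m * x
  w5 : g 5 * x - x * g 5 = n * x

theorem wt_mul {A : Type} [Ring A] {h x y : A} {m n : ℤ} (hx : h * x - x * h = m * x)
    (hy : h * y - y * h = n * y) : h * (x * y) - x * y * h = (m + n : ℤ) * (x * y) := by
  have : h * (x * y) - x * y * h = (h * x - x * h) * y + x * (h * y - y * h) := by noncomm_ring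
  rw [this, hx, hy, ← mul_assoc x, ← (Int.cast_commute n x).eq]; push_cast; noncomm_ring

theorem wt_inv {A : Type} [DivisionRing A] {h x : A} {m : ℤ} (hx : h * x - x * h = m * x) :
    h * x⁻¹ - x⁻¹ * h = (-m : ℤ) * x⁻¹ := by
  by_cases h0 : x = 0
  · simp [h0]
  have : h * x⁻¹ - x⁻¹ * h = -(x⁻¹ * (h * x - x * h) * x⁻¹) := by
    rw [mul_sub, sub_mul, mul_assoc, mul_assoc, mul_inv_cancel₀ h0, mul_one, ← mul_assoc x⁻¹,
      inv_mul_cancel₀ h0, one_mul, neg_sub]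
  rw [this, hx, mul_assoc, mul_assoc, mul_inv_cancel₀ h0, mul_one, ← (Int.cast_commute m _).eq]
  simp

namespace Inv
variable {A : Type} [Ring A] {g : ℕ → A} {x y : A} {m n m' n' : ℤ}

theorem mul (hx : Inv g x m n) (hy : Inv g y m' n') : Inv g (x * y) (m + m') (n + n') :=
  ⟨hx.c0.mul_right hy.c0, hx.c1.mul_right hy.c1, hx.c2.mul_right hy.c2, hx.c3.mul_right hy.c3,
    wt_mul hx.w4 hy.w4, wt_mul hx.w5 hy.w5⟩

theorem sub (hx : Inv g x m n) (hy : Inv g y m n) : Inv g (x - y) m n :=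
  ⟨hx.c0.sub_right hy.c0, hx.c1.sub_right hy.c1, hx.c2.sub_right hy.c2, hx.c3.sub_right hy.c3,
    by rw [mul_sub (m : A), ← hx.w4, ← hy.w4]; noncomm_ring,
    by rw [mul_sub (n : A), ← hx.w5, ← hy.w5]; noncomm_ring⟩

theorem com (hx : Inv g x m n) (hy : Inv g y m' n') : Inv g (x * y - y * x) (m + m') (n + n') :=
  (hx.mul hy).sub (by have := hy.mul hx; rwa [add_comm m', add_comm n'] at this)

theorem of_central (h : ∀ y, Commute y x) : Inv g x 0 0 :=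
  ⟨h _, h _, h _, h _, by simp [(h _).eq], by simp [(h _).eq]⟩

theorem cW (hx : Inv g x m n) : Commute (xW.ev g) x :=
  (hx.c1.mul_left hx.c1).sub_left (hx.c0.mul_left hx.c2)

theorem inv {A : Type} [DivisionRing A] {g : ℕ → A} {x : A} (hx : Inv g x m n) :
    Inv g x⁻¹ (-m) (-n) :=
  ⟨hx.c0.inv_right₀, hx.c1.inv_right₀, hx.c2.inv_right₀, hx.c3.inv_right₀, wt_inv hx.w4,
    wt_inv hx.w5⟩

end Inv

/-- test for semi-invariance -/
def invB (x : Ex) (m n : ℤ) : Bool :=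
  (nf spC spB (g 0 * x - x * g 0)).isEmpty && (nf spC spB (g 1 * x - x * g 1)).isEmpty
    && (nf spC spB (g 2 * x - x * g 2)).isEmpty && (nf spC spB (g 3 * x - x * g 3)).isEmpty
    && (nf spC spB ((g 4).com x - z m * x)).isEmpty && (nf spC spB ((g 5).com x - z n * x)).isEmpty

section Id
variable {A : Type} [Ring A] {v : ℕ → A} (T : Tab spC spB v)
include T

theorem inv_of_invB {x : Ex} {m n : ℤ} (h : invB x m n = true) : Inv v (x.ev v) m n := by
  simp only [invB, Bool.and_eq_true] at h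
  obtain ⟨⟨⟨⟨⟨h0, h1⟩, h2⟩, h3⟩, h4⟩, h5⟩ := h
  exact ⟨ev_eq T h0, ev_eq T h1, ev_eq T h2, ev_eq T h3, ev_eq T h4, ev_eq T h5⟩

theorem inv_b : Inv v (v 0) 2 0 := inv_of_invB T (x := g 0) (by decide +kernel)
theorem inv_W : Inv v (xW.ev v) 2 2 := inv_of_invB T (by decide +kernel)
theorem inv_J : Inv v (xJ.ev v) 1 1 := inv_of_invB T (by decide +kernel)
theorem inv_C : Inv v (xC.ev v) 2 0 := inv_of_invB T (by decide +kernel)
theorem inv_Y : Inv v (xY.ev v) 3 1 := (inv_J T).com (inv_C T)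
theorem inv_D : Inv v (xD.ev v) 4 2 := (inv_J T).com (inv_Y T)

theorem c_comm (i : ℕ) (hi : i < 10) : Commute (xc.ev v) (v i) :=
  ev_eq T (a := xc * g i) (b := g i * xc) (by revert i; decide +kernel)

theorem id_Y : xY.ev v = 2 * (v 0 * xB.ev v + v 1 * xC.ev v) :=
  ev_eq T (b := 2 * (g 0 * xB + g 1 * xC)) (by decide +kernel) |>.trans (by simp)

theorem id_D : xD.ev v = 2 * v 0 * ((xc.ev v + 4) * xW.ev v - xJ.ev v * xJ.ev v)
    + 4 * xW.ev v * xC.ev v :=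
  ev_eq T (b := 2 * g 0 * ((xc + 4) * xW - xJ * xJ) + 4 * xW * xC) (by decide +kernel)
    |>.trans (by simp)

theorem id_CY : xC.ev v * xY.ev v - xY.ev v * xC.ev v
    = 2 * v 0 * (xJ.ev v * xC.ev v + xC.ev v * xJ.ev v) :=
  ev_eq T (a := xC.com xY) (b := 2 * g 0 * (xJ * xC + xC * xJ)) (by decide +kernel)
    |>.trans (by simp)

theorem br31 : v 3 * v 1 - v 1 * v 3 = v 0 := by simpa [spB, spC, lin] using T 3 (by omega) 1 (by omega)
theorem br41 : v 4 * v 1 - v 1 * v 4 = (1 : ℤ) * v 1 := by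
  simpa [spB, spC, lin] using T 4 (by omega) 1 (by omega)
theorem br51 : v 5 * v 1 - v 1 * v 5 = (1 : ℤ) * v 1 := by
  simpa [spB, spC, lin] using T 5 (by omega) 1 (by omega)
theorem br43 : v 4 * v 3 - v 3 * v 4 = (1 : ℤ) * v 3 := by
  simpa [spB, spC, lin] using T 4 (by omega) 3 (by omega)
theorem br53 : v 5 * v 3 - v 3 * v 5 = (-1 : ℤ) * v 3 := by
  simpa [spB, spC, lin] using T 5 (by omega) 3 (by omega)
theorem br54 : Commute (v 5) (v 4) := by
  change _ = _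
  simpa [spB, spC, lin, sub_eq_zero] using T 5 (by omega) 4 (by omega)

variable (hc : ∀ y, Commute y (xc.ev v))
include hc

theorem id_JD : xJ.ev v * xD.ev v - xD.ev v * xJ.ev v = 4 * xW.ev v * xY.ev v := by
  have a1 : Commute (xJ.ev v) (2 * v 0 * ((xc.ev v + 4) * xW.ev v - xJ.ev v * xJ.ev v)) :=
    ((Commute.ofNat_right _ 2).mul_right (inv_J T).c0.symm).mul_right
      ((((hc _).add_right (Commute.ofNat_right _ 4)).mul_right (inv_J T).cW.symm).sub_right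
        ((Commute.refl _).mul_right (Commute.refl _)))
  have a2 : Commute (xJ.ev v) (4 * xW.ev v) :=
    (Commute.ofNat_right _ 4).mul_right (inv_J T).cW.symm
  rw [id_D T, mul_add, add_mul _ _ (xJ.ev v), a1.eq, ← mul_assoc (xJ.ev v), a2.eq, xY, ev_com]
  noncomm_ring

theorem id_DY : xD.ev v * xY.ev v - xY.ev v * xD.ev v
    = 8 * (v 0 * v 0) * (xJ.ev v * (xJ.ev v * xJ.ev v - (xc.ev v + 4) * xW.ev v)) := by
  have hD : xJ.ev v * xY.ev v - xY.ev v * xJ.ev v = xD.ev v := rfl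
  have h1 := id_D T
  have h2 := id_CY T
  have b1 := (inv_Y T).c0.eq
  have b2 := (inv_Y T).cW.eq
  have b3 := (hc (xY.ev v)).eq
  have b4 := (inv_J T).c0.eq
  have b5 := (inv_J T).cW.eq
  have b6 := (hc (xJ.ev v)).eq
  have b7 := (inv_W T).c0.eq
  generalize xJ.ev v = J at *
  generalize xY.ev v = Y at *
  generalize xD.ev v = D at *
  generalize xC.ev v = C at *
  generalize xW.ev v = W at *
  generalize xc.ev v = c at *
  generalize v 0 = β at *
  have e1 : Y * (2 * β * ((c + 4) * W - J * J) + 4 * W * C)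
      = 2 * β * ((c + 4) * W * Y - Y * (J * J)) + 4 * W * (Y * C) := by
    have : Y * (2 * β * ((c + 4) * W - J * J) + 4 * W * C)
        = 2 * (Y * β) * ((c + 4) * W - J * J) + 4 * (Y * W) * C := by noncomm_ring
    rw [this, ← b1, ← b2]
    have : 2 * (β * Y) * ((c + 4) * W - J * J)
        = 2 * β * (((Y * c) * W + 4 * (Y * W)) - Y * (J * J)) := by noncomm_ring
    rw [this, b3, mul_assoc c Y, ← b2]; noncomm_ring
  have e2 : D * Y - Y * D = -(2 * β * (J * D + D * J)) + 4 * W * (C * Y - Y * C) := by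
    conv_lhs => rw [h1, e1]
    rw [← hD]; noncomm_ring
  have e3 : J * D + D * J = 4 * β * (J * ((c + 4) * W - J * J)) + 4 * W * (J * C + C * J) := by
    rw [h1]
    have : J * (2 * β * ((c + 4) * W - J * J) + 4 * W * C)
        + (2 * β * ((c + 4) * W - J * J) + 4 * W * C) * J
        = 2 * (J * β) * ((c + 4) * W - J * J) + 4 * (J * W) * C
          + 2 * β * (c * (W * J) + 4 * (W * J) - J * J * J) + 4 * W * C * J := by noncomm_ring
    have h4 : J * ((c + 4) * W - J * J) = J * c * W + 4 * (J * W) - J * J * J := by noncomm_ring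
    have h5 : 2 * (β * J) * ((c + 4) * W - J * J) = 2 * β * (J * ((c + 4) * W - J * J)) := by
      noncomm_ring
    rw [this, ← b4, h5, h4, b5, ← mul_assoc c, ← b6, ← b5]
    noncomm_ring
  rw [e2, e3, h2]
  have : 4 * W * (2 * β * (J * C + C * J)) = 8 * (W * β) * (J * C + C * J) := by noncomm_ring
  rw [this, ← b7]; noncomm_ring

end Id

section Rep
variable {A : Type} [Ring A] {w : ℕ → A} (T : Tab wC wB w)
include T

theorem tab_rho : Tab spC spB fun i => (rho i).ev w := by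
  intro i hi j hj
  have : ∀ i < 10, ∀ j < i, (nf wC wB ((rho i).com (rho j) - linE rho (spB i j))).isEmpty = true := by
    decide +kernel
  have h := ev_eq T (this i hi j hj)
  rw [ev_com, ev_linE] at h
  rw [h, spC]; simp

theorem rho_c : (xc.ev fun i => (rho i).ev w) = w 0 * w 0 - 4 * w 0 + w 1 * w 1 - 2 * w 1 := by
  rw [← ev_subst]
  exact ev_eq T (b := g 0 * g 0 - 4 * g 0 + g 1 * g 1 - 2 * g 1) (by decide +kernel)
    |>.trans (by simp)

theorem rho_Q : (xQ.ev fun i => (rho i).ev w) = 4 * ((w 0 + w 1 - 3) * (w 0 + w 1 - 3) - 1)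
    * ((w 0 - w 1 - 1) * (w 0 - w 1 - 1) - 1) * ((g 0 * xW * (g 0 * xW)).ev fun i => (rho i).ev w) := by
  rw [← ev_subst, ← ev_subst]
  exact ev_eq T (b := 4 * ((g 0 + g 1 - 3) * (g 0 + g 1 - 3) - 1)
    * ((g 0 - g 1 - 1) * (g 0 - g 1 - 1) - 1) * (g 0 * xW * (g 0 * xW)).subst rho)
    (by decide +kernel) |>.trans (by simp)

end Rep

end Pool.Agent.Lib.MP_75bae7_al
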