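import Pool.Agent.Lib.MP_75bae7_al.Sys
import Pool.Agent.Lib.MP_75bae7_al.Sp4
import Pool.Agent.Lib.MP_75bae7_al.Lie

-- part Pool.Agent.Lib.MP_75bae7_al.SysP
section

/-!
The reduced system in characteristic `p`: description of the centre.
-/

set_option autoImplicit false
set_option linter.unusedSectionVars false

namespace Pool.Agent.Lib.MP_75bae7_al

open Polynomial

/-- the family `e` generates the skew field over `k` -/
def Gen (k : Type) {D ι : Type} [Field k] [DivisionRing D] [Algebra k D] (e : ι → D) : Prop :=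
  ∀ T : Subring D, (∀ c : k, algebraMap k D c ∈ T) → (∀ x ∈ T, x⁻¹ ∈ T) → (∀ i, e i ∈ T) →
    ∀ x, x ∈ T

theorem Gen.central {k D ι : Type} [Field k] [DivisionRing D] [Algebra k D] {e : ι → D}
    (hg : Gen k e) {x : D} (h : ∀ i, Commute x (e i)) : ∃ z : Ctr D, algebraMap (Ctr D) D z = x := by
  refine Ctr.exists_eq x fun y => ?_
  have := hg (Subring.centralizer {x}) (fun c => by
      rw [Subring.mem_centralizer_iff]; rintro _ rfl; exact (Algebra.commutes _ _).symm)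
    (fun u hu => by
      rw [Subring.mem_centralizer_iff] at hu ⊢
      rintro _ rfl
      exact (Commute.inv_right₀ (hu _ rfl)).eq)
    (fun i => by rw [Subring.mem_centralizer_iff]; rintro _ rfl; exact (h i).eq) y
  exact Subring.mem_centralizer_iff.1 this x rfl

theorem sc_algebraMap {Z A : Type} [CommRing Z] [Ring A] [Algebra Z A] (z : Z) :
    sc (algebraMap Z A z) = algebraMap Z (M2 A) z := by
  apply m2_ext <;> simp [Matrix.algebraMap_matrix_apply]

/-- matrices commuting with the four pairs -/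
def CC {A : Type} [Ring A] (e : Fin 10 → A) (M : M2 A) : Prop :=
  ∀ j < 4, Commute M (th e j) ∧ Commute M (gg e j)

theorem CC.mul {A : Type} [Ring A] {e : Fin 10 → A} {M N : M2 A} (hM : CC e M) (hN : CC e N) :
    CC e (M * N) := fun j hj => ⟨(hM j hj).1.mul_left (hN j hj).1, (hM j hj).2.mul_left (hN j hj).2⟩

theorem CC.add {A : Type} [Ring A] {e : Fin 10 → A} {M N : M2 A} (hM : CC e M) (hN : CC e N) :
    CC e (M + N) := fun j hj => ⟨(hM j hj).1.add_left (hN j hj).1, (hM j hj).2.add_left (hN j hj).2⟩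

theorem halve {E D : Type} [Field E] [DivisionRing D] [Algebra E D] (A : Subalgebra E (M2 D))
    [Module.Finite E A] {W : D} (hW : W ≠ 0) (hw : qm W 0 1 ∈ A)
    (hgen : ∀ T : Subalgebra E D, (∀ x ∈ T, x⁻¹ ∈ T) →
      (∀ M ∈ A, M 0 1 = 0 → M 1 0 = 0 → M 0 0 ∈ T) → ∀ x, x ∈ T) :
    Module.Finite E D ∧ 2 * Module.finrank E D ≤ Module.finrank E A := by
  let P : Submodule E (M2 D) :=
    { carrier := {M | M ∈ A ∧ M 0 1 = 0 ∧ M 1 0 = 0}
      add_mem' := fun ha hb => ⟨A.add_mem ha.1 hb.1, by simp [ha.2.1, hb.2.1],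
        by simp [ha.2.2, hb.2.2]⟩
      zero_mem' := ⟨A.zero_mem, rfl, rfl⟩
      smul_mem' := fun c _ ha => ⟨A.smul_mem ha.1 c, by simp [ha.2.1], by simp [ha.2.2]⟩ }
  have hPA : P ≤ Subalgebra.toSubmodule A := fun M hM => hM.1
  have : Module.Finite E (Subalgebra.toSubmodule A) := ‹Module.Finite E A›
  have : Module.Finite E P := Submodule.finiteDimensional_of_le hPA
  let ev : M2 D →ₗ[E] D := Matrix.entryLinearMap E D 0 0
  let T : Subalgebra E D := (P.map ev).toSubalgebra ⟨1, ⟨A.one_mem, by simp, by simp⟩, by simp [ev]⟩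
    (by
      rintro _ _ ⟨M, hM, rfl⟩ ⟨N, hN, rfl⟩
      refine ⟨M * N, ⟨A.mul_mem hM.1 hN.1, ?_, ?_⟩, ?_⟩
      · simp [m2_mul, hM.2.1, hN.2.1]
      · simp [m2_mul, hM.2.2, hN.2.2]
      · simp [ev, m2_mul, hM.2.1])
  have hT : Module.Finite E T := inferInstanceAs (Module.Finite E (P.map ev))
  have htop : P.map ev = ⊤ := by
    rw [eq_top_iff]
    intro x _
    refine hgen T (fun x hx => ?_) (fun M h1 h2 h3 => ⟨M, ⟨h1, h2, h3⟩, rfl⟩) x
    by_cases h0 : x = 0
    · rw [h0, inv_zero]; exact T.zero_mem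
    · exact inv_mem_of_finite T hx (inv_mul_cancel₀ h0)
  have h1 : Module.Finite E D := by
    rw [Module.finite_def, ← htop]
    exact Submodule.FG.map _ (Module.Finite.iff_fg.1 inferInstance)
  refine ⟨h1, ?_⟩
  have h2 : Module.finrank E D ≤ Module.finrank E P := by
    rw [← finrank_top E D, ← htop]; exact Submodule.finrank_map_le _ _
  let f : P × P →ₗ[E] A := LinearMap.codRestrict (Subalgebra.toSubmodule A)
    (P.subtype.coprod (LinearMap.mulLeft E (qm W 0 1) ∘ₗ P.subtype))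
    (fun x => A.add_mem x.1.2.1 (A.mul_mem hw x.2.2.1))
  have hf : Function.Injective f := by
    rw [injective_iff_map_eq_zero]
    rintro ⟨M, N⟩ h
    have h3 : (M : M2 D) + qm W 0 1 * N = 0 := congrArg Subtype.val h
    have a00 := congrFun (congrFun h3 0) 0
    have a01 := congrFun (congrFun h3 0) 1
    have a10 := congrFun (congrFun h3 1) 0
    have a11 := congrFun (congrFun h3 1) 1
    simp [m2_mul, M.2.2.1, M.2.2.2, N.2.2.1, N.2.2.2, hW] at a00 a01 a10 a11
    ext1 <;> apply Subtype.ext <;> apply m2_ext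
    exacts [a00, M.2.2.1, M.2.2.2, a11, a10, N.2.2.1, N.2.2.2, a01]
  have h3 := LinearMap.finrank_le_finrank_of_injective hf
  rw [Module.finrank_prod] at h3
  omega

theorem adjoin_sq {E R : Type} [Field E] [Ring R] [Algebra E R] {T : R} {s : E}
    (h : T * T = algebraMap E R s) : Module.Finite E (Algebra.adjoin E {T}) ∧
      Module.finrank E (Algebra.adjoin E {T}) ≤ 2 := by
  have hle : Subalgebra.toSubmodule (Algebra.adjoin E {T})
      ≤ Submodule.span E (Set.range ![1, T]) := by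
    intro x hx
    rw [Submodule.mem_span_range_iff_exists_fun]
    induction hx using Algebra.adjoin_induction with
    | mem x hx => exact ⟨![0, 1], by simp [hx.symm]⟩
    | algebraMap r => exact ⟨![r, 0], by simp [Algebra.algebraMap_eq_smul_one]⟩
    | add x y _ _ hx hy =>
      obtain ⟨a, rfl⟩ := hx
      obtain ⟨b, rfl⟩ := hy
      exact ⟨a + b, by simp [add_smul]; abel⟩
    | mul x y _ _ hx hy =>
      obtain ⟨a, rfl⟩ := hx
      obtain ⟨b, rfl⟩ := hy
      refine ⟨![a 0 * b 0 + a 1 * b 1 * s, a 0 * b 1 + a 1 * b 0], ?_⟩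
      simp only [Fin.sum_univ_two, Matrix.cons_val_zero, Matrix.cons_val_one, add_mul, mul_add,
        smul_mul_assoc, mul_smul_comm, h, one_mul, mul_one, Algebra.algebraMap_eq_smul_one]
      module
  have : Module.Finite E (Submodule.span E (Set.range ![1, T])) :=
    Module.Finite.span_of_finite E (Set.finite_range _)
  refine ⟨Submodule.finiteDimensional_of_le hle, (Submodule.finrank_mono hle).trans ?_⟩
  exact finrank_range_le_card (R := E) ![1, T]

namespace Sys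
variable {k D : Type} [Field k] [DivisionRing D] [Algebra k D] {e : Fin 10 → D} (S : Sys e)
include S

theorem unit_ap (hψ : psi e ≠ 0) : IsUnit (ap e) := by
  have h1 : ap e * (am e * (am e * ap e) * sc (psi e)⁻¹) = 1 := by
    rw [← mul_assoc, ← mul_assoc, S.psi_eq.1, ← map_mul, mul_inv_cancel₀ hψ, map_one]
  have h2 : (sc (psi e)⁻¹ * (ap e * am e) * am e) * ap e = 1 := by
    rw [mul_assoc, mul_assoc, S.psi_eq.1, ← map_mul, inv_mul_cancel₀ hψ, map_one]
  exact ⟨⟨_, _, h1, by rw [← left_inv_eq_right_inv h2 h1]; exact h2⟩, rfl⟩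

omit S in
theorem ww_sq : ww e * ww e = sc (e 5) := by
  rw [ww, qm_mul _ _ (Commute.zero_left _) (Commute.one_left _), sc_eq (e 5)]; simp

theorem units (h1 : e 1 ≠ 0) (h3 : e 3 ≠ 0) (h5 : e 5 ≠ 0) (hψ : psi e ≠ 0) :
    ∀ j < 4, IsUnit (gg e j) := by
  intro j hj
  interval_cases j
  · exact h1.isUnit.map sc
  · exact h3.isUnit.map sc
  · exact (isUnit_mul_self_iff.1 (ww_sq (e := e) ▸ h5.isUnit.map sc) : IsUnit (ww e))
  · exact S.unit_ap hψ

variable (hg : Gen k e) (hψ : psi e ≠ 0) (h2 : (2 : D) ≠ 0)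
include hg hψ

theorem CC_cj {M : M2 D} (hM : CC e M) : CC e (cj M) := by
  obtain ⟨g1, hg1⟩ := hg.central (fun i => S.c 9 i (by revert i; decide))
  obtain ⟨g2, hg2⟩ := hg.central S.gam2_comm
  have h1 : Commute M (am e) := by
    have a1 : Commute M (tt e) := (hM 3 (by norm_num)).1
    have a2 : Commute M (ap e) := (hM 3 (by norm_num)).2
    have a3 : Commute M (ap e * am e) := by
      have a4 := (a1.pow_right 2).sub_right a1
      rw [S.ap_am, Gq, ← hg2, ← hg1, sc_algebraMap, sc_algebraMap]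
      exact ((a4.pow_right 2).sub_right ((Algebra.commute_algebraMap_right _ _).mul_right
        a4)).add_right (Algebra.commute_algebraMap_right _ _)
    apply (S.unit_ap hψ).mul_left_cancel
    rw [← mul_assoc, ← a2.eq, mul_assoc, a3.eq, mul_assoc]
  intro j hj
  have a := (hM j hj).1.map cj
  have b := (hM j hj).2.map cj
  interval_cases j
  · exact ⟨by rwa [th, cj_sc] at a, by rwa [gg, cj_sc] at b⟩
  · exact ⟨by rwa [th, cj_sc] at a, by rwa [gg, cj_sc] at b⟩
  · refine ⟨by rwa [th, show cj (HH e) = HH e by apply m2_ext <;> simp [HH]] at a, ?_⟩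
    rw [gg, ww, cj_qm0] at b
    have := b.neg_right
    rwa [neg_neg] at this
  · have c := h1.map cj
    rw [cj_am] at c
    change Commute _ (cj (tt e)) at a
    rw [cj_tt] at a
    have := a.neg_right
    rw [neg_neg] at this
    exact ⟨this, c⟩

include h2

theorem CC_central {M : M2 D} (hM : CC e M) : ∃ z : Ctr D, algebraMap (Ctr D) D z = M 0 0 := by
  obtain ⟨g1, hg1⟩ := hg.central (fun i => S.c 9 i (by revert i; decide))
  have h1 := hM.add (S.CC_cj hg hψ hM)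
  rw [(eq_qm (hM 2 (by norm_num)).2).1, cj_qm, qm_add, add_neg_cancel, ← sc_eq, ← two_mul] at h1
  refine hg.central fun i => ?_
  have : Commute (2 * M 0 0) (e i) := by
    fin_cases i
    exacts [commute_sc.1 (h1 0 (by norm_num)).1 0 0, commute_sc.1 (h1 0 (by norm_num)).2 0 0,
      commute_sc.1 (h1 1 (by norm_num)).1 0 0, commute_sc.1 (h1 1 (by norm_num)).2 0 0,
      commute_sc.1 (h1 2 (by norm_num)).1 0 0,
      by simpa [gg, ww] using commute_sc.1 (h1 2 (by norm_num)).2 0 1,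
      commute_sc.1 (h1 3 (by norm_num)).1 1 0, commute_sc.1 (h1 3 (by norm_num)).2 1 0,
      commute_sc.1 (h1 3 (by norm_num)).2 0 0,
      by change Commute _ (e 9); rw [← hg1]; exact Algebra.commute_algebraMap_right _ _]
  apply mul_left_cancel₀ h2
  rw [← mul_assoc, this.eq, ← mul_assoc, ← mul_assoc, (Commute.ofNat_right (e i) 2).eq]

end Sys

theorem Pairs.cen {R : Type} [Ring R] (Z : Type) [Field Z] [Algebra Z R] {p : ℕ} [Fact p.Prime]
    [CharP Z p] {n : ℕ} {θ g : ℕ → R} (h : Pairs n θ g) {i : ℕ} (hi : i < n) {j : ℕ} (hj : j < n) :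
    (Commute (θ i ^ p - θ i) (θ j) ∧ Commute (θ i ^ p - θ i) (g j)) ∧
      (Commute (g i ^ p) (θ j) ∧ Commute (g i ^ p) (g j)) := by
  refine ⟨⟨((h.tt i hi j hj).pow_left p).sub_left (h.tt i hi j hj), ?_⟩, ?_,
    (h.gg i hi j hj).pow_left p⟩
  · by_cases hij : i = j
    · subst hij; exact shift_AS Z (h.shift i hi)
    · exact ((h.tg i hi j hj hij).pow_left p).sub_left (h.tg i hi j hj hij)
  · by_cases hij : j = i
    · subst hij; exact shift_pow_p Z (h.shift j hj)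
    · exact (h.tg j hj i hi hij).symm.pow_left p

theorem Sys.center_data {k D : Type} [Field k] [DivisionRing D] [Algebra k D] {e : Fin 10 → D}
    (S : Sys e) {p m : ℕ} (hpm : p = 2 * m + 1) [hp : Fact p.Prime] [CharP k p] (hg : Gen k e)
    (h1 : e 1 ≠ 0) (h3 : e 3 ≠ 0) (h5 : e 5 ≠ 0) (hψ : psi e ≠ 0) {g1 g2 : Ctr D}
    (hg1 : algebraMap _ D g1 = e 9) (hg2 : algebraMap _ D g2 = gam2 e) {r : ℕ}
    (hr : Module.finrank (Ctr D) D = p ^ (2 * r)) :
    r = 4 ∧ ∃ (t : Fin 5 → Ctr D) (J s Δ η W : Ctr D),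
      (∀ E : Subfield (Ctr D), (∀ c : k, algebraMap k (Ctr D) c ∈ E) → g1 ∈ E → g2 ∈ E →
        (∀ i, t i ∈ E) → J ∈ E → s ∈ E → Δ ∈ E → η ∈ E → ∀ x, x ∈ E) ∧ s ≠ 0 ∧ W ≠ 0 ∧
      Δ ^ 2 - s * η ^ 2 = s ^ 2 - cc1 p g1 g2 * s + cc2 p g1 g2 ∧
      J ^ 2 = s * W ∧ algebraMap _ D W = e 5 ^ p ∧
      algebraMap _ D s = (ss e ^ m - 1) * (ss e ^ m - 1) * ss e ∧
      algebraMap _ D (η * s) = (ap e ^ p * TT e p) 0 0 ∧
      algebraMap _ D (s * Δ) = (TT e p * ap e ^ p * TT e p) 0 0 := by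
  classical
  have cZ : CharP (Ctr D) p := charP_of_injective_algebraMap (algebraMap k (Ctr D)).injective p
  have hp3 : 3 ≤ p := by have := hp.out.two_le; omega
  have h2Z : (2 : Ctr D) ≠ 0 := by
    intro h0
    have := Nat.le_of_dvd two_pos ((CharP.cast_eq_zero_iff (Ctr D) p 2).1 (by exact_mod_cast h0))
    omega
  have h2 : (2 : D) ≠ 0 := by
    have := (map_ne_zero (algebraMap (Ctr D) D)).2 h2Z
    rwa [map_ofNat] at this
  have fin : Module.Finite (Ctr D) D := Module.finite_of_finrank_pos (by rw [hr]; positivity)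
  have P := S.pairs
  have hu := S.units h1 h3 h5 hψ
  have cθ : ∀ i < 4, CC e (th e i ^ p - th e i) := fun i hi j hj => (P.cen (Ctr D) hi hj).1
  have cg : ∀ i < 4, CC e (gg e i ^ p) := fun i hi j hj => (P.cen (Ctr D) hi hj).2
  have inj : Function.Injective (algebraMap (Ctr D) (M2 D)) := (algebraMap (Ctr D) (M2 D)).injective
  have r4 : 4 ≤ r := by
    have a1 := P.le_finrank (Z := Ctr D) (p := p) hu
    rw [Module.finrank_matrix, hr] at a1
    by_contra hc
    have a2 : p ^ (2 * r) ≤ p ^ 6 := Nat.pow_le_pow_right (by omega) (by omega)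
    have a3 : 0 < p ^ 6 := by positivity
    have a4 : p ^ (2 * 4) = p * p * p ^ 6 := by ring
    simp only [Fintype.card_fin] at a1
    nlinarith [Nat.mul_le_mul hp3 hp3]
  set T := TT e p with hT
  have cT : CC e T := cθ 3 (by norm_num)
  obtain ⟨s, hs⟩ := S.CC_central hg hψ h2 (cT.mul cT)
  rw [hT, hpm, S.TT_sq, sc00] at hs
  have hTT : T * T = algebraMap (Ctr D) (M2 D) s := by
    rw [hT, hpm, S.TT_sq, ← sc_algebraMap, hs]
  have hind : ∀ G : (Ctr D)[X], G.degree < p → aeval (tt e) G = 0 → G = 0 := fun G a1 a2 =>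
    poly_indep (p := p) (v := fun _ : Unit => (1 : M2 D)) (by simp) S.tt_ap (S.unit_ap hψ)
      (fun _ => Commute.one_left _) p le_rfl (fun _ => G) (fun _ => a1) (by simpa using a2) ()
  have hs0 : s ≠ 0 := by
    intro h0
    rw [h0, map_zero] at hs
    have a1 : ss e ^ m - 1 ≠ 0 := by
      intro h
      have := hind (X ^ (2 * m) - C 1) (by
        rw [degree_X_pow_sub_C (by omega)]; exact_mod_cast (by omega : 2 * m < p)) (by
        rw [map_sub, map_pow, aeval_X, pow_mul, S.tt_sq, ← map_pow, sub_eq_zero.1 h]; simp)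
      exact X_pow_sub_C_ne_zero (by omega) _ this
    have a2 : e 6 ≠ 0 := by
      intro h
      exact X_ne_zero (hind X (by rw [degree_X]; exact_mod_cast hp.out.one_lt) (by
        rw [aeval_X, tt, h, ← sc_eq, map_zero]))
    exact mul_ne_zero (mul_ne_zero a1 a1) (mul_ne_zero (mul_ne_zero a2 a2) h5) hs.symm
  have dec : ∀ M, CC e M → ∃ x y : Ctr D, M = algebraMap _ _ x + algebraMap _ _ y * T ∧
      algebraMap _ D x = M 0 0 ∧ algebraMap _ D (y * s) = (M * T) 0 0 := by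
    intro M hM
    obtain ⟨x, hx⟩ := S.CC_central hg hψ h2 hM
    obtain ⟨ξ, hξ⟩ := S.CC_central hg hψ h2 (hM.mul cT)
    have a1 : (M - algebraMap _ _ x) * T = algebraMap _ _ ξ := by
      rw [← sc_algebraMap, ← sc_algebraMap, hx, hξ, hT, hpm, S.TT_eq,
        (eq_qm (hM 2 (by norm_num)).2).1, qm00, sc_eq (e 5), qm_sub,
        qm_mul _ _ (Commute.zero_left _) (S.tau_W m), qm_mul _ _ (Commute.zero_left _) (S.tau_W m),
        sc_eq (e 5)]
      simp
    refine ⟨x, ξ / s, ?_, hx, by rw [div_mul_cancel₀ _ hs0, hξ]⟩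
    have a2 : (M - algebraMap _ _ x) * algebraMap (Ctr D) (M2 D) s = algebraMap _ _ ξ * T := by
      rw [← hTT, ← mul_assoc, a1]
    rw [← sub_eq_iff_eq_add', div_eq_inv_mul, map_mul, mul_assoc, ← a2, ← Algebra.commutes,
      ← mul_assoc, ← map_mul, inv_mul_cancel₀ hs0, map_one, one_mul]
  obtain ⟨Δ, η, ea, hΔ, hη⟩ := dec _ (cg 3 (by norm_num))
  change ap e ^ p = _ at ea
  change _ = (ap e ^ p * T) 0 0 at hη
  obtain ⟨x, j, ew, hx, -⟩ := dec _ (cg 2 (by norm_num))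
  change ww e ^ p = _ at ew
  have hwp : ww e ^ p = qm (e 5) 0 (e 5 ^ m) := by
    rw [hpm, pow_succ, pow_mul, sq, Sys.ww_sq, ← map_pow, ww, sc_mul_qm]; simp
  have hx0 : x = 0 := by
    change _ = (ww e ^ p) 0 0 at hx
    rw [hwp, qm00, map_eq_zero] at hx; exact hx
  rw [hx0, map_zero, zero_add] at ew
  have hW : algebraMap _ D (j ^ 2 * s) = e 5 ^ p := by
    have a1 : (ww e * ww e) ^ p = algebraMap _ _ (j ^ 2 * s) := by
      rw [(Commute.refl _).mul_pow, ew, map_mul, ← hTT, sq, map_mul, mul_assoc,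
        ← mul_assoc T, ← Algebra.commutes, mul_assoc, mul_assoc]
    rw [Sys.ww_sq, ← map_pow, ← sc_algebraMap] at a1
    exact (congrFun (congrFun a1 0) 0).symm
  have sct : ∀ M : M2 D, CC e M → M 1 0 = 0 → ∃ z : Ctr D, M = algebraMap _ _ z := by
    intro M hM h0
    obtain ⟨z, hz⟩ := S.CC_central hg hψ h2 hM
    exact ⟨z, by rw [← sc_algebraMap, hz, sc_eq (e 5), ← h0]; exact (eq_qm (hM 2 (by norm_num)).2).1⟩
  obtain ⟨t0, ht0⟩ := sct _ (cθ 0 (by norm_num)) (by rw [th, ← map_pow, ← map_sub, sc10])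
  obtain ⟨t1, ht1⟩ := sct _ (cg 0 (by norm_num)) (by rw [gg, ← map_pow, sc10])
  obtain ⟨t2, ht2⟩ := sct _ (cθ 1 (by norm_num)) (by rw [th, ← map_pow, ← map_sub, sc10])
  obtain ⟨t3, ht3⟩ := sct _ (cg 1 (by norm_num)) (by rw [gg, ← map_pow, sc10])
  obtain ⟨t4, ht4⟩ := sct _ (cθ 2 (by norm_num)) (by
    have : HH e = Matrix.diagonal ![e 4, e 4 + 1] := by apply m2_ext <;> simp [HH]
    rw [th, this, Matrix.diagonal_pow]; simp)
  have hgen : ∀ E : Subfield (Ctr D), (∀ c : k, algebraMap k (Ctr D) c ∈ E) → g1 ∈ E → g2 ∈ E →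
      (∀ i, ![t0, t1, t2, t3, t4] i ∈ E) → j * s ∈ E → s ∈ E → Δ ∈ E → η ∈ E →
      Module.Finite E D ∧ Module.finrank E D ≤ p ^ 8 := by
    intro E a1 a2 a3 a4 a5 a6 a7 a8
    have : CharP E p := (E.subtype.charP_iff_charP p).2 cZ
    have hj : j ∈ E := by
      have := E.div_mem a5 a6
      rwa [mul_div_cancel_right₀ _ hs0] at this
    obtain ⟨f0, d0⟩ := adjoin_sq (E := E) (s := ⟨s, a6⟩) hTT
    have hA0 : ∀ z ∈ E, algebraMap (Ctr D) (M2 D) z ∈ Algebra.adjoin E {T} := fun z hz =>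
      Subalgebra.algebraMap_mem _ (⟨z, hz⟩ : E)
    have hT0 : T ∈ Algebra.adjoin E {T} := Algebra.subset_adjoin rfl
    obtain ⟨A, fA, dA, leA, mA⟩ := P.exists_subalgebra (p := p) (Algebra.adjoin E {T})
      (fun a ha j hj => ⟨(Algebra.commute_of_mem_adjoin_of_forall_mem_commute ha
          (by rintro _ rfl; exact (cT j hj).1.symm)).symm,
        (Algebra.commute_of_mem_adjoin_of_forall_mem_commute ha
          (by rintro _ rfl; exact (cT j hj).2.symm)).symm⟩)
      (fun i hi => by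
        interval_cases i
        exacts [ht0 ▸ hA0 _ (a4 0), ht2 ▸ hA0 _ (a4 2), ht4 ▸ hA0 _ (a4 4), hT0])
      (fun i hi => by
        interval_cases i
        exacts [ht1 ▸ hA0 _ (a4 1), ht3 ▸ hA0 _ (a4 3),
          (ew ▸ mul_mem (hA0 _ hj) hT0 : ww e ^ p ∈ _),
          (ea ▸ add_mem (hA0 _ a7) (mul_mem (hA0 _ a8) hT0) : ap e ^ p ∈ _)])
    have mw : ww e ∈ A := (mA 2 (by norm_num)).2
    have mt : tt e ∈ A := (mA 3 (by norm_num)).1
    have ma : ap e ∈ A := (mA 3 (by norm_num)).2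
    have mb : am e ∈ A := by
      obtain ⟨u, hu'⟩ := S.unit_ap hψ
      have b1 : (↑u⁻¹ : M2 D) ∈ A := inv_mem_of_finite A ma (by rw [← hu', u.inv_mul])
      have b2 : am e = ↑u⁻¹ * (ap e * am e) := by rw [← hu', u.inv_mul_cancel_left]
      have b3 := A.sub_mem (A.pow_mem mt 2) mt
      rw [b2, S.ap_am, Gq, ← hg2, ← hg1, sc_algebraMap, sc_algebraMap]
      exact A.mul_mem b1 (A.add_mem (A.sub_mem (A.pow_mem b3 2) (A.mul_mem (leA (hA0 _ a2)) b3))
        (leA (hA0 _ a3)))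
    obtain ⟨b1, b2⟩ := halve A h5 mw (fun U hU hM => by
      have hsc : ∀ x, sc x ∈ A → x ∈ U := fun x hx => hM _ hx rfl rfl
      have hZ : ∀ z ∈ E, algebraMap (Ctr D) D z ∈ U := fun z hz => U.algebraMap_mem (⟨z, hz⟩ : E)
      have u5 : e 5 ∈ U := hsc _ (Sys.ww_sq (e := e) ▸ A.mul_mem mw mw)
      have u2 : (2 : D)⁻¹ ∈ U := hU _ (ofNat_mem U 2)
      have key : ∀ b, qm (e 5) 0 b ∈ A → b ∈ U := by
        intro b hb
        have c1 := A.mul_mem hb mw
        rw [ww, qm_mul _ _ (Commute.zero_left _) (Commute.one_left _)] at c1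
        simp only [mul_zero, zero_add, mul_one, ← sc_eq] at c1
        have c2 := U.mul_mem (hsc _ c1) (hU _ u5)
        rwa [mul_inv_cancel_right₀ h5] at c2
      refine hg U.toSubring (fun c => hZ _ (a1 c)) hU fun i => ?_
      fin_cases i
      exacts [hsc _ (mA 0 (by norm_num)).1, hsc _ (mA 0 (by norm_num)).2,
        hsc _ (mA 1 (by norm_num)).1, hsc _ (mA 1 (by norm_num)).2,
        hM _ (mA 2 (by norm_num)).1 rfl rfl, u5, key _ mt,
        by
          have c1 := A.sub_mem ma mb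
          rw [ap, am, qm_sub, sub_self, sub_neg_eq_add, ← two_mul] at c1
          have c2 := U.mul_mem u2 (key _ c1)
          rwa [inv_mul_cancel_left₀ h2] at c2,
        by
          have c1 := A.add_mem ma mb
          rw [ap, am, qm_add, add_neg_cancel, ← two_mul, ← sc_eq] at c1
          have c2 := U.mul_mem u2 (hsc _ c1)
          rwa [inv_mul_cancel_left₀ h2] at c2,
        (hg1 ▸ hZ _ a2 : e 9 ∈ U)])
    refine ⟨b1, ?_⟩
    have : _ ≤ 2 * p ^ 8 := b2.trans (dA.trans (Nat.mul_le_mul_right (p ^ (2 * 4)) d0))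
    omega
  have hgen' : ∀ E : Subfield (Ctr D), (Module.Finite E D ∧ Module.finrank E D ≤ p ^ 8) →
      r = 4 ∧ ∀ x, x ∈ E := by
    rintro E ⟨a1, a2⟩
    have a3 := Module.finrank_mul_finrank E (Ctr D) D
    have a4 : 0 < Module.finrank E D := Module.finrank_pos
    rw [hr] at a3
    have a5 : p ^ 8 ≤ p ^ (2 * r) := Nat.pow_le_pow_right (by omega) (by omega)
    have a6 : 0 < p ^ 8 := by positivity
    have a7 : Module.finrank E (Ctr D) = 1 := by
      rcases Nat.lt_trichotomy (Module.finrank E (Ctr D)) 1 with h | h | h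
      · have : Module.finrank E (Ctr D) = 0 := by omega
        rw [this] at a3; omega
      · exact h
      · nlinarith
    rw [a7, one_mul] at a3
    refine ⟨?_, fun x => ?_⟩
    · have := Nat.pow_right_injective hp.out.two_le (le_antisymm a5 (a3.trans_le a2))
      omega
    · obtain ⟨c, hc⟩ := (finrank_eq_one_iff_of_nonzero' (1 : Ctr D) one_ne_zero).1 a7 x
      rw [← hc, Subfield.smul_def, smul_eq_mul, mul_one]; exact c.2
  refine ⟨(hgen' ⊤ (hgen ⊤ ?_ ?_ ?_ ?_ ?_ ?_ ?_ ?_)).1, ![t0, t1, t2, t3, t4], j * s, s, Δ, η,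
    j ^ 2 * s, fun E a1 a2 a3 a4 a5 a6 a7 a8 => (hgen' E (hgen E a1 a2 a3 a4 a5 a6 a7 a8)).2, hs0,
    ?_, ?_, by ring, hW, hs, hη, ?_⟩
  any_goals simp only [Subfield.mem_top, implies_true]
  · intro h0
    rw [h0, map_zero] at hW
    exact pow_ne_zero _ h5 hW.symm
  · have a1 : ∀ n : ℕ, ap e ^ n * am e ^ n = aeval (tt e) (PiP n g1 g2) := by
      intro n
      induction n with
      | zero => simp [PiP]
      | succ n ih =>
        have b1 := semiconj_aeval (S.ap_pow_tt n)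
          ((X ^ 2 - X) ^ 2 - C g1 * (X ^ 2 - X) + C g2 : (Ctr D)[X])
        rw [pow_succ, pow_succ', mul_assoc, ← mul_assoc (ap e), S.ap_am, ← mul_assoc, PiP,
          Finset.prod_range_succ_comm, map_mul, ← PiP, ← ih, ← mul_assoc]
        congr 1
        rw [Gq, ← hg2, ← hg1, sc_algebraMap, sc_algebraMap]
        simpa using b1
    have a2 : am e ^ p = algebraMap _ _ Δ - algebraMap _ _ η * T := by
      rw [← Sys.cj_ap, ← map_pow, ea, map_add, map_mul, ← sc_algebraMap, ← sc_algebraMap, cj_sc,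
        cj_sc, hT, hpm, S.TT_eq, cj_qm0, mul_neg, ← sub_eq_add_neg]
    have a3 := a1 p
    rw [PiP_eq, a2, ea] at a3
    simp only [map_add, map_sub, map_mul, map_pow, aeval_X, aeval_C] at a3
    change _ = T ^ 4 - _ * T ^ 2 + _ at a3
    rw [show T ^ 4 = (T * T) * (T * T) by noncomm_ring, sq T, hTT] at a3
    apply inj
    simp only [map_add, map_sub, map_mul, sq, ← a3]
    simp only [add_mul, mul_sub, smul_mul_assoc, mul_smul_comm, hTT,
      Algebra.algebraMap_eq_smul_one, one_mul, mul_one]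
    module
  · have a1 : T * ap e ^ p * T = algebraMap _ _ (s * Δ) + algebraMap _ _ (s * η) * T := by
      rw [ea]
      simp only [add_mul, mul_add, smul_mul_assoc, mul_smul_comm, hTT,
        Algebra.algebraMap_eq_smul_one, one_mul, mul_one]
      module
    rw [a1, ← sc_algebraMap, ← sc_algebraMap, hT, hpm, S.TT_eq, sc_mul_qm, Matrix.add_apply, sc00,
      qm00, mul_zero, add_zero]

end Pool.Agent.Lib.MP_75bae7_al
end

-- part Pool.Agent.Lib.MP_75bae7_al.SpD
section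

/-!
The reduced system inside a skew field generated by `sp(4)`.
-/

set_option autoImplicit false
set_option linter.unusedSectionVars false

namespace Pool.Agent.Lib.MP_75bae7_al

theorem comm_field {D : Type} [DivisionRing D] {x y z : D} (hxy : Commute x y) (hxz : Commute x z)
    (hyz : Commute y z) : ∃ (F : Type) (_ : Field F) (φ : F →+* D), (∃ a, φ a = x) ∧
      (∃ a, φ a = y) ∧ (∃ a, φ a = z) ∧ ∀ c, (∀ u, Commute u c) → ∃ a, φ a = c := by
  let S : Subring D := Subring.centralizer (Subring.centralizer {x, y, z} : Subring D)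
  have h1 : ∀ a ∈ ({x, y, z} : Set D), a ∈ S := fun a ha =>
    Subring.mem_centralizer_iff.2 fun u hu => (Subring.mem_centralizer_iff.1 hu a ha).symm
  have h2 : ∀ a ∈ ({x, y, z} : Set D), a ∈ (Subring.centralizer {x, y, z} : Subring D) := by
    intro a ha
    rw [Subring.mem_centralizer_iff]
    intro b hb
    rcases ha with rfl | rfl | rfl <;> rcases hb with rfl | rfl | rfl
    exacts [rfl, hxy.eq.symm, hxz.eq.symm, hxy.eq, rfl, hyz.eq.symm, hxz.eq, hyz.eq, rfl]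
  have h3 : ∀ a ∈ S, a ∈ (Subring.centralizer {x, y, z} : Subring D) := fun a ha =>
    Subring.mem_centralizer_iff.2 fun u hu => Subring.mem_centralizer_iff.1 ha u (h2 u hu)
  have hF : IsField S := ⟨⟨0, 1, zero_ne_one⟩,
    fun a b => Subtype.ext (Subring.mem_centralizer_iff.1 b.2 a (h3 a a.2)),
    fun {a} ha => ⟨⟨(a : D)⁻¹, Subring.mem_centralizer_iff.2 fun u hu =>
      (Commute.inv_right₀ (Subring.mem_centralizer_iff.1 a.2 u hu)).eq⟩,
      Subtype.ext (mul_inv_cancel₀ fun h => ha (Subtype.ext h))⟩⟩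
  exact ⟨S, hF.toField, S.subtype, ⟨⟨x, h1 _ (by simp)⟩, rfl⟩, ⟨⟨y, h1 _ (by simp)⟩, rfl⟩,
    ⟨⟨z, h1 _ (by simp)⟩, rfl⟩,
    fun c hc => ⟨⟨c, Subring.mem_centralizer_iff.2 fun u _ => (hc u).eq⟩, rfl⟩⟩

theorem com_scale {A : Type} [Ring A] {a b x y : A} (h1 : Commute x b) (h2 : Commute y a)
    (h3 : Commute a b) : a * x * (b * y) - b * y * (a * x) = a * b * (x * y - y * x) := by
  rw [mul_assoc a x, ← mul_assoc x, h1.eq, mul_assoc b y, ← mul_assoc y, h2.eq, ← mul_assoc b (a * y),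
    ← mul_assoc b a, ← h3.eq]
  noncomm_ring

/-- numerator of the norm of the quartic -/
def Fpsi {R : Type} [Ring R] (J W a b : R) : R :=
  (J ^ 4 + (1 - a) * (J ^ 2 * W) + b * W ^ 2) ^ 2 - (a * W - 2 * J ^ 2) ^ 2 * J ^ 2 * W

theorem Inv.ca {A : Type} [Ring A] {v : ℕ → A} {x : A} {m n : ℤ} (hx : Inv v x m n) :
    Commute (8 * v 0 * xW.ev v) x :=
  ((Commute.ofNat_left 8 x).mul_left hx.c0).mul_left hx.cW

variable {D : Type} [DivisionRing D] [CharZero D]

/-- the reduced system -/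
noncomputable def ee (v : ℕ → D) : Fin 10 → D :=
  ![(v 0)⁻¹ * v 1 * v 3, (v 0)⁻¹ * v 1, 2⁻¹ * (v 4 - v 5) + (v 0)⁻¹ * v 1 * v 3, v 0,
    v 5 - (v 0)⁻¹ * v 1 * v 3, 4 * xW.ev v, (4 * xW.ev v)⁻¹ * xJ.ev v,
    (8 * v 0 * xW.ev v)⁻¹ * xY.ev v, (8 * v 0 * xW.ev v)⁻¹ * xD.ev v, 2⁻¹ * (xc.ev v + 4)]

variable {v : ℕ → D} (T : Tab spC spB v) (hc : ∀ y, Commute y (xc.ev v)) (h0 : v 0 ≠ 0)
  (hW : xW.ev v ≠ 0)
include T

theorem inv_a : Inv v (8 * v 0 * xW.ev v) 4 2 :=
  ((Inv.of_central fun y => Commute.ofNat_right y 8).mul (inv_b T)).mul (inv_W T)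

omit T in
theorem Inv.c5 {x : D} {m n : ℤ} (hx : Inv v x m n) : Commute (4 * xW.ev v) x :=
  (Commute.ofNat_left 4 x).mul_left hx.cW

theorem inv_5 : Inv v (4 * xW.ev v) 2 2 :=
  (Inv.of_central fun y => Commute.ofNat_right y 4).mul (inv_W T)

include hc h0 hW

theorem sys_ee : Sys (ee v) := by
  have i5 : Inv v (ee v 5) 2 2 := inv_5 T
  have i6 : Inv v (ee v 6) (-1) (-1) := (inv_5 T).inv.mul (inv_J T)
  have i7 : Inv v (ee v 7) (-1) (-1) := (inv_a T).inv.mul (inv_Y T)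
  have i8 : Inv v (ee v 8) 0 0 := (inv_a T).inv.mul (inv_D T)
  have i3 : Inv v (ee v 3) 2 0 := inv_b T
  have c9 : ∀ y, Commute y (ee v 9) := fun y =>
    (Commute.ofNat_right y 2).inv_right₀.mul_right ((hc y).add_right (Commute.ofNat_right y 4))
  have k1 : ∀ {x m n}, Inv v x m n → Commute (ee v 1) x := fun h => h.c0.inv_left₀.mul_left h.c1
  have k0 : ∀ {x m n}, Inv v x m n → Commute (ee v 0) x := fun h => (k1 h).mul_left h.c3
  have k2 : ∀ {x : D} {m n : ℤ}, v 4 * x - x * v 4 = m * x → v 5 * x - x * v 5 = n * x →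
      ee v 2 * x - x * ee v 2 = 2⁻¹ * ((m - n : ℤ) * x) + (ee v 0 * x - x * ee v 0) := by
    intro x m n h1 h2
    change (2⁻¹ * (v 4 - v 5) + ee v 0) * x - x * (2⁻¹ * (v 4 - v 5) + ee v 0) = _
    rw [mul_add, ← mul_assoc x, (Commute.ofNat_right x 2).inv_right₀.eq, Int.cast_sub, sub_mul (m : D),
      ← h1, ← h2]
    noncomm_ring
  have k4 : ∀ {x : D} {n : ℤ}, v 5 * x - x * v 5 = n * x →
      ee v 4 * x - x * ee v 4 = n * x - (ee v 0 * x - x * ee v 0) := by
    intro x n h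
    change (v 5 - ee v 0) * x - x * (v 5 - ee v 0) = _
    rw [← h]; noncomm_ring
  have k2' : ∀ {x m}, Inv v x m m → Commute (ee v 2) x := fun h =>
    sub_eq_zero.1 (by rw [k2 h.w4 h.w5, (k0 h).eq]; simp)
  have k4' : ∀ {x m n}, Inv v x m n → ee v 4 * x - x * ee v 4 = n * x := fun h => by
    rw [k4 h.w5, (k0 h).eq]; simp
  have z4 : v 4 * ee v 1 - ee v 1 * v 4 = (-2 + 1 : ℤ) * ee v 1 :=
    wt_mul (wt_inv (inv_b T).w4) (br41 T)
  have z5 : v 5 * ee v 1 - ee v 1 * v 5 = (-0 + 1 : ℤ) * ee v 1 :=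
    wt_mul (wt_inv (inv_b T).w5) (br51 T)
  have t4 : v 4 * ee v 0 - ee v 0 * v 4 = (-2 + 1 + 1 : ℤ) * ee v 0 := wt_mul z4 (br43 T)
  have t5 : v 5 * ee v 0 - ee v 0 * v 5 = (-0 + 1 + -1 : ℤ) * ee v 0 := wt_mul z5 (br53 T)
  have r01 : ee v 0 * ee v 1 - ee v 1 * ee v 0 = ee v 1 := by
    have a1 : v 3 * ee v 1 - ee v 1 * v 3 = 1 := by
      change v 3 * ((v 0)⁻¹ * v 1) - (v 0)⁻¹ * v 1 * v 3 = 1
      rw [← mul_assoc, (inv_b T).c3.inv_right₀.eq, mul_assoc, mul_assoc, ← mul_sub, br31 T,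
        inv_mul_cancel₀ h0]
    change ee v 1 * v 3 * ee v 1 - ee v 1 * (ee v 1 * v 3) = _
    rw [mul_assoc, ← mul_sub, a1, mul_one]
  have c02 : Commute (ee v 0) (ee v 2) := (sub_eq_zero.1 (by rw [k2 t4 t5]; simp) : Commute _ _).symm
  have c04 : Commute (ee v 0) (ee v 4) := (sub_eq_zero.1 (by rw [k4 t5]; simp) : Commute _ _).symm
  have c12 : Commute (ee v 1) (ee v 2) := (sub_eq_zero.1 (by
    rw [k2 z4 z5, r01, ← mul_assoc]; norm_num) : Commute _ _).symm
  have c14 : Commute (ee v 1) (ee v 4) := (sub_eq_zero.1 (by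
    rw [k4 z5, r01]; simp) : Commute _ _).symm
  have c24 : Commute (ee v 2) (ee v 4) := by
    have a4 : Commute (v 4) (ee v 0) := sub_eq_zero.1 (by rw [t4]; simp)
    have a5 : Commute (v 5) (ee v 0) := sub_eq_zero.1 (by rw [t5]; simp)
    refine Commute.add_left ((Commute.ofNat_left 2 _).inv_left₀.mul_left ?_) c04
    exact ((br54 T).symm.sub_right a4).sub_left ((Commute.refl _).sub_right a5)
  have c34 : Commute (ee v 3) (ee v 4) := (sub_eq_zero.1 (by rw [k4' i3]; simp) : Commute _ _).symm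
  have c48 : Commute (ee v 4) (ee v 8) := sub_eq_zero.1 (by rw [k4' i8]; simp)
  have n4 : (4 : D) * xW.ev v ≠ 0 := mul_ne_zero (by norm_num) hW
  have cω : Commute (4 * xW.ev v)⁻¹ (8 * v 0 * xW.ev v)⁻¹ := (inv_a T).c5.inv_left₀.inv_right₀
  refine ⟨?_, r01, ?_, ?_, ?_, ?_, ?_, ?_, ?_⟩
  · have c03 := k0 i3
    have c05 := k0 i5
    have c06 := k0 i6
    have c07 := k0 i7
    have c08 := k0 i8
    have c13 := k1 i3
    have c15 := k1 i5
    have c16 := k1 i6
    have c17 := k1 i7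
    have c18 := k1 i8
    have c25 := k2' i5
    have c26 := k2' i6
    have c27 := k2' i7
    have c28 := k2' i8
    have c35 : Commute (ee v 3) _ := i5.c0
    have c36 : Commute (ee v 3) _ := i6.c0
    have c37 : Commute (ee v 3) _ := i7.c0
    have c38 : Commute (ee v 3) _ := i8.c0
    have c56 : Commute (ee v 5) _ := i6.c5
    have c57 : Commute (ee v 5) _ := i7.c5
    have c58 : Commute (ee v 5) _ := i8.c5
    have key : ∀ i j : Fin 10, i < j → cmb i j = true → Commute (ee v i) (ee v j) := by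
      intro i j hij h
      fin_cases i <;> fin_cases j <;>
        first | exact absurd hij (by decide) | exact absurd h (by decide) | exact c9 _ | assumption
    intro i j h
    rcases lt_trichotomy i j with hij | rfl | hij
    · exact key i j hij h
    · exact Commute.refl _
    · exact (key j i hij (by revert i j; decide)).symm
  · rw [k2 i3.w4 i3.w5, (k0 i3).eq, ← mul_assoc]; norm_num
  · rw [k4' i5]; simp
  · rw [k4' i6]; simp
  · rw [k4' i7]; simp
  · refine (com_scale (inv_J T).ca.inv_left₀.symm (inv_D T).c5.inv_left₀.symm cω).trans ?_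
    rw [id_JD T hc, cω.eq, mul_assoc, inv_mul_cancel_left₀ n4]; rfl
  · have := com_scale (inv_J T).ca.inv_left₀.symm (inv_Y T).c5.inv_left₀.symm cω
    change (ee v 6 * ee v 7 - ee v 7 * ee v 6) = _ * xD.ev v at this
    rw [this, cω.eq, mul_assoc, show ee v 5 = 4 * xW.ev v from rfl, ← (inv_D T).c5.eq, mul_assoc,
      inv_mul_cancel_left₀ n4]; rfl
  · refine (com_scale (inv_D T).ca.inv_left₀.symm (inv_Y T).ca.inv_left₀.symm
      (Commute.refl _)).trans ?_
    rw [id_DY T hc]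
    change _ = (2 * ((4 * xW.ev v)⁻¹ * xJ.ev v * ((4 * xW.ev v)⁻¹ * xJ.ev v) * (4 * xW.ev v))
      - 2⁻¹ * (xc.ev v + 4)) * ((4 * xW.ev v)⁻¹ * xJ.ev v)
    obtain ⟨F, _, φ, ⟨β, hβ⟩, ⟨W, hW'⟩, ⟨J, hJ⟩, hF⟩ :=
      comm_field (inv_W T).c0 (inv_J T).c0 (inv_J T).cW
    obtain ⟨c, hc'⟩ := hF _ hc
    have := φ.charZero
    rw [← hβ] at h0
    rw [← hW'] at hW
    rw [← hβ, ← hW', ← hJ, ← hc', ← map_ofNat φ 2, ← map_ofNat φ 4, ← map_ofNat φ 8]
    simp only [← map_mul, ← map_inv₀, ← map_add, ← map_sub]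
    congr 1
    rw [map_ne_zero] at h0 hW
    field_simp
    ring

theorem gam2_ee : (8 * v 0 * xW.ev v) * (8 * v 0 * xW.ev v) * gam2 (ee v) = xQ.ev v := by
  have na : 8 * v 0 * xW.ev v ≠ 0 := mul_ne_zero (mul_ne_zero (by norm_num) h0) hW
  have key : ∀ {x : D} {m n : ℤ}, Inv v x m n → (8 * v 0 * xW.ev v) * (8 * v 0 * xW.ev v)
      * ((8 * v 0 * xW.ev v)⁻¹ * x * ((8 * v 0 * xW.ev v)⁻¹ * x)) = x * x := by
    intro x m n hx
    rw [mul_assoc _ x, ← mul_assoc x, ← hx.ca.inv_left₀.eq, mul_assoc, mul_inv_cancel_left₀ na,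
      mul_assoc _ x, mul_inv_cancel_left₀ na]
  rw [gam2, mul_sub, mul_sub, ← mul_assoc _ _ (ee v 5), xQ, ev_sub, ev_sub]
  congr 1
  · congr 1
    · exact key (inv_D T)
    · rw [ev_mul, ev_mul, ev_mul, ev_ofNat]
      exact (congrArg (· * ee v 5) (key (inv_Y T))).trans ((inv_Y T).mul (inv_Y T)).c5.eq.symm
  · have e5 : ee v 5 = 4 * xW.ev v := rfl
    have e6 : ee v 6 = (4 * xW.ev v)⁻¹ * xJ.ev v := rfl
    have e9 : ee v 9 = 2⁻¹ * (xc.ev v + 4) := rfl
    simp only [ss, e5, e6, e9, ev_mul, ev_sub, ev_add, ev_g, ev_ofNat]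
    obtain ⟨F, _, φ, ⟨β, hβ⟩, ⟨W, hW'⟩, ⟨J, hJ⟩, hF⟩ :=
      comm_field (inv_W T).c0 (inv_J T).c0 (inv_J T).cW
    obtain ⟨c, hc'⟩ := hF _ hc
    have := φ.charZero
    rw [← hW'] at hW
    rw [← hβ, ← hW', ← hJ, ← hc', ← map_ofNat φ 2, ← map_ofNat φ 4, ← map_ofNat φ 8]
    simp only [← map_mul, ← map_inv₀, ← map_add, ← map_sub]
    congr 1
    rw [map_ne_zero] at hW
    field_simp
    ring

omit h0 in
theorem psi_ee (hγ : ∀ y, Commute y (gam2 (ee v))) (h : psi (ee v) = 0) :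
    Fpsi (xJ.ev v) (4 * xW.ev v) (ee v 9) (gam2 (ee v)) = 0 := by
  have e5 : ee v 5 = 4 * xW.ev v := rfl
  have e6 : ee v 6 = (4 * xW.ev v)⁻¹ * xJ.ev v := rfl
  have e9 : ee v 9 = 2⁻¹ * (xc.ev v + 4) := rfl
  simp only [psi, ss, e5, e6, e9, Fpsi] at h ⊢
  obtain ⟨F, _, φ, ⟨β, hβ⟩, ⟨W, hW'⟩, ⟨J, hJ⟩, hF⟩ :=
    comm_field (inv_W T).c0 (inv_J T).c0 (inv_J T).cW
  obtain ⟨c, hc'⟩ := hF _ hc
  obtain ⟨γ, hγ'⟩ := hF _ hγ
  have := φ.charZero
  rw [← hW'] at hW
  rw [← hW', ← hJ, ← hc', ← hγ', ← map_ofNat φ 2, ← map_ofNat φ 4] at h ⊢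
  rw [← map_one φ]
  simp only [← map_mul, ← map_inv₀, ← map_add, ← map_sub, ← map_pow, map_eq_zero] at h ⊢
  rw [map_ne_zero] at hW
  field_simp at h ⊢
  linear_combination h

omit hc in
theorem gen_ee {F : Type} [Field F] [Algebra F D] (h1 : v 1 ≠ 0)
    (hg : Gen F fun i : Fin 10 => v i) : Gen F (ee v) := by
  intro U hs hi he
  have can : ∀ {u x : D}, u ∈ U → u ≠ 0 → u * x ∈ U → x ∈ U := fun hu h0 hx => by
    have := U.mul_mem (hi _ hu) hx
    rwa [inv_mul_cancel_left₀ h0] at this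
  have can' : ∀ {u x : D}, u ∈ U → u ≠ 0 → u⁻¹ * x ∈ U → x ∈ U := fun hu h0 hx =>
    can (hi _ hu) (inv_ne_zero h0) hx
  have addc : ∀ {x y : D}, x + y ∈ U → y ∈ U → x ∈ U := fun h1 h2 => by
    simpa using U.sub_mem h1 h2
  have subc : ∀ {x y : D}, x - y ∈ U → y ∈ U → x ∈ U := fun h1 h2 => by
    simpa using U.add_mem h1 h2
  have subc' : ∀ {x y : D}, x - y ∈ U → x ∈ U → y ∈ U := fun h1 h2 => by
    simpa using U.sub_mem h2 h1
  have n2 : (2 : D) ≠ 0 := by norm_num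
  have m0 : v 0 ∈ U := he 3
  have m1 : v 1 ∈ U := can' m0 h0 (he 1)
  have m3 : v 3 ∈ U := can (he 1) (mul_ne_zero (inv_ne_zero h0) h1) (he 0)
  have mW : xW.ev v ∈ U := can (ofNat_mem U 4) (by norm_num) (he 5)
  have m2 : v 2 ∈ U := can m0 h0 (subc' mW (U.mul_mem m1 m1))
  have m5 : v 5 ∈ U := subc (he 4) (he 0)
  have m4 : v 4 ∈ U := subc (can' (ofNat_mem U 2) n2 (addc (he 2) (he 0))) m5
  have mJ : xJ.ev v ∈ U := can' (he 5) (mul_ne_zero (by norm_num) hW) (he 6)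
  have m6 : v 6 ∈ U := can m0 h0 (subc' mJ (U.add_mem (U.mul_mem m1 (U.sub_mem m4 m5))
    (U.mul_mem m2 m3)))
  have mc : xc.ev v ∈ U := addc (can' (ofNat_mem U 2) n2 (he 9)) (ofNat_mem U 4)
  have ma : 8 * v 0 * xW.ev v ∈ U := U.mul_mem (U.mul_mem (ofNat_mem U 8) m0) mW
  have na : 8 * v 0 * xW.ev v ≠ 0 := mul_ne_zero (mul_ne_zero (by norm_num) h0) hW
  have mY : xY.ev v ∈ U := can' ma na (he 7)
  have mD : xD.ev v ∈ U := can' ma na (he 8)
  rw [id_D T, add_comm] at mD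
  have mC : xC.ev v ∈ U := can (he 5) (mul_ne_zero (by norm_num) hW) (addc mD (U.mul_mem
    (U.mul_mem (ofNat_mem U 2) m0) (U.sub_mem (U.mul_mem (U.add_mem mc (ofNat_mem U 4)) mW)
      (U.mul_mem mJ mJ))))
  rw [id_Y T] at mY
  have mB : xB.ev v ∈ U := can m0 h0 (addc (can (ofNat_mem U 2) n2 mY) (U.mul_mem m1 mC))
  have l7 : ∀ i, Nat.blt i 7 = true → v i ∈ U := by
    intro i hi
    rw [Nat.blt_eq] at hi
    interval_cases i <;> assumption
  have m9 : v 9 ∈ U := can mW hW (addc mC (ev_mem U l7 xC' rfl))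
  have m8 : v 8 ∈ U := can mW hW (addc mB (ev_mem U l7 xB' rfl))
  have l9 : ∀ i, (Nat.blt i 7 || Nat.beq i 8 || Nat.beq i 9) = true → v i ∈ U := by
    intro i hi
    simp only [Bool.or_eq_true, Nat.beq_eq] at hi
    rcases hi with (hi | rfl) | rfl
    exacts [l7 i hi, m8, m9]
  have m7 : v 7 ∈ U := can m0 h0 (addc mc (ev_mem U l9 xc' rfl))
  refine hg U hs hi fun i => ?_
  fin_cases i <;> assumption

end Pool.Agent.Lib.MP_75bae7_al
end

-- part Pool.Agent.Lib.MP_75bae7_al.Core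
section

/-!
A Weyl skew field in characteristic 0 is not generated by the reduced system.
-/

set_option autoImplicit false
set_option linter.unusedSectionVars false

namespace Pool.Agent.Lib.MP_75bae7_al

open MvPolynomial

/-- holds for all valuation rings containing a finite set -/
def Ev {F : Type} [Field F] (P : ValuationSubring F → Prop) : Prop :=
  ∃ S : Finset F, ∀ V : ValuationSubring F, (∀ c ∈ S, c ∈ V) → P V

theorem Ev.and {F : Type} [Field F] {P Q : ValuationSubring F → Prop} (hP : Ev P) (hQ : Ev Q) :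
    Ev fun V => P V ∧ Q V := by
  classical
  obtain ⟨S1, h1⟩ := hP
  obtain ⟨S2, h2⟩ := hQ
  exact ⟨S1 ∪ S2, fun V hV => ⟨h1 V fun c hc => hV c (Finset.mem_union_left _ hc),
    h2 V fun c hc => hV c (Finset.mem_union_right _ hc)⟩⟩

theorem Ev.all {F ι : Type} [Field F] [Fintype ι] {P : ι → ValuationSubring F → Prop}
    (hP : ∀ i, Ev (P i)) : Ev fun V => ∀ i, P i V := by
  classical
  choose S hS using hP
  exact ⟨Finset.univ.biUnion S, fun V hV i => hS i V fun c hc =>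
    hV c (Finset.mem_biUnion.2 ⟨i, Finset.mem_univ _, hc⟩)⟩

section Map
variable {A A' : Type} [Ring A] [Ring A'] (φ : A →+* A') (e : Fin 10 → A)

theorem map_ss : φ (ss e) = ss fun i => φ (e i) := by simp [ss]
theorem map_gam2 : φ (gam2 e) = gam2 fun i => φ (e i) := by simp [gam2, map_ss]
theorem map_psi : φ (psi e) = psi fun i => φ (e i) := by simp [psi, map_ss, map_gam2, map_ofNat]
theorem map_ap : φ.mapMatrix (ap e) = ap fun i => φ (e i) := map_qm _ _ _ _
theorem map_TT (p : ℕ) : φ.mapMatrix (TT e p) = TT (fun i => φ (e i)) p := by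
  rw [TT, TT, map_sub, map_pow, tt, map_qm, map_zero]; rfl

theorem gam2_mem (T : Subring A) (h : ∀ i, e i ∈ T) : gam2 e ∈ T := by
  have := map_gam2 T.subtype (fun i => ⟨e i, h i⟩)
  change _ = gam2 e at this
  rw [← this]; exact Subtype.mem _

end Map

theorem WF.central_ctrl {ι κ F D : Type} [DecidableEq ι] [Fintype ι] [Fintype κ] [Field F]
    [CharZero F] [DivisionRing D] [Algebra F D] (w : WF ι κ F D) {u : D}
    (hu : ∀ x, u * x = x * u) : u ∈ w.ctrl (Set.range fun j => w.g (.inr j)) := by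
  have key : ∀ f : MvPolynomial κ F,
      w.Φ (rename Sum.inr f) ∈ w.ctrl (Set.range fun j => w.g (.inr j)) := by
    intro f
    induction f using poly_ind with
    | hC c => rw [rename_C, phi_C w.sys]; exact w.ctrl_scal _ c
    | hadd a b ha hb => rw [map_add, map_add]; exact add_mem ha hb
    | hX a j ha =>
      rw [map_mul, rename_X, phi_left w.sys rfl]
      exact mul_mem (w.ctrl_sub _ ⟨j, rfl⟩) ha
  obtain ⟨f, h, h0, e⟩ := w.center_charZero hu
  have h1 : w.Φ (rename Sum.inr h) ≠ 0 := w.phi_ne_zero fun h2 =>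
    h0 (rename_injective _ Sum.inr_injective (h2.trans (map_zero _).symm))
  rw [(eq_mul_inv_iff_mul_eq₀ h1).2 e]
  exact mul_mem (key f) (w.ctrl_inv _ (key h))

theorem degLT_of_map {σ R R' R'' : Type} [CommRing R] [CommRing R'] [CommRing R''] (φ : R →+* R')
    (hφ : Function.Injective φ) (ψ : R →+* R'') {N : ℕ} {f : MvPolynomial σ R}
    (h : DegLT N (map φ f)) : DegLT N (map ψ f) := by
  intro n hn
  have := h n hn
  rw [coeff_map] at this ⊢
  rw [hφ (this.trans (map_zero φ).symm), map_zero]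

theorem core {ι κ F D : Type} [DecidableEq ι] [Fintype ι] [Fintype κ] [Field F] [CharZero F]
    [DivisionRing D] [Algebra F D] (w : WF ι κ F D) {e : Fin 10 → D} (S : Sys e) (hg : Gen F e)
    (h1 : e 1 ≠ 0) (h3 : e 3 ≠ 0) (h5 : e 5 ≠ 0) (hψ : psi e ≠ 0)
    (hind : ∀ g1 g2 : Ctr D, algebraMap _ D g1 = e 9 → algebraMap _ D g2 = gam2 e →
      AlgebraicIndependent F ![g1, g2]) : False := by
  classical
  obtain ⟨g1, hg1⟩ := hg.central (fun i => S.c 9 i (by revert i; decide))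
  obtain ⟨g2, hg2⟩ := hg.central S.gam2_comm
  have hκ := w.two_le_card _ (hind g1 g2 hg1 hg2)
  obtain ⟨f, h, hh, hW⟩ := w.frac (e 5)
  have hf : f ≠ 0 := by rintro rfl; simp [hW] at h5
  have E1 : Ev fun V => ∀ i, w.nu V (e i) ≤ 1 := Ev.all fun i => by
    by_cases h0 : e i = 0
    · exact ⟨∅, fun V _ => by simp [h0]⟩
    · obtain ⟨S, hS⟩ := w.unit_control h0
      exact ⟨S, fun V hV => (hS V hV).le⟩
  have E2 : Ev fun V => ∀ a, ∀ T : Subring D, w.Closed V T → Set.range e ⊆ T → w.g a ∈ T :=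
    Ev.all fun a => hg (w.ctrl (Set.range e)) (w.ctrl_scal _) (fun x hx => w.ctrl_inv _ hx)
      (fun i => w.ctrl_sub _ ⟨i, rfl⟩) (w.g a)
  obtain ⟨S0, hS0⟩ := (((E1.and E2).and (Ev.and (w.unit_control h1) (w.unit_control h3))).and
    (Ev.and (w.unit_control h5) (w.unit_control hψ))).and
    ((Ev.and (w.unit_control (w.phi_ne_zero hf)) (w.unit_control (w.phi_ne_zero hh))).and
    (Ev.and (w.central_ctrl (u := e 9) (fun x => hg1 ▸ Algebra.commutes g1 x))
      (w.central_ctrl (u := gam2 e) (fun x => hg2 ▸ Algebra.commutes g2 x))))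
  obtain ⟨V, p, hp, hN, hSV, hv⟩ :=
    exists_valuationSubring S0 (max (max f.totalDegree h.totalDegree) 2)
  obtain ⟨⟨⟨⟨v0, vg⟩, v1, v3⟩, v5, vψ⟩, ⟨vf, vh⟩, c1, c2⟩ := hS0 V hSV
  have : Fact p.Prime := ⟨hp⟩
  have := WF.charP_residue hp hv
  have hp2 : p ≠ 2 := by omega
  obtain ⟨m, hpm⟩ := hp.odd_of_ne_two hp2
  let e0 : Fin 10 → w.O V := fun i => ⟨e i, v0 i⟩
  have S1 : Sys e0 := Sys.of_map (w.O V).subtype Subtype.val_injective S
  have S2 := S1.map (w.red V)
  have hO : ∀ T : Subring D, w.Closed V T → (∀ i, e i ∈ T) → w.O V ≤ T := fun T hT hi =>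
    hT.O_le w V fun a => vg a T hT (by rintro _ ⟨i, rfl⟩; exact hi i)
  have hgb : Gen (IsLocalRing.ResidueField V) fun i => w.red V (e0 i) := by
    intro T a1 a2 a3 x
    obtain ⟨x, rfl⟩ := w.red_surjective V x
    obtain ⟨u, hu, e1⟩ := hO _ (w.closed_preimage V T a1 a2) (fun i => ⟨e0 i, a3 i, rfl⟩) x.2
    rw [← Subtype.ext e1]; exact hu
  choose y0 hy0 using fun j => Ctr.exists_eq ((w.wb V).g (.inr j)) ((w.wb V).y_central j)
  choose z hz using fun a => Ctr.exists_eq ((w.wb V).g (.inl a) ^ p) ((w.wb V).pow_central _)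
  let K := IntermediateField.adjoin (IsLocalRing.ResidueField V) (Set.range y0)
  let y : κ → K := fun j => ⟨y0 j, IntermediateField.subset_adjoin _ _ ⟨j, rfl⟩⟩
  have hy : ∀ j, algebraMap (Ctr (w.Db V)) (w.Db V) (algebraMap K _ (y j)) = (w.wb V).g (.inr j) :=
    hy0
  have hKc : ∀ u : w.O V, (∀ T : Subring D, w.Closed V T →
      (Set.range fun j => w.g (.inr j)) ⊆ T → (u : D) ∈ T) →
      ∃ c : K, algebraMap (Ctr (w.Db V)) (w.Db V) (algebraMap K _ c) = w.red V u := by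
    intro u hu
    obtain ⟨u', ⟨c, hc, e2⟩, e1⟩ := hu _ (w.closed_preimage V
      (K.toSubring.map (algebraMap (Ctr (w.Db V)) (w.Db V)))
      (fun c => ⟨_, K.algebraMap_mem c, rfl⟩) (by
        rintro _ ⟨c, hc, rfl⟩
        exact ⟨c⁻¹, K.inv_mem hc, map_inv₀ _ _⟩)) (by
      rintro _ ⟨j, rfl⟩
      exact ⟨w.gO V (.inr j), ⟨y0 j, (y j).2, hy0 j⟩, rfl⟩)
    exact ⟨⟨c, hc⟩, e2.trans (congrArg _ (Subtype.ext e1))⟩
  obtain ⟨γ1, hγ1⟩ := hKc (e0 9) c1
  obtain ⟨γ2, hγ2⟩ := hKc (gam2 e0) (by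
    have := map_gam2 (w.O V).subtype e0
    change (↑(gam2 e0) : D) = gam2 e at this
    rw [this]; exact c2)
  rw [map_gam2] at hγ2
  have hi := (w.wb V).indep_zy y hy z hz
  rw [AlgebraicIndependent.sumElim_iff] at hi
  have n5 : w.red V (e0 5) ≠ 0 := (w.red_ne_zero_iff V _).2 v5
  obtain ⟨hr, t, J, s, Δ, η, W, hgen, hs, hW0, rel, hJ, eW, es, eη, eΔ⟩ := S2.center_data hpm hgb
    ((w.red_ne_zero_iff V _).2 v1) ((w.red_ne_zero_iff V _).2 v3) n5 (by
      rw [← map_psi, w.red_ne_zero_iff]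
      have := map_psi (w.O V).subtype e0
      change (↑(psi e0) : D) = psi e at this
      rw [this]; exact vψ) hγ1 hγ2 ((w.wb V).finrank_center y hy z hz)
  obtain ⟨B, hB, hBK, hBz, spec⟩ := WF.exists_bracket hp hv y hy (fun c => c.2) z hz
  have good : ∀ u : w.O V, (∀ i, ∃ x : w.O V, u * e0 i - e0 i * u = p * x) → w.Good V p u := by
    intro u hu
    refine w.good_of_le V p (hO _ (w.cmt_closed V _ _) fun i => ⟨v0 i, ?_⟩)
    obtain ⟨x, hx⟩ := hu i
    exact w.nu_le_of_eq V p (e := x) (by simpa using congrArg Subtype.val hx)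
  have z0 : ∀ {u : w.O V} {i}, Commute (e0 i) u → ∃ x : w.O V, u * e0 i - e0 i * u = p * x :=
    fun h => ⟨0, by rw [h.eq, sub_self, mul_zero]⟩
  set σ : w.O V := (ss e0 ^ m - 1) * (ss e0 ^ m - 1) * ss e0 with hσ
  have hTT : TT e0 p * TT e0 p = sc σ := by rw [hpm, S1.TT_sq]
  have cσ : ∀ {u : w.O V}, Commute u (ss e0) → Commute u σ := fun h =>
    (((h.pow_right m).sub_right (Commute.one_right _)).mul_right
      ((h.pow_right m).sub_right (Commute.one_right _))).mul_right h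
  have rσ : w.red V σ = algebraMap _ _ s := by
    rw [es, hσ, map_mul, map_mul, map_sub, map_pow, map_one, map_ss]
  have gσ : w.Good V p σ := by
    obtain ⟨M, hM⟩ := S1.br_one hp ⟨m, hpm⟩
    rw [hTT] at hM
    have a0 := congrFun (congrFun hM 0) 0
    have a1 := congrFun (congrFun hM 1) 0
    rw [Matrix.sub_apply, sc_mul_apply, mul_sc_apply, natCast_mul_apply] at a0 a1
    refine good _ fun i => ?_
    fin_cases i
    exacts [z0 (cσ (S1.ss_comm 0 rfl rfl)), z0 (cσ (S1.ss_comm 1 rfl rfl)), z0 (cσ (S1.ss_comm 2 rfl rfl)),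
      z0 (cσ (S1.ss_comm 3 rfl rfl)), z0 (cσ S1.H_ss), z0 (cσ (S1.ss_comm 5 rfl rfl)), z0 (cσ (S1.ss_comm 6 rfl rfl)),
      ⟨_, a1⟩, ⟨_, a0⟩, z0 (cσ (S1.ss_comm 9 rfl rfl))]
  have gW : w.Good V p (e0 5 ^ p) := by
    refine good _ fun i => ?_
    by_cases hi : i = 4
    · subst hi
      have a1 : ∀ n : ℕ, e0 4 * e0 5 ^ n - e0 5 ^ n * e0 4 = n * (2 * e0 5 ^ n) := by
        intro n
        induction n with
        | zero => simp
        | succ n ih =>
          have : e0 4 * e0 5 ^ (n + 1) - e0 5 ^ (n + 1) * e0 4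
              = (e0 4 * e0 5 ^ n - e0 5 ^ n * e0 4) * e0 5
                + e0 5 ^ n * (e0 4 * e0 5 - e0 5 * e0 4) := by rw [pow_succ]; noncomm_ring
          rw [this, ih, S1.r45, pow_succ]; push_cast; noncomm_ring
      exact ⟨-(2 * e0 5 ^ p), by rw [mul_neg, ← a1, neg_sub]⟩
    · exact z0 ((S1.c i 5 (by revert i; decide)).pow_right p)
  have rW : w.red V (e0 5 ^ p) = algebraMap _ _ W := by rw [eW, map_pow]
  have rξ : w.red V ((ap e0 ^ p * TT e0 p) 0 0) = algebraMap _ _ (η * s) := by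
    rw [eη, ← map_ap, ← map_TT, ← map_pow, ← map_mul]; rfl
  have inj := (algebraMap (Ctr (w.Db V)) (w.Db V)).injective
  have cZ : CharP (Ctr (w.Db V)) p :=
    charP_of_injective_algebraMap (algebraMap (IsLocalRing.ResidueField V) _).injective p
  have h2 : (2 : Ctr (w.Db V)) ≠ 0 := by
    intro h0
    have := (CharP.cast_eq_zero_iff (Ctr (w.Db V)) p 2).1 (by exact_mod_cast h0)
    exact hp2 ((Nat.prime_dvd_prime_iff_eq hp Nat.prime_two).1 this)
  have b1 : B s η = -2 * Δ := by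
    obtain ⟨M, hM⟩ := S1.br_p hp
    rw [hTT] at hM
    have a0 := congrFun (congrFun hM 0) 0
    rw [Matrix.sub_apply, sc_mul_apply, mul_sc_apply, natCast_mul_apply] at a0
    have a1 := spec s (η * s) _ _ _ gσ rσ rξ a0
    have a2 : (w.red V).mapMatrix (p : M2 (w.O V)) = 0 := by
      rw [map_natCast]; exact cast_p_eq_zero (IsLocalRing.ResidueField V)
    change _ = (w.red V).mapMatrix _ 0 0 at a1
    rw [map_mul, map_mul, map_add, map_mul, map_mul, a2, zero_mul, add_zero, map_pow, map_ap,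
      map_TT, map_neg, map_ofNat, mul_assoc, mul_assoc, ← mul_assoc (TT _ _), neg_mul,
      Matrix.neg_apply, two_mul, Matrix.add_apply, ← eΔ, ← map_add, ← map_neg] at a1
    have a3 := inj a1
    rw [hB.mul', hB.self h2] at a3
    apply mul_left_cancel₀ hs
    linear_combination a3
  have b2 : B W η = 0 := by
    have a1 := spec W s _ _ 0 gW rW rσ (by
      rw [((cσ (S1.ss_comm 5 rfl rfl)).pow_left p).eq, sub_self, mul_zero])
    have a2 := spec W (η * s) _ _ 0 gW rW rξ (by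
      have c1 : Commute (sc (e0 5)) (tt e0) :=
        commute_sc_qm (Commute.zero_right _) (S1.c 5 6 rfl) (S1.c 5 5 rfl)
      have c2 : Commute (sc (e0 5)) (ap e0 ^ p * TT e0 p) :=
        ((commute_sc_qm (S1.c 5 8 rfl) (S1.c 5 7 rfl) (S1.c 5 5 rfl)).pow_right p).mul_right
          ((c1.pow_right p).sub_right c1)
      rw [((commute_sc.1 c2 0 0).pow_left p).eq, sub_self, mul_zero])
    rw [map_zero, map_eq_zero] at a1 a2
    rw [hB.mul', a1, mul_zero, zero_add] at a2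
    exact (mul_eq_zero.1 a2).resolve_left hs
  rw [w.nu_phi] at vf vh
  obtain ⟨f0, hf0⟩ := exists_lift vf.le
  obtain ⟨h0, hh0⟩ := exists_lift vh.le
  have hu : w.red V (e0 5) * (w.wb V).Φ (map (IsLocalRing.residue V) h0)
      = (w.wb V).Φ (map (IsLocalRing.residue V) f0) := by
    have a1 := w.red_phiO V h0
    have a2 := w.red_phiO V f0
    change _ = (w.wb V).Φ _ at a1 a2
    rw [← a1, ← a2, ← map_mul]
    congr 1
    apply Subtype.ext
    rw [Subring.coe_mul, w.coe_phiO, w.coe_phiO, hf0, hh0]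
    change e 5 * _ = _
    rw [hW, mul_assoc, inv_mul_cancel₀ (w.phi_ne_zero hh), mul_one]
  obtain ⟨G, H, hH, eG, dG, dH⟩ := (w.wb V).norm_bound y hy z hz
    (C0 := max f.totalDegree h.totalDegree)
    (degLT_of_map _ Subtype.val_injective _ (hf0 ▸ (degLT_totalDegree f).mono (by omega)))
    (degLT_of_map _ Subtype.val_injective _ (hh0 ▸ (degLT_totalDegree h).mono (by omega)))
    ((gauss_map_eq_one_iff _).1 (hh0 ▸ vh)) hu eW
  rw [hr] at eG dG dH
  have hzK : AlgebraicIndependent K z := (IntermediateField.algebraicIndependent_adjoin_iff).2 hi.2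
  exact endgame (K := K) hp2 (by simp [hr]) hκ hzK
    (fun c => by
      obtain ⟨a, b, -, e1⟩ := (w.wb V).center_frac y hy z hz c
      exact (IntermediateField.mem_adjoin_range_iff _ _ _).2 ⟨a, b, e1⟩)
    (AlgebraicIndependent.of_comp K.val hi.1) γ1 γ2 t hgen hs hW0
    (by rw [map_cc1, map_cc2]; exact rel) hJ hB hBK hBz b1 b2 (by omega) hH eG dG dH

end Pool.Agent.Lib.MP_75bae7_al
end

-- part Pool.Agent.Lib.MP_75bae7_al.Verma
section

/-!
The enveloping skew field of `sp(4)` is not a Weyl skew field.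
-/

set_option autoImplicit false
set_option linter.unusedSectionVars false

namespace Pool.Agent.Lib.MP_75bae7_al

open MvPolynomial

attribute [local instance 100] LieRing.ofAssociativeRing

/-- the enveloping algebra -/
abbrev UU := UniversalEnvelopingAlgebra ℂ Sp

/-- generators of the enveloping algebra -/
noncomputable def uu (i : ℕ) : UU := UniversalEnvelopingAlgebra.ι ℂ (bS i)

theorem tab_uu : Tab spC spB uu := tab_lieHom _

theorem uu_ind {S A : Type} [Ring A] [Algebra ℂ A] [SetLike S A] [SubringClass S A] (T : S)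
    (f : UU →ₐ[ℂ] A) (hs : ∀ c : ℂ, algebraMap ℂ A c ∈ T) (hg : ∀ i : Fin 10, f (uu i) ∈ T)
    (x : UU) : f x ∈ T := by
  obtain ⟨x, rfl⟩ : ∃ y, UniversalEnvelopingAlgebra.mkAlgHom ℂ Sp y = x := Quot.exists_rep x
  induction x using TensorAlgebra.induction with
  | algebraMap c => rw [AlgHom.commutes, AlgHom.commutes]; exact hs c
  | ι x =>
    change f (UniversalEnvelopingAlgebra.ι ℂ x) ∈ T
    rw [sp_span x, map_sum, map_sum]
    refine sum_mem fun i _ => ?_
    rw [map_smul, map_smul, Algebra.smul_def]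
    exact mul_mem (hs _) (hg i)
  | mul a b ha hb => rw [map_mul, map_mul]; exact mul_mem ha hb
  | add a b ha hb => rw [map_add, map_add]; exact add_mem ha hb

/-- operators on polynomials -/
abbrev EE := Module.End ℂ (MvPolynomial (Fin 4) ℂ)

theorem exists_rho (l1 l2 : ℂ) : ∃ ρ : UU →ₐ[ℂ] EE, ∀ i, ρ (uu i) = (rho i).ev (wop l1 l2) := by
  obtain ⟨φ, hφ⟩ := exists_lieHom (tab_rho (tab_wop l1 l2))
  refine ⟨UniversalEnvelopingAlgebra.lift ℂ φ, fun i => ?_⟩
  rw [uu, UniversalEnvelopingAlgebra.lift_ι_apply]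
  rcases Nat.lt_or_ge i 9 with h | h
  · exact hφ i (by omega)
  · obtain ⟨n, rfl⟩ := Nat.exists_eq_add_of_le' h
    exact hφ 9 (by omega)

/-- pairs related through the enveloping algebra after clearing powers of `t` -/
def RR {U A B : Type} [Ring U] [Ring A] [Ring B] [Algebra ℂ U] [Algebra ℂ A] [Algebra ℂ B]
    (f : U →ₐ[ℂ] A) (ρ : U →ₐ[ℂ] B) (t : U) : Subalgebra ℂ (A × B) where
  carrier := {x | Commute x.1 (f t) ∧ Commute x.2 (ρ t) ∧
    ∃ (n : ℕ) (u : U), f u = x.1 * f t ^ n ∧ ρ u = x.2 * ρ t ^ n}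
  mul_mem' := by
    rintro x y ⟨a1, a2, n, u, a3, a4⟩ ⟨b1, b2, m, v, b3, b4⟩
    refine ⟨a1.mul_left b1, a2.mul_left b2, n + m, u * v, ?_, ?_⟩
    · rw [map_mul, a3, b3, pow_add, mul_assoc, ← mul_assoc (f t ^ n), ← (b1.pow_right n).eq,
        Prod.fst_mul, mul_assoc, mul_assoc]
    · rw [map_mul, a4, b4, pow_add, mul_assoc, ← mul_assoc (ρ t ^ n), ← (b2.pow_right n).eq,
        Prod.snd_mul, mul_assoc, mul_assoc]
  add_mem' := by
    rintro x y ⟨a1, a2, n, u, a3, a4⟩ ⟨b1, b2, m, v, b3, b4⟩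
    refine ⟨a1.add_left b1, a2.add_left b2, n + m, u * t ^ m + v * t ^ n, ?_, ?_⟩
    · rw [map_add, map_mul, map_mul, map_pow, map_pow, a3, b3, mul_assoc, mul_assoc, ← pow_add,
        ← pow_add, add_comm m, Prod.fst_add, add_mul]
    · rw [map_add, map_mul, map_mul, map_pow, map_pow, a4, b4, mul_assoc, mul_assoc, ← pow_add,
        ← pow_add, add_comm m, Prod.snd_add, add_mul]
  algebraMap_mem' c := ⟨Algebra.commutes _ _, Algebra.commutes _ _, 0, algebraMap ℂ U c,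
    by simp, by simp⟩

/-- operators compatible with evaluation at a point -/
def VV (pt : Fin 4 → ℂ) : Subalgebra ℂ (EE × ℂ) where
  carrier := {x | ∀ q, eval pt (x.1 q) = x.2 * eval pt q}
  mul_mem' := fun {x y} hx hy q => by
    rw [Prod.fst_mul, Module.End.mul_apply, hx, hy, Prod.snd_mul, mul_assoc]
  add_mem' := fun {x y} hx hy q => by
    rw [Prod.fst_add, LinearMap.add_apply, map_add, hx, hy, Prod.snd_add, add_mul]
  algebraMap_mem' c q := by simp

theorem Fpsi_mem {R S : Type} [Ring R] [SetLike S R] [SubringClass S R] (T : S) {J W a b : R}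
    (hJ : J ∈ T) (hW : W ∈ T) (ha : a ∈ T) (hb : b ∈ T) : Fpsi J W a b ∈ T :=
  sub_mem (pow_mem (add_mem (add_mem (pow_mem hJ 4) (mul_mem (sub_mem (one_mem T) ha)
    (mul_mem (pow_mem hJ 2) hW))) (mul_mem hb (pow_mem hW 2))) 2)
    (mul_mem (mul_mem (pow_mem (sub_mem (mul_mem ha hW) (mul_mem (ofNat_mem T 2) (pow_mem hJ 2))) 2)
      (pow_mem hJ 2)) hW)

theorem Fpsi_pair {A B S : Type} [Ring A] [Ring B] [SetLike S (A × B)] [SubringClass S (A × B)]
    (R : S) {J W a b : A} {J' W' a' b' : B} (hJ : (J, J') ∈ R) (hW : (W, W') ∈ R)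
    (ha : (a, a') ∈ R) (hb : (b, b') ∈ R) : (Fpsi J (4 * W) a b, Fpsi J' (4 * W') a' b') ∈ R :=
  Fpsi_mem R hJ (mul_mem (ofNat_mem R 4) hW) ha hb

theorem Fpsi_ne {pt : Fin 4 → ℂ} {J W : EE} (hJ : (J, (1 : ℂ)) ∈ VV pt) (hW : (W, (0 : ℂ)) ∈ VV pt) :
    Fpsi J (4 * W) (algebraMap ℂ EE 0) (algebraMap ℂ EE 0) ≠ 0 := by
  intro h
  have b3 := Fpsi_pair (VV pt) hJ hW (a := algebraMap ℂ EE 0) (a' := 0)
    (b := algebraMap ℂ EE 0) (b' := 0) (Subalgebra.algebraMap_mem _ 0) (Subalgebra.algebraMap_mem _ 0)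
  rw [h] at b3
  simpa [Fpsi] using b3 1

theorem no_WF {ι κ D : Type} [DecidableEq ι] [Fintype ι] [Fintype κ] [DivisionRing D]
    [Algebra ℂ D] (w : WF ι κ ℂ D) (f : UU →ₐ[ℂ] D) (hf : Function.Injective f)
    (hfr : ∀ x : D, ∃ a b, x = f a * (f b)⁻¹) : False := by
  have : CharZero D := (RingHom.charZero_iff (algebraMap ℂ D).injective).1 inferInstance
  let v : ℕ → D := fun i => f (uu i)
  have T : Tab spC spB v := tab_lieHom ((f : UU →ₗ⁅ℂ⁆ D).comp (UniversalEnvelopingAlgebra.ι ℂ))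
  have hg : Gen ℂ fun i : Fin 10 => v i := by
    intro U hs hi he x
    obtain ⟨a, b, rfl⟩ := hfr x
    exact U.mul_mem (uu_ind U f hs he a) (hi _ (uu_ind U f hs he b))
  have hc : ∀ y, Commute y (xc.ev v) := by
    obtain ⟨z, hz⟩ := hg.central (fun i => c_comm T i i.2)
    intro y; rw [← hz]; exact Algebra.commute_algebraMap_right _ _
  have hev : ∀ e : Ex, f (e.ev uu) = e.ev v := map_ev f uu
  have nz : ∀ (e : Ex) (ρ : UU →ₐ[ℂ] EE), ρ (e.ev uu) ≠ 0 → e.ev v ≠ 0 := by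
    intro e ρ h h0
    rw [← hev, map_eq_zero_iff _ hf] at h0
    exact h (by rw [h0, map_zero])
  have ml : ∀ q : MvPolynomial (Fin 4) ℂ, q ≠ 0 → (LinearMap.mulLeft ℂ q : EE) ≠ 0 := by
    intro q hq h
    simpa [hq] using LinearMap.congr_fun h 1
  have hδ : (X 1 * X 1 - X 0 * X 2 : MvPolynomial (Fin 4) ℂ) ≠ 0 := by
    intro h
    simpa using congrArg (eval ![0, 1, 0, 0]) h
  have rW : ∀ l1 l2, (xW.ev fun i => (rho i).ev (wop l1 l2))
      = LinearMap.mulLeft ℂ (X 1 * X 1 - X 0 * X 2 : MvPolynomial (Fin 4) ℂ) := by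
    intro l1 l2
    refine LinearMap.ext fun q => ?_
    simp [xW, rho, wop, sub_mul, mul_assoc]
  obtain ⟨ρ0, hρ0⟩ := exists_rho 0 0
  have h0 : v 0 ≠ 0 := nz (.g 0) ρ0 (by rw [ev_g, hρ0]; exact ml _ (X_ne_zero _))
  have h1 : v 1 ≠ 0 := nz (.g 1) ρ0 (by rw [ev_g, hρ0]; exact ml _ (X_ne_zero _))
  have hW : xW.ev v ≠ 0 := nz xW ρ0 (by rw [map_ev, funext hρ0, rW]; exact ml _ hδ)
  have S := sys_ee T hc h0 hW
  have hge := gen_ee T h0 hW h1 hg
  obtain ⟨g2, hg2⟩ := hge.central S.gam2_comm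
  have hγ : ∀ y, Commute y (gam2 (ee v)) := fun y => by
    rw [← hg2]; exact Algebra.commute_algebraMap_right _ _
  have main : ∀ a b : ℂ, ∃ (l1 l2 : ℂ) (R : Subalgebra ℂ (D × EE)), (∀ y, (0, y) ∈ R → y = 0) ∧
      (ee v 9, algebraMap ℂ EE a) ∈ R ∧ (gam2 (ee v), algebraMap ℂ EE b) ∈ R ∧
      (xJ.ev v, xJ.ev fun i => (rho i).ev (wop l1 l2)) ∈ R ∧
      (xW.ev v, xW.ev fun i => (rho i).ev (wop l1 l2)) ∈ R := by
    intro a b
    obtain ⟨μ1, μ2, ha, hb⟩ := exists_mu a b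
    obtain ⟨ρ, hρ⟩ := exists_rho (μ1 + μ2 + 1) (μ1 - μ2 + 1)
    let t : UU := (8 * uu 0 * xW.ev uu) * (8 * uu 0 * xW.ev uu)
    have hρe : ∀ e : Ex, ρ (e.ev uu) = e.ev fun i => (rho i).ev (wop (μ1 + μ2 + 1) (μ1 - μ2 + 1)) :=
      fun e => by rw [map_ev, funext hρ]
    have ht : ρ t = LinearMap.mulLeft ℂ ((8 * X 0 * (X 1 * X 1 - X 0 * X 2)) ^ 2 :
        MvPolynomial (Fin 4) ℂ) := by
      refine LinearMap.ext fun q => ?_
      simp only [t, map_mul, map_ofNat, hρe, rW, hρ]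
      simp only [rho, ev_g, wop, Module.End.mul_apply,
        LinearMap.mulLeft_apply, Module.End.ofNat_apply, nsmul_eq_mul]
      push_cast; ring
    have mem : ∀ e : Ex, Commute t (e.ev uu) → (e.ev v,
        e.ev fun i => (rho i).ev (wop (μ1 + μ2 + 1) (μ1 - μ2 + 1))) ∈ RR f ρ t := by
      intro e he
      rw [← hev, ← hρe]
      exact ⟨he.symm.map f, he.symm.map ρ, 0, e.ev uu, by simp, by simp⟩
    refine ⟨_, _, RR f ρ t, ?_, ?_, ?_, mem _ ((inv_J tab_uu).ca.mul_left (inv_J tab_uu).ca),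
      mem _ ((inv_W tab_uu).ca.mul_left (inv_W tab_uu).ca)⟩
    · rintro y ⟨-, a2, n, u, a3, a4⟩
      rw [zero_mul, map_eq_zero_iff _ hf] at a3
      rw [a3, map_zero, (a2.pow_right n).eq, ht, LinearMap.pow_mulLeft] at a4
      refine LinearMap.ext fun q => ?_
      have := LinearMap.congr_fun a4 q
      simp only [LinearMap.zero_apply, Module.End.mul_apply, LinearMap.mulLeft_apply] at this
      exact (mul_eq_zero.1 this.symm).resolve_left (pow_ne_zero _ (pow_ne_zero _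
        (mul_ne_zero (mul_ne_zero (by norm_num) (X_ne_zero _)) hδ)))
    · have c1 : Commute (8 * uu 0 * xW.ev uu) (xc.ev uu) := by
        have c := fun i hi => (c_comm tab_uu i hi).symm
        exact ((Commute.ofNat_left 8 _).mul_left (c 0 (by omega))).mul_left
          (((c 1 (by omega)).mul_left (c 1 (by omega))).sub_left
            ((c 0 (by omega)).mul_left (c 2 (by omega))))
      have c2 := (RR f ρ t).mul_mem ((RR f ρ t).algebraMap_mem 2⁻¹)
        ((RR f ρ t).add_mem (mem _ (c1.mul_left c1)) ((RR f ρ t).algebraMap_mem 4))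
      convert c2 using 1
      ext1
      · simp [ee, map_ofNat]
      · rw [Prod.snd_mul, Prod.snd_add, rho_c (tab_wop _ _), ← map_ofNat (algebraMap ℂ EE) 4,
          ← map_ofNat (algebraMap ℂ EE) 2]
        simp only [wop, Prod.algebraMap_apply, ← map_mul, ← map_add, ← map_sub]
        congr 1
        rw [ha]; ring
    · refine ⟨(hγ _).symm, Algebra.commutes _ _, 1, xQ.ev uu, ?_, ?_⟩
      · rw [hev, pow_one, ← (hγ _).eq, ← gam2_ee T hc h0 hW]
        simp only [t, map_mul, map_ofNat, hev, v]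
      · have c3 : t = algebraMap ℂ UU 64 * (Ex.g 0 * xW * (Ex.g 0 * xW)).ev uu := by
          simp only [t, ev_mul, ev_g, map_ofNat]; noncomm_ring
        rw [hρe, rho_Q (tab_wop _ _), pow_one, c3, map_mul, AlgHom.commutes, hρe, ← mul_assoc,
          ← map_ofNat (algebraMap ℂ EE) 4, ← map_ofNat (algebraMap ℂ EE) 3,
          ← map_one (algebraMap ℂ EE)]
        simp only [wop, ← map_mul, ← map_add, ← map_sub]
        congr 2
        rw [hb]; ring
  refine core w S hge (mul_ne_zero (inv_ne_zero h0) h1) h0 (mul_ne_zero (by norm_num) hW)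
    (fun hψ => ?_) (fun g1 g2 hg1 hg2 => ?_)
  · obtain ⟨l1, l2, R, r0, r1, r2, r3, r4⟩ := main 0 0
    have a1 := Fpsi_pair R r3 r4 r1 r2
    rw [psi_ee T hc hW hγ hψ] at a1
    refine Fpsi_ne (pt := ![0, 0, 1, 1]) (fun q => ?_) (fun q => ?_) (r0 _ a1)
    · simp [xJ, rho, wop]
    · simp [rW]
  · rw [algebraicIndependent_iff]
    intro P hP
    apply MvPolynomial.funext
    intro x
    obtain ⟨l1, l2, R, r0, r1, r2, -, -⟩ := main (x 0) (x 1)
    have key : ∀ Q : MvPolynomial (Fin 2) ℂ,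
        (algebraMap (Ctr D) D (aeval ![g1, g2] Q), algebraMap ℂ EE (eval x Q)) ∈ R := by
      intro Q
      induction Q using poly_ind with
      | hC c => rw [aeval_C, eval_C]; exact R.algebraMap_mem c
      | hadd a b ha hb => simp only [map_add]; exact R.add_mem ha hb
      | hX a i ha =>
        simp only [map_mul, aeval_X, eval_X]
        refine R.mul_mem (x := (_, _)) (y := (_, _)) ?_ ha
        fin_cases i
        · exact hg1 ▸ r1
        · exact hg2 ▸ r2
    have := key P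
    rw [hP, map_zero] at this
    simpa using r0 _ this

end Pool.Agent.Lib.MP_75bae7_al
end

-- part Pool.Agent.Lib.MP_75bae7_al.Final
section

/-!
From a presentation of the Weyl algebra to a Weyl skew field.
-/

set_option autoImplicit false

namespace Pool.Agent.Lib.MP_75bae7_al

open MvPolynomial

theorem exists_WF {ι κ D : Type} [DecidableEq ι] [DivisionRing D] [Algebra ℂ D]
    (rel : FreeAlgebra ℂ (ι ⊕ ι ⊕ κ) → FreeAlgebra ℂ (ι ⊕ ι ⊕ κ) → Prop)
    (h1 : ∀ ⦃x y⦄, rel x y →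
      FreeAlgebra.lift ℂ (fun a => lop (sh1 ι κ) ℂ ((Equiv.sumAssoc ι ι κ).symm a)) x
        = FreeAlgebra.lift ℂ (fun a => lop (sh1 ι κ) ℂ ((Equiv.sumAssoc ι ι κ).symm a)) y)
    (r1 : ∀ i j : ι, rel (FreeAlgebra.ι ℂ (.inl i) * FreeAlgebra.ι ℂ (.inr (.inl j)))
      (FreeAlgebra.ι ℂ (.inr (.inl j)) * FreeAlgebra.ι ℂ (.inl i) + if i = j then 1 else 0))
    (r2 : ∀ i j : ι, rel (FreeAlgebra.ι ℂ (.inl i) * FreeAlgebra.ι ℂ (.inl j))
      (FreeAlgebra.ι ℂ (.inl j) * FreeAlgebra.ι ℂ (.inl i)))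
    (r3 : ∀ i j : ι, rel (FreeAlgebra.ι ℂ (.inr (.inl i)) * FreeAlgebra.ι ℂ (.inr (.inl j)))
      (FreeAlgebra.ι ℂ (.inr (.inl j)) * FreeAlgebra.ι ℂ (.inr (.inl i))))
    (r4 : ∀ (a : ι ⊕ ι ⊕ κ) (k : κ), rel (FreeAlgebra.ι ℂ a * FreeAlgebra.ι ℂ (.inr (.inr k)))
      (FreeAlgebra.ι ℂ (.inr (.inr k)) * FreeAlgebra.ι ℂ a))
    (h : RingQuot rel →ₐ[ℂ] D) (hi : Function.Injective h)
    (hfr : ∀ x : D, ∃ a b, x = h a * (h b)⁻¹) : Nonempty (WF ι κ ℂ D) := by
  have h2 : (sh1 ι κ).IsSys fun a =>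
      RingQuot.mkAlgHom ℂ rel (FreeAlgebra.ι ℂ (Equiv.sumAssoc ι ι κ a)) := by
    intro a b
    rw [sub_eq_iff_eq_add']
    rcases a with (i | i) | i <;> rcases b with (j | j) | j
    · simpa [sh1, om1, om0] using RingQuot.mkAlgHom_rel ℂ (r2 i j)
    · by_cases hij : i = j <;> simpa [sh1, om1, om0, hij] using RingQuot.mkAlgHom_rel ℂ (r1 i j)
    · simpa [sh1, om1] using RingQuot.mkAlgHom_rel ℂ (r4 (.inl i) j)
    · have := RingQuot.mkAlgHom_rel ℂ (r1 j i)
      rw [map_add, map_mul, map_mul] at this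
      simp only [Equiv.sumAssoc_apply_inl_inl, Equiv.sumAssoc_apply_inl_inr, this]
      by_cases hij : i = j <;> simp [sh1, om1, om0, hij, eq_comm]
    · simpa [sh1, om1, om0] using RingQuot.mkAlgHom_rel ℂ (r3 i j)
    · simpa [sh1, om1] using RingQuot.mkAlgHom_rel ℂ (r4 (.inr (.inl i)) j)
    · simpa [sh1, om1] using (RingQuot.mkAlgHom_rel ℂ (r4 (.inl j) i)).symm
    · simpa [sh1, om1] using (RingQuot.mkAlgHom_rel ℂ (r4 (.inr (.inl j)) i)).symm
    · simpa [sh1, om1] using RingQuot.mkAlgHom_rel ℂ (r4 (.inr (.inr i)) j)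
  set g0 := fun a => RingQuot.mkAlgHom ℂ rel (FreeAlgebra.ι ℂ (Equiv.sumAssoc ι ι κ a)) with hg0
  have key : ∀ {A : Type} [Ring A] [Algebra ℂ A] (ψ : RingQuot rel →ₐ[ℂ] A) f,
      ψ (phi (sh1 ι κ) ℂ g0 f) = phi (sh1 ι κ) ℂ (fun a => ψ (g0 a)) f := by
    intro A _ _ ψ f
    have := map_phi h2 (RingHom.id ℂ) ψ.toRingHom (fun c => ψ.commutes c) f
    rwa [map_id] at this
  have inj : Function.Injective (phi (sh1 ι κ) ℂ g0) := by
    let ψ := RingQuot.liftAlgHom ℂ ⟨_, h1⟩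
    have e : (fun a => ψ (g0 a)) = lop (sh1 ι κ) ℂ := by
      funext a
      simp [ψ, hg0]
    intro a b hab
    have := congrArg (fun x => ψ x 1) hab
    simp only [key, e] at this
    exact (star_one a).symm.trans (this.trans (star_one b))
  have sur : ∀ x, ∃ f, phi (sh1 ι κ) ℂ g0 f = x := by
    intro x
    obtain ⟨x, rfl⟩ := RingQuot.mkAlgHom_surjective ℂ rel x
    induction x using FreeAlgebra.induction with
    | grade0 c => exact ⟨C c, by rw [phi_C h2, AlgHom.commutes]⟩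
    | grade1 a => exact ⟨X ((Equiv.sumAssoc ι ι κ).symm a), by rw [phi_X h2]; simp [hg0]⟩
    | mul a b ha hb =>
      obtain ⟨f1, e1⟩ := ha
      obtain ⟨f2, e2⟩ := hb
      exact ⟨star (sh1 ι κ) f1 f2, by rw [phi_star h2, e1, e2, map_mul]⟩
    | add a b ha hb =>
      obtain ⟨f1, e1⟩ := ha
      obtain ⟨f2, e2⟩ := hb
      exact ⟨f1 + f2, by rw [map_add, e1, e2, map_add]⟩
  have hs : (sh1 ι κ).IsSys fun a => h (g0 a) := fun a b => by
    simpa using congrArg h (h2 a b)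
  refine ⟨⟨fun a => h (g0 a), hs, fun a b hab => inj (hi ?_), fun u => ?_⟩⟩
  · rw [key, key]; exact hab
  · obtain ⟨a, b, rfl⟩ := hfr u
    obtain ⟨f1, rfl⟩ := sur a
    obtain ⟨f2, rfl⟩ := sur b
    by_cases h0 : f2 = 0
    · exact ⟨0, 1, one_ne_zero, by simp [h0]⟩
    · exact ⟨f1, f2, h0, by rw [key, key]⟩

end Pool.Agent.Lib.MP_75bae7_al
end
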