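import Mathlib

-- part Pool.Agent.Lib.MP_75bae7_al.Weyl
section

/-!
Normal ordering for Weyl-type systems of generators (commutators are integer constants),
the star product on polynomials and its degree estimate.
-/

set_option autoImplicit false

namespace Pool.Agent.Lib.MP_75bae7_al

open MvPolynomial

/-- Shape of a Weyl-type system: generators on two sides, integer commutators. -/
structure Shape (σ : Type) where
  left : σ → Bool
  om : σ → σ → ℤ
  same : ∀ a b, left a = left b → om a b = 0
  anti : ∀ a b, om a b = - om b a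

/-- `g` satisfies the commutation relations of the shape. -/
def Shape.IsSys {σ : Type} (S : Shape σ) {A : Type} [Ring A] (g : σ → A) : Prop :=
  ∀ a b, g a * g b - g b * g a = (S.om a b : A)

section CommLift
variable {σ R A : Type} [CommRing R] [Ring A] [Algebra R A]

open scoped IsMulCommutative in
theorem exists_commLift (v : σ → A) (h : ∀ a b, v a * v b = v b * v a) :
    ∃ e : MvPolynomial σ R →ₐ[R] A, ∀ a, e (X a) = v a := by
  have := Algebra.isMulCommutative_adjoin R (s := Set.range v) (by
    rintro _ ⟨a, rfl⟩ _ ⟨b, rfl⟩; exact h a b)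
  refine ⟨(Algebra.adjoin R (Set.range v)).val.comp
    (aeval fun a => (⟨v a, Algebra.subset_adjoin ⟨a, rfl⟩⟩ : Algebra.adjoin R (Set.range v))), ?_⟩
  intro a
  simp

end CommLift

section Phi
variable {σ : Type} (S : Shape σ) (R : Type) [CommRing R] {A : Type} [Ring A] [Algebra R A]

theorem exists_phi {g : σ → A} (hg : S.IsSys g) :
    ∃ Φ : MvPolynomial σ R →ₗ[R] A, Φ 1 = 1 ∧
      (∀ a f, S.left a = true → Φ (X a * f) = g a * Φ f) ∧
      (∀ a f, S.left a = false → Φ (X a * f) = Φ f * g a) := by
  have hc : ∀ a b, S.left a = S.left b → g a * g b = g b * g a := by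
    intro a b hab
    have := hg a b
    rw [S.same a b hab] at this
    simpa [sub_eq_zero] using this
  obtain ⟨e1, he1⟩ := exists_commLift (R := R) (fun a => if S.left a then g a else 1) (by
    intro a b
    by_cases ha : S.left a <;> by_cases hb : S.left b <;> simp [ha, hb]
    exact hc a b (by rw [ha, hb]))
  obtain ⟨e2, he2⟩ := exists_commLift (R := R) (fun a => if S.left a then 1 else g a) (by
    intro a b
    by_cases ha : S.left a <;> by_cases hb : S.left b <;> simp [ha, hb]
    exact hc a b (by simp only [Bool.not_eq_true] at ha hb; rw [ha, hb]))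
  let Φ : MvPolynomial σ R →ₗ[R] A := (basisMonomials σ R).constr R
    (fun n => e1 (monomial n 1) * e2 (monomial n 1))
  have hΦ : ∀ n, Φ (monomial n 1) = e1 (monomial n 1) * e2 (monomial n 1) := by
    intro n
    have := (basisMonomials σ R).constr_basis R
      (fun n => e1 (monomial n 1) * e2 (monomial n 1)) n
    simpa using this
  have hX : ∀ (a : σ) (n : σ →₀ ℕ), (X a * monomial n 1 : MvPolynomial σ R)
      = monomial (Finsupp.single a 1 + n) 1 := by
    intro a n
    rw [X, monomial_mul, one_mul]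
  have hm : ∀ (n : σ →₀ ℕ) (c : R), (monomial n c : MvPolynomial σ R) = c • monomial n 1 := by
    intro n c
    rw [smul_monomial, smul_eq_mul, mul_one]
  refine ⟨Φ, ?_, ?_, ?_⟩
  · have := hΦ 0
    simpa using this
  · intro a f ha
    induction f using MvPolynomial.induction_on' with
    | monomial n c =>
      rw [hm n c, mul_smul_comm, map_smul, map_smul, mul_smul_comm, hX, hΦ, hΦ, ← hX, map_mul,
        map_mul, he1, he2]
      simp [ha, mul_assoc]
    | add p q hp hq => simp [mul_add, hp, hq]
  · intro a f ha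
    induction f using MvPolynomial.induction_on' with
    | monomial n c =>
      rw [hm n c, mul_smul_comm, map_smul, map_smul, smul_mul_assoc, hX, hΦ, hΦ, ← hX, map_mul,
        mul_comm (X a), map_mul, he1, he2]
      simp [ha, mul_assoc]
    | add p q hp hq => simp [mul_add, add_mul, hp, hq]

open Classical in
/-- Normal ordering map. -/
noncomputable def phi (g : σ → A) : MvPolynomial σ R →ₗ[R] A :=
  if hg : S.IsSys g then (exists_phi S R hg).choose else 0

/-- The derivation representing `ad (g a)`. -/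
noncomputable def der (a : σ) : Derivation R (MvPolynomial σ R) (MvPolynomial σ R) :=
  mkDerivation R (fun b => (S.om a b : MvPolynomial σ R))

/-- The operator representing left multiplication by `g a`. -/
noncomputable def lop (a : σ) : Module.End R (MvPolynomial σ R) :=
  LinearMap.mulLeft R (X a) + if S.left a then 0 else (der S R a : _ →ₗ[R] _)

variable {S R} {g : σ → A}

theorem phi_one (hg : S.IsSys g) : phi S R g 1 = 1 := by
  rw [phi, dif_pos hg]; exact (exists_phi S R hg).choose_spec.1

theorem phi_left (hg : S.IsSys g) {a : σ} (ha : S.left a = true) (f : MvPolynomial σ R) :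
    phi S R g (X a * f) = g a * phi S R g f := by
  rw [phi, dif_pos hg]; exact (exists_phi S R hg).choose_spec.2.1 a f ha

theorem phi_right (hg : S.IsSys g) {a : σ} (ha : S.left a = false) (f : MvPolynomial σ R) :
    phi S R g (X a * f) = phi S R g f * g a := by
  rw [phi, dif_pos hg]; exact (exists_phi S R hg).choose_spec.2.2 a f ha

theorem phi_C (hg : S.IsSys g) (c : R) : phi S R g (C c) = algebraMap R A c := by
  rw [show (C c : MvPolynomial σ R) = c • 1 by rw [C_eq_smul_one], map_smul, phi_one hg,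
    Algebra.algebraMap_eq_smul_one]

theorem phi_X (hg : S.IsSys g) (a : σ) : phi S R g (X a) = g a := by
  by_cases ha : S.left a = true
  · have := phi_left (R := R) hg ha 1
    rwa [mul_one, phi_one hg, mul_one] at this
  · have := phi_right (R := R) hg (Bool.eq_false_iff.2 ha) 1
    rwa [mul_one, phi_one hg, one_mul] at this

@[simp] theorem der_X (a b : σ) : der S R a (X b) = (S.om a b : MvPolynomial σ R) :=
  mkDerivation_X _ _ _

theorem der_X_mul (a b : σ) (f : MvPolynomial σ R) :
    der S R a (X b * f) = X b * der S R a f + (S.om a b : MvPolynomial σ R) * f := by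
  rw [Derivation.leibniz, der_X, smul_eq_mul, smul_eq_mul, mul_comm f]

theorem phi_int_mul (m : ℤ) (f : MvPolynomial σ R) :
    phi S R g ((m : MvPolynomial σ R) * f) = (m : A) * phi S R g f := by
  rw [← zsmul_eq_mul, map_zsmul, zsmul_eq_mul]

/-- induction principle with left multiplication by variables -/
theorem poly_ind {motive : MvPolynomial σ R → Prop} (p : MvPolynomial σ R)
    (hC : ∀ a, motive (C a)) (hadd : ∀ p q, motive p → motive q → motive (p + q))
    (hX : ∀ p n, motive p → motive (X n * p)) : motive p :=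
  MvPolynomial.induction_on p hC hadd (fun p n h => by rw [mul_comm]; exact hX p n h)

theorem ad_phi (hg : S.IsSys g) (a : σ) (f : MvPolynomial σ R) :
    g a * phi S R g f - phi S R g f * g a = phi S R g (der S R a f) := by
  induction f using poly_ind with
  | hC c => simp [phi_C hg, Algebra.commutes]
  | hadd p q hp hq => simp only [map_add, ← hp, ← hq]; noncomm_ring
  | hX p b hp =>
    rw [der_X_mul, map_add, phi_int_mul, ← hg a b]
    by_cases hb : S.left b = true
    · rw [phi_left hg hb, phi_left hg hb, ← hp]; noncomm_ring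
    · have hb' := Bool.eq_false_iff.2 hb
      rw [phi_right hg hb', phi_right hg hb', ← hp, hg a b, Int.cast_comm, ← hg a b]
      noncomm_ring

theorem lop_left {a : σ} (ha : S.left a = true) (f : MvPolynomial σ R) :
    lop S R a f = X a * f := by
  simp [lop, ha]

theorem lop_right {a : σ} (ha : S.left a = false) (f : MvPolynomial σ R) :
    lop S R a f = X a * f + der S R a f := by
  simp [lop, ha]

theorem phi_lop (hg : S.IsSys g) (a : σ) (f : MvPolynomial σ R) :
    phi S R g (lop S R a f) = g a * phi S R g f := by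
  by_cases ha : S.left a = true
  · rw [lop_left ha, phi_left hg ha]
  · have ha' := Bool.eq_false_iff.2 ha
    rw [lop_right ha', map_add, phi_right hg ha', ← ad_phi hg]; noncomm_ring

theorem der_comm (a b : σ) (f : MvPolynomial σ R) :
    der S R a (der S R b f) = der S R b (der S R a f) := by
  induction f using poly_ind with
  | hC c => simp
  | hadd p q hp hq => simp [hp, hq]
  | hX p c hp =>
    simp only [der_X_mul, map_add, hp, ← zsmul_eq_mul, map_zsmul]
    abel

theorem lop_isSys : S.IsSys (lop S R) := by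
  intro a b
  refine LinearMap.ext fun f => ?_
  rw [LinearMap.sub_apply, Module.End.mul_apply, Module.End.mul_apply, Module.End.intCast_apply,
    zsmul_eq_mul]
  by_cases ha : S.left a = true <;> by_cases hb : S.left b = true
  · rw [S.same a b (by rw [ha, hb])]
    simp only [lop_left ha, lop_left hb]; push_cast; ring
  · have hb' := Bool.eq_false_iff.2 hb
    simp only [lop_left ha, lop_right hb', der_X_mul, S.anti a b]; push_cast; ring
  · have ha' := Bool.eq_false_iff.2 ha
    simp only [lop_left hb, lop_right ha', der_X_mul]; ring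
  · have ha' := Bool.eq_false_iff.2 ha
    have hb' := Bool.eq_false_iff.2 hb
    simp only [lop_right ha', lop_right hb', map_add, der_X_mul, der_comm a b,
      S.same a b (by rw [ha', hb']), S.same b a (by rw [ha', hb'])]
    push_cast; ring

theorem commute_phi (hg : S.IsSys g) {u : A} (hu : ∀ a, u * g a = g a * u)
    (f : MvPolynomial σ R) : u * phi S R g f = phi S R g f * u := by
  induction f using poly_ind with
  | hC c => rw [phi_C hg, Algebra.commutes]
  | hadd p q hp hq => simp [mul_add, add_mul, hp, hq]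
  | hX p b hp =>
    by_cases hb : S.left b = true
    · rw [phi_left hg hb, ← mul_assoc, hu, mul_assoc, hp, mul_assoc]
    · rw [phi_right hg (Bool.eq_false_iff.2 hb), ← mul_assoc, hp, mul_assoc, hu, mul_assoc]

variable (S) in
/-- The star product. -/
noncomputable def star (f h : MvPolynomial σ R) : MvPolynomial σ R :=
  phi S R (lop S R) f h

theorem star_C (c : R) (h : MvPolynomial σ R) : star S (C c) h = c • h := by
  simp [star, phi_C lop_isSys]

theorem star_add (p q h : MvPolynomial σ R) : star S (p + q) h = star S p h + star S q h := by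
  simp [star]

theorem star_add' (p q h : MvPolynomial σ R) : star S h (p + q) = star S h p + star S h q := by
  simp [star]

theorem star_smul (c : R) (p h : MvPolynomial σ R) : star S (c • p) h = c • star S p h := by
  simp [star]

theorem star_smul' (c : R) (p h : MvPolynomial σ R) : star S h (c • p) = c • star S h p := by
  simp [star]

theorem star_left {a : σ} (ha : S.left a = true) (f h : MvPolynomial σ R) :
    star S (X a * f) h = X a * star S f h := by
  simp [star, phi_left lop_isSys ha, lop_left ha]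

theorem star_right {a : σ} (ha : S.left a = false) (f h : MvPolynomial σ R) :
    star S (X a * f) h = star S f (X a * h + der S R a h) := by
  simp only [star, phi_right lop_isSys ha, Module.End.mul_apply, lop_right ha]

theorem phi_star (hg : S.IsSys g) (f h : MvPolynomial σ R) :
    phi S R g (star S f h) = phi S R g f * phi S R g h := by
  induction f using poly_ind generalizing h with
  | hC c => rw [star_C, map_smul, phi_C hg, Algebra.smul_def]
  | hadd p q hp hq => rw [star_add, map_add, map_add, hp, hq, add_mul]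
  | hX p a hp =>
    by_cases ha : S.left a = true
    · rw [star_left ha, phi_left hg ha, phi_left hg ha, hp, mul_assoc]
    · have ha' := Bool.eq_false_iff.2 ha
      rw [star_right ha', hp, ← lop_right ha', phi_lop hg, phi_right hg ha', mul_assoc]

theorem star_one (f : MvPolynomial σ R) : star S f 1 = f := by
  induction f using poly_ind with
  | hC c => rw [star_C, C_eq_smul_one]
  | hadd p q hp hq => rw [star_add, hp, hq]
  | hX p a hp =>
    by_cases ha : S.left a = true
    · rw [star_left ha, hp]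
    · have ha' := Bool.eq_false_iff.2 ha
      rw [star_right ha', Derivation.map_one_eq_zero, add_zero]
      have := commute_phi (R := R) (S := S) lop_isSys (u := LinearMap.mulLeft R (X a)) (by
        intro b
        refine LinearMap.ext fun f => ?_
        simp only [Module.End.mul_apply, LinearMap.mulLeft_apply]
        by_cases hb : S.left b = true
        · simp only [lop_left hb]; ring
        · have hb' := Bool.eq_false_iff.2 hb
          simp only [lop_right hb', der_X_mul, S.same b a (by rw [ha', hb'])]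
          push_cast; ring) p
      have h2 := LinearMap.congr_fun this 1
      simp only [Module.End.mul_apply, LinearMap.mulLeft_apply] at h2
      rw [star, ← h2]
      rw [star] at hp
      rw [hp]

theorem map_der {R' : Type} [CommRing R'] (φ : R →+* R') (a : σ) (f : MvPolynomial σ R) :
    map φ (der S R a f) = der S R' a (map φ f) := by
  induction f using poly_ind with
  | hC c => simp
  | hadd p q hp hq => simp [hp, hq]
  | hX p b hp => rw [der_X_mul, map_mul, map_X, der_X_mul, map_add, map_mul, map_mul, hp]; simp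

theorem map_star {R' : Type} [CommRing R'] (φ : R →+* R') (f h : MvPolynomial σ R) :
    map φ (star S f h) = star S (map φ f) (map φ h) := by
  induction f using poly_ind generalizing h with
  | hC c => rw [star_C, map_C, star_C, smul_eq_C_mul, smul_eq_C_mul, map_mul, map_C]
  | hadd p q hp hq => rw [star_add, map_add, map_add, star_add, hp, hq]
  | hX p a hp =>
    by_cases ha : S.left a = true
    · rw [star_left ha, map_mul, map_mul, map_X, star_left ha, hp]
    · have ha' := Bool.eq_false_iff.2 ha
      rw [star_right ha', map_mul, map_X, star_right ha', hp, map_add, map_mul, map_X, map_der]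

/-- compatibility of normal ordering with a ring homomorphism -/
theorem map_phi {R' A' : Type} [CommRing R'] [Ring A'] [Algebra R' A'] (hg : S.IsSys g)
    (φ : R →+* R') (ψ : A →+* A') (hψ : ∀ c, ψ (algebraMap R A c) = algebraMap R' A' (φ c))
    (f : MvPolynomial σ R) : ψ (phi S R g f) = phi S R' (fun a => ψ (g a)) (map φ f) := by
  have hg' : S.IsSys (fun a => ψ (g a)) := by
    intro a b
    have := congrArg ψ (hg a b)
    simpa using this
  induction f using poly_ind with
  | hC c => rw [phi_C hg, map_C, phi_C hg', hψ]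
  | hadd p q hp hq => simp [hp, hq]
  | hX p a hp =>
    by_cases ha : S.left a = true
    · rw [phi_left hg ha, map_mul, map_mul, map_X, phi_left hg' ha, hp]
    · have ha' := Bool.eq_false_iff.2 ha
      rw [phi_right hg ha', map_mul, map_mul, map_X, phi_right hg' ha', hp]

end Phi

section Degree
variable {σ : Type} {S : Shape σ} {R : Type} [CommRing R]

/-- all monomials have degree below `N` -/
def DegLT (N : ℕ) (f : MvPolynomial σ R) : Prop :=
  ∀ n : σ →₀ ℕ, N ≤ n.degree → coeff n f = 0

theorem DegLT.add {N : ℕ} {f h : MvPolynomial σ R} (hf : DegLT N f) (hh : DegLT N h) :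
    DegLT N (f + h) := fun n hn => by simp [hf n hn, hh n hn]

theorem DegLT.sub {N : ℕ} {f h : MvPolynomial σ R} (hf : DegLT N f) (hh : DegLT N h) :
    DegLT N (f - h) := fun n hn => by simp [hf n hn, hh n hn]

theorem DegLT.smul {N : ℕ} {f : MvPolynomial σ R} (c : R) (hf : DegLT N f) :
    DegLT N (c • f) := fun n hn => by simp [hf n hn]

theorem DegLT.zero (N : ℕ) : DegLT N (0 : MvPolynomial σ R) := fun n _ => by simp

theorem DegLT.mono {N M : ℕ} {f : MvPolynomial σ R} (hf : DegLT N f) (h : N ≤ M) :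
    DegLT M f := fun n hn => hf n (h.trans hn)

theorem DegLT.sum {ι : Type} {N : ℕ} (s : Finset ι) {f : ι → MvPolynomial σ R}
    (hf : ∀ i ∈ s, DegLT N (f i)) : DegLT N (∑ i ∈ s, f i) := fun n hn => by
  rw [coeff_sum]; exact Finset.sum_eq_zero fun i hi => hf i hi n hn

theorem DegLT.X_mul {N : ℕ} {f : MvPolynomial σ R} (a : σ) (hf : DegLT N f) :
    DegLT (N + 1) (X a * f) := by
  classical
  intro n hn
  rw [coeff_X_mul']
  split_ifs with h
  · apply hf
    have h1 : Finsupp.single a 1 ≤ n := by
      rw [Finsupp.single_le_iff]; exact Nat.one_le_iff_ne_zero.2 (Finsupp.mem_support_iff.1 h)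
    have h2 : n = (n - Finsupp.single a 1) + Finsupp.single a 1 := (tsub_add_cancel_of_le h1).symm
    have h3 := congrArg Finsupp.degree h2
    rw [map_add, Finsupp.degree_single] at h3
    omega
  · rfl

theorem DegLT.pderiv {N : ℕ} {f : MvPolynomial σ R} (a : σ) (hf : DegLT (N + 1) f) :
    DegLT N (pderiv a f) := by
  intro n hn
  rw [coeff_pderiv, hf, zero_mul]
  rw [map_add, Finsupp.degree_single]; omega

theorem der_eq_sum [Fintype σ] (a : σ) (f : MvPolynomial σ R) :
    der S R a f = ∑ b, (S.om a b : R) • pderiv b f := by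
  classical
  induction f using poly_ind with
  | hC c => simp
  | hadd p q hp hq => simp [hp, hq, Finset.sum_add_distrib]
  | hX p c hp =>
    rw [der_X_mul, hp, Finset.mul_sum]
    simp only [Derivation.leibniz, smul_add, Finset.sum_add_distrib, smul_eq_mul, mul_smul_comm]
    congr 1
    rw [Finset.sum_eq_single c]
    · simp [smul_eq_C_mul]
    · intro b _ hb
      rw [pderiv_X_of_ne (Ne.symm hb)]; simp
    · simp

theorem DegLT.der [Fintype σ] {N : ℕ} {f : MvPolynomial σ R} (a : σ) (hf : DegLT (N + 1) f) :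
    DegLT N (der S R a f) := by
  rw [der_eq_sum]
  exact DegLT.sum _ fun b _ => (hf.pderiv b).smul _

theorem degLT_totalDegree (f : MvPolynomial σ R) : DegLT (f.totalDegree + 1) f := by
  intro n hn
  by_contra h
  have := le_totalDegree (mem_support_iff.2 h)
  have h2 : (n.sum fun _ e => e) = n.degree := rfl
  omega

theorem DegLT.totalDegree_lt {N : ℕ} {f : MvPolynomial σ R} (hf : DegLT N f) (h0 : f ≠ 0) :
    f.totalDegree < N := by
  obtain ⟨n, hn, h⟩ := Finset.exists_mem_eq_sup f.support (support_nonempty.2 h0)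
    (fun s : σ →₀ ℕ => s.sum fun _ e => e)
  by_contra hc
  apply mem_support_iff.1 hn
  apply hf
  have h2 : (n.sum fun _ e => e) = n.degree := rfl
  rw [totalDegree, h, h2] at hc
  omega

theorem DegLT.monomial_mul (n : σ →₀ ℕ) {N : ℕ} {h : MvPolynomial σ R} (hh : DegLT N h) :
    DegLT (n.degree + N) (monomial n 1 * h) := by
  classical
  intro m hm
  rw [coeff_monomial_mul']
  split_ifs with h1
  · rw [hh, mul_zero]
    have h2 : m = (m - n) + n := (tsub_add_cancel_of_le h1).symm
    have h3 := congrArg Finsupp.degree h2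
    rw [map_add] at h3
    omega
  · rfl

theorem star_monomial_deg [Fintype σ] (m : ℕ) : ∀ (n : σ →₀ ℕ), n.degree = m →
    ∀ (N : ℕ) (h : MvPolynomial σ R), DegLT (N + 1) h →
      DegLT (m + N) (star S (monomial n 1) h - monomial n 1 * h) := by
  induction m with
  | zero =>
    intro n hn N h _
    have : n = 0 := (Finsupp.degree_eq_zero_iff n).1 hn
    subst this
    have : (monomial (0 : σ →₀ ℕ) (1 : R)) = C 1 := rfl
    rw [this, star_C]
    simpa using DegLT.zero _
  | succ m ih =>
    intro n hn N h hh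
    obtain ⟨a, ha⟩ : ∃ a, n a ≠ 0 := by
      by_contra hc
      push Not at hc
      have : n = 0 := Finsupp.ext hc
      subst this; simp at hn
    have h1 : Finsupp.single a 1 ≤ n := by
      rw [Finsupp.single_le_iff]; exact Nat.one_le_iff_ne_zero.2 ha
    obtain ⟨n', rfl⟩ := exists_add_of_le h1
    have hn' : n'.degree = m := by
      rw [map_add, Finsupp.degree_single] at hn; omega
    have hX : (monomial (Finsupp.single a 1 + n') 1 : MvPolynomial σ R) = X a * monomial n' 1 := by
      rw [X, monomial_mul, one_mul]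
    rw [hX]
    by_cases hl : S.left a = true
    · rw [star_left hl, mul_assoc, ← mul_sub]
      exact ((ih n' hn' N h hh).X_mul a).mono (by omega)
    · have hl' := Bool.eq_false_iff.2 hl
      rw [star_right hl', star_add']
      have e1 := ih n' hn' (N + 1) (X a * h) (hh.X_mul a)
      have e2 := ih n' hn' N (der S R a h) ((hh.der a).mono (by omega))
      have e3 := DegLT.monomial_mul n' (hh.der (S := S) a)
      have : star S (monomial n' 1) (X a * h) + star S (monomial n' 1) (der S R a h)
          - X a * monomial n' 1 * h = (star S (monomial n' 1) (X a * h) - monomial n' 1 * (X a * h))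
          + ((star S (monomial n' 1) (der S R a h) - monomial n' 1 * der S R a h)
            + monomial n' 1 * der S R a h) := by ring
      rw [this]
      exact (e1.mono (by omega)).add ((e2.mono (by omega)).add (e3.mono (by omega)))

theorem star_deg [Fintype σ] {M N : ℕ} {f h : MvPolynomial σ R} (hf : DegLT (M + 1) f)
    (hh : DegLT (N + 1) h) : DegLT (M + N) (star S f h - f * h) := by
  have : star S f h - f * h = ∑ n ∈ f.support, coeff n f •
      (star S (monomial n 1) h - monomial n 1 * h) := by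
    conv_lhs => rw [f.as_sum]
    simp only [smul_sub, Finset.sum_sub_distrib, Finset.sum_mul]
    congr 1
    · simp only [star, map_sum, LinearMap.sum_apply]
      refine Finset.sum_congr rfl fun n _ => ?_
      rw [← LinearMap.smul_apply, ← map_smul, smul_monomial, smul_eq_mul, mul_one]
    · refine Finset.sum_congr rfl fun n _ => ?_
      rw [← smul_mul_assoc, smul_monomial, smul_eq_mul, mul_one]
  rw [this]
  refine DegLT.sum _ fun n hn => DegLT.smul _ ?_
  refine (star_monomial_deg _ n rfl N h hh).mono ?_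
  by_contra hc
  exact mem_support_iff.1 hn (hf n (by omega))

theorem star_degLT [Fintype σ] {M N : ℕ} {f h : MvPolynomial σ R} (hf : DegLT (M + 1) f)
    (hh : DegLT (N + 1) h) : DegLT (M + N + 1) (star S f h) := by
  have h1 := star_deg (S := S) hf hh
  have h2 : DegLT (M + N + 1) (f * h) := by
    conv_rhs => rw [f.as_sum, Finset.sum_mul]
    refine DegLT.sum _ fun n hn => ?_
    have : (monomial n (coeff n f) : MvPolynomial σ R) = coeff n f • monomial n 1 := by
      rw [smul_monomial, smul_eq_mul, mul_one]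
    rw [this, smul_mul_assoc]
    refine ((hh.monomial_mul n).mono ?_).smul _
    by_contra hc
    exact mem_support_iff.1 hn (hf n (by omega))
  have := (h1.mono (Nat.le_succ _)).add h2
  simpa using this

theorem star_ne_zero [Fintype σ] [IsDomain R] {f h : MvPolynomial σ R} (hf : f ≠ 0)
    (hh : h ≠ 0) : star S f h ≠ 0 := by
  intro h0
  have h1 := star_deg (S := S) (degLT_totalDegree f) (degLT_totalDegree h)
  rw [h0, zero_sub] at h1
  have h2 := h1.totalDegree_lt (neg_ne_zero.2 (mul_ne_zero hf hh))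
  rw [totalDegree_neg, totalDegree_mul_of_isDomain hf hh] at h2
  exact lt_irrefl _ h2

end Degree

end Pool.Agent.Lib.MP_75bae7_al
end

-- part Pool.Agent.Lib.MP_75bae7_al.WField
section

/-!
Weyl skew fields: concrete shapes, the centre as an abstract field, the centre in characteristic 0.
-/

set_option autoImplicit false

namespace Pool.Agent.Lib.MP_75bae7_al

open MvPolynomial

section Shapes
variable (ι κ : Type) [DecidableEq ι]

/-- commutators: `inl i` is a derivative, `inr i` a coordinate -/
def om0 : ι ⊕ ι → ι ⊕ ι → ℤ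
  | .inl i, .inr j => if i = j then 1 else 0
  | .inr i, .inl j => if i = j then -1 else 0
  | .inl _, .inl _ => 0
  | .inr _, .inr _ => 0

/-- shape of the Weyl algebra -/
def sh0 : Shape (ι ⊕ ι) where
  left a := a.isRight
  om := om0 ι
  same a b h := by rcases a with a | a <;> rcases b with b | b <;> simp_all [om0]
  anti a b := by
    rcases a with a | a <;> rcases b with b | b <;> simp only [om0, neg_zero] <;>
      by_cases h : a = b <;> simp [h, eq_comm]

/-- commutators with extra central variables -/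
def om1 : (ι ⊕ ι) ⊕ κ → (ι ⊕ ι) ⊕ κ → ℤ
  | .inl a, .inl b => om0 ι a b
  | .inl _, .inr _ => 0
  | .inr _, _ => 0

/-- shape of the Weyl algebra with central variables -/
def sh1 : Shape ((ι ⊕ ι) ⊕ κ) where
  left a := Sum.elim (fun a => a.isRight) (fun _ => true) a
  om := om1 ι κ
  same a b h := by
    rcases a with a | a <;> rcases b with b | b <;> simp only [om1]
    exact (sh0 ι).same a b h
  anti a b := by
    rcases a with a | a <;> rcases b with b | b <;> simp only [om1, neg_zero]
    exact (sh0 ι).anti a b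

variable {ι κ} {R : Type} [CommRing R]

theorem der0_eq (a : ι ⊕ ι) : ∃ (b : ι ⊕ ι) (e : ℤ), e * e = 1 ∧ ∀ f : MvPolynomial (ι ⊕ ι) R,
    der (sh0 ι) R b f = e • pderiv a f := by
  rcases a with i | i
  · refine ⟨.inr i, -1, by norm_num, fun f => ?_⟩
    have : der (sh0 ι) R (.inr i) = (-1 : ℤ) • pderiv (.inl i) := by
      apply derivation_ext
      rintro (j | j)
      · by_cases h : i = j <;> simp [sh0, om0, h, pderiv_X, eq_comm]
      · simp [sh0, om0, pderiv_X]
    rw [this]; rfl
  · refine ⟨.inl i, 1, by norm_num, fun f => ?_⟩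
    have : der (sh0 ι) R (.inl i) = (1 : ℤ) • pderiv (.inr i) := by
      apply derivation_ext
      rintro (j | j)
      · simp [sh0, om0, pderiv_X]
      · by_cases h : i = j <;> simp [sh0, om0, h, pderiv_X, eq_comm]
    rw [this]; rfl

theorem der1_eq (a : ι ⊕ ι) : ∃ (b : ι ⊕ ι) (e : ℤ), e * e = 1 ∧
    ∀ f : MvPolynomial ((ι ⊕ ι) ⊕ κ) R, der (sh1 ι κ) R (.inl b) f = e • pderiv (.inl a) f := by
  classical
  rcases a with i | i
  · refine ⟨.inr i, -1, by norm_num, fun f => ?_⟩
    have : der (sh1 ι κ) R (.inl (.inr i)) = (-1 : ℤ) • pderiv (.inl (.inl i)) := by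
      apply derivation_ext
      rintro ((j | j) | j)
      · by_cases h : i = j <;> simp [sh1, om1, om0, h, pderiv_X, eq_comm]
      · simp [sh1, om1, om0, pderiv_X]
      · simp [sh1, om1, pderiv_X]
    rw [this]; rfl
  · refine ⟨.inl i, 1, by norm_num, fun f => ?_⟩
    have : der (sh1 ι κ) R (.inl (.inl i)) = (1 : ℤ) • pderiv (.inl (.inr i)) := by
      apply derivation_ext
      rintro ((j | j) | j)
      · simp [sh1, om1, om0, pderiv_X]
      · by_cases h : i = j <;> simp [sh1, om1, om0, h, pderiv_X, eq_comm]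
      · simp [sh1, om1, pderiv_X]
    rw [this]; rfl

theorem pderiv_eq_zero_of_smul {σ : Type} {a : σ} {e : ℤ} (he : e * e = 1)
    {f : MvPolynomial σ R} (h : e • pderiv a f = 0) : pderiv a f = 0 := by
  have := congrArg (fun x => e • x) h
  simp only [smul_smul, he, one_smul, smul_zero] at this
  exact this

end Shapes

/-- a monomial occurring in a polynomial killed by a partial derivative -/
theorem cast_eq_zero_of_pderiv {σ R : Type} [CommRing R] [IsDomain R] {a : σ}
    {f : MvPolynomial σ R} (h : pderiv a f = 0) {n : σ →₀ ℕ} (hn : coeff n f ≠ 0) :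
    ((n a : ℕ) : R) = 0 := by
  classical
  by_cases h0 : n a = 0
  · simp [h0]
  have h1 : Finsupp.single a 1 ≤ n := by
    rw [Finsupp.single_le_iff]; exact Nat.one_le_iff_ne_zero.2 h0
  obtain ⟨m, rfl⟩ := exists_add_of_le h1
  have := coeff_pderiv (i := a) f m
  rw [h, coeff_zero, add_comm m] at this
  have h2 := (mul_eq_zero.1 this.symm).resolve_left hn
  simpa [add_comm] using h2

/-- A skew field of fractions of a Weyl algebra with central variables. -/
structure WF (ι κ k D : Type) [DecidableEq ι] [Field k] [DivisionRing D] [Algebra k D] where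
  g : (ι ⊕ ι) ⊕ κ → D
  sys : (sh1 ι κ).IsSys g
  inj : Function.Injective (phi (sh1 ι κ) k g)
  frac : ∀ u : D, ∃ f h, h ≠ 0 ∧ u = phi (sh1 ι κ) k g f * (phi (sh1 ι κ) k g h)⁻¹

/-- the centre of a division ring, as a type of its own -/
def Ctr (D : Type) [DivisionRing D] : Type := Subring.center D

noncomputable instance (D : Type) [DivisionRing D] : Field (Ctr D) :=
  inferInstanceAs (Field (Subring.center D))

noncomputable instance (D : Type) [DivisionRing D] : Algebra (Ctr D) D :=
  RingHom.toAlgebra' (R := Ctr D) (Subring.center D).subtype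
    (fun c x => (Subring.mem_center_iff.1 c.2 x).symm)

noncomputable instance (k D : Type) [Field k] [DivisionRing D] [Algebra k D] :
    Algebra k (Ctr D) :=
  RingHom.toAlgebra (S := Ctr D) ((algebraMap k D).codRestrict (Subring.center D)
    (fun c => Subring.mem_center_iff.2 fun x => (Algebra.commutes c x).symm))

instance (k D : Type) [Field k] [DivisionRing D] [Algebra k D] : IsScalarTower k (Ctr D) D :=
  IsScalarTower.of_algebraMap_eq fun _ => rfl

theorem Ctr.exists_eq {D : Type} [DivisionRing D] (u : D) (hu : ∀ x, u * x = x * u) :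
    ∃ z : Ctr D, algebraMap (Ctr D) D z = u :=
  ⟨⟨u, Subring.mem_center_iff.2 fun x => (hu x).symm⟩, rfl⟩

namespace WF
variable {ι κ k D : Type} [DecidableEq ι] [Field k] [DivisionRing D] [Algebra k D]
  (w : WF ι κ k D)

/-- normal ordering map of a Weyl skew field -/
noncomputable abbrev Φ : MvPolynomial ((ι ⊕ ι) ⊕ κ) k →ₗ[k] D := phi (sh1 ι κ) k w.g

theorem phi_ne_zero {f : MvPolynomial ((ι ⊕ ι) ⊕ κ) k} (hf : f ≠ 0) : w.Φ f ≠ 0 := by
  intro h
  exact hf (w.inj (h.trans (map_zero _).symm))

theorem central_of_gens {u : D} (hu : ∀ a, u * w.g a = w.g a * u) (x : D) : u * x = x * u := by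
  obtain ⟨f, h, -, rfl⟩ := w.frac x
  have h1 : Commute u (w.Φ f) := commute_phi w.sys hu f
  have h2 : Commute u (w.Φ h) := commute_phi w.sys hu h
  exact (h1.mul_right h2.inv_right₀).eq

theorem y_comm (j : κ) (a : (ι ⊕ ι) ⊕ κ) : w.g (.inr j) * w.g a = w.g a * w.g (.inr j) := by
  have := w.sys (.inr j) a
  simpa [sh1, om1, sub_eq_zero] using this

theorem y_central (j : κ) (x : D) : w.g (.inr j) * x = x * w.g (.inr j) :=
  w.central_of_gens (w.y_comm j) x

theorem phi_rename {Z : Type} [Field Z] [Algebra k Z] [Algebra Z D] [IsScalarTower k Z D]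
    (y : κ → Z) (hy : ∀ j, algebraMap Z D (y j) = w.g (.inr j)) (f : MvPolynomial κ k) :
    w.Φ (rename Sum.inr f) = algebraMap Z D (aeval y f) := by
  induction f using poly_ind with
  | hC c => rw [rename_C, phi_C w.sys, aeval_C, ← IsScalarTower.algebraMap_apply]
  | hadd p q hp hq => simp [hp, hq]
  | hX p j hp =>
    rw [map_mul, rename_X, phi_left w.sys rfl, hp, map_mul, aeval_X, map_mul, hy]

theorem exists_rename [CharZero k] {f : MvPolynomial ((ι ⊕ ι) ⊕ κ) k}
    (hf : ∀ a, der (sh1 ι κ) k (.inl a) f = 0) : ∃ f0 : MvPolynomial κ k, rename Sum.inr f0 = f := by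
  classical
  apply exists_rename_eq_of_vars_subset_range _ _ Sum.inr_injective
  rintro (a | j) ha
  · exfalso
    obtain ⟨n, hn, ha⟩ := (mem_vars_iff_mem_support _).1 (Finset.mem_coe.1 ha)
    obtain ⟨b, e, he, hb⟩ := der1_eq (κ := κ) (R := k) a
    have h0 := pderiv_eq_zero_of_smul he ((hb f).symm.trans (hf b))
    have := cast_eq_zero_of_pderiv h0 (mem_support_iff.1 hn)
    exact Finsupp.mem_support_iff.1 ha (by exact_mod_cast this)
  · exact ⟨j, rfl⟩

/-- In characteristic 0 the centre consists of the rational functions of the central variables. -/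
theorem center_charZero [Fintype ι] [Fintype κ] [CharZero k] {u : D} (hu : ∀ x, u * x = x * u) :
    ∃ f h : MvPolynomial κ k, h ≠ 0 ∧ u * w.Φ (rename Sum.inr h) = w.Φ (rename Sum.inr f) := by
  have key : ∀ (N : ℕ) (f h : MvPolynomial ((ι ⊕ ι) ⊕ κ) k), h ≠ 0 → DegLT N h →
      u * w.Φ h = w.Φ f →
      ∃ f h : MvPolynomial κ k, h ≠ 0 ∧ u * w.Φ (rename Sum.inr h) = w.Φ (rename Sum.inr f) := by
    intro N
    induction N with
    | zero =>
      intro f h h0 hN _
      exact absurd (hN.totalDegree_lt h0) (by simp)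
    | succ N ih =>
      intro f h h0 hN huf
      have hd : ∀ a, u * w.Φ (der (sh1 ι κ) k a h) = w.Φ (der (sh1 ι κ) k a f) := by
        intro a
        rw [← ad_phi w.sys, ← ad_phi w.sys]
        change _ = w.g a * w.Φ f - w.Φ f * w.g a
        rw [← huf, mul_sub, ← mul_assoc, hu, mul_assoc, mul_assoc]
      by_cases hall : ∀ a, der (sh1 ι κ) k (.inl a) h = 0
      · obtain ⟨h1, rfl⟩ := exists_rename hall
        obtain ⟨f1, rfl⟩ := exists_rename (f := f) (by
          intro a
          apply w.inj
          rw [map_zero]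
          change w.Φ _ = 0
          rw [← hd, hall, map_zero, mul_zero])
        exact ⟨f1, h1, fun h => h0 (by rw [h, map_zero]), huf⟩
      · push Not at hall
        obtain ⟨a, ha⟩ := hall
        exact ih _ _ ha (hN.der _) (hd _)
  obtain ⟨f, h, h0, hu'⟩ := w.frac u
  refine key _ f h h0 (degLT_totalDegree h) ?_
  rw [hu', mul_assoc, inv_mul_cancel₀ (w.phi_ne_zero h0), mul_one]

end WF

/-- cardinality bound from algebraic independence -/
theorem card_le_of_alg {K Z ι ι' : Type} [Field K] [Field Z] [Algebra K Z] [Fintype ι]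
    [Fintype ι'] {z : ι → Z} (hz : AlgebraicIndependent K z) (w : ι' → Z)
    (halg : Algebra.IsAlgebraic (Algebra.adjoin K (Set.range w)) Z) :
    Fintype.card ι ≤ Fintype.card ι' := by
  have h1 := hz.cardinalMk_le_trdeg
  have h2 := Algebra.IsAlgebraic.trdeg_le_cardinalMk K (Set.range w)
  have h3 := h1.trans (h2.trans Cardinal.mk_range_le)
  simpa using h3

theorem indep_of_alg {K Z ι ι' : Type} [Field K] [Field Z] [Algebra K Z] [Fintype ι]
    [Fintype ι'] {z : ι → Z} (hz : AlgebraicIndependent K z) (w : ι' → Z)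
    (hcard : Fintype.card ι' ≤ Fintype.card ι)
    (halg : Algebra.IsAlgebraic (Algebra.adjoin K (Set.range w)) Z) :
    AlgebraicIndependent K w := by
  refine (Algebra.IsAlgebraic.isTranscendenceBasis_of_le_trdeg_of_finite K w ?_).1
  refine le_trans ?_ hz.cardinalMk_le_trdeg
  simpa using hcard

/-- a quotient of two elements of a subalgebra is algebraic over it -/
theorem isAlgebraic_of_mul_eq {K Z : Type} [Field K] [Field Z] [Algebra K Z]
    (A : Subalgebra K Z) {u a b : Z} (ha : a ∈ A) (hb : b ∈ A) (hb0 : b ≠ 0) (h : u * b = a) :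
    IsAlgebraic A u := by
  refine ⟨Polynomial.C ⟨b, hb⟩ * Polynomial.X - Polynomial.C ⟨a, ha⟩, ?_, ?_⟩
  · intro h0
    have := congrArg (fun q => Polynomial.coeff q 1) h0
    simp at this
    exact hb0 (congrArg Subtype.val this)
  · rw [map_sub, map_mul, Polynomial.aeval_C, Polynomial.aeval_C, Polynomial.aeval_X]
    change b * u - a = 0
    rw [mul_comm, h, sub_self]

theorem WF.two_le_card {ι κ k D : Type} [DecidableEq ι] [Fintype ι] [Fintype κ] [Field k]
    [CharZero k] [DivisionRing D] [Algebra k D] (w : WF ι κ k D) (c : Fin 2 → Ctr D)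
    (hc : AlgebraicIndependent k c) : 2 ≤ Fintype.card κ := by
  choose y hy using fun j => Ctr.exists_eq (w.g (.inr j)) (w.y_central j)
  have := card_le_of_alg hc y ⟨fun u => ?_⟩
  · simpa using this
  obtain ⟨f, h, h0, hu⟩ := w.center_charZero (u := algebraMap (Ctr D) D u)
    (fun x => Algebra.commutes u x)
  have h1 : w.Φ (rename Sum.inr h) ≠ 0 := w.phi_ne_zero fun h2 =>
    h0 (rename_injective _ Sum.inr_injective (h2.trans (map_zero _).symm))
  rw [w.phi_rename y hy] at h1
  rw [w.phi_rename y hy, w.phi_rename y hy, ← map_mul] at hu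
  refine isAlgebraic_of_mul_eq _ (a := aeval y f) (b := aeval y h) ?_ ?_ ?_
    ((algebraMap (Ctr D) D).injective hu)
  · rw [Algebra.adjoin_range_eq_range_aeval]; exact ⟨f, rfl⟩
  · rw [Algebra.adjoin_range_eq_range_aeval]; exact ⟨h, rfl⟩
  · intro h2; exact h1 (by rw [h2, map_zero])

end Pool.Agent.Lib.MP_75bae7_al
end

-- part Pool.Agent.Lib.MP_75bae7_al.Gauss
section

/-!
The Gauss valuation on a Weyl skew field and its residue skew field.
-/

set_option autoImplicit false

namespace Pool.Agent.Lib.MP_75bae7_al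

open MvPolynomial

section Gauss
variable {σ F : Type} [Field F] (V : ValuationSubring F)

/-- Gauss norm of a polynomial -/
noncomputable def gauss (f : MvPolynomial σ F) : V.ValueGroup :=
  f.support.sup fun n => V.valuation (coeff n f)

variable {V}

theorem gauss_le_iff {f : MvPolynomial σ F} {γ : V.ValueGroup} :
    gauss V f ≤ γ ↔ ∀ n, V.valuation (coeff n f) ≤ γ := by
  rw [gauss, Finset.sup_le_iff]
  constructor
  · intro h n
    by_cases hn : n ∈ f.support
    · exact h n hn
    · rw [notMem_support_iff.1 hn, map_zero]; exact zero_le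
  · exact fun h n _ => h n

theorem le_gauss (f : MvPolynomial σ F) (n : σ →₀ ℕ) : V.valuation (coeff n f) ≤ gauss V f :=
  gauss_le_iff.1 le_rfl n

theorem gauss_zero : gauss V (0 : MvPolynomial σ F) = 0 := by
  apply le_antisymm _ zero_le
  rw [gauss_le_iff]; simp

theorem exists_gauss_eq {f : MvPolynomial σ F} (hf : f ≠ 0) :
    ∃ n, coeff n f ≠ 0 ∧ V.valuation (coeff n f) = gauss V f := by
  obtain ⟨n, hn, h⟩ := Finset.exists_mem_eq_sup f.support (support_nonempty.2 hf)
    (fun n => V.valuation (coeff n f))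
  exact ⟨n, mem_support_iff.1 hn, h.symm⟩

theorem gauss_ne_zero {f : MvPolynomial σ F} (hf : f ≠ 0) : gauss V f ≠ 0 := by
  obtain ⟨n, hn, h⟩ := exists_gauss_eq (V := V) hf
  rw [← h]; exact (Valuation.ne_zero_iff _).2 hn

theorem gauss_add (f h : MvPolynomial σ F) : gauss V (f + h) ≤ max (gauss V f) (gauss V h) := by
  rw [gauss_le_iff]
  intro n
  rw [coeff_add]
  exact (V.valuation.map_add _ _).trans (max_le_max (le_gauss f n) (le_gauss h n))

theorem gauss_smul (c : F) (f : MvPolynomial σ F) :
    gauss V (c • f) = V.valuation c * gauss V f := by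
  apply le_antisymm
  · rw [gauss_le_iff]
    intro n
    rw [coeff_smul, smul_eq_mul, map_mul]
    exact mul_le_mul_right (le_gauss f n) _
  · by_cases hf : f = 0
    · rw [hf, gauss_zero, mul_zero]; exact zero_le
    obtain ⟨n, -, h⟩ := exists_gauss_eq (V := V) hf
    rw [← h, ← map_mul, ← smul_eq_mul, ← coeff_smul]
    exact le_gauss _ n

theorem exists_lift {f : MvPolynomial σ F} (hf : gauss V f ≤ 1) :
    ∃ f0 : MvPolynomial σ V, map (algebraMap V F) f0 = f := by
  classical
  have h : ∀ n, coeff n f ∈ V := fun n => (V.valuation_le_one_iff _).1 ((le_gauss f n).trans hf)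
  refine ⟨∑ n ∈ f.support, monomial n ⟨coeff n f, h n⟩, ?_⟩
  rw [map_sum]
  conv_rhs => rw [f.as_sum]
  refine Finset.sum_congr rfl fun n _ => ?_
  rw [map_monomial]; rfl

theorem gauss_map_le (f0 : MvPolynomial σ V) : gauss V (map (algebraMap V F) f0) ≤ 1 := by
  rw [gauss_le_iff]
  intro n
  rw [coeff_map]
  exact V.valuation_le_one _

theorem gauss_map_lt_iff (f0 : MvPolynomial σ V) :
    gauss V (map (algebraMap V F) f0) < 1 ↔ map (IsLocalRing.residue V) f0 = 0 := by
  constructor
  · intro h
    ext n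
    rw [coeff_map, coeff_zero, IsLocalRing.residue_eq_zero_iff, V.valuation_lt_one_iff]
    have := (le_gauss _ n).trans_lt h
    rwa [coeff_map] at this
  · intro h
    by_cases hf : map (algebraMap V F) f0 = 0
    · rw [hf, gauss_zero]; exact zero_lt_one
    obtain ⟨n, -, hn⟩ := exists_gauss_eq (V := V) hf
    rw [← hn, coeff_map]
    have := congrArg (coeff n) h
    rw [coeff_map, coeff_zero, IsLocalRing.residue_eq_zero_iff, V.valuation_lt_one_iff] at this
    exact this

theorem gauss_map_eq_one_iff (f0 : MvPolynomial σ V) :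
    gauss V (map (algebraMap V F) f0) = 1 ↔ map (IsLocalRing.residue V) f0 ≠ 0 := by
  rw [Ne, ← gauss_map_lt_iff]
  have := gauss_map_le f0
  constructor
  · intro h; rw [h]; exact lt_irrefl _
  · intro h; exact le_antisymm this (not_lt.1 h)

theorem exists_normalize {f : MvPolynomial σ F} (hf : f ≠ 0) :
    ∃ (c : F) (f1 : MvPolynomial σ F), c ≠ 0 ∧ gauss V f1 = 1 ∧ f = c • f1 := by
  obtain ⟨n, hn, h⟩ := exists_gauss_eq (V := V) hf
  refine ⟨coeff n f, (coeff n f)⁻¹ • f, hn, ?_, ?_⟩
  · rw [gauss_smul, map_inv₀, h, inv_mul_cancel₀ (gauss_ne_zero hf)]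
  · rw [smul_smul, mul_inv_cancel₀ hn, one_smul]

theorem gauss_star [Fintype σ] (S : Shape σ) (f h : MvPolynomial σ F) :
    gauss V (star S f h) = gauss V f * gauss V h := by
  by_cases hf : f = 0
  · simp [hf, star, gauss_zero]
  by_cases hh : h = 0
  · simp [hh, star, gauss_zero]
  obtain ⟨c, f1, -, hf1, rfl⟩ := exists_normalize (V := V) hf
  obtain ⟨d, h1, -, hh1, rfl⟩ := exists_normalize (V := V) hh
  rw [star_smul, star_smul', gauss_smul, gauss_smul, gauss_smul, gauss_smul, hf1, hh1]
  obtain ⟨f0, rfl⟩ := exists_lift hf1.le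
  obtain ⟨h0, rfl⟩ := exists_lift hh1.le
  rw [← map_star, (gauss_map_eq_one_iff _).2, mul_one, mul_one]
  rw [map_star]
  exact star_ne_zero ((gauss_map_eq_one_iff _).1 hf1) ((gauss_map_eq_one_iff _).1 hh1)

theorem gauss_C (c : F) : gauss V (C c : MvPolynomial σ F) = V.valuation c := by
  classical
  apply le_antisymm
  · rw [gauss_le_iff]
    intro n
    rw [coeff_C]
    split_ifs
    · exact le_rfl
    · rw [map_zero]; exact zero_le
  · simpa using le_gauss (V := V) (C c : MvPolynomial σ F) 0

end Gauss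

namespace WF
variable {ι κ F D : Type} [DecidableEq ι] [Fintype ι] [Fintype κ] [Field F] [DivisionRing D]
  [Algebra F D] (w : WF ι κ F D) (V : ValuationSubring F)

omit [Fintype ι] [Fintype κ] in
theorem ore (f : MvPolynomial ((ι ⊕ ι) ⊕ κ) F) {h : MvPolynomial ((ι ⊕ ι) ⊕ κ) F} (hh : h ≠ 0) :
    ∃ a b, b ≠ 0 ∧ star (sh1 ι κ) f b = star (sh1 ι κ) h a ∧
      (w.Φ h)⁻¹ * w.Φ f = w.Φ a * (w.Φ b)⁻¹ := by
  obtain ⟨a, b, hb, e⟩ := w.frac ((w.Φ h)⁻¹ * w.Φ f)
  refine ⟨a, b, hb, w.inj ?_, e⟩
  rw [phi_star w.sys, phi_star w.sys]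
  have h1 := w.phi_ne_zero hh
  have h2 := w.phi_ne_zero hb
  have : w.Φ a = (w.Φ h)⁻¹ * w.Φ f * w.Φ b := by
    rw [e, mul_assoc, inv_mul_cancel₀ h2, mul_one]
  change w.Φ f * w.Φ b = w.Φ h * w.Φ a
  rw [this, ← mul_assoc, ← mul_assoc, mul_inv_cancel₀ h1, one_mul]

omit [Fintype ι] [Fintype κ] in
theorem frac_expand (f : MvPolynomial ((ι ⊕ ι) ⊕ κ) F) {h c : MvPolynomial ((ι ⊕ ι) ⊕ κ) F}
    (hc : c ≠ 0) :
    w.Φ (star (sh1 ι κ) f c) * (w.Φ (star (sh1 ι κ) h c))⁻¹ = w.Φ f * (w.Φ h)⁻¹ := by
  rw [phi_star w.sys, phi_star w.sys, mul_inv_rev]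
  have h2 := w.phi_ne_zero hc
  change w.Φ f * w.Φ c * ((w.Φ c)⁻¹ * (w.Φ h)⁻¹) = _
  rw [mul_assoc, ← mul_assoc (w.Φ c), mul_inv_cancel₀ h2, one_mul]

theorem common_den (u u' : D) : ∃ f f' h, h ≠ 0 ∧ u = w.Φ f * (w.Φ h)⁻¹ ∧
    u' = w.Φ f' * (w.Φ h)⁻¹ := by
  obtain ⟨f, h, hh, rfl⟩ := w.frac u
  obtain ⟨f', h', hh', rfl⟩ := w.frac u'
  obtain ⟨a, b, hb, e, -⟩ := w.ore h hh'
  have h0 : star (sh1 ι κ) h b ≠ 0 := star_ne_zero hh hb
  have ha : a ≠ 0 := by
    rintro rfl
    apply h0; rw [e]; simp [star]
  refine ⟨star (sh1 ι κ) f b, star (sh1 ι κ) f' a, star (sh1 ι κ) h b, h0,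
    (w.frac_expand f hb).symm, ?_⟩
  rw [e]; exact (w.frac_expand f' ha).symm

theorem gauss_welldef {f f' h h' : MvPolynomial ((ι ⊕ ι) ⊕ κ) F} (hh : h ≠ 0) (hh' : h' ≠ 0)
    (e : w.Φ f * (w.Φ h)⁻¹ = w.Φ f' * (w.Φ h')⁻¹) :
    gauss V f * (gauss V h)⁻¹ = gauss V f' * (gauss V h')⁻¹ := by
  obtain ⟨a, b, hb, e1, -⟩ := w.ore h hh'
  have h0 : star (sh1 ι κ) h b ≠ 0 := star_ne_zero hh hb
  have ha : a ≠ 0 := by
    rintro rfl
    apply h0; rw [e1]; simp [star]
  rw [← w.frac_expand f hb, ← w.frac_expand f' ha, ← e1] at e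
  have e2 := w.inj (mul_right_cancel₀ (inv_ne_zero (w.phi_ne_zero h0)) e)
  have g1 := congrArg (gauss V) e1
  have g2 := congrArg (gauss V) e2
  rw [gauss_star, gauss_star] at g1 g2
  have n1 := gauss_ne_zero (V := V) hh
  have n2 := gauss_ne_zero (V := V) hh'
  have n3 := gauss_ne_zero (V := V) hb
  have : gauss V f * (gauss V h)⁻¹ = gauss V f * gauss V b * (gauss V h * gauss V b)⁻¹ := by
    field_simp
  rw [this, g1, g2]
  have n4 := gauss_ne_zero (V := V) ha
  field_simp

theorem exists_nu : ∃ ν : Valuation D V.ValueGroup, ∀ f, ν (w.Φ f) = gauss V f := by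
  choose nf nh hnh hnf using w.frac
  let ν : D → V.ValueGroup := fun u => gauss V (nf u) * (gauss V (nh u))⁻¹
  have hν : ∀ f h, h ≠ 0 → ν (w.Φ f * (w.Φ h)⁻¹) = gauss V f * (gauss V h)⁻¹ := by
    intro f h hh
    exact w.gauss_welldef V (hnh _) hh (hnf _).symm
  have g1 : gauss V (1 : MvPolynomial ((ι ⊕ ι) ⊕ κ) F) = 1 := by
    rw [← C_1, gauss_C, map_one]
  have hν1 : ∀ f, ν (w.Φ f) = gauss V f := by
    intro f
    have := hν f 1 one_ne_zero
    rwa [phi_one w.sys, inv_one, mul_one, g1, inv_one, mul_one] at this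
  refine ⟨{ toFun := ν, map_zero' := ?_, map_one' := ?_, map_mul' := ?_,
            map_add_le_max' := ?_ }, hν1⟩
  · have := hν1 0
    rwa [map_zero, gauss_zero] at this
  · have := hν1 1
    rwa [phi_one w.sys, g1] at this
  · intro u u'
    obtain ⟨f, h, hh, rfl⟩ := w.frac u
    obtain ⟨f', h', hh', rfl⟩ := w.frac u'
    obtain ⟨a, b, hb, e1, e2⟩ := w.ore f' hh
    have : w.Φ f * (w.Φ h)⁻¹ * (w.Φ f' * (w.Φ h')⁻¹)
        = w.Φ (star (sh1 ι κ) f a) * (w.Φ (star (sh1 ι κ) h' b))⁻¹ := by
      rw [phi_star w.sys, phi_star w.sys, mul_inv_rev]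
      change _ = w.Φ f * w.Φ a * ((w.Φ b)⁻¹ * (w.Φ h')⁻¹)
      rw [mul_assoc, ← mul_assoc (w.Φ h)⁻¹, e2]
      simp only [mul_assoc]
    rw [this, hν _ _ (star_ne_zero hh' hb), hν _ _ hh, hν _ _ hh', gauss_star, gauss_star]
    have g1 := congrArg (gauss V) e1
    rw [gauss_star, gauss_star] at g1
    have n1 := gauss_ne_zero (V := V) hh
    have n2 := gauss_ne_zero (V := V) hh'
    have n3 := gauss_ne_zero (V := V) hb
    have : gauss V a = gauss V f' * gauss V b * (gauss V h)⁻¹ := by
      rw [g1]; field_simp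
    rw [this]; field_simp
  · intro u u'
    obtain ⟨f, f', h, hh, rfl, rfl⟩ := w.common_den u u'
    rw [← add_mul, ← map_add, hν _ _ hh, hν _ _ hh, hν _ _ hh, max_mul_mul_right]
    exact mul_le_mul_left (gauss_add f f') _

/-- The Gauss valuation. -/
noncomputable def nu : Valuation D V.ValueGroup := (w.exists_nu V).choose

theorem nu_phi (f : MvPolynomial ((ι ⊕ ι) ⊕ κ) F) : w.nu V (w.Φ f) = gauss V f :=
  (w.exists_nu V).choose_spec f

theorem nu_algebraMap (c : F) : w.nu V (algebraMap F D c) = V.valuation c := by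
  rw [← phi_C w.sys, w.nu_phi, gauss_C]

theorem nu_g (a : (ι ⊕ ι) ⊕ κ) : w.nu V (w.g a) ≤ 1 := by
  rw [← phi_X (R := F) w.sys, w.nu_phi, ← map_X (algebraMap V F)]
  exact gauss_map_le _

theorem exists_scalar (u : D) : ∃ c : F, V.valuation c = w.nu V u :=
  V.valuation_surjective _

/-- The valuation ring. -/
noncomputable abbrev O : Subring D := (w.nu V).integer

noncomputable instance : Algebra V (w.O V) :=
  RingHom.toAlgebra' (((algebraMap F D).comp (algebraMap V F)).codRestrict (w.O V) (fun c => by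
      rw [Valuation.mem_integer_iff, RingHom.comp_apply, w.nu_algebraMap]
      exact V.valuation_le_one c))
    (fun c x => Subtype.ext (Algebra.commutes (c : F) (x : D)))

theorem coe_algebraMap (c : V) : ((algebraMap V (w.O V) c : w.O V) : D) = algebraMap F D c := rfl

/-- generators inside the valuation ring -/
noncomputable def gO (a : (ι ⊕ ι) ⊕ κ) : w.O V := ⟨w.g a, w.nu_g V a⟩

theorem gO_sys : (sh1 ι κ).IsSys (w.gO V) := by
  intro a b
  apply Subtype.ext
  have := w.sys a b
  simpa [gO] using this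

theorem coe_phiO (f0 : MvPolynomial ((ι ⊕ ι) ⊕ κ) V) :
    ((phi (sh1 ι κ) V (w.gO V) f0 : w.O V) : D) = w.Φ (map (algebraMap V F) f0) :=
  map_phi (w.gO_sys V) (algebraMap V F) (w.O V).subtype (fun _ => rfl) f0

/-- The maximal ideal. -/
noncomputable def mI : TwoSidedIdeal (w.O V) :=
  TwoSidedIdeal.mk' {u | w.nu V u < 1} (by simp)
    (fun {x y} hx hy => (w.nu V).map_add_lt hx hy)
    (fun {x} hx => by simpa using hx)
    (fun {x y} hy => by
      change w.nu V (x * y) < 1
      rw [map_mul]
      exact mul_lt_one_of_nonneg_of_lt_one_right x.2 zero_le hy)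
    (fun {x y} hx => by
      change w.nu V (x * y) < 1
      rw [map_mul]
      exact mul_lt_one_of_nonneg_of_lt_one_left zero_le hx y.2)

/-- The residue skew field. -/
def Db : Type := (w.mI V).ringCon.Quotient

noncomputable instance : Ring (w.Db V) := inferInstanceAs (Ring (w.mI V).ringCon.Quotient)

/-- The reduction map. -/
noncomputable def red : w.O V →+* w.Db V := (w.mI V).ringCon.mk'

theorem red_surjective : Function.Surjective (w.red V) := RingCon.mk'_surjective _

theorem red_eq_zero_iff (u : w.O V) : w.red V u = 0 ↔ w.nu V u < 1 := by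
  have : w.red V u = 0 ↔ u ∈ w.mI V := by
    rw [TwoSidedIdeal.mem_iff]
    exact RingCon.eq (w.mI V).ringCon (a := u) (b := 0)
  rw [this, mI, TwoSidedIdeal.mem_mk']
  rfl

theorem red_ne_zero_iff (u : w.O V) : w.red V u ≠ 0 ↔ w.nu V u = 1 := by
  rw [Ne, red_eq_zero_iff]
  exact ⟨fun h => le_antisymm u.2 (not_lt.1 h), fun h => by rw [h]; exact lt_irrefl _⟩

theorem ne_zero_of_nu {u : D} (hu : w.nu V u = 1) : u ≠ 0 := by
  rintro rfl
  rw [map_zero] at hu
  exact zero_ne_one hu

theorem inv_mem {u : D} (hu : w.nu V u = 1) : u⁻¹ ∈ w.O V := by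
  rw [Valuation.mem_integer_iff, map_inv₀, hu, inv_one]

instance : Nontrivial (w.Db V) :=
  ⟨⟨1, 0, by rw [← map_one (w.red V), red_ne_zero_iff]; simp⟩⟩

noncomputable instance : DivisionRing (w.Db V) :=
  DivisionRing.ofIsUnitOrEqZero fun a => by
    obtain ⟨u, rfl⟩ := w.red_surjective V a
    by_cases h : w.red V u = 0
    · exact Or.inr h
    · left
      have h1 := (w.red_ne_zero_iff V u).1 h
      have h2 := w.ne_zero_of_nu V h1
      refine IsUnit.map _ ⟨⟨u, ⟨_, w.inv_mem V h1⟩, Subtype.ext ?_, Subtype.ext ?_⟩, rfl⟩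
      · exact mul_inv_cancel₀ h2
      · exact inv_mul_cancel₀ h2

theorem red_inv (u : w.O V) (hu : w.nu V u = 1) :
    w.red V ⟨_, w.inv_mem V hu⟩ = (w.red V u)⁻¹ := by
  apply eq_inv_of_mul_eq_one_left
  rw [← map_mul, ← map_one (w.red V)]
  congr 1
  exact Subtype.ext (inv_mul_cancel₀ (w.ne_zero_of_nu V hu))

noncomputable instance : Algebra (IsLocalRing.ResidueField V) (w.Db V) :=
  RingHom.toAlgebra' (Ideal.Quotient.lift (IsLocalRing.maximalIdeal V)
      ((w.red V).comp (algebraMap V (w.O V))) (fun c hc => by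
        rw [RingHom.comp_apply, red_eq_zero_iff, coe_algebraMap, nu_algebraMap]
        exact (V.valuation_lt_one_iff c).1 hc))
    (fun c x => by
      obtain ⟨c, rfl⟩ := Ideal.Quotient.mk_surjective c
      obtain ⟨u, rfl⟩ := w.red_surjective V x
      change w.red V _ * _ = _ * w.red V _
      rw [← map_mul, ← map_mul, Algebra.commutes])

theorem red_algebraMap (c : V) : w.red V (algebraMap V (w.O V) c) =
    algebraMap (IsLocalRing.ResidueField V) (w.Db V) (IsLocalRing.residue V c) := rfl

theorem red_phiO (f0 : MvPolynomial ((ι ⊕ ι) ⊕ κ) V) :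
    w.red V (phi (sh1 ι κ) V (w.gO V) f0) = phi (sh1 ι κ) (IsLocalRing.ResidueField V)
      (fun a => w.red V (w.gO V a)) (map (IsLocalRing.residue V) f0) :=
  map_phi (w.gO_sys V) _ _ (w.red_algebraMap V) f0

/-- integral elements as fractions with a primitive denominator -/
theorem exists_frac_O (u : w.O V) : ∃ f0 h0 : MvPolynomial ((ι ⊕ ι) ⊕ κ) V,
    map (IsLocalRing.residue V) h0 ≠ 0 ∧
      u * phi (sh1 ι κ) V (w.gO V) h0 = phi (sh1 ι κ) V (w.gO V) f0 := by
  obtain ⟨f, h, hh, e⟩ := w.frac u
  obtain ⟨c, h1, hc, hh1, rfl⟩ := exists_normalize (V := V) hh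
  have hn : w.Φ h1 ≠ 0 := w.ne_zero_of_nu V (by rw [nu_phi, hh1])
  have e2 : (u : D) * w.Φ h1 = w.Φ (c⁻¹ • f) := by
    have h3 := w.phi_ne_zero hh
    have : (u : D) * w.Φ (c • h1) = w.Φ f := by
      rw [e, mul_assoc, inv_mul_cancel₀ h3, mul_one]
    rw [map_smul, ← this, map_smul, mul_smul_comm, smul_smul, inv_mul_cancel₀ hc, one_smul]
  have h4 : gauss V (c⁻¹ • f) ≤ 1 := by
    rw [← w.nu_phi, ← e2, map_mul, nu_phi, hh1, mul_one]; exact u.2
  obtain ⟨f0, hf0⟩ := exists_lift h4
  obtain ⟨h0, rfl⟩ := exists_lift hh1.le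
  refine ⟨f0, h0, (gauss_map_eq_one_iff _).1 hh1, Subtype.ext ?_⟩
  rw [Subring.coe_mul, coe_phiO, coe_phiO, e2, hf0]

/-- The residue skew field is a Weyl skew field. -/
noncomputable def wb : WF ι κ (IsLocalRing.ResidueField V) (w.Db V) where
  g a := w.red V (w.gO V a)
  sys a b := by
    have := congrArg (w.red V) (w.gO_sys V a b)
    simpa using this
  inj := by
    rw [injective_iff_map_eq_zero]
    intro f hf
    obtain ⟨f0, rfl⟩ := map_surjective _ (IsLocalRing.residue_surjective (R := V)) f
    rw [← red_phiO, red_eq_zero_iff, coe_phiO, nu_phi, gauss_map_lt_iff] at hf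
    exact hf
  frac u := by
    obtain ⟨u, rfl⟩ := w.red_surjective V u
    obtain ⟨f0, h0, hh, e⟩ := w.exists_frac_O V u
    refine ⟨map (IsLocalRing.residue V) f0, _, hh, ?_⟩
    rw [← red_phiO, ← red_phiO, ← e, map_mul, mul_assoc, mul_inv_cancel₀, mul_one]
    rw [red_ne_zero_iff, coe_phiO, nu_phi, gauss_map_eq_one_iff]
    exact hh

/-- `T` contains the scalars of `V` and is closed under inverses of units -/
structure Closed (T : Subring D) : Prop where
  scal : ∀ c : V, algebraMap F D c ∈ T
  inv : ∀ u ∈ T, w.nu V u = 1 → u⁻¹ ∈ T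

theorem Closed.O_le {T : Subring D} (hT : w.Closed V T) (hg : ∀ a, w.g a ∈ T) : w.O V ≤ T := by
  have key : ∀ f0 : MvPolynomial ((ι ⊕ ι) ⊕ κ) V, w.Φ (map (algebraMap V F) f0) ∈ T := by
    intro f0
    induction f0 using poly_ind with
    | hC c => rw [map_C, phi_C w.sys]; exact hT.scal c
    | hadd p q hp hq => rw [map_add, map_add]; exact T.add_mem hp hq
    | hX p a hp =>
      rw [map_mul, map_X]
      by_cases ha : (sh1 ι κ).left a = true
      · rw [phi_left w.sys ha]; exact T.mul_mem (hg a) hp
      · rw [phi_right w.sys (Bool.eq_false_iff.2 ha)]; exact T.mul_mem hp (hg a)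
  intro u hu
  obtain ⟨f0, h0, hh, e⟩ := w.exists_frac_O V ⟨u, hu⟩
  have e1 := congrArg Subtype.val e
  rw [Subring.coe_mul, coe_phiO, coe_phiO] at e1
  have h1 : w.nu V (w.Φ (map (algebraMap V F) h0)) = 1 := by
    rw [nu_phi, gauss_map_eq_one_iff]; exact hh
  have : u = w.Φ (map (algebraMap V F) f0) * (w.Φ (map (algebraMap V F) h0))⁻¹ := by
    rw [← e1, mul_assoc, mul_inv_cancel₀ (w.ne_zero_of_nu V h1), mul_one]
  rw [this]
  exact T.mul_mem (key _) (hT.inv _ (key _) h1)

/-- a nonzero element is a unit for all valuation rings containing a suitable finite set -/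
theorem unit_control {u : D} (hu : u ≠ 0) :
    ∃ S : Finset F, ∀ V : ValuationSubring F, (∀ c ∈ S, c ∈ V) → w.nu V u = 1 := by
  classical
  have key : ∀ f : MvPolynomial ((ι ⊕ ι) ⊕ κ) F, f ≠ 0 →
      ∃ S : Finset F, ∀ V : ValuationSubring F, (∀ c ∈ S, c ∈ V) → gauss V f = 1 := by
    intro f hf
    obtain ⟨n, hn⟩ := support_nonempty.2 hf
    have hn' := mem_support_iff.1 hn
    refine ⟨insert (coeff n f)⁻¹ (f.support.image fun m => coeff m f), fun V hV => ?_⟩
    apply le_antisymm
    · rw [gauss, Finset.sup_le_iff]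
      intro m hm
      exact (V.valuation_le_one_iff _).2
        (hV _ (Finset.mem_insert_of_mem (Finset.mem_image_of_mem _ hm)))
    · refine le_trans ?_ (le_gauss f n)
      rw [Valuation.one_le_val_iff _ hn']
      exact (V.valuation_le_one_iff _).2 (hV _ (Finset.mem_insert_self _ _))
  obtain ⟨f, h, hh, rfl⟩ := w.frac u
  have hf : f ≠ 0 := by rintro rfl; simp at hu
  obtain ⟨S1, h1⟩ := key f hf
  obtain ⟨S2, h2⟩ := key h hh
  refine ⟨S1 ∪ S2, fun V hV => ?_⟩
  rw [map_mul, map_inv₀, nu_phi, nu_phi, h1 V fun c hc => hV c (Finset.mem_union_left _ hc),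
    h2 V fun c hc => hV c (Finset.mem_union_right _ hc), inv_one, mul_one]

/-- elements obtained from `G` uniformly for all valuation rings containing a finite set -/
def ctrl (G : Set D) : Subring D where
  carrier := {u | ∃ S : Finset F, ∀ V : ValuationSubring F, (∀ c ∈ S, c ∈ V) →
    ∀ T : Subring D, w.Closed V T → G ⊆ T → u ∈ T}
  zero_mem' := ⟨∅, fun _ _ T _ _ => T.zero_mem⟩
  one_mem' := ⟨∅, fun _ _ T _ _ => T.one_mem⟩
  add_mem' := by
    classical
    rintro a b ⟨S1, h1⟩ ⟨S2, h2⟩
    exact ⟨S1 ∪ S2, fun V hV T hT hG => T.add_mem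
      (h1 V (fun c hc => hV c (Finset.mem_union_left _ hc)) T hT hG)
      (h2 V (fun c hc => hV c (Finset.mem_union_right _ hc)) T hT hG)⟩
  mul_mem' := by
    classical
    rintro a b ⟨S1, h1⟩ ⟨S2, h2⟩
    exact ⟨S1 ∪ S2, fun V hV T hT hG => T.mul_mem
      (h1 V (fun c hc => hV c (Finset.mem_union_left _ hc)) T hT hG)
      (h2 V (fun c hc => hV c (Finset.mem_union_right _ hc)) T hT hG)⟩
  neg_mem' := by
    rintro a ⟨S1, h1⟩
    exact ⟨S1, fun V hV T hT hG => T.neg_mem (h1 V hV T hT hG)⟩

theorem ctrl_scal (G : Set D) (c : F) : algebraMap F D c ∈ w.ctrl G :=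
  ⟨{c}, fun _ hV _ hT _ => hT.scal ⟨c, hV c (Finset.mem_singleton_self c)⟩⟩

theorem ctrl_sub (G : Set D) : G ⊆ w.ctrl G := fun _ hu => ⟨∅, fun _ _ _ _ hG => hG hu⟩

theorem ctrl_inv (G : Set D) {u : D} (hu : u ∈ w.ctrl G) : u⁻¹ ∈ w.ctrl G := by
  classical
  by_cases h0 : u = 0
  · rw [h0, inv_zero]; exact (w.ctrl G).zero_mem
  obtain ⟨S1, h1⟩ := hu
  obtain ⟨S2, h2⟩ := w.unit_control h0
  exact ⟨S1 ∪ S2, fun V hV T hT hG => hT.inv _
    (h1 V (fun c hc => hV c (Finset.mem_union_left _ hc)) T hT hG)
    (h2 V (fun c hc => hV c (Finset.mem_union_right _ hc)))⟩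

end WF

theorem isJacobsonRing_int : IsJacobsonRing ℤ := by
  rw [isJacobsonRing_iff_prime_eq]
  intro P hP
  by_cases h : P = ⊥
  · subst h
    rw [eq_bot_iff]
    intro x hx
    rw [Ideal.mem_jacobson_bot] at hx
    have h1 := Int.isUnit_iff.1 (hx 1)
    have h2 := Int.isUnit_iff.1 (hx (-1))
    have h3 := Int.isUnit_iff.1 (hx 2)
    rw [Ideal.mem_bot]
    omega
  · exact Ideal.jacobson_eq_self_of_isMaximal (H := IsPrime.to_maximal_ideal h)

/-- valuation rings of large residue characteristic containing a given finite set -/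
theorem exists_valuationSubring {F : Type} [Field F] [CharZero F] (S : Finset F) (N : ℕ) :
    ∃ (V : ValuationSubring F) (p : ℕ), p.Prime ∧ N < p ∧ (∀ c ∈ S, c ∈ V) ∧
      V.valuation (p : F) < 1 := by
  classical
  let A : Subalgebra ℤ F := Algebra.adjoin ℤ (insert ((N.factorial : F))⁻¹ (S : Set F))
  have : Algebra.FiniteType ℤ A := by
    have : A = Algebra.adjoin ℤ ((insert ((N.factorial : F))⁻¹ S : Finset F) : Set F) := by
      simp [A]
    rw [this]
    exact (Subalgebra.fg_iff_finiteType _).1 (Subalgebra.fg_adjoin_finset _)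
  obtain ⟨m, hm⟩ := Ideal.exists_maximal A
  let _ : Field (A ⧸ m) := Ideal.Quotient.field m
  have := isJacobsonRing_int
  have : Module.Finite ℤ (A ⧸ m) := finite_of_finite_type_of_isJacobsonRing _ _
  obtain ⟨p, hp⟩ := CharP.exists (A ⧸ m)
  rcases CharP.char_is_prime_or_zero (A ⧸ m) p with hpp | rfl
  swap
  · exfalso
    have := CharP.charP_to_charZero (A ⧸ m)
    exact Int.not_isField ((Algebra.IsIntegral.isField_iff_isField
      (RingHom.injective_int (algebraMap ℤ (A ⧸ m)))).2 (Field.toIsField _))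
  have hpm : (p : A) ∈ m := by
    rw [← Ideal.Quotient.eq_zero_iff_mem, map_natCast]; exact CharP.cast_eq_zero _ p
  obtain ⟨V, hV1, hV2⟩ := Ideal.image_subset_nonunits_valuationSubring (A := A.toSubring) m
    hm.ne_top
  have hv : V.valuation (p : F) < 1 := by
    rw [← V.mem_nonunits_iff]
    exact hV2 ⟨(p : A), hpm, by simp⟩
  refine ⟨V, p, hpp, ?_, fun c hc => hV1 (Algebra.subset_adjoin (Set.mem_insert_of_mem _ hc)), hv⟩
  by_contra hN
  obtain ⟨q, hq⟩ := (Nat.Prime.dvd_factorial hpp).2 (not_lt.1 hN)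
  have h1 : ((N.factorial : F))⁻¹ ∈ V := hV1 (Algebra.subset_adjoin (Set.mem_insert _ _))
  have h2 : (N.factorial : F) ≠ 0 := by exact_mod_cast N.factorial_ne_zero
  rw [← V.valuation_le_one_iff, ← Valuation.one_le_val_iff _ h2, hq, Nat.cast_mul, map_mul] at h1
  have h3 : V.valuation (q : F) ≤ 1 := (V.valuation_le_one_iff _).2 (natCast_mem V q)
  exact absurd (mul_lt_one_of_nonneg_of_lt_one_left zero_le hv h3) (not_lt.2 h1)

end Pool.Agent.Lib.MP_75bae7_al
end
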