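import Mathlib

-- part Pool.Agent.Lib.MP_75bae7_al.Pairs
section

/-!
Shift pairs `θ g - g θ = g` in characteristic `p`: independence and spanning.
-/

set_option autoImplicit false
set_option linter.unusedSectionVars false

namespace Pool.Agent.Lib.MP_75bae7_al

open Polynomial

section
variable {Z R : Type} [CommRing Z] [Ring R] [Algebra Z R]

theorem semiconj_aeval {a t t' : R} (h : a * t = t' * a) (Q : Z[X]) :
    a * aeval t Q = aeval t' Q * a := by
  induction Q using Polynomial.induction_on' with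
  | add f g hf hg => simp [mul_add, add_mul, hf, hg]
  | monomial n c =>
    rw [aeval_monomial, aeval_monomial, ← mul_assoc, ← Algebra.commutes, mul_assoc, mul_assoc,
      (SemiconjBy.pow_right h n).eq]

theorem shift_pow {θ g : R} (h : θ * g - g * θ = g) (n : ℕ) :
    θ * g ^ n - g ^ n * θ = n * g ^ n := by
  induction n with
  | zero => simp
  | succ n ih =>
    have : θ * g ^ (n + 1) - g ^ (n + 1) * θ = (θ * g ^ n - g ^ n * θ) * g
        + g ^ n * (θ * g - g * θ) := by rw [pow_succ]; noncomm_ring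
    rw [this, ih, h, pow_succ]; push_cast; noncomm_ring

theorem shift_semi {θ g : R} (h : θ * g - g * θ = g) : g * θ = (θ - 1) * g := by
  rw [sub_mul, one_mul]; exact (sub_sub_cancel (θ * g) (g * θ)).symm.trans (by rw [h])

end

variable {Z R : Type} [Field Z] [Ring R] [Algebra Z R] {p : ℕ} [hp : Fact p.Prime] [CharP Z p]

theorem cast_p_eq_zero (Z : Type) [Field Z] [Algebra Z R] [CharP Z p] : (p : R) = 0 := by
  rw [← map_natCast (algebraMap Z R), CharP.cast_eq_zero, map_zero]

theorem shift_pow_p (Z : Type) [Field Z] [Algebra Z R] [CharP Z p] {θ g : R}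
    (h : θ * g - g * θ = g) : Commute (g ^ p) θ := by
  have := shift_pow h p
  rw [cast_p_eq_zero Z, zero_mul, sub_eq_zero] at this
  exact this.symm

theorem shift_AS (Z : Type) [Field Z] [Algebra Z R] [CharP Z p] {θ g : R}
    (h : θ * g - g * θ = g) : Commute (θ ^ p - θ) g := by
  have h1 := shift_semi h
  have h2 : g * θ ^ p = (θ - 1) ^ p * g := (SemiconjBy.pow_right h1 p).eq
  obtain ⟨r, hr⟩ := (Commute.neg_one_right θ).exists_add_pow_prime_eq hp.out
  rw [cast_p_eq_zero Z, zero_mul, zero_mul, zero_mul, add_zero] at hr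
  have h3 : (-1 : R) ^ p = -1 := by
    have := congrArg (algebraMap Z R) (neg_one_pow_char Z p)
    simpa using this
  rw [sub_eq_add_neg θ, hr, h3] at h2
  change (θ ^ p - θ) * g = g * (θ ^ p - θ)
  rw [mul_sub, h2, h1]; noncomm_ring

theorem shift_invariant_const {G : Z[X]} (hd : G.natDegree < p) (h : taylor (-1) G = G) :
    G = C (G.eval 0) := by
  have h1 : ∀ n : ℕ, G.eval (n : Z) = G.eval 0 := by
    intro n
    induction n with
    | zero => simp
    | succ n ih =>
      conv_lhs => rw [← h, taylor_eval]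
      rw [← ih]; push_cast; congr 1; ring
  rw [← sub_eq_zero]
  refine eq_zero_of_natDegree_lt_card_of_eval_eq_zero _ (f := fun i : Fin p => ((i : ℕ) : Z))
    (fun i j hij => Fin.ext (CharP.natCast_injOn_Iio Z p i.2 j.2 hij)) (fun i => by simp [h1]) ?_
  rw [natDegree_sub_C]; simpa using hd

theorem poly_indep {ι : Type} [Fintype ι] {v : ι → R} (hv : LinearIndependent Z v) {θ g : R}
    (h : θ * g - g * θ = g) (hg : IsUnit g) (hc : ∀ i, Commute (v i) g) (N : ℕ) (hN : N ≤ p) :
    ∀ G : ι → Z[X], (∀ i, (G i).degree < N) → ∑ i, v i * aeval θ (G i) = 0 → ∀ i, G i = 0 := by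
  induction N with
  | zero =>
    intro G hG _ i
    have := hG i
    rwa [Nat.cast_zero, Nat.WithBot.lt_zero_iff, degree_eq_bot] at this
  | succ N ih =>
    intro G hG h0
    have h1 : ∑ i, v i * aeval θ (taylor (-1) (G i)) = 0 := by
      apply hg.mul_right_cancel
      have := congrArg (g * ·) h0
      simp only [Finset.mul_sum, mul_zero] at this
      rw [zero_mul, Finset.sum_mul, ← this]
      refine Finset.sum_congr rfl fun i _ => ?_
      rw [← mul_assoc, ← (hc i).eq, mul_assoc, mul_assoc, semiconj_aeval (shift_semi h),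
        taylor_apply, aeval_comp]
      simp [sub_eq_add_neg]
    have h2 := ih (by omega) (fun i => G i - taylor (-1) (G i)) (fun i => by
      by_cases hi : G i = 0
      · simp [hi]
      · have e1 := degree_sub_lt_left (degree_taylor (G i) (-1)).symm hi
          (leadingCoeff_taylor (-1) (G i)).symm
        have e2 := hG i
        rw [degree_eq_natDegree hi] at e1 e2
        exact e1.trans_le (by exact_mod_cast Nat.lt_succ_iff.1 (by exact_mod_cast e2)))
      (by simp only [map_sub, mul_sub, Finset.sum_sub_distrib, h0, h1, sub_zero])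
    have h3 : ∀ i, G i = C ((G i).eval 0) := fun i => shift_invariant_const (p := p) (by
      by_cases hi : G i = 0
      · simpa [hi] using hp.out.pos
      · have e2 := hG i
        rw [degree_eq_natDegree hi] at e2
        have : (G i).natDegree < N + 1 := by exact_mod_cast e2
        omega) (sub_eq_zero.1 (h2 i)).symm
    have h4 := Fintype.linearIndependent_iff.1 hv (fun i => (G i).eval 0) (by
      rw [← h0]
      refine Finset.sum_congr rfl fun i _ => ?_
      conv_rhs => rw [h3 i, aeval_C, ← Algebra.commutes, ← Algebra.smul_def])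
    intro i
    rw [h3 i, h4 i, C_0]

theorem indep_step {ι : Type} [Fintype ι] {v : ι → R} (hv : LinearIndependent Z v) {θ g : R}
    (h : θ * g - g * θ = g) (hg : IsUnit g) (hc : ∀ i, Commute (v i) g)
    (hc' : ∀ i, Commute (v i) θ) :
    LinearIndependent Z (fun x : ι × Fin p × Fin p => v x.1 * θ ^ (x.2.1 : ℕ) * g ^ (x.2.2 : ℕ)) := by
  classical
  rw [Fintype.linearIndependent_iff]
  intro c h0
  let G : Fin p → ι → Z[X] := fun b i => ∑ a : Fin p, monomial a (c (i, a, b))
  let ρ : Fin p → R := fun b => ∑ i, v i * aeval θ (G b i)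
  have hρ : ∀ b, Commute (ρ b) θ := fun b => Commute.sum_left _ _ _ fun i _ =>
    (hc' i).mul_left (semiconj_aeval (a := θ) rfl _).symm
  have h1 : ∑ b, ρ b * g ^ (b : ℕ) = 0 := by
    rw [← h0, Fintype.sum_prod_type]
    simp only [ρ, G, Fintype.sum_prod_type, Finset.sum_mul, map_sum, Finset.mul_sum,
      aeval_monomial, ← Algebra.smul_def, mul_smul_comm, smul_mul_assoc]
    rw [Finset.sum_comm]
    exact Finset.sum_congr rfl fun i _ => Finset.sum_comm
  let T : Module.End Z R := LinearMap.mulLeft Z θ - LinearMap.mulRight Z θ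
  have hind := (T.eigenspaces_iSupIndep).comp (f := fun i : Fin p => ((i : ℕ) : Z))
    (fun i j hij => Fin.ext (CharP.natCast_injOn_Iio Z p i.2 j.2 hij))
  have h2 := (iSupIndep_iff_finsetSum_eq_zero_imp_eq_zero _).1 hind Finset.univ
    (fun b => ρ b * g ^ (b : ℕ)) (fun b _ => by
      rw [Function.comp_apply, Module.End.mem_eigenspace_iff]
      simp only [T, LinearMap.sub_apply, LinearMap.mulLeft_apply, LinearMap.mulRight_apply]
      rw [← mul_assoc, ← (hρ b).eq, mul_assoc, mul_assoc, ← mul_sub, shift_pow h,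
        Algebra.smul_def, map_natCast, ← mul_assoc, ← mul_assoc, Nat.cast_comm]) h1
  rintro ⟨i, a, b⟩
  have h3 : ρ b = 0 := (hg.pow b).mul_left_eq_zero.1 (h2 b (Finset.mem_univ _))
  have h4 := poly_indep hv h hg hc p le_rfl (G b) (fun i => by
    refine (degree_sum_le _ _).trans_lt ?_
    rw [Finset.sup_lt_iff (WithBot.bot_lt_coe _)]
    intro a _
    exact (degree_monomial_le _ _).trans_lt (by exact_mod_cast a.2)) h3 i
  have h5 := congrArg (fun q => coeff q a) h4
  simp only [G, finsetSum_coeff, coeff_monomial, coeff_zero] at h5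
  rw [Finset.sum_eq_single a] at h5
  · simpa using h5
  · intro a' _ ha; rw [if_neg (fun h => ha (Fin.ext h))]
  · simp

/-- `n` commuting shift pairs -/
structure Pairs (n : ℕ) (θ g : ℕ → R) : Prop where
  shift : ∀ j < n, θ j * g j - g j * θ j = g j
  tt : ∀ i < n, ∀ j < n, Commute (θ i) (θ j)
  gg : ∀ i < n, ∀ j < n, Commute (g i) (g j)
  tg : ∀ i < n, ∀ j < n, i ≠ j → Commute (θ i) (g j)

theorem Pairs.le_finrank [Nontrivial R] [Module.Finite Z R] {n : ℕ} {θ g : ℕ → R}
    (h : Pairs n θ g) (hu : ∀ j < n, IsUnit (g j)) : p ^ (2 * n) ≤ Module.finrank Z R := by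
  have key : ∀ m ≤ n, ∃ (ι : Type) (_ : Fintype ι) (v : ι → R), Fintype.card ι = p ^ (2 * m) ∧
      LinearIndependent Z v ∧
        ∀ i j, m ≤ j → j < n → Commute (v i) (θ j) ∧ Commute (v i) (g j) := by
    intro m
    induction m with
    | zero =>
      intro _
      exact ⟨Unit, inferInstance, fun _ => 1, by simp, by simp,
        fun _ _ _ _ => ⟨Commute.one_left _, Commute.one_left _⟩⟩
    | succ m ih =>
      intro hm
      obtain ⟨ι, _, v, hc, hv, hcomm⟩ := ih (by omega)
      refine ⟨ι × Fin p × Fin p, inferInstance, _, ?_,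
        indep_step hv (h.shift m hm) (hu m hm) (fun i => (hcomm i m le_rfl hm).2)
          (fun i => (hcomm i m le_rfl hm).1), ?_⟩
      · simp only [Fintype.card_prod, Fintype.card_fin, hc]; ring
      · intro x j hj hjn
        have h1 := hcomm x.1 j (by omega) hjn
        exact ⟨(h1.1.mul_left ((h.tt m hm j hjn).pow_left _)).mul_left
            ((h.tg j hjn m hm (by omega)).symm.pow_left _),
          (h1.2.mul_left ((h.tg m hm j hjn (by omega)).pow_left _)).mul_left
            ((h.gg m hm j hjn).pow_left _)⟩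
  obtain ⟨ι, _, v, hc, hv, -⟩ := key n le_rfl
  rw [← hc]
  exact hv.fintype_card_le_finrank

theorem span_step (A : Subalgebra Z R) [Module.Finite Z A] {θ g : R} (h : θ * g - g * θ = g)
    (hθ : ∀ a ∈ A, Commute a θ) (hg : ∀ a ∈ A, Commute a g) (h1 : θ ^ p - θ ∈ A)
    (h2 : g ^ p ∈ A) :
    Module.Finite Z (Algebra.adjoin Z ((A : Set R) ∪ {θ, g})) ∧
      Module.finrank Z (Algebra.adjoin Z ((A : Set R) ∪ {θ, g})) ≤ Module.finrank Z A * p ^ 2 := by
  classical
  let L : (Fin p × Fin p → A) →ₗ[Z] R := ∑ x : Fin p × Fin p,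
    (LinearMap.mulRight Z (θ ^ (x.1 : ℕ) * g ^ (x.2 : ℕ))) ∘ₗ A.val.toLinearMap ∘ₗ
      LinearMap.proj x
  have hL : ∀ c, L c = ∑ x : Fin p × Fin p, (c x : R) * (θ ^ (x.1 : ℕ) * g ^ (x.2 : ℕ)) := by
    intro c; simp [L, mul_assoc]
  have b0 : ∀ (i j : Fin p), ∀ a ∈ A, a * (θ ^ (i : ℕ) * g ^ (j : ℕ)) ∈ LinearMap.range L := by
    intro i j a ha
    refine ⟨Pi.single (i, j) ⟨a, ha⟩, ?_⟩
    rw [hL, Finset.sum_eq_single (i, j)]
    · simp
    · intro x _ hx; rw [Pi.single_eq_of_ne hx]; simp
    · simp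
  have b1 : ∀ (j : Fin p) (i : ℕ), ∀ a ∈ A, a * (θ ^ i * g ^ (j : ℕ)) ∈ LinearMap.range L := by
    intro j i
    induction i using Nat.strong_induction_on with
    | _ i ih =>
      intro a ha
      by_cases hi : i < p
      · exact b0 ⟨i, hi⟩ j a ha
      · obtain ⟨i, rfl⟩ := Nat.exists_eq_add_of_le (not_lt.1 hi)
        have hp1 := hp.out.one_lt
        have e : a * (θ ^ (p + i) * g ^ (j : ℕ)) = (a * (θ ^ p - θ)) * (θ ^ i * g ^ (j : ℕ))
            + a * (θ ^ (i + 1) * g ^ (j : ℕ)) := by
          rw [pow_add, pow_succ']; noncomm_ring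
        rw [e]
        exact add_mem (ih i (by omega) _ (A.mul_mem ha h1)) (ih (i + 1) (by omega) a ha)
  have b2 : ∀ (j i : ℕ), ∀ a ∈ A, a * (θ ^ i * g ^ j) ∈ LinearMap.range L := by
    intro j
    induction j using Nat.strong_induction_on with
    | _ j ih =>
      intro i a ha
      by_cases hj : j < p
      · exact b1 ⟨j, hj⟩ i a ha
      · obtain ⟨j, rfl⟩ := Nat.exists_eq_add_of_le (not_lt.1 hj)
        have hp1 := hp.out.one_lt
        have e : a * (θ ^ i * g ^ (p + j)) = (a * g ^ p) * (θ ^ i * g ^ j) := by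
          rw [pow_add, ← mul_assoc (θ ^ i), ← ((hθ _ h2).pow_right i).eq]; noncomm_ring
        rw [e]
        exact ih j (by omega) i _ (A.mul_mem ha h2)
  have b3 : ∀ (j : ℕ) (Q : Z[X]), ∀ a ∈ A, a * (aeval θ Q * g ^ j) ∈ LinearMap.range L := by
    intro j Q a ha
    induction Q using Polynomial.induction_on' with
    | add f1 f2 e1 e2 => rw [map_add, add_mul, mul_add]; exact add_mem e1 e2
    | monomial n c =>
      rw [aeval_monomial, ← Algebra.smul_def, smul_mul_assoc, mul_smul_comm]
      exact Submodule.smul_mem _ _ (b2 j n a ha)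
  have b4 : ∀ x ∈ Algebra.adjoin Z ((A : Set R) ∪ {θ, g}), ∀ s ∈ LinearMap.range L,
      x * s ∈ LinearMap.range L := by
    intro x hx
    induction hx using Algebra.adjoin_induction with
    | mem x hx =>
      rintro _ ⟨c, rfl⟩
      rw [hL, Finset.mul_sum]
      refine Submodule.sum_mem _ fun y _ => ?_
      rcases hx with hx | rfl | rfl
      · rw [← mul_assoc]; exact b2 _ _ _ (A.mul_mem hx (c y).2)
      · rw [← mul_assoc, ← (hθ _ (c y).2).eq, mul_assoc, ← mul_assoc x, ← pow_succ']
        exact b2 _ _ _ (c y).2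
      · have e := semiconj_aeval (shift_semi h) (X ^ (y.1 : ℕ) : Z[X])
        have e2 : aeval (θ - 1) (X ^ (y.1 : ℕ) : Z[X]) = aeval θ ((X - 1) ^ (y.1 : ℕ) : Z[X]) := by
          simp
        rw [e2, map_pow, aeval_X] at e
        rw [← mul_assoc, ← (hg _ (c y).2).eq, mul_assoc, ← mul_assoc x, e, mul_assoc, ← pow_succ']
        exact b3 _ _ _ (c y).2
    | algebraMap r => intro s hs; rw [← Algebra.smul_def]; exact Submodule.smul_mem _ _ hs
    | add x y _ _ hx hy => intro s hs; rw [add_mul]; exact add_mem (hx s hs) (hy s hs)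
    | mul x y _ _ hx hy => intro s hs; rw [mul_assoc]; exact hx _ (hy s hs)
  have b5 : Subalgebra.toSubmodule (Algebra.adjoin Z ((A : Set R) ∪ {θ, g}))
      ≤ LinearMap.range L := by
    intro x hx
    have := b4 x hx _ (b2 0 0 1 A.one_mem)
    simpa using this
  refine ⟨Submodule.finiteDimensional_of_le b5, ?_⟩
  calc _ ≤ Module.finrank Z (LinearMap.range L) := Submodule.finrank_mono b5
    _ ≤ Module.finrank Z (Fin p × Fin p → A) := LinearMap.finrank_range_le L
    _ = _ := by rw [Module.finrank_pi_fintype]; simp [mul_comm, sq]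

theorem Pairs.exists_subalgebra {n : ℕ} {θ g : ℕ → R} (h : Pairs n θ g) (A : Subalgebra Z R)
    [Module.Finite Z A] (hc : ∀ a ∈ A, ∀ j < n, Commute a (θ j) ∧ Commute a (g j))
    (h1 : ∀ j < n, θ j ^ p - θ j ∈ A) (h2 : ∀ j < n, g j ^ p ∈ A) :
    ∃ A' : Subalgebra Z R, Module.Finite Z A' ∧
      Module.finrank Z A' ≤ Module.finrank Z A * p ^ (2 * n) ∧ A ≤ A' ∧
        ∀ j < n, θ j ∈ A' ∧ g j ∈ A' := by
  have key : ∀ m ≤ n, ∃ A' : Subalgebra Z R, Module.Finite Z A' ∧
      Module.finrank Z A' ≤ Module.finrank Z A * p ^ (2 * m) ∧ A ≤ A' ∧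
        (∀ j < m, θ j ∈ A' ∧ g j ∈ A') ∧
        ∀ a ∈ A', ∀ j, m ≤ j → j < n → Commute a (θ j) ∧ Commute a (g j) := by
    intro m
    induction m with
    | zero =>
      intro _
      exact ⟨A, inferInstance, by simp, le_rfl, by simp, fun a ha j _ hj => hc a ha j hj⟩
    | succ m ih =>
      intro hm
      obtain ⟨A', hf, hr, hle, hmem, hcomm⟩ := ih (by omega)
      obtain ⟨e1, e2⟩ := span_step (p := p) A' (h.shift m hm)
        (fun a ha => (hcomm a ha m le_rfl hm).1) (fun a ha => (hcomm a ha m le_rfl hm).2)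
        (hle (h1 m hm)) (hle (h2 m hm))
      have hle' : A' ≤ Algebra.adjoin Z ((A' : Set R) ∪ {θ m, g m}) :=
        fun a ha => Algebra.subset_adjoin (Or.inl ha)
      refine ⟨_, e1, e2.trans ?_, hle.trans hle', fun j hj => ?_, fun a ha j hj hjn => ⟨?_, ?_⟩⟩
      · rw [mul_add, pow_add, ← mul_assoc]
        exact Nat.mul_le_mul_right _ hr
      · rcases Nat.lt_succ_iff_lt_or_eq.1 hj with hj | rfl
        · exact ⟨hle' (hmem j hj).1, hle' (hmem j hj).2⟩
        · exact ⟨Algebra.subset_adjoin (Or.inr (by simp)), Algebra.subset_adjoin (Or.inr (by simp))⟩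
      · refine (Algebra.commute_of_mem_adjoin_of_forall_mem_commute ha ?_).symm
        rintro b (hb | rfl | rfl)
        · exact (hcomm b hb j (by omega) hjn).1.symm
        · exact h.tt j hjn m hm
        · exact h.tg j hjn m hm (by omega)
      · refine (Algebra.commute_of_mem_adjoin_of_forall_mem_commute ha ?_).symm
        rintro b (hb | rfl | rfl)
        · exact (hcomm b hb j (by omega) hjn).2.symm
        · exact (h.tg m hm j hjn (by omega)).symm
        · exact h.gg j hjn m hm
  obtain ⟨A', a, b, c, d, -⟩ := key n le_rfl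
  exact ⟨A', a, b, c, d⟩

theorem prod_shift (L : Type) [Field L] [CharP L p] (x : L[X]) :
    ∏ j ∈ Finset.range p, (x - (j : L[X])) = x ^ p - x := by
  have h1 : ∏ j : ZMod p, (X - C j : (ZMod p)[X]) = X ^ p - X := by
    have h2 := FiniteField.roots_X_pow_card_sub_X (ZMod p)
    rw [ZMod.card] at h2
    have hm : (X ^ p - X : (ZMod p)[X]).Monic := by
      apply monic_X_pow_sub
      rw [degree_X]; exact_mod_cast hp.out.one_lt
    have h3 := prod_multiset_X_sub_C_of_monic_of_roots_card_eq hm (by
      rw [h2, FiniteField.X_pow_card_sub_X_natDegree_eq _ hp.out.one_lt]; simp)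
    rw [h2] at h3
    exact h3
  let _ : Algebra (ZMod p) L[X] := ZMod.algebra _ p
  have h4 := congrArg (aeval x) h1
  simp only [map_prod, map_sub, aeval_X, aeval_C, map_pow] at h4
  rw [← h4, Finset.prod_range]
  obtain ⟨n, rfl⟩ := Nat.exists_eq_succ_of_ne_zero hp.out.ne_zero
  refine Finset.prod_congr rfl fun j _ => ?_
  have e : (((j : Fin (n + 1)) : ℕ) : ZMod (n + 1)) = j := ZMod.natCast_zmod_val (n := n + 1) j
  rw [← map_natCast (algebraMap (ZMod (n + 1)) L[X]), e]

end Pool.Agent.Lib.MP_75bae7_al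
end

-- part Pool.Agent.Lib.MP_75bae7_al.NF
section

/-!
Verified reordering of words in generators whose commutators are affine-linear.
-/

set_option autoImplicit false

namespace Pool.Agent.Lib.MP_75bae7_al

/-- integer combinations of words -/
abbrev PL := List (ℤ × List ℕ)

/-- expressions in the generators -/
inductive Ex : Type
  | g : ℕ → Ex
  | z : ℤ → Ex
  | add : Ex → Ex → Ex
  | sub : Ex → Ex → Ex
  | mul : Ex → Ex → Ex
  | com : Ex → Ex → Ex

instance : Add Ex := ⟨Ex.add⟩
instance : Sub Ex := ⟨Ex.sub⟩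
instance : Mul Ex := ⟨Ex.mul⟩
instance (n : ℕ) : OfNat Ex n := ⟨Ex.z n⟩

/-- comparison of words: 0 less, 1 equal, 2 greater -/
def cmpW : List ℕ → List ℕ → ℕ
  | [], [] => 1
  | [], _ :: _ => 0
  | _ :: _, [] => 2
  | a :: l, b :: m => cond (Nat.beq a b) (cmpW l m) (cond (Nat.ble a b) 0 2)

theorem cmpW_eq {l m : List ℕ} (h : cmpW l m = 1) : l = m := by
  induction l generalizing m with
  | nil => cases m <;> simp_all [cmpW]
  | cons a l ih =>
    cases m with
    | nil => simp [cmpW] at h
    | cons b m =>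
      rw [cmpW] at h
      cases hab : Nat.beq a b
      · rw [hab] at h; cases hb : Nat.ble a b <;> simp [hb] at h
      · rw [hab] at h
        rw [Nat.eq_of_beq_eq_true hab, ih h]

/-- prepend a term unless its coefficient vanishes -/
def consZ (c : ℤ) (m : List ℕ) (r : PL) : PL :=
  match c with
  | Int.ofNat 0 => r
  | Int.ofNat (n + 1) => (Int.ofNat (n + 1), m) :: r
  | Int.negSucc 0 => (Int.negSucc 0, m) :: r
  | Int.negSucc (n + 1) => (Int.negSucc (n + 1), m) :: r

/-- inner loop of the merge -/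
def mergeAux (t : ℤ × List ℕ) (p : PL) (k : PL → PL) : PL → PL
  | [] => t :: p
  | u :: q =>
    match cmpW t.2 u.2 with
    | 0 => t :: k (u :: q)
    | 1 => consZ (t.1 + u.1) t.2 (k q)
    | _ + 2 => u :: mergeAux t p k q

/-- sum of two combinations -/
def addP : PL → PL → PL
  | [] => fun q => q
  | t :: p => mergeAux t p (addP p)

/-- scalar multiple -/
def smulP (c : ℤ) : PL → PL
  | [] => []
  | t :: p => consZ (c * t.1) t.2 (smulP c p)

/-- linear extension -/
def bindP (F : List ℕ → PL) : PL → PL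
  | [] => []
  | t :: p => addP (smulP t.1 (F t.2)) (bindP F p)

/-- linear combination along a table entry -/
def linP (F : ℕ → PL) : List (ℤ × ℕ) → PL
  | [] => []
  | t :: L => addP (smulP t.1 (F t.2)) (linP F L)

section Engine
variable (cst : ℕ → ℕ → ℤ) (br : ℕ → ℕ → List (ℤ × ℕ))

/-- left multiplication of a word by a generator -/
def mulGen : ℕ → ℕ → List ℕ → PL
  | 0 => fun i m => [(1, i :: m)]
  | f + 1 => fun i m =>
    match m with
    | [] => [(1, [i])]
    | j :: r => cond (Nat.ble i j || Nat.ble 10 i) [(1, i :: j :: r)]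
        (addP (bindP (mulGen f j) (mulGen f i r))
          (addP (consZ (cst i j) r []) (linP (fun k => mulGen f k r) (br i j))))

/-- left multiplication by a word -/
def mulW (q : PL) : List ℕ → PL
  | [] => q
  | i :: m => bindP (mulGen cst br 40 i) (mulW q m)

/-- product -/
def mulP (p q : PL) : PL := bindP (mulW cst br q) p

/-- normal form -/
def nf : Ex → PL
  | .g i => [(1, [i])]
  | .z n => consZ n [] []
  | .add a b => addP (nf a) (nf b)
  | .sub a b => addP (nf a) (smulP (-1) (nf b))
  | .mul a b => mulP cst br (nf a) (nf b)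
  | .com a b => addP (mulP cst br (nf a) (nf b)) (smulP (-1) (mulP cst br (nf b) (nf a)))

end Engine

/-- linear combination of a family -/
def lin {M : Type} [AddCommGroup M] (g : ℕ → M) (L : List (ℤ × ℕ)) : M :=
  (L.map fun t => t.1 • g t.2).sum

theorem map_lin {M N F : Type} [AddCommGroup M] [AddCommGroup N] [FunLike F M N]
    [AddMonoidHomClass F M N] (φ : F) (g : ℕ → M) (L : List (ℤ × ℕ)) :
    φ (lin g L) = lin (fun i => φ (g i)) L := by
  simp [lin, map_list_sum, Function.comp_def]

/-- the commutation table holds -/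
def Tab {A : Type} [Ring A] (cst : ℕ → ℕ → ℤ) (br : ℕ → ℕ → List (ℤ × ℕ)) (g : ℕ → A) : Prop :=
  ∀ i < 10, ∀ j < i, g i * g j - g j * g i = cst i j + lin g (br i j)

section Eval
variable {A : Type} [Ring A] (g : ℕ → A)

/-- value of an expression -/
def Ex.ev : Ex → A
  | .g i => g i
  | .z n => n
  | .add a b => a.ev + b.ev
  | .sub a b => a.ev - b.ev
  | .mul a b => a.ev * b.ev
  | .com a b => a.ev * b.ev - b.ev * a.ev

@[simp] theorem ev_g (i : ℕ) : (Ex.g i).ev g = g i := rfl
@[simp] theorem ev_z (n : ℤ) : (Ex.z n).ev g = n := rfl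
@[simp] theorem ev_add (a b : Ex) : (a + b).ev g = a.ev g + b.ev g := rfl
@[simp] theorem ev_sub (a b : Ex) : (a - b).ev g = a.ev g - b.ev g := rfl
@[simp] theorem ev_mul (a b : Ex) : (a * b).ev g = a.ev g * b.ev g := rfl
@[simp] theorem ev_com (a b : Ex) : (a.com b).ev g = a.ev g * b.ev g - b.ev g * a.ev g := rfl
@[simp] theorem ev_ofNat (n : ℕ) [n.AtLeastTwo] :
    (no_index (OfNat.ofNat n : Ex)).ev g = OfNat.ofNat n := Int.cast_ofNat n
@[simp] theorem ev_one : (1 : Ex).ev g = 1 := Int.cast_one
@[simp] theorem ev_zero : (0 : Ex).ev g = 0 := Int.cast_zero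

/-- value of a word -/
def evW (m : List ℕ) : A := (m.map g).prod

/-- value of a combination -/
def evP (p : PL) : A := (p.map fun t => t.1 • evW g t.2).sum

theorem evP_cons (t : ℤ × List ℕ) (p : PL) : evP g (t :: p) = t.1 • evW g t.2 + evP g p := by
  simp [evP]

theorem evP_nil : evP g [] = 0 := rfl

theorem evP_consZ (c : ℤ) (m : List ℕ) (r : PL) : evP g (consZ c m r) = c • evW g m + evP g r := by
  rcases c with (_ | n) | (_ | n)
  · simp [consZ]
  all_goals exact evP_cons g _ _

theorem evP_addP (p q : PL) : evP g (addP p q) = evP g p + evP g q := by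
  induction p generalizing q with
  | nil => simp [addP, evP_nil]
  | cons t p ih =>
    rw [addP]
    induction q with
    | nil => simp [mergeAux, evP_nil]
    | cons u q ihq =>
      rw [mergeAux]
      split
      · rw [evP_cons, ih, evP_cons g t, add_assoc]
      · rename_i h
        rw [evP_consZ, ih, evP_cons, evP_cons, ← cmpW_eq h, add_smul]; abel
      · rw [evP_cons, ihq, evP_cons g u]; abel

theorem evP_smulP (c : ℤ) (p : PL) : evP g (smulP c p) = c • evP g p := by
  induction p with
  | nil => simp [smulP, evP_nil]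
  | cons t p ih => rw [smulP, evP_consZ, ih, evP_cons, smul_add, mul_smul]

theorem evP_bindP {F : List ℕ → PL} {x y : A} (h : ∀ m, evP g (F m) = x * evW g m * y) (p : PL) :
    evP g (bindP F p) = x * evP g p * y := by
  induction p with
  | nil => simp [bindP, evP_nil]
  | cons t p ih =>
    rw [bindP, evP_addP, evP_smulP, h, ih, evP_cons, mul_add, add_mul, mul_smul_comm,
      smul_mul_assoc]

theorem evP_linP {F : ℕ → PL} {y : A} (h : ∀ k, evP g (F k) = g k * y) (L : List (ℤ × ℕ)) :
    evP g (linP F L) = lin g L * y := by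
  induction L with
  | nil => simp [linP, evP_nil, lin]
  | cons t L ih =>
    rw [linP, evP_addP, evP_smulP, h, ih]
    simp [lin, add_mul, mul_assoc]

variable {g} {cst : ℕ → ℕ → ℤ} {br : ℕ → ℕ → List (ℤ × ℕ)} (T : Tab cst br g)
include T

theorem evP_mulGen (f i : ℕ) (m : List ℕ) : evP g (mulGen cst br f i m) = g i * evW g m := by
  induction f generalizing i m with
  | zero => simp [mulGen, evP, evW]
  | succ f ih =>
    cases m with
    | nil => simp [mulGen, evP, evW]
    | cons j r =>
      simp only [mulGen]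
      cases h : (Nat.ble i j || Nat.ble 10 i)
      · rw [Bool.or_eq_false_iff, ← Bool.not_eq_true, ← Bool.not_eq_true, Nat.ble_eq, Nat.ble_eq] at h
        rw [cond_false, evP_addP, evP_addP, evP_bindP g (x := g j) (y := 1) (by simp [ih]), ih,
          evP_consZ, evP_linP g (fun k => ih k r), evP_nil, add_zero, zsmul_eq_mul, ← add_mul,
          ← T i (by omega) j (by omega)]
        simp only [evW, List.map_cons, List.prod_cons]
        noncomm_ring
      · simp [evP, evW]

theorem evP_mulW (q : PL) (m : List ℕ) : evP g (mulW cst br q m) = evW g m * evP g q := by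
  induction m with
  | nil => simp [mulW, evW]
  | cons i m ih =>
    rw [mulW, evP_bindP g (x := g i) (y := 1) (by simp [evP_mulGen T]), ih]
    simp [evW, mul_assoc]

theorem evP_mulP (p q : PL) : evP g (mulP cst br p q) = evP g p * evP g q := by
  rw [mulP, evP_bindP g (x := 1) (y := evP g q) (by simp [evP_mulW T]), one_mul]

theorem evP_nf (e : Ex) : evP g (nf cst br e) = e.ev g := by
  induction e with
  | g i => simp [nf, evP, evW]
  | z n => simp [nf, evP_consZ, evP_nil, evW]
  | add a b ha hb => rw [nf, evP_addP, ha, hb]; rfl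
  | sub a b ha hb => rw [nf, evP_addP, evP_smulP, ha, hb, neg_one_zsmul, ← sub_eq_add_neg]; rfl
  | mul a b ha hb => rw [nf, evP_mulP T, ha, hb]; rfl
  | com a b ha hb =>
    rw [nf, evP_addP, evP_smulP, evP_mulP T, evP_mulP T, ha, hb, neg_one_zsmul, ← sub_eq_add_neg]
    rfl

theorem ev_eq {a b : Ex} (h : (nf cst br (a - b)).isEmpty = true) : a.ev g = b.ev g := by
  rw [← sub_eq_zero, ← ev_sub, ← evP_nf T, List.isEmpty_iff.1 h, evP_nil]

end Eval

/-- substitution -/
def Ex.subst (s : ℕ → Ex) : Ex → Ex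
  | .g i => s i
  | .z n => .z n
  | .add a b => .add (a.subst s) (b.subst s)
  | .sub a b => .sub (a.subst s) (b.subst s)
  | .mul a b => .mul (a.subst s) (b.subst s)
  | .com a b => .com (a.subst s) (b.subst s)

theorem ev_subst {A : Type} [Ring A] (g : ℕ → A) (s : ℕ → Ex) (e : Ex) :
    (e.subst s).ev g = e.ev fun i => (s i).ev g := by
  induction e <;> simp_all [Ex.subst, Ex.ev]

theorem map_ev {A A' F : Type} [Ring A] [Ring A'] [FunLike F A A'] [RingHomClass F A A'] (φ : F)
    (g : ℕ → A) (e : Ex) : φ (e.ev g) = e.ev fun i => φ (g i) := by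
  induction e <;> simp_all [Ex.ev]

/-- all generators used satisfy a test -/
def Ex.uses (P : ℕ → Bool) : Ex → Bool
  | .g i => P i
  | .z _ => true
  | .add a b => a.uses P && b.uses P
  | .sub a b => a.uses P && b.uses P
  | .mul a b => a.uses P && b.uses P
  | .com a b => a.uses P && b.uses P

theorem ev_mem {A S : Type} [Ring A] [SetLike S A] [SubringClass S A] (T : S) {g : ℕ → A}
    {P : ℕ → Bool} (h : ∀ i, P i = true → g i ∈ T) (e : Ex) (he : e.uses P = true) : e.ev g ∈ T := by
  induction e with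
  | g i => exact h i he
  | z n => exact intCast_mem T n
  | add a b ha hb => simp only [Ex.uses, Bool.and_eq_true] at he; exact add_mem (ha he.1) (hb he.2)
  | sub a b ha hb => simp only [Ex.uses, Bool.and_eq_true] at he; exact sub_mem (ha he.1) (hb he.2)
  | mul a b ha hb => simp only [Ex.uses, Bool.and_eq_true] at he; exact mul_mem (ha he.1) (hb he.2)
  | com a b ha hb =>
    simp only [Ex.uses, Bool.and_eq_true] at he
    exact sub_mem (mul_mem (ha he.1) (hb he.2)) (mul_mem (hb he.2) (ha he.1))

/-- a table entry as an expression -/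
def linE (s : ℕ → Ex) : List (ℤ × ℕ) → Ex
  | [] => 0
  | t :: L => .z t.1 * s t.2 + linE s L

theorem ev_linE {A : Type} [Ring A] (g : ℕ → A) (s : ℕ → Ex) (L : List (ℤ × ℕ)) :
    (linE s L).ev g = lin (fun i => (s i).ev g) L := by
  induction L with
  | nil => simp [linE, lin]
  | cons t L ih => rw [linE, ev_add, ih]; simp [lin]

end Pool.Agent.Lib.MP_75bae7_al
end
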