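import Pool.Agent.Lib.MP_75bae7_al.Gauss

-- part Pool.Agent.Lib.MP_75bae7_al.CharP
section

/-!
Weyl skew fields in characteristic `p`: basis over the centre, description of the centre,
degree bound for norms.
-/

set_option autoImplicit false
set_option linter.unusedSectionVars false

namespace Pool.Agent.Lib.MP_75bae7_al

open MvPolynomial

theorem ad_pow {A : Type} [Ring A] {u a : A} {m : ℤ} (h : u * a - a * u = m) (n : ℕ) :
    u * a ^ (n + 1) - a ^ (n + 1) * u = ((n + 1 : ℕ) : A) * (m * a ^ n) := by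
  induction n with
  | zero => simp [h]
  | succ n ih =>
    have e : u * a ^ (n + 1 + 1) - a ^ (n + 1 + 1) * u
        = (u * a ^ (n + 1) - a ^ (n + 1) * u) * a + a ^ (n + 1) * (u * a - a * u) := by
      rw [pow_succ a (n + 1)]; noncomm_ring
    rw [e, ih, h, ← (Int.cast_commute m (a ^ (n + 1))).eq, pow_succ a n]
    push_cast
    noncomm_ring

theorem inv_mem_of_finite {E R : Type} [Field E] [Ring R] [Algebra E R] (A : Subalgebra E R)
    [Module.Finite E A] {u v : R} (hu : u ∈ A) (hvu : v * u = 1) : v ∈ A := by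
  have hinj : Function.Injective (LinearMap.mulLeft E (⟨u, hu⟩ : A)) := by
    rw [injective_iff_map_eq_zero]
    intro x hx
    have h1 : u * x = 0 := congrArg Subtype.val hx
    apply Subtype.ext
    have : (x : R) = v * (u * x) := by rw [← mul_assoc, hvu, one_mul]
    rw [this, h1, mul_zero]; rfl
  obtain ⟨x, hx⟩ := LinearMap.injective_iff_surjective.1 hinj 1
  have h1 : u * x = 1 := congrArg Subtype.val hx
  have : v = x := by rw [← mul_one v, ← h1, ← mul_assoc, hvu, one_mul]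
  rw [this]; exact x.2

/-- exponent vector of a box index -/
noncomputable def bx {τ : Type} [Fintype τ] {p : ℕ} (i : τ → Fin p) : τ →₀ ℕ :=
  Finsupp.equivFunOnFinite.symm fun a => (i a : ℕ)

theorem bx_apply {τ : Type} [Fintype τ] {p : ℕ} (i : τ → Fin p) (a : τ) : bx i a = i a := rfl

theorem bx_injective {τ : Type} [Fintype τ] {p : ℕ} :
    Function.Injective (bx : (τ → Fin p) → τ →₀ ℕ) := by
  intro i j h
  funext a
  exact Fin.ext (DFunLike.congr_fun h a)

namespace WF
variable {ι κ k D : Type} [DecidableEq ι] [Fintype ι] [Fintype κ] [Field k] [DivisionRing D]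
  [Algebra k D] (w : WF ι κ k D) {p : ℕ} [hp : Fact p.Prime] [CharP k p]

omit [Fintype ι] [Fintype κ] in
theorem sys0 : (sh0 ι).IsSys (fun a => w.g (.inl a)) := fun a b => w.sys (.inl a) (.inl b)

omit [Fintype ι] [Fintype κ] in
theorem pow_central (a : (ι ⊕ ι) ⊕ κ) (x : D) : w.g a ^ p * x = x * w.g a ^ p := by
  refine w.central_of_gens (fun b => ?_) x
  obtain ⟨n, hn⟩ := Nat.exists_eq_succ_of_ne_zero hp.out.ne_zero
  have := ad_pow (w.sys b a) n
  have h0 : ((n + 1 : ℕ) : D) = 0 := by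
    rw [← map_natCast (algebraMap k D), ← Nat.succ_eq_add_one, ← hn, CharP.cast_eq_zero, map_zero]
  rw [h0, zero_mul, sub_eq_zero, ← Nat.succ_eq_add_one, ← hn] at this
  exact this.symm

variable {K Z : Type} [Field K] [Field Z] [Algebra k K] [Algebra K Z] [Algebra k Z] [Algebra Z D]
  [IsScalarTower k K Z] [IsScalarTower k Z D]

/-- normal ordering over the centre -/
noncomputable abbrev Φ0 (Z : Type) [Field Z] [Algebra Z D] : MvPolynomial (ι ⊕ ι) Z →ₗ[Z] D :=
  phi (sh0 ι) Z (fun a => w.g (.inl a))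

/-- box monomials -/
noncomputable def mon (Z : Type) [Field Z] [Algebra Z D] (i : ι ⊕ ι → Fin p) : D :=
  w.Φ0 Z (monomial (bx i) 1)

omit [Fintype κ] in
theorem phi0_inj (N : ℕ) : ∀ f : MvPolynomial (ι ⊕ ι) Z, DegLT N f →
    (∀ n a, coeff n f ≠ 0 → n a < p) → w.Φ0 Z f = 0 → f = 0 := by
  have hZ : CharP Z p := charP_of_injective_algebraMap (algebraMap k Z).injective p
  induction N with
  | zero =>
    intro f hf _ _
    by_contra h
    exact absurd (hf.totalDegree_lt h) (by simp)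
  | succ N ih =>
    intro f hf hb h0
    have hd : ∀ a, pderiv a f = 0 := by
      intro a
      obtain ⟨b, e, he, hb'⟩ := der0_eq (R := Z) a
      apply ih _ (hf.pderiv a)
      · intro n c hn
        rw [coeff_pderiv] at hn
        have := hb _ c (left_ne_zero_of_mul hn)
        rw [Finsupp.add_apply] at this
        omega
      · have h1 := ad_phi w.sys0 b f
        have h0' : phi (sh0 ι) Z (fun a => w.g (.inl a)) f = 0 := h0
        rw [h0', mul_zero, zero_mul, sub_zero, hb', map_zsmul] at h1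
        have := congrArg (fun x => e • x) h1
        simp only [smul_smul, he, one_smul, smul_zero] at this
        exact this.symm
    have hc : f = C (coeff 0 f) := by
      ext n
      rw [coeff_C]
      split_ifs with h
      · rw [h]
      · by_contra hn
        apply h
        ext a
        have h1 := cast_eq_zero_of_pderiv (hd a) hn
        rw [CharP.cast_eq_zero_iff Z p] at h1
        exact (Nat.eq_zero_of_dvd_of_lt h1 (hb n a hn)).symm
    rw [hc] at h0 ⊢
    rw [phi_C w.sys0, map_eq_zero] at h0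
    rw [h0, C_0]

omit [Fintype κ] in
theorem mon_indep : LinearIndependent Z (w.mon (p := p) Z) := by
  classical
  rw [Fintype.linearIndependent_iff]
  intro c hc i
  have h := w.phi0_inj (p := p) _ (∑ j, monomial (bx j) (c j)) (degLT_totalDegree _) (by
    intro n a hn
    rw [coeff_sum] at hn
    obtain ⟨j, -, hj⟩ := Finset.exists_ne_zero_of_sum_ne_zero hn
    rw [coeff_monomial] at hj
    have : bx j = n := by by_contra h; exact hj (if_neg h)
    rw [← this, bx_apply]; exact (j a).2) (by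
    rw [map_sum, ← hc]
    refine Finset.sum_congr rfl fun j _ => ?_
    rw [mon, ← map_smul, smul_monomial, smul_eq_mul, mul_one])
  have h2 := congrArg (coeff (bx i)) h
  rw [coeff_sum, Finset.sum_eq_single i] at h2
  · simpa using h2
  · intro j _ hj
    rw [coeff_monomial, if_neg (fun h => hj (bx_injective h))]
  · simp

omit [Fintype ι] [Fintype κ] in
theorem phi_X_pow_mul {σ R : Type} [CommRing R] [Algebra R D] {S : Shape σ} {g : σ → D}
    (hg : S.IsSys g) (a : σ) (n : ℕ) (hc : ∀ x, g a ^ n * x = x * g a ^ n)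
    (f : MvPolynomial σ R) : phi S R g (X a ^ n * f) = g a ^ n * phi S R g f := by
  by_cases ha : S.left a = true
  · clear hc
    induction n with
    | zero => simp
    | succ n ih => rw [pow_succ', mul_assoc, phi_left hg ha, ih, pow_succ', mul_assoc]
  · rw [hc]
    clear hc
    induction n with
    | zero => simp
    | succ n ih =>
      rw [pow_succ', mul_assoc, phi_right hg (Bool.eq_false_iff.2 ha), ih, pow_succ, mul_assoc]

omit [Fintype ι] [Fintype κ] in
theorem phi_rename_inl (f : MvPolynomial (ι ⊕ ι) k) :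
    w.Φ (rename Sum.inl f) = w.Φ0 Z (map (algebraMap k Z) f) := by
  induction f using poly_ind with
  | hC c => rw [rename_C, map_C, phi_C w.sys, phi_C w.sys0, ← IsScalarTower.algebraMap_apply]
  | hadd p q hp hq => simp only [map_add, hp, hq]
  | hX q a hq =>
    rw [map_mul (rename Sum.inl), map_mul (map (algebraMap k Z)), rename_X, map_X]
    by_cases ha : (sh0 ι).left a = true
    · rw [phi_left w.sys (a := .inl a) ha, phi_left w.sys0 ha]; exact congrArg _ hq
    · have ha' := Bool.eq_false_iff.2 ha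
      rw [phi_right w.sys (a := .inl a) ha', phi_right w.sys0 ha']; exact congrArg (· * _) hq

section
variable (y : κ → K) (hy : ∀ j, algebraMap Z D (algebraMap K Z (y j)) = w.g (.inr j))
  (z : ι ⊕ ι → Z) (hz : ∀ a, algebraMap Z D (z a) = w.g (.inl a) ^ p)
include hy

omit [Fintype ι] [Fintype κ] in
theorem phi_rename_inr_mul (h : MvPolynomial κ k) (f : MvPolynomial ((ι ⊕ ι) ⊕ κ) k) :
    w.Φ (rename Sum.inr h * f) = algebraMap K Z (aeval y h) • w.Φ f := by
  induction h using poly_ind with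
  | hC c =>
    rw [rename_C, C_mul', map_smul, aeval_C, ← IsScalarTower.algebraMap_apply, algebraMap_smul]
  | hadd p q hp hq => simp only [map_add, add_mul, hp, hq, add_smul]
  | hX q j hq =>
    rw [map_mul (rename Sum.inr), rename_X, mul_assoc, phi_left w.sys rfl, map_mul (aeval y),
      aeval_X, map_mul (algebraMap K Z), mul_smul,
      Algebra.smul_def (algebraMap K Z (y j)), hy]
    exact congrArg _ hq

include hz

omit [Fintype ι] [Fintype κ] in
theorem indep_zy : AlgebraicIndependent k (Sum.elim z (fun j => algebraMap K Z (y j))) := by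
  let q : (ι ⊕ ι) ⊕ κ → Polynomial k := Sum.elim (fun _ => Polynomial.X ^ p) (fun _ => Polynomial.X)
  have hq : ∀ a, Transcendental k (q a) := by
    rintro (a | j)
    · exact (Polynomial.transcendental_X k).pow hp.out.pos
    · exact Polynomial.transcendental_X k
  have h1 := MvPolynomial.algebraicIndependent_polynomial_aeval_X q hq
  have key : ∀ f h : MvPolynomial ((ι ⊕ ι) ⊕ κ) k,
      w.Φ (aeval (fun a => Polynomial.aeval (X a : MvPolynomial ((ι ⊕ ι) ⊕ κ) k) (q a)) f * h)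
        = aeval (Sum.elim z (fun j => algebraMap K Z (y j))) f • w.Φ h := by
    intro f
    induction f using poly_ind with
    | hC c => intro h; rw [aeval_C, aeval_C, algebraMap_eq, C_mul', map_smul, algebraMap_smul]
    | hadd f1 f2 h1 h2 => intro h; simp only [map_add, add_mul, h1, h2, add_smul]
    | hX f a hf =>
      intro h
      rw [map_mul (aeval _), map_mul (aeval _), aeval_X, aeval_X, mul_assoc, mul_smul,
        Algebra.smul_def]
      rcases a with a | j
      · simp only [q, Sum.elim_inl, map_pow, Polynomial.aeval_X]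
        rw [phi_X_pow_mul w.sys _ _ (w.pow_central _), hz]
        exact congrArg _ (hf h)
      · simp only [q, Sum.elim_inr, Polynomial.aeval_X]
        rw [phi_left w.sys rfl, hy]
        exact congrArg _ (hf h)
  rw [algebraicIndependent_iff]
  intro f hf
  have := key f 1
  rw [hf, zero_smul, mul_one] at this
  exact h1.eq_zero_of_aeval_eq_zero _ (w.inj (this.trans (map_zero _).symm))

omit hy in
omit [Fintype ι] [Fintype κ] in
theorem phi0_shift (q : (ι ⊕ ι) →₀ ℕ) (f : MvPolynomial (ι ⊕ ι) Z) :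
    w.Φ0 Z (monomial (p • q) 1 * f) = aeval z (monomial q (1 : K)) • w.Φ0 Z f := by
  induction q using Finsupp.induction_linear generalizing f with
  | zero => simp
  | add q1 q2 h1 h2 =>
    have e1 : (monomial (p • (q1 + q2)) 1 : MvPolynomial (ι ⊕ ι) Z)
        = monomial (p • q1) 1 * monomial (p • q2) 1 := by
      rw [monomial_mul, smul_add, one_mul]
    have e2 : (monomial (q1 + q2) 1 : MvPolynomial (ι ⊕ ι) K)
        = monomial q1 1 * monomial q2 1 := by
      rw [monomial_mul, one_mul]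
    rw [e1, e2, mul_assoc, h1, h2, map_mul, mul_smul]
  | single a n =>
    rw [Finsupp.smul_single, ← X_pow_eq_monomial, ← X_pow_eq_monomial, smul_eq_mul,
      phi_X_pow_mul w.sys0, map_pow, aeval_X, Algebra.smul_def, map_pow, hz, pow_mul]
    intro x
    rw [pow_mul]
    exact (Commute.pow_left (w.pow_central (p := p) (.inl a) x) n).eq

omit hy hz in
/-- expansion in box monomials with polynomial coefficients of bounded degree -/
def Expa (z : ι ⊕ ι → Z) (K : Type) [Field K] [Algebra K Z] (N : ℕ) (u : D) : Prop :=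
  ∃ M : (ι ⊕ ι → Fin p) → MvPolynomial (ι ⊕ ι) K, u = ∑ i, aeval z (M i) • w.mon Z i ∧
    ∀ i, M i ≠ 0 → p * (M i).totalDegree + (bx i).degree ≤ N

omit [Fintype κ] [CharP k p] hp hy hz in
theorem Expa.add {N : ℕ} {u v : D} (hu : w.Expa (p := p) z K N u) (hv : w.Expa (p := p) z K N v) :
    w.Expa (p := p) z K N (u + v) := by
  obtain ⟨M1, rfl, h1⟩ := hu
  obtain ⟨M2, rfl, h2⟩ := hv
  refine ⟨M1 + M2, by simp [add_smul, Finset.sum_add_distrib], fun i hi => ?_⟩
  rw [Pi.add_apply] at hi ⊢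
  by_cases e1 : M1 i = 0
  · rw [e1, zero_add] at hi ⊢; exact h2 i hi
  by_cases e2 : M2 i = 0
  · rw [e2, add_zero] at hi ⊢; exact h1 i hi
  have := totalDegree_add (M1 i) (M2 i)
  have h3 := h1 i e1
  have h4 := h2 i e2
  rcases le_max_iff.1 this with h | h <;> nlinarith [Nat.mul_le_mul_left p h]

omit [Fintype κ] [CharP k p] hp hy hz in
theorem Expa.smul {N : ℕ} {u : D} (c : K) (hu : w.Expa (p := p) z K N u) :
    w.Expa (p := p) z K N (algebraMap K Z c • u) := by
  obtain ⟨M1, rfl, h1⟩ := hu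
  refine ⟨fun i => c • M1 i, ?_, fun i hi => ?_⟩
  · rw [Finset.smul_sum]
    refine Finset.sum_congr rfl fun i _ => ?_
    rw [map_smul, smul_smul, Algebra.smul_def c]
  · have h2 := h1 i (by rintro h; apply hi; simp only [h, smul_zero])
    have h3 := totalDegree_smul_le c (M1 i)
    nlinarith [Nat.mul_le_mul_left p h3]

omit [Fintype κ] [CharP k p] hp hy hz in
theorem Expa.zero (N : ℕ) : w.Expa (p := p) z K N 0 :=
  ⟨0, by simp, fun i hi => absurd rfl hi⟩

omit hy in
omit [Fintype κ] in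
theorem expa_monomial (n : (ι ⊕ ι) →₀ ℕ) {N : ℕ} (hN : n.degree ≤ N) :
    w.Expa (p := p) z K N (w.Φ0 Z (monomial n 1)) := by
  classical
  let i : ι ⊕ ι → Fin p := fun a => ⟨n a % p, Nat.mod_lt _ hp.out.pos⟩
  let q : (ι ⊕ ι) →₀ ℕ := Finsupp.equivFunOnFinite.symm fun a => n a / p
  have hn : n = p • q + bx i := by
    ext a
    simp [q, i, bx_apply, Nat.div_add_mod]
  refine ⟨Pi.single i (monomial q 1), ?_, fun j hj => ?_⟩
  · rw [Finset.sum_eq_single i]
    · rw [Pi.single_eq_same, mon, ← w.phi0_shift (K := K) z hz, monomial_mul, one_mul, ← hn]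
    · intro j _ hj; rw [Pi.single_eq_of_ne hj, map_zero, zero_smul]
    · simp
  · have : j = i := by by_contra h; exact hj (Pi.single_eq_of_ne h _)
    subst this
    rw [Pi.single_eq_same, totalDegree_monomial _ one_ne_zero]
    have h2 : (q.sum fun _ e => e) = q.degree := rfl
    have h3 := congrArg Finsupp.degree hn
    rw [map_add, map_nsmul, smul_eq_mul] at h3
    rw [h2]
    omega

omit [Fintype κ] in
theorem expa_phi {N : ℕ} {f : MvPolynomial ((ι ⊕ ι) ⊕ κ) k} (hf : DegLT (N + 1) f) :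
    w.Expa (p := p) z K N (w.Φ f) := by
  classical
  have dec : ∀ n : ((ι ⊕ ι) ⊕ κ) →₀ ℕ, ∃ (nl : (ι ⊕ ι) →₀ ℕ) (h : MvPolynomial κ k),
      (monomial n 1 : MvPolynomial ((ι ⊕ ι) ⊕ κ) k)
        = rename Sum.inr h * rename Sum.inl (monomial nl 1) ∧ nl.degree ≤ n.degree := by
    intro n
    induction n using Finsupp.induction_linear with
    | zero => exact ⟨0, 1, by simp, le_rfl⟩
    | add n1 n2 h1 h2 =>
      obtain ⟨l1, g1, e1, d1⟩ := h1
      obtain ⟨l2, g2, e2, d2⟩ := h2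
      refine ⟨l1 + l2, g1 * g2, ?_, by rw [map_add, map_add]; omega⟩
      have e3 : (monomial (n1 + n2) 1 : MvPolynomial ((ι ⊕ ι) ⊕ κ) k)
          = monomial n1 1 * monomial n2 1 := by rw [monomial_mul, one_mul]
      have e4 : (monomial (l1 + l2) 1 : MvPolynomial (ι ⊕ ι) k)
          = monomial l1 1 * monomial l2 1 := by rw [monomial_mul, one_mul]
      rw [e3, e4, e1, e2, map_mul, map_mul]; ring
    | single a e =>
      rcases a with a | j
      · refine ⟨Finsupp.single a e, 1, ?_, by simp⟩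
        rw [← X_pow_eq_monomial, ← X_pow_eq_monomial]; simp
      · refine ⟨0, X j ^ e, ?_, by simp⟩
        rw [← X_pow_eq_monomial]; simp
  rw [f.as_sum, map_sum]
  refine Finset.sum_induction _ _ (fun a b => Expa.add w z) (Expa.zero w z N) fun n hn => ?_
  obtain ⟨nl, h, e, hd⟩ := dec n
  have e2 : (monomial n (coeff n f) : MvPolynomial ((ι ⊕ ι) ⊕ κ) k)
      = rename Sum.inr (C (coeff n f) * h) * rename Sum.inl (monomial nl 1) := by
    rw [map_mul, rename_C, mul_assoc, ← e, C_mul_monomial, mul_one]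
  rw [e2, w.phi_rename_inr_mul y hy, w.phi_rename_inl (Z := Z), map_monomial, map_one]
  refine Expa.smul w z _ (w.expa_monomial z hz nl (hd.trans ?_))
  by_contra hc
  exact mem_support_iff.1 hn (hf n (by omega))

omit hy hz in
omit [Fintype κ] [CharP k p] hp in
theorem mon_eq (i : ι ⊕ ι → Fin p) : w.mon Z i = w.Φ (rename Sum.inl (monomial (bx i) 1)) := by
  rw [w.phi_rename_inl (Z := Z), map_monomial, map_one, mon]

omit hy hz in
omit [Fintype κ] [CharP k p] in
theorem mon_zero : w.mon Z (fun _ => (⟨0, hp.out.pos⟩ : Fin p)) = 1 := by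
  have : bx (fun _ : ι ⊕ ι => (⟨0, hp.out.pos⟩ : Fin p)) = 0 := by ext a; rfl
  rw [mon, this]
  exact phi_one w.sys0

theorem exists_coord (u : D) : ∃ c : (ι ⊕ ι → Fin p) → Z,
    (∀ i, c i ∈ IntermediateField.adjoin K (Set.range z)) ∧ u = ∑ i, c i • w.mon Z i := by
  classical
  set E := IntermediateField.adjoin K (Set.range z) with hE
  have hphi : ∀ f, w.Φ f ∈ Submodule.span E (Set.range (w.mon (p := p) Z)) := by
    intro f
    obtain ⟨M, hM, -⟩ := w.expa_phi y hy z hz (degLT_totalDegree f)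
    rw [hM]
    refine Submodule.sum_mem _ fun i _ => ?_
    have : aeval z (M i) ∈ E := IntermediateField.algebra_adjoin_le_adjoin K _
      (by rw [Algebra.adjoin_range_eq_range_aeval]; exact ⟨_, rfl⟩)
    exact Submodule.smul_mem _ (⟨_, this⟩ : E) (Submodule.subset_span ⟨i, rfl⟩)
  let A : Subalgebra E D := (Submodule.span E (Set.range (w.mon (p := p) Z))).toSubalgebra
    (by have := hphi 1; rwa [phi_one w.sys] at this) (by
      intro a b ha hb
      have : Submodule.span E (Set.range (w.mon (p := p) Z)) *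
          Submodule.span E (Set.range (w.mon (p := p) Z))
          ≤ Submodule.span E (Set.range (w.mon (p := p) Z)) := by
        rw [Submodule.span_mul_span, Submodule.span_le]
        rintro _ ⟨_, ⟨i, rfl⟩, _, ⟨j, rfl⟩, rfl⟩
        change _ * _ ∈ _
        rw [mon_eq, mon_eq, ← phi_star w.sys]
        exact hphi _
      exact this (Submodule.mul_mem_mul ha hb))
  have : Module.Finite E A := Module.Finite.span_of_finite E (Set.finite_range _)
  obtain ⟨f, h, hh, rfl⟩ := w.frac u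
  have h1 : w.Φ f * (w.Φ h)⁻¹ ∈ A :=
    A.mul_mem (hphi f) (inv_mem_of_finite A (hphi h) (inv_mul_cancel₀ (w.phi_ne_zero hh)))
  obtain ⟨c, hc⟩ := (Submodule.mem_span_range_iff_exists_fun E).1 h1
  exact ⟨fun i => c i, fun i => (c i).2, hc.symm⟩

theorem center_frac (c : Z) : ∃ f h : MvPolynomial (ι ⊕ ι) K, aeval z h ≠ 0 ∧
    c = aeval z f / aeval z h := by
  classical
  obtain ⟨d, hd, e⟩ := w.exists_coord y hy z hz (algebraMap Z D c)
  have h1 := Fintype.linearIndependent_iff.1 (w.mon_indep (p := p) (Z := Z))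
    (d - Pi.single (fun _ => ⟨0, hp.out.pos⟩) c) (by
      simp only [Pi.sub_apply, sub_smul, Finset.sum_sub_distrib]
      rw [← e, Finset.sum_eq_single (fun _ => ⟨0, hp.out.pos⟩)]
      · rw [Pi.single_eq_same, mon_zero, Algebra.algebraMap_eq_smul_one, sub_self]
      · intro j _ hj; rw [Pi.single_eq_of_ne hj, zero_smul]
      · simp) (fun _ => ⟨0, hp.out.pos⟩)
  rw [Pi.sub_apply, Pi.single_eq_same, sub_eq_zero] at h1
  obtain ⟨f, h, e2⟩ := (IntermediateField.mem_adjoin_range_iff K z _).1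
    (h1 ▸ hd (fun _ => ⟨0, hp.out.pos⟩))
  by_cases h0 : aeval z h = 0
  · exact ⟨0, 1, by simp, by rw [e2, h0]; simp⟩
  · exact ⟨f, h, h0, e2⟩

theorem central_poly (c : Z) (f : MvPolynomial ((ι ⊕ ι) ⊕ κ) k) (hc : algebraMap Z D c = w.Φ f) :
    ∃ h : MvPolynomial (ι ⊕ ι) K, c = aeval z h := by
  classical
  obtain ⟨M, e, -⟩ := w.expa_phi y hy z hz (degLT_totalDegree f)
  have h1 := Fintype.linearIndependent_iff.1 (w.mon_indep (p := p) (Z := Z))
    ((fun i => aeval z (M i)) - Pi.single (fun _ => ⟨0, hp.out.pos⟩) c) (by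
      simp only [Pi.sub_apply, sub_smul, Finset.sum_sub_distrib]
      rw [← e, Finset.sum_eq_single (fun _ => ⟨0, hp.out.pos⟩)]
      · rw [Pi.single_eq_same, mon_zero, ← hc, Algebra.algebraMap_eq_smul_one, sub_self]
      · intro j _ hj; rw [Pi.single_eq_of_ne hj, zero_smul]
      · simp) (fun _ => ⟨0, hp.out.pos⟩)
  rw [Pi.sub_apply, Pi.single_eq_same, sub_eq_zero] at h1
  exact ⟨_, h1.symm⟩

/-- the box monomials form a basis over the centre -/
noncomputable def bas : Module.Basis (ι ⊕ ι → Fin p) Z D :=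
  Module.Basis.mk (w.mon_indep (p := p) (Z := Z)) (by
    intro u _
    obtain ⟨c, -, rfl⟩ := w.exists_coord y hy z hz u
    exact Submodule.sum_mem _ fun i _ => Submodule.smul_mem _ _ (Submodule.subset_span ⟨i, rfl⟩))

theorem finrank_center : Module.finrank Z D = p ^ (2 * Fintype.card ι) := by
  classical
  rw [Module.finrank_eq_card_basis (w.bas y hy z hz)]
  simp [two_mul]

theorem det_phi {C0 : ℕ} {f : MvPolynomial ((ι ⊕ ι) ⊕ κ) k} (hf : DegLT (C0 + 1) f) :
    ∃ G : MvPolynomial (ι ⊕ ι) K, LinearMap.det (LinearMap.mulLeft Z (w.Φ f)) = aeval z G ∧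
      p * G.totalDegree ≤ p ^ (2 * Fintype.card ι) * C0 := by
  classical
  have h1 : ∀ j : ι ⊕ ι → Fin p, w.Expa (p := p) z K (C0 + (bx j).degree) (w.Φ f * w.mon Z j) := by
    intro j
    rw [mon_eq, ← phi_star w.sys]
    refine w.expa_phi y hy z hz (star_degLT hf ?_)
    rw [rename_monomial]
    have := (degLT_totalDegree (monomial (Finsupp.mapDomain Sum.inl (bx j)) (1 : k) :
      MvPolynomial ((ι ⊕ ι) ⊕ κ) k))
    rw [totalDegree_monomial _ one_ne_zero, Finsupp.sum_mapDomain_index (by simp) (by simp)] at this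
    exact this
  choose M hM hdeg using h1
  refine ⟨Matrix.det (Matrix.of fun i j => M j i), ?_, ?_⟩
  · rw [← LinearMap.det_toMatrix (w.bas y hy z hz), AlgHom.map_det]
    congr 1
    ext i j
    rw [LinearMap.toMatrix_apply, LinearMap.mulLeft_apply]
    have : w.Φ f * (w.bas y hy z hz) j = ∑ i, aeval z (M j i) • (w.bas y hy z hz) i := by
      simp only [bas, Module.Basis.mk_apply]; exact hM j
    rw [this, Module.Basis.repr_sum_self]
    rfl
  · rw [Matrix.det_apply]
    have key : ∀ s : Equiv.Perm (ι ⊕ ι → Fin p),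
        p * (∏ j, M j (s j)).totalDegree ≤ p ^ (2 * Fintype.card ι) * C0 := by
      intro s
      by_cases h0 : ∃ j, M j (s j) = 0
      · obtain ⟨j, hj⟩ := h0
        rw [Finset.prod_eq_zero (Finset.mem_univ j) hj]; simp
      push Not at h0
      have h2 := totalDegree_finsetProd Finset.univ (fun j => M j (s j))
      have h3 : ∑ j, (p * (M j (s j)).totalDegree + (bx (s j)).degree)
          ≤ ∑ j : ι ⊕ ι → Fin p, (C0 + (bx j).degree) :=
        Finset.sum_le_sum fun j _ => hdeg j (s j) (h0 j)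
      rw [Finset.sum_add_distrib, Finset.sum_add_distrib, ← Finset.mul_sum,
        Equiv.sum_comp s (fun j => (bx j).degree), Finset.sum_const, Finset.card_univ,
        smul_eq_mul] at h3
      have h4 : Fintype.card (ι ⊕ ι → Fin p) = p ^ (2 * Fintype.card ι) := by simp [two_mul]
      rw [h4] at h3
      have := Nat.mul_le_mul_left p h2
      omega
    have h5 : (∑ s : Equiv.Perm (ι ⊕ ι → Fin p), Equiv.Perm.sign s •
        ∏ j, (Matrix.of fun i j => M j i) (s j) j).totalDegree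
        ≤ p ^ (2 * Fintype.card ι) * C0 / p := by
      refine (totalDegree_finsetSum _ _).trans (Finset.sup_le fun s _ => ?_)
      refine (totalDegree_smul_le _ _).trans ?_
      rw [Nat.le_div_iff_mul_le hp.out.pos, mul_comm]
      exact key s
    exact (Nat.mul_le_mul_left p h5).trans (Nat.mul_div_le _ _)

theorem norm_bound {C0 : ℕ} {f h : MvPolynomial ((ι ⊕ ι) ⊕ κ) k} (hf : DegLT (C0 + 1) f)
    (hh : DegLT (C0 + 1) h) (hh0 : h ≠ 0) {u : D} (hu : u * w.Φ h = w.Φ f) {c : Z}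
    (hc : algebraMap Z D c = u ^ p) :
    ∃ G H : MvPolynomial (ι ⊕ ι) K, aeval z H ≠ 0 ∧
      c ^ (p ^ (2 * Fintype.card ι)) * aeval z H ^ p = aeval z G ^ p ∧
      p * G.totalDegree ≤ p ^ (2 * Fintype.card ι) * C0 ∧
      p * H.totalDegree ≤ p ^ (2 * Fintype.card ι) * C0 := by
  obtain ⟨G, hG, dG⟩ := w.det_phi y hy z hz hf
  obtain ⟨H, hH, dH⟩ := w.det_phi y hy z hz hh
  let Nm : D →* Z := LinearMap.det.comp (Algebra.lmul Z D).toRingHom.toMonoidHom
  have hN : ∀ x, Nm x = LinearMap.det (LinearMap.mulLeft Z x) := fun _ => rfl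
  refine ⟨G, H, ?_, ?_, dG, dH⟩
  · rw [← hH, ← hN]
    exact ((Ne.isUnit (w.phi_ne_zero hh0)).map Nm).ne_zero
  · rw [← hG, ← hH, ← hN, ← hN, ← hu, map_mul, mul_pow, ← map_pow Nm u, ← hc]
    congr 1
    have : LinearMap.mulLeft Z (algebraMap Z D c) = c • LinearMap.id := by
      ext x; simp [Algebra.smul_def]
    rw [hN, this, LinearMap.det_smul, LinearMap.det_id, mul_one, w.finrank_center y hy z hz]

end

end WF

end Pool.Agent.Lib.MP_75bae7_al
end

-- part Pool.Agent.Lib.MP_75bae7_al.Bracket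
section

/-!
The Poisson bracket on the centre of the reduction modulo `p`.
-/

set_option autoImplicit false
set_option linter.unusedSectionVars false

namespace Pool.Agent.Lib.MP_75bae7_al

open MvPolynomial

/-- A bracket which is an antisymmetric biderivation. -/
structure IsBr {Z : Type} [Field Z] (B : Z → Z → Z) : Prop where
  anti : ∀ x y, B x y = - B y x
  add : ∀ x x' y, B (x + x') y = B x y + B x' y
  mul : ∀ x x' y, B (x * x') y = x * B x' y + x' * B x y

theorem phi_X_pow {σ R A : Type} [CommRing R] [Ring A] [Algebra R A] {S : Shape σ} {g : σ → A}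
    (hg : S.IsSys g) (a : σ) (n : ℕ) : phi S R g (X a ^ n) = g a ^ n := by
  induction n with
  | zero => rw [pow_zero, pow_zero, phi_one hg]
  | succ n ih =>
    by_cases ha : S.left a = true
    · rw [pow_succ', phi_left hg ha, ih, pow_succ']
    · rw [pow_succ', phi_right hg (Bool.eq_false_iff.2 ha), ih, pow_succ]

namespace WF
variable {ι κ F D : Type} [DecidableEq ι] [Fintype ι] [Fintype κ] [Field F] [DivisionRing D]
  [Algebra F D] (w : WF ι κ F D) (V : ValuationSubring F)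

theorem closed_preimage (Tb : Subring (w.Db V))
    (hs : ∀ c : IsLocalRing.ResidueField V, algebraMap _ (w.Db V) c ∈ Tb)
    (hi : ∀ x ∈ Tb, x⁻¹ ∈ Tb) : w.Closed V ((Tb.comap (w.red V)).map (w.O V).subtype) where
  scal c := ⟨algebraMap V (w.O V) c, hs (IsLocalRing.residue V c), rfl⟩
  inv := by
    rintro _ ⟨u, hu, rfl⟩ h1
    refine ⟨⟨_, w.inv_mem V h1⟩, ?_, rfl⟩
    have h2 := w.red_inv V u h1
    have h3 := hi _ hu
    rw [← h2] at h3
    exact h3

/-- elements whose commutator with `u` is small -/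
noncomputable def cmt (u : D) (γ : V.ValueGroup) : Subring D where
  carrier := {x | w.nu V x ≤ 1 ∧ w.nu V (u * x - x * u) ≤ γ}
  zero_mem' := by simp
  one_mem' := by simp
  add_mem' := by
    rintro a b ⟨ha, ha'⟩ ⟨hb, hb'⟩
    refine ⟨(w.nu V).map_add_le ha hb, ?_⟩
    have : u * (a + b) - (a + b) * u = (u * a - a * u) + (u * b - b * u) := by noncomm_ring
    rw [this]; exact (w.nu V).map_add_le ha' hb'
  mul_mem' := by
    rintro a b ⟨ha, ha'⟩ ⟨hb, hb'⟩
    refine ⟨by rw [map_mul]; exact mul_le_one' ha hb, ?_⟩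
    have : u * (a * b) - (a * b) * u = (u * a - a * u) * b + a * (u * b - b * u) := by
      noncomm_ring
    rw [this]
    refine (w.nu V).map_add_le ?_ ?_
    · rw [map_mul]; exact (mul_le_mul' ha' hb).trans (mul_one _).le
    · rw [map_mul]; exact (mul_le_mul' ha hb').trans (one_mul _).le
  neg_mem' := by
    rintro a ⟨ha, ha'⟩
    refine ⟨by simpa using ha, ?_⟩
    have : u * (-a) - (-a) * u = -(u * a - a * u) := by noncomm_ring
    rw [this, Valuation.map_neg]; exact ha'

theorem cmt_closed (u : D) (γ : V.ValueGroup) : w.Closed V (w.cmt V u γ) where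
  scal c := ⟨by rw [nu_algebraMap]; exact V.valuation_le_one c, by
    rw [Algebra.commutes, sub_self, map_zero]; exact zero_le⟩
  inv x hx h1 := by
    refine ⟨w.inv_mem V h1, ?_⟩
    have h0 := w.ne_zero_of_nu V h1
    have : u * x⁻¹ - x⁻¹ * u = -(x⁻¹ * (u * x - x * u) * x⁻¹) := by
      rw [mul_sub, sub_mul, mul_assoc, mul_assoc, mul_inv_cancel₀ h0, mul_one, ← mul_assoc x⁻¹,
        inv_mul_cancel₀ h0, one_mul, neg_sub]
    rw [this, Valuation.map_neg, map_mul, map_mul, map_inv₀, h1, inv_one, one_mul, mul_one]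
    exact hx.2

variable (p : ℕ)

/-- elements that are central modulo `p` -/
def Good (u : w.O V) : Prop := ∀ x : w.O V, w.nu V ((u : D) * x - x * u) ≤ V.valuation (p : F)

theorem nu_natCast (n : ℕ) : w.nu V (n : D) = V.valuation (n : F) := by
  rw [← w.nu_algebraMap V, map_natCast (algebraMap F D)]

theorem good_of_le {u : w.O V} (h : w.O V ≤ w.cmt V u (V.valuation (p : F))) : w.Good V p u :=
  fun x => (h x.2).2

theorem nu_le_of_eq {a : D} {e : w.O V} (h : a = p * e) : w.nu V a ≤ V.valuation (p : F) := by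
  rw [h, map_mul, nu_natCast]
  exact (mul_le_mul' le_rfl e.2).trans (mul_one _).le

variable {w V p}

theorem Good.add {u v : w.O V} (hu : w.Good V p u) (hv : w.Good V p v) : w.Good V p (u + v) := by
  intro x
  have : ((u + v : w.O V) : D) * x - x * (u + v : w.O V)
      = ((u : D) * x - x * u) + ((v : D) * x - x * v) := by push_cast; noncomm_ring
  rw [this]; exact (w.nu V).map_add_le (hu x) (hv x)

theorem Good.mul {u v : w.O V} (hu : w.Good V p u) (hv : w.Good V p v) : w.Good V p (u * v) := by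
  intro x
  have : ((u * v : w.O V) : D) * x - x * (u * v : w.O V)
      = (u : D) * ((v : D) * x - x * v) + ((u : D) * x - x * u) * v := by push_cast; noncomm_ring
  rw [this]
  refine (w.nu V).map_add_le ?_ ?_
  · rw [map_mul]; exact (mul_le_mul' u.2 (hv x)).trans (one_mul _).le
  · rw [map_mul]; exact (mul_le_mul' (hu x) v.2).trans (mul_one _).le

theorem Good.inv {u : w.O V} (hu : w.Good V p u) (h1 : w.nu V u = 1) :
    w.Good V p ⟨_, w.inv_mem V h1⟩ := by
  intro x
  have h0 := w.ne_zero_of_nu V h1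
  have : (u : D)⁻¹ * x - x * (u : D)⁻¹ = -((u : D)⁻¹ * ((u : D) * x - x * u) * (u : D)⁻¹) := by
    rw [mul_sub, sub_mul, ← mul_assoc, inv_mul_cancel₀ h0, one_mul, mul_assoc, mul_assoc,
      mul_inv_cancel₀ h0, mul_one, neg_sub]
  change w.nu V ((u : D)⁻¹ * x - x * (u : D)⁻¹) ≤ _
  rw [this, Valuation.map_neg, map_mul, map_mul, map_inv₀, h1, inv_one, one_mul, mul_one]
  exact hu x

theorem good_of_central {u : w.O V} (hu : ∀ x : D, (u : D) * x = x * u) : w.Good V p u := by
  intro x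
  rw [hu, sub_self, map_zero]; exact zero_le

theorem good_pow (hp : p.Prime) (a : (ι ⊕ ι) ⊕ κ) : w.Good V p (w.gO V a ^ p) := by
  apply good_of_le
  refine (w.cmt_closed V _ _).O_le w V fun b => ⟨w.nu_g V b, ?_⟩
  obtain ⟨n, rfl⟩ := Nat.exists_eq_succ_of_ne_zero hp.ne_zero
  have := congrArg Subtype.val (ad_pow (w.gO_sys V b a) n)
  rw [← Valuation.map_neg, neg_sub]
  exact w.nu_le_of_eq V _ (e := ((sh1 ι κ).om b (a) : w.O V) * w.gO V a ^ n)
    (by simpa [gO] using this)

variable [CharZero F] (hp : p.Prime) (hv : V.valuation (p : F) < 1)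
include hp

theorem val_p_ne : V.valuation (p : F) ≠ 0 :=
  (Valuation.ne_zero_iff _).2 (by exact_mod_cast hp.ne_zero)

include F in
theorem p_ne : (p : D) ≠ 0 := by
  rw [← map_natCast (algebraMap F D), Ne, map_eq_zero]; exact_mod_cast hp.ne_zero

theorem exists_div {a : D} (ha : w.nu V a ≤ V.valuation (p : F)) :
    ∃ e : w.O V, a = p * e := by
  refine ⟨⟨(p : D)⁻¹ * a, ?_⟩, ?_⟩
  · rw [Valuation.mem_integer_iff, map_mul, map_inv₀, nu_natCast]
    exact (mul_le_mul' le_rfl ha).trans (inv_mul_cancel₀ (val_p_ne hp)).le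
  · rw [← mul_assoc, mul_inv_cancel₀ (p_ne (F := F) hp), one_mul]

theorem Good.exists_div {u : w.O V} (hu : w.Good V p u) (x : w.O V) :
    ∃ e : w.O V, u * x - x * u = p * e := by
  obtain ⟨e, he⟩ := WF.exists_div hp (hu x)
  exact ⟨e, Subtype.ext (by simpa using he)⟩

theorem Good.small {u m : w.O V} (hu : w.Good V p u) (hm : w.red V m = 0) :
    w.nu V ((u : D) * m - m * u) < V.valuation (p : F) := by
  rw [red_eq_zero_iff] at hm
  by_cases h0 : (m : D) = 0
  · rw [h0, mul_zero, zero_mul, sub_zero, map_zero]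
    exact zero_lt_iff.2 (val_p_ne hp)
  obtain ⟨c, hc⟩ := w.exists_scalar V m
  have hc0 : c ≠ 0 := by
    rintro rfl
    rw [map_zero, eq_comm, Valuation.zero_iff] at hc
    exact h0 hc
  have h1 : c⁻¹ • (m : D) ∈ w.O V := by
    rw [Valuation.mem_integer_iff, Algebra.smul_def, map_mul, nu_algebraMap, map_inv₀, ← hc,
      inv_mul_cancel₀ ((Valuation.ne_zero_iff _).2 hc0)]
  have h2 := hu ⟨_, h1⟩
  have : (u : D) * m - m * u = c • ((u : D) * (c⁻¹ • (m : D)) - (c⁻¹ • (m : D)) * u) := by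
    rw [mul_smul_comm, smul_mul_assoc, ← smul_sub, smul_smul, mul_inv_cancel₀ hc0, one_smul]
  rw [this, Algebra.smul_def, map_mul, nu_algebraMap, hc]
  calc _ ≤ w.nu V m * V.valuation (p : F) := mul_le_mul' le_rfl h2
    _ < 1 * V.valuation (p : F) := mul_lt_mul_of_pos_right hm (zero_lt_iff.2 (val_p_ne hp))
    _ = _ := one_mul _

theorem red_eq_zero_of_lt {e : w.O V} (h : w.nu V ((p : D) * e) < V.valuation (p : F)) :
    w.red V e = 0 := by
  rw [red_eq_zero_iff]
  rw [map_mul, nu_natCast] at h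
  by_contra hc
  exact absurd h (not_lt.2 (le_mul_of_one_le_right' (not_lt.1 hc)))

theorem br_welldef {u1 u2 l1 l2 e e0 : w.O V} (hu : w.Good V p u1) (hl : w.Good V p l2)
    (h1 : w.red V u1 = w.red V l1) (h2 : w.red V u2 = w.red V l2)
    (he : u1 * u2 - u2 * u1 = p * e) (he0 : l1 * l2 - l2 * l1 = p * e0) :
    w.red V e = w.red V e0 := by
  rw [← sub_eq_zero, ← map_sub]
  apply red_eq_zero_of_lt hp
  have a1 := hu.small hp (m := u2 - l2) (by rw [map_sub, h2, sub_self])
  have a2 := hl.small hp (m := u1 - l1) (by rw [map_sub, h1, sub_self])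
  have e1 : (p : w.O V) * (e - e0) = (u1 * (u2 - l2) - (u2 - l2) * u1)
      - (l2 * (u1 - l1) - (u1 - l1) * l2) := by
    rw [mul_sub, ← he, ← he0]; noncomm_ring
  have e2 := congrArg Subtype.val e1
  simp only [Subring.coe_mul, Subring.coe_natCast, AddSubgroupClass.coe_sub] at e2 a1 a2 ⊢
  rw [e2]
  exact (w.nu V).map_sub_lt a1 a2

include hv

theorem red_p : w.red V (p : w.O V) = 0 := by
  rw [red_eq_zero_iff, Subring.coe_natCast, nu_natCast]; exact hv

theorem charP_residue : CharP (IsLocalRing.ResidueField V) p := by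
  have : Fact p.Prime := ⟨hp⟩
  rw [CharP.charP_iff_prime_eq_zero hp, ← map_natCast (IsLocalRing.residue V),
    IsLocalRing.residue_eq_zero_iff, V.valuation_lt_one_iff]
  simpa using hv

theorem br_central {l1 l2 e0 : w.O V} (h1 : w.Good V p l1) (h2 : w.Good V p l2)
    (he0 : l1 * l2 - l2 * l1 = p * e0) (x : w.Db V) : w.red V e0 * x = x * w.red V e0 := by
  obtain ⟨x, rfl⟩ := w.red_surjective V x
  obtain ⟨a, ha⟩ := h1.exists_div hp x
  obtain ⟨b, hb⟩ := h2.exists_div hp x
  obtain ⟨a', ha'⟩ := h2.exists_div hp a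
  obtain ⟨b', hb'⟩ := h1.exists_div hp b
  have e1 : (p : w.O V) * (e0 * x - x * e0) = p * (p * (b' - a')) := by
    have : (p : w.O V) * (e0 * x - x * e0)
        = (l1 * l2 - l2 * l1) * x - x * (l1 * l2 - l2 * l1) := by
      rw [he0, mul_sub, mul_assoc, ← mul_assoc x, ← (Nat.cast_commute p x).eq, mul_assoc]
    have h3 : (l1 * l2 - l2 * l1) * x - x * (l1 * l2 - l2 * l1)
        = (l1 * (l2 * x - x * l2) - (l2 * x - x * l2) * l1)
          - (l2 * (l1 * x - x * l1) - (l1 * x - x * l1) * l2) := by noncomm_ring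
    rw [this, h3, ha, hb, mul_sub (p : w.O V) b', ← hb', ← ha', ← mul_assoc l1, ← mul_assoc l2,
      ← (Nat.cast_commute p l1).eq, ← (Nat.cast_commute p l2).eq]
    noncomm_ring
  have e2 : e0 * x - x * e0 = p * (b' - a') := by
    apply Subtype.ext
    have := congrArg Subtype.val e1
    simp only [Subring.coe_mul, Subring.coe_natCast] at this
    simpa using mul_left_cancel₀ (p_ne (F := F) hp) this
  rw [← map_mul, ← map_mul, ← sub_eq_zero, ← map_sub, e2, map_mul, red_p hp hv, zero_mul]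

variable {K : Type} [Field K] [Algebra (IsLocalRing.ResidueField V) K] [Algebra K (Ctr (w.Db V))]
  [IsScalarTower (IsLocalRing.ResidueField V) K (Ctr (w.Db V))]
  (y : κ → K) (hy : ∀ j, algebraMap (Ctr (w.Db V)) (w.Db V) (algebraMap K _ (y j))
    = (w.wb V).g (.inr j))
  (hK : ∀ c : K, algebraMap K (Ctr (w.Db V)) c ∈ IntermediateField.adjoin
    (IsLocalRing.ResidueField V) (Set.range fun j => algebraMap K (Ctr (w.Db V)) (y j)))
  (z : ι ⊕ ι → Ctr (w.Db V))
  (hz : ∀ a, algebraMap (Ctr (w.Db V)) (w.Db V) (z a) = (w.wb V).g (.inl a) ^ p)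
include hy hK

omit hp hv in
theorem central_lift (c : K) : ∃ u : w.O V, (∀ x : D, (u : D) * x = x * u) ∧
    w.red V u = algebraMap (Ctr (w.Db V)) (w.Db V) (algebraMap K _ c) := by
  refine IntermediateField.adjoin_induction _ (p := fun c _ => ∃ u : w.O V,
    (∀ x : D, (u : D) * x = x * u) ∧ w.red V u = algebraMap (Ctr (w.Db V)) (w.Db V) c)
    ?_ ?_ ?_ ?_ ?_ (hK c)
  · rintro _ ⟨j, rfl⟩
    exact ⟨w.gO V (.inr j), w.y_central j, (hy j).symm⟩
  · intro c
    obtain ⟨c, rfl⟩ := IsLocalRing.residue_surjective (R := V) c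
    exact ⟨algebraMap V _ c, fun x => Algebra.commutes (c : F) x, rfl⟩
  · rintro a b _ _ ⟨u, hu, hu'⟩ ⟨v, hv, hv'⟩
    exact ⟨u + v, fun x => by push_cast; rw [add_mul, mul_add, hu, hv],
      by rw [map_add, map_add, hu', hv']⟩
  · rintro a _ ⟨u, hu, hu'⟩
    by_cases h0 : a = 0
    · exact ⟨0, by simp, by simp [h0]⟩
    have h1 : w.nu V u = 1 := by
      rw [← red_ne_zero_iff, hu']; exact (map_ne_zero _).2 h0
    refine ⟨⟨_, w.inv_mem V h1⟩, fun x => ?_, by rw [red_inv _ _ _ h1, hu', map_inv₀]⟩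
    exact (Commute.inv_left₀ (hu x)).eq
  · rintro a b _ _ ⟨u, hu, hu'⟩ ⟨v, hv, hv'⟩
    exact ⟨u * v, fun x => by push_cast; rw [mul_assoc, hv, ← mul_assoc, hu, mul_assoc],
      by rw [map_mul, map_mul, hu', hv']⟩

include hz

theorem good_lift (c : Ctr (w.Db V)) : ∃ u : w.O V, w.Good V p u ∧
    w.red V u = algebraMap (Ctr (w.Db V)) (w.Db V) c := by
  have : Fact p.Prime := ⟨hp⟩
  have := charP_residue hp hv
  have key : ∀ f : MvPolynomial (ι ⊕ ι) K, ∃ u : w.O V, w.Good V p u ∧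
      w.red V u = algebraMap (Ctr (w.Db V)) (w.Db V) (aeval z f) := by
    intro f
    induction f using poly_ind with
    | hC c =>
      obtain ⟨u, hu, hu'⟩ := central_lift y hy hK c
      exact ⟨u, good_of_central hu, by rw [hu', aeval_C]⟩
    | hadd f g hf hg =>
      obtain ⟨u, hu, hu'⟩ := hf
      obtain ⟨v, hv, hv'⟩ := hg
      exact ⟨u + v, hu.add hv, by rw [map_add, map_add, map_add, hu', hv']⟩
    | hX f a hf =>
      obtain ⟨u, hu, hu'⟩ := hf
      exact ⟨_, (good_pow hp (.inl a)).mul hu, by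
        rw [map_mul, map_mul, map_mul, aeval_X, hz, hu', map_pow]; rfl⟩
  obtain ⟨f, h, hh, rfl⟩ := (w.wb V).center_frac y hy z hz c
  obtain ⟨u, hu, hu'⟩ := key f
  obtain ⟨v, hv, hv'⟩ := key h
  have h1 : w.nu V v = 1 := by
    rw [← red_ne_zero_iff, hv']; exact (map_ne_zero _).2 hh
  exact ⟨_, hu.mul (hv.inv h1), by
    rw [map_mul, red_inv _ _ _ h1, hu', hv', div_eq_mul_inv, map_mul, map_inv₀]⟩

theorem exists_bracket : ∃ B : Ctr (w.Db V) → Ctr (w.Db V) → Ctr (w.Db V), IsBr B ∧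
    (∀ (c : K) x, B (algebraMap K _ c) x = 0) ∧
    (∀ a b, ∃ h : MvPolynomial (ι ⊕ ι) K, B (z a) (z b) = aeval z h) ∧
    ∀ (c1 c2 : Ctr (w.Db V)) (u1 u2 e : w.O V), w.Good V p u1 →
      w.red V u1 = algebraMap _ (w.Db V) c1 → w.red V u2 = algebraMap _ (w.Db V) c2 →
      u1 * u2 - u2 * u1 = p * e → algebraMap _ (w.Db V) (B c1 c2) = w.red V e := by
  have : Fact p.Prime := ⟨hp⟩
  have := charP_residue hp hv
  choose l hl hl' using good_lift hp hv y hy hK z hz
  choose e0 he0 using fun c1 c2 => (hl c1).exists_div hp (l c2)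
  choose B hB using fun c1 c2 => Ctr.exists_eq (w.red V (e0 c1 c2))
    (br_central hp hv (hl c1) (hl c2) (he0 c1 c2))
  have spec : ∀ (c1 c2 : Ctr (w.Db V)) (u1 u2 e : w.O V), w.Good V p u1 →
      w.red V u1 = algebraMap _ (w.Db V) c1 → w.red V u2 = algebraMap _ (w.Db V) c2 →
      u1 * u2 - u2 * u1 = p * e → algebraMap _ (w.Db V) (B c1 c2) = w.red V e := by
    intro c1 c2 u1 u2 e hu h1 h2 he
    rw [hB]
    exact (br_welldef hp hu (hl c2) (h1.trans (hl' c1).symm) (h2.trans (hl' c2).symm) he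
      (he0 c1 c2)).symm
  have inj := (algebraMap (Ctr (w.Db V)) (w.Db V)).injective
  refine ⟨B, ⟨fun x y => inj ?_, fun x x' y => inj ?_, fun x x' y => inj ?_⟩,
    fun c x => inj ?_, fun a b => ?_, spec⟩
  · rw [spec x y _ _ (-e0 y x) (hl x) (hl' x) (hl' y) (by rw [mul_neg, ← he0, neg_sub]),
      map_neg, map_neg, hB]
  · rw [spec (x + x') y _ _ (e0 x y + e0 x' y) ((hl x).add (hl x'))
      (by rw [map_add, map_add, hl', hl']) (hl' y)
      (by rw [mul_add (p : w.O V), ← he0, ← he0]; noncomm_ring), map_add, map_add, hB, hB]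
  · rw [spec (x * x') y _ _ (l x * e0 x' y + e0 x y * l x') ((hl x).mul (hl x'))
      (by rw [map_mul, map_mul, hl', hl']) (hl' y)
      (by
        rw [mul_add (p : w.O V), ← mul_assoc (p : w.O V) (l x), (Nat.cast_commute p (l x)).eq,
          mul_assoc (l x) (p : w.O V), ← mul_assoc (p : w.O V) (e0 x y), ← he0, ← he0]
        noncomm_ring),
      map_add, map_add, map_mul, map_mul, map_mul, map_mul, hB, hB, hl', hl',
      Algebra.commutes x']
  · obtain ⟨u, hu, hu'⟩ := central_lift y hy hK c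
    rw [spec _ x u _ 0 (good_of_central hu) hu' (hl' x) (by
      rw [mul_zero, sub_eq_zero]; exact Subtype.ext (hu _)), map_zero, map_zero]
  · obtain ⟨e, he⟩ := (good_pow (w := w) (V := V) hp (.inl a)).exists_div hp (w.gO V (.inl b) ^ p)
    have h1 := spec (z a) (z b) _ _ e (good_pow hp (.inl a)) (by rw [hz, map_pow]; rfl)
      (by rw [hz, map_pow]; rfl) he
    let f : MvPolynomial ((ι ⊕ ι) ⊕ κ) F := (p : F)⁻¹ •
      (star (sh1 ι κ) (X (.inl a) ^ p) (X (.inl b) ^ p)
        - star (sh1 ι κ) (X (.inl b) ^ p) (X (.inl a) ^ p))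
    have hpow : ∀ c, w.Φ (X c ^ p) = w.g c ^ p := by
      intro c
      exact phi_X_pow w.sys c p
    have hf : w.Φ f = e := by
      have h2 := congrArg Subtype.val he
      simp only [Subring.coe_mul, Subring.coe_natCast, AddSubgroupClass.coe_sub,
        SubmonoidClass.coe_pow, gO] at h2
      rw [map_smul, map_sub, phi_star w.sys, phi_star w.sys]
      change _ • (w.Φ _ * w.Φ _ - w.Φ _ * w.Φ _) = _
      rw [hpow, hpow, h2, Algebra.smul_def, map_inv₀, map_natCast, ← mul_assoc,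
        inv_mul_cancel₀ (p_ne (F := F) hp), one_mul]
    obtain ⟨f0, hf0⟩ := exists_lift (V := V) (f := f) (by rw [← w.nu_phi, hf]; exact e.2)
    have h3 : e = phi (sh1 ι κ) V (w.gO V) f0 := Subtype.ext (by rw [coe_phiO, hf0, hf])
    rw [h3, red_phiO] at h1
    exact (w.wb V).central_poly y hy z hz _ _ h1

end WF

end Pool.Agent.Lib.MP_75bae7_al
end

-- part Pool.Agent.Lib.MP_75bae7_al.Ord
section

/-!
Order of vanishing along a prime element, and the parity lemma coming from the Poisson bracket.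
-/

set_option autoImplicit false
set_option linter.unusedSectionVars false

namespace Pool.Agent.Lib.MP_75bae7_al

/-- `e` exhibits `Z` as the field of fractions of `R` -/
structure Fr {R Z : Type} [CommRing R] [Field Z] (e : R →+* Z) : Prop where
  inj : Function.Injective e
  frac : ∀ z, ∃ a b, b ≠ 0 ∧ z = e a / e b

namespace Fr
variable {R Z : Type} [CommRing R] [IsDomain R] [WfDvdMonoid R] [Field Z] {e : R →+* Z}
  (h : Fr e) (π : R)

/-- order of vanishing -/
noncomputable def ord (z : Z) : ℤ :=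
  (multiplicity π (h.frac z).choose : ℤ) - multiplicity π (h.frac z).choose_spec.choose

variable {π} (hπ : Prime π)

include h in
theorem ne {a : R} (ha : a ≠ 0) : e a ≠ 0 := fun h0 => ha (h.inj (h0.trans (map_zero e).symm))

include hπ

omit h in
theorem fin {a : R} (ha : a ≠ 0) : FiniteMultiplicity π a :=
  FiniteMultiplicity.of_prime_left hπ ha

omit h in
theorem mult_mul {a b : R} (ha : a ≠ 0) (hb : b ≠ 0) :
    multiplicity π (a * b) = multiplicity π a + multiplicity π b :=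
  multiplicity_mul hπ (fin hπ (mul_ne_zero ha hb))

theorem ord_div_eq {a b : R} (ha : a ≠ 0) (hb : b ≠ 0) :
    h.ord π (e a / e b) = (multiplicity π a : ℤ) - multiplicity π b := by
  obtain ⟨hb', e1⟩ := (h.frac (e a / e b)).choose_spec.choose_spec
  rw [ord]
  generalize (h.frac (e a / e b)).choose_spec.choose = b' at *
  generalize (h.frac (e a / e b)).choose = a' at *
  rw [div_eq_div_iff (h.ne hb) (h.ne hb'), ← map_mul, ← map_mul] at e1
  have e2 := h.inj e1
  have ha' : a' ≠ 0 := by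
    rintro h0
    rw [h0, zero_mul] at e2
    exact mul_ne_zero ha hb' e2
  have e3 := congrArg (multiplicity π) e2
  rw [mult_mul hπ ha hb', mult_mul hπ ha' hb] at e3
  omega

include h in
omit hπ in
theorem frac' {z : Z} (hz : z ≠ 0) : ∃ a b, a ≠ 0 ∧ b ≠ 0 ∧ z = e a / e b := by
  obtain ⟨a, b, hb, rfl⟩ := h.frac z
  exact ⟨a, b, by rintro rfl; simp at hz, hb, rfl⟩

theorem ord_e {a : R} (ha : a ≠ 0) : h.ord π (e a) = multiplicity π a := by
  have := h.ord_div_eq hπ ha one_ne_zero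
  rw [map_one, div_one, multiplicity_of_one_right hπ.not_isUnit] at this
  simpa using this

theorem ord_mul {x y : Z} (hx : x ≠ 0) (hy : y ≠ 0) :
    h.ord π (x * y) = h.ord π x + h.ord π y := by
  obtain ⟨a, b, ha, hb, rfl⟩ := h.frac' hx
  obtain ⟨c, d, hc, hd, rfl⟩ := h.frac' hy
  rw [div_mul_div_comm, ← map_mul, ← map_mul, h.ord_div_eq hπ (mul_ne_zero ha hc)
    (mul_ne_zero hb hd), h.ord_div_eq hπ ha hb, h.ord_div_eq hπ hc hd, mult_mul hπ ha hc,
    mult_mul hπ hb hd]
  push_cast; ring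

theorem ord_unit {a : R} (ha : IsUnit a) : h.ord π (e a) = 0 := by
  rw [h.ord_e hπ ha.ne_zero, multiplicity_of_isUnit_right hπ.not_isUnit ha]; rfl

theorem ord_one : h.ord π 1 = 0 := by
  have := h.ord_unit hπ isUnit_one
  rwa [map_one] at this

theorem ord_neg {x : Z} (hx : x ≠ 0) : h.ord π (-x) = h.ord π x := by
  have := h.ord_unit hπ isUnit_one.neg
  rw [map_neg, map_one] at this
  rw [← neg_one_mul, h.ord_mul hπ (by simp) hx, this, zero_add]

theorem ord_inv {x : Z} (hx : x ≠ 0) : h.ord π x⁻¹ = - h.ord π x := by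
  have := h.ord_mul hπ hx (inv_ne_zero hx)
  rw [mul_inv_cancel₀ hx, h.ord_one hπ] at this
  omega

theorem ord_div {x y : Z} (hx : x ≠ 0) (hy : y ≠ 0) :
    h.ord π (x / y) = h.ord π x - h.ord π y := by
  rw [div_eq_mul_inv, h.ord_mul hπ hx (inv_ne_zero hy), h.ord_inv hπ hy]; ring

theorem ord_pow {x : Z} (hx : x ≠ 0) (n : ℕ) : h.ord π (x ^ n) = n * h.ord π x := by
  induction n with
  | zero => simp [h.ord_one hπ]
  | succ n ih => rw [pow_succ, h.ord_mul hπ (pow_ne_zero _ hx) hx, ih]; push_cast; ring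

theorem ord_zpow {x : Z} (hx : x ≠ 0) (n : ℤ) : h.ord π (x ^ n) = n * h.ord π x := by
  obtain ⟨n, rfl | rfl⟩ := Int.eq_nat_or_neg n
  · rw [zpow_natCast, h.ord_pow hπ hx]
  · rw [zpow_neg, zpow_natCast, h.ord_inv hπ (pow_ne_zero _ hx), h.ord_pow hπ hx]; ring

theorem ord_self : h.ord π (e π) = 1 := by
  rw [h.ord_e hπ hπ.ne_zero, multiplicity_self]; rfl

/-- the local ring at the prime -/
def O (h : Fr e) (hπ : Prime π) : Subring Z where
  carrier := {z | ∃ a b, ¬π ∣ b ∧ z = e a / e b}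
  zero_mem' := ⟨0, 1, hπ.not_dvd_one, by simp⟩
  one_mem' := ⟨1, 1, hπ.not_dvd_one, by simp⟩
  add_mem' := by
    rintro _ _ ⟨a, b, hb, rfl⟩ ⟨c, d, hd, rfl⟩
    refine ⟨a * d + b * c, b * d, fun h1 => (hπ.dvd_or_dvd h1).elim hb hd, ?_⟩
    rw [div_add_div _ _ (h.ne (by rintro rfl; exact hb (dvd_zero _)))
      (h.ne (by rintro rfl; exact hd (dvd_zero _)))]
    simp
  mul_mem' := by
    rintro _ _ ⟨a, b, hb, rfl⟩ ⟨c, d, hd, rfl⟩
    exact ⟨a * c, b * d, fun h1 => (hπ.dvd_or_dvd h1).elim hb hd, by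
      rw [div_mul_div_comm, map_mul, map_mul]⟩
  neg_mem' := by
    rintro _ ⟨a, b, hb, rfl⟩
    exact ⟨-a, b, hb, by rw [map_neg, neg_div]⟩

theorem e_mem (a : R) : e a ∈ h.O hπ := ⟨a, 1, hπ.not_dvd_one, by simp⟩

theorem mem_O_iff {z : Z} (hz : z ≠ 0) : z ∈ h.O hπ ↔ 0 ≤ h.ord π z := by
  constructor
  · rintro ⟨a, b, hb, rfl⟩
    have ha : a ≠ 0 := by rintro rfl; simp at hz
    rw [h.ord_div_eq hπ ha (by rintro rfl; exact hb (dvd_zero _)), multiplicity_eq_zero.2 hb]
    simp
  · intro h0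
    obtain ⟨a, b, ha, hb, rfl⟩ := h.frac' hz
    rw [h.ord_div_eq hπ ha hb] at h0
    obtain ⟨b', e1, hb'⟩ := (fin hπ hb).exists_eq_pow_mul_and_not_dvd
    obtain ⟨a', e2⟩ : π ^ multiplicity π b ∣ a := pow_dvd_of_le_multiplicity (by omega)
    refine ⟨a', b', hb', ?_⟩
    have hp : e (π ^ multiplicity π b) ≠ 0 := h.ne (pow_ne_zero _ hπ.ne_zero)
    conv_lhs => rw [e2, e1]
    rw [map_mul, map_mul, ← e1, mul_div_mul_left _ _ hp]

theorem le_ord_add {x y : Z} (hx : x ≠ 0) (hy : y ≠ 0) (hxy : x + y ≠ 0) {n : ℤ}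
    (h1 : n ≤ h.ord π x) (h2 : n ≤ h.ord π y) : n ≤ h.ord π (x + y) := by
  have hP : e π ^ n ≠ 0 := zpow_ne_zero _ (h.ne hπ.ne_zero)
  have key : ∀ z : Z, z ≠ 0 → (z / e π ^ n ∈ h.O hπ ↔ n ≤ h.ord π z) := by
    intro z hz
    rw [h.mem_O_iff hπ (div_ne_zero hz hP), h.ord_div hπ hz hP,
      h.ord_zpow hπ (h.ne hπ.ne_zero), h.ord_self hπ]
    omega
  rw [← key _ hxy, add_div]
  exact add_mem ((key _ hx).2 h1) ((key _ hy).2 h2)

theorem ord_add_of_lt {x y : Z} (hx : x ≠ 0) (hy : y ≠ 0) (hlt : h.ord π x < h.ord π y) :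
    x + y ≠ 0 ∧ h.ord π (x + y) = h.ord π x := by
  have h0 : x + y ≠ 0 := by
    intro h0
    rw [eq_neg_of_add_eq_zero_left h0, h.ord_neg hπ hy] at hlt
    exact lt_irrefl _ hlt
  refine ⟨h0, le_antisymm ?_ (h.le_ord_add hπ hx hy h0 le_rfl hlt.le)⟩
  by_contra hc
  have := h.le_ord_add hπ h0 (neg_ne_zero.2 hy) (by simpa using hx)
    (n := h.ord π x + 1) (by omega) (by rw [h.ord_neg hπ hy]; omega)
  rw [add_neg_cancel_right] at this
  omega

theorem ord_sub_of_lt {x y : Z} (hx : x ≠ 0) (hy : y ≠ 0) (hlt : h.ord π x < h.ord π y) :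
    x - y ≠ 0 ∧ h.ord π (x - y) = h.ord π x := by
  rw [sub_eq_add_neg]
  exact h.ord_add_of_lt hπ hx (neg_ne_zero.2 hy) (by rwa [h.ord_neg hπ hy])

theorem ord_sub_of_gt {x y : Z} (hx : x ≠ 0) (hy : y ≠ 0) (hlt : h.ord π y < h.ord π x) :
    x - y ≠ 0 ∧ h.ord π (x - y) = h.ord π y := by
  have := h.ord_sub_of_lt hπ hy hx hlt
  rw [← neg_sub, h.ord_neg hπ this.1]
  exact ⟨neg_ne_zero.2 this.1, this.2⟩

end Fr

namespace IsBr
variable {Z : Type} [Field Z] {B : Z → Z → Z} (hB : IsBr B)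
include hB

theorem add' (x y y' : Z) : B x (y + y') = B x y + B x y' := by
  rw [hB.anti x, hB.add, hB.anti y, hB.anti y']; ring

theorem mul' (x y y' : Z) : B x (y * y') = y * B x y' + y' * B x y := by
  rw [hB.anti x, hB.mul, hB.anti y, hB.anti y']; ring

theorem zero (y : Z) : B 0 y = 0 := by
  have := hB.add 0 0 y
  simpa using this

theorem one (y : Z) : B 1 y = 0 := by
  have := hB.mul 1 1 y
  simpa using this

theorem zero' (y : Z) : B y 0 = 0 := by rw [hB.anti, hB.zero, neg_zero]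

theorem self (h2 : (2 : Z) ≠ 0) (x : Z) : B x x = 0 := by
  have := hB.anti x x
  have h3 : 2 * B x x = 0 := by linear_combination this
  exact (mul_eq_zero.1 h3).resolve_left h2

/-- logarithmic bracket -/
def lb (B : Z → Z → Z) (x y : Z) : Z := B x y / (x * y)

theorem lb_anti (x y : Z) : lb B x y = - lb B y x := by
  rw [lb, lb, hB.anti x y, mul_comm y x, neg_div]

theorem lb_mul {x x' : Z} (hx : x ≠ 0) (hx' : x' ≠ 0) (y : Z) :
    lb B (x * x') y = lb B x y + lb B x' y := by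
  by_cases hy : y = 0
  · simp [lb, hy]
  rw [lb, lb, lb, hB.mul]; field_simp; ring

theorem lb_zpow {x : Z} (hx : x ≠ 0) (n : ℤ) (y : Z) : lb B (x ^ n) y = n * lb B x y := by
  induction n using Int.induction_on with
  | zero => simp [lb, hB.one]
  | succ n ih => rw [zpow_add_one₀ hx, hB.lb_mul (zpow_ne_zero _ hx) hx, ih]; push_cast; ring
  | pred n ih =>
    have := hB.lb_mul (zpow_ne_zero (-(n : ℤ) - 1) hx) hx y
    rw [← zpow_add_one₀ hx, sub_add_cancel, ih] at this
    push_cast at this ⊢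
    linear_combination -this

end IsBr

section Parity
variable {R Z : Type} [CommRing R] [IsDomain R] [WfDvdMonoid R] [Field Z] {e : R →+* Z}
  (h : Fr e) {π : R} (hπ : Prime π) {B : Z → Z → Z} (hB : IsBr B)
  (hR : ∀ a b, ∃ c, B (e a) (e b) = e c)
include hB hR hπ

theorem br_mem_O {x y : Z} (hx : x ∈ h.O hπ) (hy : y ∈ h.O hπ) : B x y ∈ h.O hπ := by
  have key : ∀ y : Z, (∀ a, B (e a) y ∈ h.O hπ) → ∀ x ∈ h.O hπ, B x y ∈ h.O hπ := by
    rintro y hy x hx
    obtain ⟨a, b, hb, rfl⟩ := id hx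
    have hb0 : e b ≠ 0 := h.ne (by rintro rfl; exact hb (dvd_zero _))
    have h1 := hB.mul (e a / e b) (e b) y
    rw [div_mul_cancel₀ _ hb0] at h1
    have : B (e a / e b) y = (e 1 / e b) * (B (e a) y - e a / e b * B (e b) y) := by
      rw [h1, map_one]; field_simp; ring
    rw [this]
    exact mul_mem ⟨1, b, hb, rfl⟩ (sub_mem (hy a) (mul_mem hx (hy b)))
  refine key y (fun a => ?_) x hx
  rw [hB.anti]
  refine neg_mem (key (e a) (fun b => ?_) y hy)
  obtain ⟨c, hc⟩ := hR b a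
  rw [hc]; exact h.e_mem hπ c

theorem lb_mem_O {x y : Z} (hx : x ≠ 0) (hy : y ≠ 0) (h1 : h.ord π x = 0) (h2 : h.ord π y = 0) :
    IsBr.lb B x y ∈ h.O hπ := by
  rw [IsBr.lb, div_eq_mul_inv]
  refine mul_mem (br_mem_O h hπ hB hR ((h.mem_O_iff hπ hx).2 h1.ge) ((h.mem_O_iff hπ hy).2 h2.ge))
    ((h.mem_O_iff hπ (inv_ne_zero (mul_ne_zero hx hy))).2 ?_)
  rw [h.ord_inv hπ (mul_ne_zero hx hy), h.ord_mul hπ hx hy, h1, h2]; rfl

theorem mul_lb_mem_O (h2 : (2 : Z) ≠ 0) {x y : Z} (hx : x ≠ 0) (hy : y ≠ 0) :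
    e π * IsBr.lb B x y ∈ h.O hπ := by
  have hP : e π ≠ 0 := h.ne hπ.ne_zero
  have dec : ∀ x : Z, x ≠ 0 → ∃ (m : ℤ) (u : Z), u ≠ 0 ∧ h.ord π u = 0 ∧ x = e π ^ m * u := by
    intro x hx
    refine ⟨h.ord π x, x / e π ^ h.ord π x, div_ne_zero hx (zpow_ne_zero _ hP), ?_, ?_⟩
    · rw [h.ord_div hπ hx (zpow_ne_zero _ hP), h.ord_zpow hπ hP, h.ord_self hπ]; ring
    · rw [mul_div_cancel₀ _ (zpow_ne_zero _ hP)]
  have k1 : ∀ u : Z, u ≠ 0 → h.ord π u = 0 → e π * IsBr.lb B (e π) u ∈ h.O hπ := by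
    intro u hu h0
    have : e π * IsBr.lb B (e π) u = B (e π) u * u⁻¹ := by rw [IsBr.lb]; field_simp
    rw [this]
    refine mul_mem (br_mem_O h hπ hB hR (h.e_mem hπ π) ((h.mem_O_iff hπ hu).2 h0.ge))
      ((h.mem_O_iff hπ (inv_ne_zero hu)).2 ?_)
    rw [h.ord_inv hπ hu, h0]; rfl
  obtain ⟨m, u, hu, hu0, rfl⟩ := dec x hx
  obtain ⟨n, v, hv, hv0, rfl⟩ := dec y hy
  have e1 : IsBr.lb B (e π) (e π) = 0 := by rw [IsBr.lb, hB.self h2, zero_div]
  rw [hB.lb_mul (zpow_ne_zero _ hP) hu, hB.lb_zpow hP, hB.lb_anti (e π), hB.lb_anti u,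
    hB.lb_mul (zpow_ne_zero _ hP) hv, hB.lb_mul (zpow_ne_zero _ hP) hv, hB.lb_zpow hP,
    hB.lb_zpow hP, e1, hB.lb_anti v (e π)]
  have : e π * (m * -(n * 0 + -IsBr.lb B (e π) v) + -(n * IsBr.lb B (e π) u + IsBr.lb B v u))
      = m * (e π * IsBr.lb B (e π) v) - n * (e π * IsBr.lb B (e π) u)
        - e π * IsBr.lb B v u := by ring
  rw [this]
  exact sub_mem (sub_mem (mul_mem (intCast_mem _ m) (k1 v hv hv0))
    (mul_mem (intCast_mem _ n) (k1 u hu hu0)))
    (mul_mem (h.e_mem hπ π) (lb_mem_O h hπ hB hR hv hu hv0 hu0))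

/-- Along a prime divisor, a positive order of vanishing of `s` is even. -/
theorem parity_lemma {p : ℕ} [CharP Z p] (hp : p.Prime) (h2 : (2 : Z) ≠ 0) {s Δ η W J : Z}
    {c1 c2 : R} (hc2 : IsUnit c2) (hs : s ≠ 0) (hW : W ≠ 0)
    (rel : Δ ^ 2 - s * η ^ 2 = s ^ 2 - e c1 * s + e c2) (hJ : J ^ 2 = s * W)
    (b1 : B s η = -2 * Δ) (b2 : B W η = 0) (hord : |h.ord π W| < p) (hpos : 0 < h.ord π s) :
    Even (h.ord π s) := by
  by_contra hodd
  rw [Int.not_even_iff_odd] at hodd
  have hP : e π ≠ 0 := h.ne hπ.ne_zero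
  have hc : e c2 ≠ 0 := h.ne hc2.ne_zero
  have h2o : h.ord π (-2) = 0 := by
    have a1 : (-2 : Z) ∈ h.O hπ := by simp
    have a2 : (-2 : Z)⁻¹ ∈ h.O hπ := by
      have hodd : Odd p := by
        rcases hp.eq_two_or_odd' with rfl | h
        · exact absurd (by exact_mod_cast CharP.cast_eq_zero Z 2) h2
        · exact h
      obtain ⟨q, hq⟩ := hodd
      have h0 := CharP.cast_eq_zero Z p
      rw [hq] at h0
      push_cast at h0
      have : (-2 : Z)⁻¹ = q := by
        apply inv_eq_of_mul_eq_one_right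
        linear_combination -h0
      rw [this]; exact natCast_mem _ q
    have n2 : (-2 : Z) ≠ 0 := neg_ne_zero.2 h2
    rw [h.mem_O_iff hπ n2] at a1
    rw [h.mem_O_iff hπ (inv_ne_zero n2), h.ord_inv hπ n2] at a2
    omega
  have hrhs : s ^ 2 - e c1 * s + e c2 ≠ 0 ∧ h.ord π (s ^ 2 - e c1 * s + e c2) = 0 := by
    have : s ^ 2 - e c1 * s + e c2 = e c2 + s * (s - e c1) := by ring
    rw [this]
    by_cases h0 : s - e c1 = 0
    · rw [h0, mul_zero, add_zero]; exact ⟨hc, h.ord_unit hπ hc2⟩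
    have a1 : 0 ≤ h.ord π (s - e c1) := (h.mem_O_iff hπ h0).1
      (sub_mem ((h.mem_O_iff hπ hs).2 hpos.le) (h.e_mem hπ c1))
    have := h.ord_add_of_lt hπ hc (mul_ne_zero hs h0) (by
      rw [h.ord_unit hπ hc2, h.ord_mul hπ hs h0]; omega)
    rwa [h.ord_unit hπ hc2] at this
  rw [← rel] at hrhs
  obtain ⟨m, hm⟩ := hodd
  have hη : η ≠ 0 := by
    rintro rfl
    rw [hB.zero'] at b1
    have : Δ = 0 := by simpa [h2] using b1
    simp [this] at hrhs
  have o1 : h.ord π (s * η ^ 2) = h.ord π s + 2 * h.ord π η := by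
    rw [h.ord_mul hπ hs (pow_ne_zero _ hη), h.ord_pow hπ hη]; rfl
  have n1 : s * η ^ 2 ≠ 0 := mul_ne_zero hs (pow_ne_zero _ hη)
  have hΔ : Δ ≠ 0 := by
    rintro rfl
    have := hrhs.2
    rw [zero_pow two_ne_zero, zero_sub, h.ord_neg hπ n1] at this
    omega
  have o2 : h.ord π (Δ ^ 2) = 2 * h.ord π Δ := by rw [h.ord_pow hπ hΔ]; rfl
  have o3 : h.ord π Δ = 0 ∧ 0 < h.ord π s + 2 * h.ord π η := by
    rcases lt_trichotomy (h.ord π (Δ ^ 2)) (h.ord π (s * η ^ 2)) with hl | hl | hl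
    · have := (h.ord_sub_of_lt hπ (pow_ne_zero _ hΔ) n1 hl).2
      have := hrhs.2
      omega
    · omega
    · have := (h.ord_sub_of_gt hπ (pow_ne_zero _ hΔ) n1 hl).2
      have := hrhs.2
      omega
  have n2 : IsBr.lb B s η ≠ 0 := by
    rw [IsBr.lb, b1]
    exact div_ne_zero (mul_ne_zero (neg_ne_zero.2 h2) hΔ) (mul_ne_zero hs hη)
  have o4 : h.ord π (IsBr.lb B s η) = - h.ord π s - h.ord π η := by
    rw [IsBr.lb, b1, h.ord_div hπ (mul_ne_zero (neg_ne_zero.2 h2) hΔ) (mul_ne_zero hs hη),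
      h.ord_mul hπ (neg_ne_zero.2 h2) hΔ, h.ord_mul hπ hs hη, h2o, o3.1]; ring
  have o5 := (h.mem_O_iff hπ (mul_ne_zero hP n2)).1 (mul_lb_mem_O h hπ hB hR h2 hs hη)
  rw [h.ord_mul hπ hP n2, h.ord_self hπ, o4] at o5
  have o6 : h.ord π s = 1 := by omega
  have o7 : h.ord π η = 0 := by omega
  have hJ0 : J ≠ 0 := by
    rintro rfl
    exact mul_ne_zero hs hW (by rw [← hJ]; simp)
  have o8 := congrArg (h.ord π) hJ
  rw [h.ord_pow hπ hJ0, h.ord_mul hπ hs hW, o6] at o8
  set n := h.ord π W with hn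
  have hu : W / s ^ n ≠ 0 := div_ne_zero hW (zpow_ne_zero _ hs)
  have hu0 : h.ord π (W / s ^ n) = 0 := by
    rw [h.ord_div hπ hW (zpow_ne_zero _ hs), h.ord_zpow hπ hs, o6]; ring
  have l1 := hB.lb_mul (zpow_ne_zero n hs) hu η
  rw [mul_div_cancel₀ _ (zpow_ne_zero _ hs), hB.lb_zpow hs, IsBr.lb, b2, zero_div] at l1
  have l2 : (n : Z) * IsBr.lb B s η ∈ h.O hπ := by
    rw [eq_neg_of_add_eq_zero_left l1.symm]
    exact neg_mem (lb_mem_O h hπ hB hR hu hη hu0 o7)
  have hn0 : (n : Z) ≠ 0 := by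
    rw [Ne, CharP.intCast_eq_zero_iff Z p]
    intro hd
    have := Int.eq_zero_of_abs_lt_dvd hd hord
    omega
  have a3 : ((n : Z))⁻¹ ∈ h.O hπ := by
    have : Fact p.Prime := ⟨hp⟩
    have h5 : (n : Z) ^ p = n := by
      have := map_intCast (frobenius Z p) n
      rwa [frobenius_def] at this
    obtain ⟨q, hq⟩ : ∃ q, p = q + 2 := ⟨p - 2, by have := hp.two_le; omega⟩
    have : ((n : Z))⁻¹ = (n : Z) ^ q := by
      apply inv_eq_of_mul_eq_one_right
      apply mul_left_cancel₀ hn0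
      rw [mul_one, ← mul_assoc, ← sq, ← pow_add, add_comm, ← hq, h5]
    rw [this]; exact pow_mem (intCast_mem _ n) q
  have l3 := mul_mem a3 l2
  rw [← mul_assoc, inv_mul_cancel₀ hn0, one_mul, h.mem_O_iff hπ n2, o4] at l3
  omega

end Parity

end Pool.Agent.Lib.MP_75bae7_al
end
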