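import Mathlib

/-!
The Weyl algebra and skew fields of fractions.
-/

namespace Pool.Agent.Lib.MP_75bae7_al

/-- The generator `x i` of the free algebra on `2 r` letters. -/
noncomputable def genX {r : ℕ} (i : Fin r) : FreeAlgebra ℂ (Fin r ⊕ Fin r) :=
  FreeAlgebra.ι ℂ (Sum.inr i)

/-- The generator `∂ i` of the free algebra on `2 r` letters. -/
noncomputable def genD {r : ℕ} (i : Fin r) : FreeAlgebra ℂ (Fin r ⊕ Fin r) :=
  FreeAlgebra.ι ℂ (Sum.inl i)

/-- The defining relations of the Weyl algebra. -/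
inductive WeylRel (r : ℕ) : FreeAlgebra ℂ (Fin r ⊕ Fin r) → FreeAlgebra ℂ (Fin r ⊕ Fin r) → Prop
  | dx (i j : Fin r) : WeylRel r (genD i * genX j - genX j * genD i) (if i = j then 1 else 0)
  | xx (i j : Fin r) : WeylRel r (genX i * genX j) (genX j * genX i)
  | dd (i j : Fin r) : WeylRel r (genD i * genD j) (genD j * genD i)

/-- The `r`-th Weyl algebra over the complex numbers. -/
abbrev WeylAlg (r : ℕ) : Type := RingQuot (WeylRel r)

/-- `f` presents `K` as the skew field of fractions of `A`. -/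
def IsSkewFrac {A K : Type*} [Semiring A] [Algebra ℂ A] [DivisionRing K] [Algebra ℂ K]
    (f : A →ₐ[ℂ] K) : Prop :=
  Function.Injective f ∧ ∀ x : K, ∃ a b : A, b ≠ 0 ∧ x = f a * (f b)⁻¹

end Pool.Agent.Lib.MP_75bae7_al
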