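import Pool.Agent.Lib.MP_75bae7_al.Final
import Pool.Agent.Lib.MP_75bae7_al.OwnDefs

/-!
The tensor product of the Weyl algebra with a polynomial algebra gives a Weyl skew field.
-/

namespace Pool.Agent.Lib.MP_75bae7_al

open MvPolynomial TensorProduct

theorem exists_WF_of {ι κ A D : Type} [DecidableEq ι] [DivisionRing D] [Algebra ℂ D] [Ring A]
    [Algebra ℂ A] (g0 : (ι ⊕ ι) ⊕ κ → A) (h2 : (sh1 ι κ).IsSys g0)
    (ψ : A →ₐ[ℂ] Module.End ℂ (MvPolynomial ((ι ⊕ ι) ⊕ κ) ℂ))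
    (e : ∀ a, ψ (g0 a) = lop (sh1 ι κ) ℂ a)
    (hg : ∀ T : Subalgebra ℂ A, (∀ a, g0 a ∈ T) → ∀ x, x ∈ T) (h : A →ₐ[ℂ] D)
    (hi : Function.Injective h) (hfr : ∀ x : D, ∃ a b, x = h a * (h b)⁻¹) :
    Nonempty (WF ι κ ℂ D) := by
  have key : ∀ {B : Type} [Ring B] [Algebra ℂ B] (ψ : A →ₐ[ℂ] B) f,
      ψ (phi (sh1 ι κ) ℂ g0 f) = phi (sh1 ι κ) ℂ (fun a => ψ (g0 a)) f := by
    intro B _ _ ψ f
    have := map_phi h2 (RingHom.id ℂ) ψ.toRingHom (fun c => ψ.commutes c) f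
    rwa [MvPolynomial.map_id] at this
  have inj : Function.Injective (phi (sh1 ι κ) ℂ g0) := by
    intro a b hab
    have := congrArg (fun x => ψ x 1) hab
    simp only [key, e] at this
    exact (star_one a).symm.trans (this.trans (star_one b))
  have sur : ∀ x, ∃ f, phi (sh1 ι κ) ℂ g0 f = x :=
    hg { carrier := {x | ∃ f, phi (sh1 ι κ) ℂ g0 f = x}
         mul_mem' := by
           rintro _ _ ⟨f1, rfl⟩ ⟨f2, rfl⟩
           exact ⟨star (sh1 ι κ) f1 f2, phi_star h2 _ _⟩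
         add_mem' := by
           rintro _ _ ⟨f1, rfl⟩ ⟨f2, rfl⟩
           exact ⟨f1 + f2, map_add _ _ _⟩
         algebraMap_mem' := fun c => ⟨C c, phi_C h2 c⟩ } fun a => ⟨X a, phi_X h2 a⟩
  have hs : (sh1 ι κ).IsSys fun a => h (g0 a) := fun a b => by
    simpa using congrArg h (h2 a b)
  refine ⟨⟨fun a => h (g0 a), hs, fun a b hab => inj (hi ?_), fun u => ?_⟩⟩
  · rw [key, key]; exact hab
  · obtain ⟨a, b, rfl⟩ := hfr u
    obtain ⟨f1, rfl⟩ := sur a
    obtain ⟨f2, rfl⟩ := sur b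
    by_cases h0 : f2 = 0
    · exact ⟨0, 1, one_ne_zero, by simp [h0]⟩
    · exact ⟨f1, f2, h0, by rw [key, key]⟩

theorem weyl_ind {r : ℕ} (T : Subalgebra ℂ (WeylAlg r))
    (h : ∀ a, RingQuot.mkAlgHom ℂ (WeylRel r) (FreeAlgebra.ι ℂ a) ∈ T) (x : WeylAlg r) : x ∈ T := by
  obtain ⟨x, rfl⟩ := RingQuot.mkAlgHom_surjective ℂ (WeylRel r) x
  induction x using FreeAlgebra.induction with
  | grade0 c => rw [AlgHom.commutes]; exact T.algebraMap_mem c
  | grade1 a => exact h a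
  | mul a b ha hb => rw [map_mul]; exact T.mul_mem ha hb
  | add a b ha hb => rw [map_add]; exact T.add_mem ha hb

theorem mv_ind {s : ℕ} (T : Subalgebra ℂ (MvPolynomial (Fin s) ℂ)) (h : ∀ a, X a ∈ T)
    (x : MvPolynomial (Fin s) ℂ) : x ∈ T := by
  induction x using MvPolynomial.induction_on with
  | C c => exact T.algebraMap_mem c
  | add a b ha hb => exact T.add_mem ha hb
  | mul_X a i ha => exact T.mul_mem ha (h i)

theorem exists_WF_tensor {r s : ℕ} {D : Type} [DivisionRing D] [Algebra ℂ D]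
    (h : WeylAlg r ⊗[ℂ] MvPolynomial (Fin s) ℂ →ₐ[ℂ] D) (hi : Function.Injective h)
    (hfr : ∀ x : D, ∃ a b, x = h a * (h b)⁻¹) : Nonempty (WF (Fin r) (Fin s) ℂ D) := by
  have L := lop_isSys (S := sh1 (Fin r) (Fin s)) (R := ℂ)
  let w : Fin r ⊕ Fin r → WeylAlg r := fun a => RingQuot.mkAlgHom ℂ (WeylRel r) (FreeAlgebra.ι ℂ a)
  have hw : ∀ a b, w a * w b - w b * w a = (om0 (Fin r) a b : WeylAlg r) := by
    have h1 : ∀ i j, w (.inl i) * w (.inr j) - w (.inr j) * w (.inl i) =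
        if i = j then 1 else 0 := fun i j => by
      have := RingQuot.mkAlgHom_rel ℂ (WeylRel.dx i j)
      by_cases hij : i = j <;> simpa [w, genD, genX, hij] using this
    rintro (i | i) (j | j)
    · simpa [w, genD, om0, sub_eq_zero] using RingQuot.mkAlgHom_rel ℂ (WeylRel.dd i j)
    · rw [h1]
      simp [om0]
    · rw [← neg_sub, h1]
      by_cases hij : i = j <;> simp [om0, hij, eq_comm]
    · simpa [w, genX, om0, sub_eq_zero] using RingQuot.mkAlgHom_rel ℂ (WeylRel.xx i j)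
  let α : WeylAlg r →ₐ[ℂ] Module.End ℂ (MvPolynomial ((Fin r ⊕ Fin r) ⊕ Fin s) ℂ) :=
    RingQuot.liftAlgHom ℂ ⟨FreeAlgebra.lift ℂ fun a => lop (sh1 (Fin r) (Fin s)) ℂ (.inl a), by
      rintro _ _ (⟨i, j⟩ | ⟨i, j⟩ | ⟨i, j⟩)
      · have := L (.inl (.inl i)) (.inl (.inr j))
        by_cases hij : i = j <;> simpa [sh1, om1, om0, hij, genD, genX] using this
      · simpa [sh1, om1, om0, sub_eq_zero, genX] using L (.inl (.inr i)) (.inl (.inr j))
      · simpa [sh1, om1, om0, sub_eq_zero, genD] using L (.inl (.inl i)) (.inl (.inl j))⟩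
  have hα : ∀ a, α (w a) = lop (sh1 (Fin r) (Fin s)) ℂ (.inl a) := fun a => by simp [α, w]
  have hc : ∀ k a, Commute (lop (sh1 (Fin r) (Fin s)) ℂ a) (lop (sh1 (Fin r) (Fin s)) ℂ (.inr k)) :=
    fun k a => by
      have := L (.inr k) a
      simp only [sh1, om1, Int.cast_zero, sub_eq_zero] at this
      exact this.symm
  obtain ⟨β, hβ⟩ := exists_commLift (R := ℂ) (fun k => lop (sh1 (Fin r) (Fin s)) ℂ (.inr k))
    fun a b => (hc b _).eq
  have hcomm : ∀ x y, Commute (α x) (β y) := fun x y => by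
    refine mv_ind ((Subalgebra.centralizer ℂ {α x}).comap β) (fun k => ?_) y _ rfl
    rintro _ rfl
    refine (weyl_ind ((Subalgebra.centralizer ℂ {β (X k)}).comap α) (fun a => ?_) x _ rfl).symm
    rintro _ rfl
    rw [hβ]
    exact (hα a ▸ hc k (.inl a)).symm.eq
  refine exists_WF_of (A := WeylAlg r ⊗[ℂ] MvPolynomial (Fin s) ℂ)
    (Sum.elim (fun a => w a ⊗ₜ[ℂ] 1) fun k => 1 ⊗ₜ[ℂ] X k) ?_
    (Algebra.TensorProduct.lift α β hcomm) ?_ (fun T hT x => ?_) h hi hfr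
  · rintro (a | a) (b | b)
    · simp only [Sum.elim_inl, Algebra.TensorProduct.tmul_mul_tmul, mul_one, ← sub_tmul, hw, sh1,
        om1]
      exact (Algebra.TensorProduct.intCast_def _).symm
    · simp [sh1, om1]
    · simp [sh1, om1]
    · simp [sh1, om1, mul_comm]
  · rintro (a | a)
    · simp [hα]
    · simp [hβ]
  · induction x using TensorProduct.induction_on with
    | zero => exact T.zero_mem
    | add a b ha hb => exact T.add_mem ha hb
    | tmul a b =>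
      have h1 := weyl_ind (T.comap Algebra.TensorProduct.includeLeft) (fun a => hT (.inl a)) a
      have h2 := mv_ind (T.comap Algebra.TensorProduct.includeRight) (fun a => hT (.inr a)) b
      simpa using T.mul_mem h1 h2

end Pool.Agent.Lib.MP_75bae7_al
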