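import Pool.Agent.Lib.MP_75bae7_al.Ord
import Pool.Agent.Lib.MP_75bae7_al.NF

-- part Pool.Agent.Lib.MP_75bae7_al.End1
section

/-!
Commutative algebra for the end of the proof: norms for an involution, extension of constants.
-/

set_option autoImplicit false
set_option linter.unusedSectionVars false

namespace Pool.Agent.Lib.MP_75bae7_al

open MvPolynomial

theorem Fr.exists_lift {R Z L : Type} [CommRing R] [Field Z] [Field L] {e : R →+* Z} (h : Fr e)
    (f : R →+* L) (hf : Function.Injective f) : ∃ φ : Z →+* L, ∀ a, φ (e a) = f a := by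
  let _ := e.toAlgebra
  have : FaithfulSMul R Z := (faithfulSMul_iff_algebraMap_injective R Z).2 h.inj
  have : IsFractionRing R Z := IsFractionRing.of_field R Z fun z => by
    obtain ⟨a, b, -, rfl⟩ := h.frac z
    exact ⟨a, b, rfl⟩
  exact ⟨IsFractionRing.lift hf, IsFractionRing.lift_algebraMap hf⟩

theorem Fr.ext {R Z L : Type} [CommRing R] [Field Z] [Field L] {e : R →+* Z} (h : Fr e)
    {φ ψ : Z →+* L} (hf : ∀ a, φ (e a) = ψ (e a)) (z : Z) : φ z = ψ z := by
  obtain ⟨a, b, -, rfl⟩ := h.frac z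
  rw [map_div₀, map_div₀, hf, hf]

theorem fr_fractionRing (R : Type) [CommRing R] [IsDomain R] :
    Fr (algebraMap R (FractionRing R)) where
  inj := IsFractionRing.injective R _
  frac z := by
    obtain ⟨a, b, hb, rfl⟩ := IsFractionRing.div_surjective R z
    exact ⟨a, b, nonZeroDivisors.ne_zero hb, rfl⟩

theorem fr_aeval {K Z τ : Type} [Field K] [Field Z] [Algebra K Z] {z : τ → Z}
    (hz : AlgebraicIndependent K z) (hg : ∀ c, c ∈ IntermediateField.adjoin K (Set.range z)) :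
    Fr (aeval z : MvPolynomial τ K →ₐ[K] Z).toRingHom where
  inj := hz
  frac c := by
    obtain ⟨f, h, e⟩ := (IntermediateField.mem_adjoin_range_iff K z c).1 (hg c)
    by_cases h0 : h = 0
    · exact ⟨0, 1, one_ne_zero, by rw [e, h0]; simp⟩
    · exact ⟨f, h, h0, e⟩

theorem indep_of_alg' {K Z ι ι' : Type} [Field K] [Field Z] [Algebra K Z] [Fintype ι]
    [Fintype ι'] {z : ι → Z} (hz : AlgebraicIndependent K z) (w : ι' → Z)
    (hcard : Fintype.card ι' ≤ Fintype.card ι)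
    (halg : ∀ c : Z, IsAlgebraic (IntermediateField.adjoin K (Set.range w)) c) :
    AlgebraicIndependent K w :=
  indep_of_alg hz w hcard (IntermediateField.isAlgebraic_adjoin_iff_top.1 ⟨halg⟩)

theorem mult_le_totalDegree {K τ : Type} [Field K] {π G : MvPolynomial τ K} (hπ : Prime π)
    (hG : G ≠ 0) : multiplicity π G ≤ G.totalDegree := by
  have h1 : 1 ≤ π.totalDegree := by
    by_contra hc
    have h0 : π.totalDegree = 0 := by omega
    rw [totalDegree_eq_zero_iff_eq_C] at h0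
    apply hπ.not_isUnit
    rw [h0]
    refine IsUnit.map C (Ne.isUnit fun h => hπ.ne_zero ?_)
    rw [h0, h, C_0]
  have h2 : ∀ n : ℕ, n ≤ (π ^ n).totalDegree := by
    intro n
    induction n with
    | zero => simp
    | succ n ih =>
      rw [pow_succ, totalDegree_mul_of_isDomain (pow_ne_zero _ hπ.ne_zero) hπ.ne_zero]; omega
  exact (h2 _).trans (totalDegree_le_of_dvd_of_isDomain (pow_multiplicity_dvd π G) hG)

section Invol
variable {R : Type} [CommRing R] [IsDomain R] [UniqueFactorizationMonoid R] (σ : R ≃+* R)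

theorem mult_invol {π : R} (hπ : Associated (σ π) π) (a : R) :
    multiplicity π (σ a) = multiplicity π a := by
  rw [← multiplicity_map_eq σ (a := π) (b := a), multiplicity_eq_of_associated_left hπ]

theorem exists_norm (hσ : ∀ a, σ (σ a) = a) (F : R) : F ≠ 0 → σ F = F →
    (∀ π, Prime π → Associated (σ π) π → Even (multiplicity π F)) →
    ∃ u G, IsUnit u ∧ F = u * G * σ G := by
  induction F using (wellFounded_dvdNotUnit (α := R)).induction with
  | _ F ih =>
  intro h0 hF hev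
  by_cases hu : IsUnit F
  · exact ⟨F, 1, hu, by simp⟩
  obtain ⟨π, hi, F1, rfl⟩ := WfDvdMonoid.exists_irreducible_factor hu h0
  have hπ : Prime π := UniqueFactorizationMonoid.irreducible_iff_prime.1 hi
  have hσπ : Prime (σ π) := (MulEquiv.prime_iff σ).2 hπ
  have h1 : σ π ∣ π * F1 := by rw [← hF, map_mul]; exact dvd_mul_right _ _
  have hF1 : F1 ≠ 0 := right_ne_zero_of_mul h0
  have h2 : σ π ∣ F1 := by
    rcases hσπ.dvd_or_dvd h1 with h | h
    · have ha : Associated (σ π) π := hσπ.associated_of_dvd hπ h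
      have := hev π hπ ha
      rw [Fr.mult_mul hπ hπ.ne_zero hF1, multiplicity_self] at this
      refine ha.dvd.trans (dvd_of_multiplicity_pos ?_)
      rcases this with ⟨m, hm⟩
      omega
    · exact h
  obtain ⟨F2, rfl⟩ := h2
  have hF2 : F2 ≠ 0 := right_ne_zero_of_mul hF1
  obtain ⟨u, G, hu', e⟩ := ih F2 ⟨hF2, π * σ π, fun h => hπ.not_isUnit (isUnit_of_mul_isUnit_left h),
    by rw [← mul_assoc, mul_comm]⟩ hF2 (by
      rw [map_mul, map_mul, hσ] at hF
      apply mul_left_cancel₀ (mul_ne_zero hπ.ne_zero hσπ.ne_zero)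
      linear_combination hF) (by
      intro π' hπ' ha
      have := hev π' hπ' ha
      rw [Fr.mult_mul hπ' hπ.ne_zero hF1, Fr.mult_mul hπ' hσπ.ne_zero hF2, mult_invol σ ha,
        ← add_assoc, Nat.even_add] at this
      exact this.1 ⟨_, rfl⟩)
  exact ⟨u, π * G, hu', by rw [e, map_mul]; ring⟩

variable {Z : Type} [Field Z] {e : R →+* Z} (h : Fr e) (τ : Z →+* Z)
  (hτ : ∀ a, τ (e a) = e (σ a))
include hτ

theorem ord_invol {π : R} (hπ : Prime π) (ha : Associated (σ π) π) {x : Z} (hx : x ≠ 0) :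
    h.ord π (τ x) = h.ord π x := by
  obtain ⟨a, b, ha', hb, rfl⟩ := h.frac' hx
  rw [map_div₀, hτ, hτ, h.ord_div_eq hπ ((map_ne_zero_iff _ σ.injective).2 ha')
    ((map_ne_zero_iff _ σ.injective).2 hb), h.ord_div_eq hπ ha' hb, mult_invol σ ha,
    mult_invol σ ha]

theorem exists_norm_frac (hσ : ∀ a, σ (σ a) = a) {f : Z} (h0 : f ≠ 0) (hf : τ f = f)
    (hev : ∀ π, Prime π → Associated (σ π) π → Even (h.ord π f)) :
    ∃ u g, IsUnit u ∧ g ≠ 0 ∧ f = e u * g * τ g := by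
  obtain ⟨a, b, ha, hb, rfl⟩ := h.frac' h0
  have hσb : σ b ≠ 0 := (map_ne_zero_iff _ σ.injective).2 hb
  obtain ⟨u, G, hu, e1⟩ := exists_norm σ hσ (a * σ b) (mul_ne_zero ha hσb) (by
    rw [map_div₀, hτ, hτ, div_eq_div_iff (h.ne hσb) (h.ne hb), ← map_mul, ← map_mul] at hf
    rw [map_mul, hσ]
    exact h.inj hf) (by
    intro π hπ has
    have := hev π hπ has
    rw [h.ord_div_eq hπ ha hb] at this
    rw [Fr.mult_mul hπ ha hσb, mult_invol σ has, ← Int.even_coe_nat]
    obtain ⟨m, hm⟩ := this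
    exact ⟨m + multiplicity π b, by push_cast; omega⟩)
  have hG : G ≠ 0 := by
    rintro rfl
    exact mul_ne_zero ha hσb (by simpa using e1)
  refine ⟨u, e G / e b, hu, div_ne_zero (h.ne hG) (h.ne hb), ?_⟩
  have e2 := congrArg e e1
  rw [map_mul, map_mul, map_mul] at e2
  have n1 := h.ne hb
  have n2 := h.ne hσb
  rw [map_div₀, hτ, hτ]
  field_simp
  linear_combination e2

/-- parity of the order of `s (s - m1 ^ 2)` along an invariant prime -/
theorem even_ord (h2 : IsUnit (2 : R)) {π : R} (hπ : Prime π) (ha : Associated (σ π) π)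
    {s Δ η : Z} {m1 m2 : R} (hm1 : IsUnit m1) (hm : IsUnit (m1 ^ 2 - m2 ^ 2))
    (hσm : σ m1 = -m1) (hΔ : τ Δ = Δ) (hη : τ η = η) (hs : s ≠ 0) (hs1 : s - e m1 ^ 2 ≠ 0)
    (rel : Δ ^ 2 - s * η ^ 2 = (s - e m1 ^ 2) * (s - e m2 ^ 2))
    (hpos : 0 < h.ord π s → Even (h.ord π s)) : Even (h.ord π (s * (s - e m1 ^ 2))) := by
  have n1 : e m1 ≠ 0 := h.ne hm1.ne_zero
  have o1 : h.ord π (e m1 ^ 2) = 0 := by rw [h.ord_pow hπ n1, h.ord_unit hπ hm1]; rfl
  rw [h.ord_mul hπ hs hs1]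
  rcases lt_trichotomy (h.ord π s) 0 with hl | hl | hl
  · rw [(h.ord_sub_of_lt hπ hs (pow_ne_zero _ n1) (by omega)).2]; exact ⟨_, rfl⟩
  swap
  · rw [(h.ord_sub_of_gt hπ hs (pow_ne_zero _ n1) (by omega)).2, o1, add_zero]; exact hpos hl
  rw [hl, zero_add]
  have o2 : 0 ≤ h.ord π (s - e m1 ^ 2) := (h.mem_O_iff hπ hs1).1
    (sub_mem ((h.mem_O_iff hπ hs).2 hl.ge) (pow_mem (h.e_mem hπ m1) 2))
  rcases o2.eq_or_lt with o2 | o2
  · rw [← o2]; exact ⟨0, rfl⟩
  have o3 := h.ord_add_of_lt hπ (h.ne hm.ne_zero) hs1 (by rw [h.ord_unit hπ hm]; exact o2)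
  have e1 : e (m1 ^ 2 - m2 ^ 2) + (s - e m1 ^ 2) = s - e m2 ^ 2 := by simp
  rw [e1, h.ord_unit hπ hm] at o3
  have o4 : h.ord π (Δ ^ 2 - s * η ^ 2) = h.ord π (s - e m1 ^ 2) := by
    rw [rel, h.ord_mul hπ hs1 o3.1, o3.2, add_zero]
  have n2 : Δ ^ 2 - s * η ^ 2 ≠ 0 := by rw [rel]; exact mul_ne_zero hs1 o3.1
  rw [← o4]
  by_cases hη0 : η = 0
  · subst hη0
    have hΔ0 : Δ ≠ 0 := by rintro rfl; simp at n2
    rw [zero_pow two_ne_zero, mul_zero, sub_zero, h.ord_pow hπ hΔ0]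
    exact ⟨h.ord π Δ, by push_cast; ring⟩
  have o5 : h.ord π (s * η ^ 2) = 2 * h.ord π η := by
    rw [h.ord_mul hπ hs (pow_ne_zero _ hη0), h.ord_pow hπ hη0, hl, zero_add]; rfl
  have n3 : s * η ^ 2 ≠ 0 := mul_ne_zero hs (pow_ne_zero _ hη0)
  by_cases hΔ0 : Δ = 0
  · subst hΔ0
    rw [zero_pow two_ne_zero, zero_sub, h.ord_neg hπ n3, o5]
    exact ⟨h.ord π η, by ring⟩
  have o6 : h.ord π (Δ ^ 2) = 2 * h.ord π Δ := by rw [h.ord_pow hπ hΔ0]; rfl
  rcases lt_trichotomy (h.ord π (Δ ^ 2)) (h.ord π (s * η ^ 2)) with hc | hc | hc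
  · rw [(h.ord_sub_of_lt hπ (pow_ne_zero _ hΔ0) n3 hc).2, o6]; exact ⟨h.ord π Δ, by ring⟩
  swap
  · rw [(h.ord_sub_of_gt hπ (pow_ne_zero _ hΔ0) n3 hc).2, o5]; exact ⟨h.ord π η, by ring⟩
  set t := Δ / η with ht
  have ht0 : t ≠ 0 := div_ne_zero hΔ0 hη0
  have o7 : h.ord π t = 0 := by rw [h.ord_div hπ hΔ0 hη0]; omega
  have e2 : Δ ^ 2 - s * η ^ 2 = η ^ 2 * (t ^ 2 - s) := by rw [ht]; field_simp
  have n4 : t ^ 2 - s ≠ 0 := by rw [e2] at n2; exact right_ne_zero_of_mul n2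
  have o8 : 0 ≤ h.ord π (t ^ 2 - s) := (h.mem_O_iff hπ n4).1
    (sub_mem (pow_mem ((h.mem_O_iff hπ ht0).2 o7.ge) 2) ((h.mem_O_iff hπ hs).2 hl.ge))
  rcases o8.eq_or_lt with o8 | o8
  · rw [e2, h.ord_mul hπ (pow_ne_zero _ hη0) n4, ← o8, h.ord_pow hπ hη0]
    exact ⟨h.ord π η, by push_cast; ring⟩
  exfalso
  have hτt : τ t = t := by rw [ht, map_div₀, hΔ, hη]
  have e3 : τ (t - e m1) = t + e m1 := by rw [map_sub, hτt, hτ, hσm, map_neg, sub_neg_eq_add]
  have n5 : e (2 * m1) ≠ 0 := h.ne (h2.mul hm1).ne_zero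
  have e4 : e (2 * m1) = (t + e m1) - (t - e m1) := by
    rw [map_mul, map_ofNat]; ring
  have n6 : t - e m1 ≠ 0 := by
    intro h0
    apply n5
    rw [e4, ← e3, h0, map_zero, sub_zero]
  have n7 : t + e m1 ≠ 0 := by rw [← e3]; exact (map_ne_zero τ).2 n6
  have o9 : h.ord π (t + e m1) = h.ord π (t - e m1) := by
    rw [← e3, ord_invol σ h τ hτ hπ ha n6]
  have e5 : (t ^ 2 - s) + (s - e m1 ^ 2) = (t + e m1) * (t - e m1) := by ring
  have o10 := h.le_ord_add hπ n4 hs1 (by rw [e5]; exact mul_ne_zero n7 n6) (n := 1) o8 o2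
  rw [e5, h.ord_mul hπ n7 n6, o9] at o10
  have o11 := h.le_ord_add hπ n7 (neg_ne_zero.2 n6) (by rw [← sub_eq_add_neg, ← e4]; exact n5)
    (n := 1) (by omega) (by rw [h.ord_neg hπ n6]; omega)
  rw [← sub_eq_add_neg, ← e4, h.ord_unit hπ (h2.mul hm1)] at o11
  omega

end Invol

section Transfer
variable {K L τ : Type} [Field K] [Field L] (φ : K →+* L)

theorem map_dvd_cancel {π a : MvPolynomial τ K} (hπ : Prime π) (ha : ¬π ∣ a)
    {h : MvPolynomial τ L} (hd : map φ π ∣ map φ a * h) : map φ π ∣ h := by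
  classical
  let _ := φ.toAlgebra
  let b := Module.Basis.ofVectorSpace K L
  let T : (L →ₗ[K] K) → MvPolynomial τ L → MvPolynomial τ K := fun f q =>
    ∑ n ∈ q.support, monomial n (f (coeff n q))
  have hT : ∀ f q n, coeff n (T f q) = f (coeff n q) := by
    intro f q n
    simp only [T, coeff_sum, coeff_monomial]
    rw [Finset.sum_ite_eq']
    split_ifs with h1
    · rfl
    · rw [notMem_support_iff.1 h1, map_zero]
  have hT2 : ∀ f c q, T f (map φ c * q) = c * T f q := by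
    intro f c q
    ext n
    rw [hT, coeff_mul, coeff_mul, map_sum]
    refine Finset.sum_congr rfl fun x _ => ?_
    rw [hT, coeff_map, ← smul_eq_mul (coeff x.1 c), ← map_smul, Algebra.smul_def]
    rfl
  obtain ⟨q, hq⟩ := hd
  have h1 : ∀ f, π ∣ T f h := by
    intro f
    have := congrArg (T f) hq
    rw [hT2, hT2] at this
    exact (hπ.dvd_or_dvd ⟨_, this⟩).resolve_left ha
  let I := h.support.biUnion fun n => (b.repr (coeff n h)).support
  have h2 : h = ∑ i ∈ I, C (b i) * map φ (T (b.coord i) h) := by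
    ext n
    simp only [coeff_sum, coeff_C_mul, coeff_map, hT, Module.Basis.coord_apply]
    conv_lhs => rw [← b.linearCombination_repr (coeff n h), Finsupp.linearCombination_apply]
    rw [Finsupp.sum_of_support_subset _ (s := I)]
    · refine Finset.sum_congr rfl fun i _ => ?_
      rw [Algebra.smul_def, mul_comm]; rfl
    · intro i hi
      refine Finset.mem_biUnion.2 ⟨n, ?_, hi⟩
      rw [mem_support_iff]
      intro h0
      simp [h0] at hi
    · simp
  rw [h2]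
  exact Finset.dvd_sum fun i _ => Dvd.dvd.mul_left (map_dvd _ (h1 _)) _

theorem not_dvd_map {π0 a : MvPolynomial τ K} (hπ0 : Prime π0) (ha : ¬π0 ∣ a)
    {π : MvPolynomial τ L} (hπ : Prime π) (h1 : π ∣ map φ π0) : ¬π ∣ map φ a := by
  rintro ⟨a', ha'⟩
  obtain ⟨q, hq⟩ := h1
  have h2 := map_dvd_cancel φ hπ0 ha (h := q) ⟨a', by rw [ha', hq]; ring⟩
  have hq0 : q ≠ 0 := by
    rintro rfl
    rw [mul_zero] at hq
    exact hπ0.ne_zero (map_injective φ φ.injective (hq.trans (map_zero _).symm))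
  rw [hq] at h2
  obtain ⟨r, hr⟩ := h2
  apply hπ.not_isUnit
  refine IsUnit.of_mul_eq_one r (mul_left_cancel₀ hq0 ?_)
  linear_combination -hr

theorem parity_transfer {Z Z' : Type} [Field Z] [Field Z'] {e : MvPolynomial τ K →+* Z}
    {e' : MvPolynomial τ L →+* Z'} (h : Fr e) (h' : Fr e') (ψ : Z →+* Z')
    (hψ : ∀ a, ψ (e a) = e' (map φ a)) {s : Z} (hs : s ≠ 0)
    (hpar : ∀ π0, Prime π0 → 0 < h.ord π0 s → Even (h.ord π0 s)) {π : MvPolynomial τ L}
    (hπ : Prime π) (hpos : 0 < h'.ord π (ψ s)) : Even (h'.ord π (ψ s)) := by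
  have inj := map_injective (σ := τ) φ φ.injective
  have ne : ∀ a : MvPolynomial τ K, a ≠ 0 → map φ a ≠ 0 := fun a ha h0 =>
    ha (inj (h0.trans (map_zero _).symm))
  obtain ⟨a, b, ha, hb, rfl⟩ := h.frac' hs
  rw [map_div₀, hψ, hψ, h'.ord_div_eq hπ (ne a ha) (ne b hb)] at hpos ⊢
  have h1 : π ∣ map φ a := dvd_of_multiplicity_pos (by omega)
  obtain ⟨π0, hπ0, h2⟩ : ∃ π0 : MvPolynomial τ K, Prime π0 ∧ π ∣ map φ π0 := by
    clear hpos hpar hs
    induction a using UniqueFactorizationMonoid.induction_on_prime with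
    | h₁ => exact absurd rfl ha
    | h₂ x hx => exact absurd (isUnit_of_dvd_unit h1 (hx.map _)) hπ.not_isUnit
    | h₃ x q hx hq ih =>
      rw [map_mul] at h1
      rcases hπ.dvd_or_dvd h1 with h | h
      · exact ⟨q, hq, h⟩
      · exact ih hx h
  have key : ∀ a : MvPolynomial τ K, a ≠ 0 →
      multiplicity π (map φ a) = multiplicity π0 a * multiplicity π (map φ π0) := by
    intro a ha
    obtain ⟨a', e1, ha'⟩ := (Fr.fin hπ0 ha).exists_eq_pow_mul_and_not_dvd
    have ha0 : a' ≠ 0 := by rintro rfl; exact ha' (dvd_zero _)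
    conv_lhs => rw [e1]
    rw [map_mul, map_pow, Fr.mult_mul hπ (pow_ne_zero _ (ne _ hπ0.ne_zero)) (ne _ ha0),
      (Fr.fin hπ (ne _ hπ0.ne_zero)).multiplicity_pow hπ,
      multiplicity_eq_zero.2 (not_dvd_map φ hπ0 ha' hπ h2), add_zero]
  have h3 := hpar π0 hπ0
  rw [h.ord_div_eq hπ0 ha hb] at h3
  rw [key a ha, key b hb] at hpos ⊢
  push_cast at hpos ⊢
  rw [← sub_mul] at hpos ⊢
  exact (h3 (by
    by_contra hc
    exact absurd hpos (not_lt.2 (mul_nonpos_of_nonpos_of_nonneg (not_lt.1 hc) (by positivity))))).mul_right _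

end Transfer

section PiP
open Polynomial in
/-- product of the shifts of the quartic -/
noncomputable def PiP {K : Type} [CommRing K] (p : ℕ) (γ1 γ2 : K) : K[X] :=
  ∏ j ∈ Finset.range p, (((Polynomial.X - (j : K[X])) ^ 2 - (Polynomial.X - (j : K[X]))) ^ 2
    - Polynomial.C γ1 * ((Polynomial.X - (j : K[X])) ^ 2 - (Polynomial.X - (j : K[X])))
    + Polynomial.C γ2)

/-- first coefficient -/
noncomputable def cc1 {K : Type} [CommRing K] (p : ℕ) (γ1 γ2 : K) : K := -(PiP p γ1 γ2).coeff 2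

/-- second coefficient -/
noncomputable def cc2 {K : Type} [CommRing K] (p : ℕ) (γ1 γ2 : K) : K := (PiP p γ1 γ2).coeff 0

theorem map_PiP {K L : Type} [CommRing K] [CommRing L] (φ : K →+* L) (p : ℕ) (γ1 γ2 : K) :
    (PiP p γ1 γ2).map φ = PiP p (φ γ1) (φ γ2) := by
  simp [PiP, Polynomial.map_prod]

theorem map_cc1 {K L : Type} [CommRing K] [CommRing L] (φ : K →+* L) (p : ℕ) (γ1 γ2 : K) :
    φ (cc1 p γ1 γ2) = cc1 p (φ γ1) (φ γ2) := by
  rw [cc1, cc1, ← map_PiP, Polynomial.coeff_map, map_neg]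

theorem map_cc2 {K L : Type} [CommRing K] [CommRing L] (φ : K →+* L) (p : ℕ) (γ1 γ2 : K) :
    φ (cc2 p γ1 γ2) = cc2 p (φ γ1) (φ γ2) := by
  rw [cc2, cc2, ← map_PiP, Polynomial.coeff_map]

variable {L : Type} [Field L] {p : ℕ} [hp : Fact p.Prime] [CharP L p]

theorem PiP_roots (μ1 μ2 : L) :
    PiP p (μ1 ^ 2 - μ1 + (μ2 ^ 2 - μ2)) ((μ1 ^ 2 - μ1) * (μ2 ^ 2 - μ2))
      = (Polynomial.X ^ p - Polynomial.X) ^ 4
        - Polynomial.C ((μ1 ^ p - μ1) ^ 2 + (μ2 ^ p - μ2) ^ 2)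
          * (Polynomial.X ^ p - Polynomial.X) ^ 2
        + Polynomial.C ((μ1 ^ p - μ1) ^ 2 * (μ2 ^ p - μ2) ^ 2) := by
  have h1 := prod_shift (p := p) L (Polynomial.X - Polynomial.C μ1)
  have h2 := prod_shift (p := p) L (Polynomial.X - Polynomial.C μ2)
  have h3 := prod_shift (p := p) L (Polynomial.X + Polynomial.C μ1 - 1)
  have h4 := prod_shift (p := p) L (Polynomial.X + Polynomial.C μ2 - 1)
  rw [sub_pow_char] at h1 h2 h3 h4
  rw [add_pow_char, one_pow] at h3 h4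
  have : PiP p (μ1 ^ 2 - μ1 + (μ2 ^ 2 - μ2)) ((μ1 ^ 2 - μ1) * (μ2 ^ 2 - μ2))
      = (∏ j ∈ Finset.range p, (Polynomial.X - Polynomial.C μ1 - (j : Polynomial L)))
        * (∏ j ∈ Finset.range p, (Polynomial.X - Polynomial.C μ2 - (j : Polynomial L)))
        * (∏ j ∈ Finset.range p, (Polynomial.X + Polynomial.C μ1 - 1 - (j : Polynomial L)))
        * (∏ j ∈ Finset.range p, (Polynomial.X + Polynomial.C μ2 - 1 - (j : Polynomial L))) := by
    rw [PiP, ← Finset.prod_mul_distrib, ← Finset.prod_mul_distrib, ← Finset.prod_mul_distrib]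
    refine Finset.prod_congr rfl fun j _ => ?_
    simp only [map_add, map_sub, map_mul, map_pow]
    ring
  rw [this, h1, h2, h3, h4]
  simp only [map_add, map_sub, map_mul, map_pow]
  ring

theorem coeff_quartic (a b : L) :
    let Q : Polynomial L := (Polynomial.X ^ p - Polynomial.X) ^ 4
      - Polynomial.C a * (Polynomial.X ^ p - Polynomial.X) ^ 2 + Polynomial.C b
    Q.coeff 2 = -a ∧ Q.coeff 0 = b := by
  intro Q
  obtain ⟨n, hn⟩ : ∃ n, p = n + 2 := ⟨p - 2, by have := hp.out.two_le; omega⟩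
  have : Q = Polynomial.X ^ 2 * (Polynomial.X ^ 2 * (Polynomial.X ^ (n + 1) - 1) ^ 4
      - Polynomial.C a * (Polynomial.X ^ (n + 1) - 1) ^ 2) + Polynomial.C b := by
    simp only [Q, hn]; ring
  rw [this]
  constructor
  · rw [Polynomial.coeff_add, Polynomial.coeff_C_of_ne_zero two_ne_zero, add_zero]
    have := Polynomial.coeff_X_pow_mul (Polynomial.X ^ 2 * (Polynomial.X ^ (n + 1) - 1) ^ 4
      - Polynomial.C a * (Polynomial.X ^ (n + 1) - 1) ^ 2) 2 0
    rw [zero_add] at this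
    rw [this, Polynomial.coeff_zero_eq_eval_zero]
    simp
  · rw [Polynomial.coeff_zero_eq_eval_zero]; simp

theorem cc1_roots (μ1 μ2 : L) :
    cc1 p (μ1 ^ 2 - μ1 + (μ2 ^ 2 - μ2)) ((μ1 ^ 2 - μ1) * (μ2 ^ 2 - μ2))
      = (μ1 ^ p - μ1) ^ 2 + (μ2 ^ p - μ2) ^ 2 := by
  rw [cc1, PiP_roots, (coeff_quartic _ _).1, neg_neg]

theorem cc2_roots (μ1 μ2 : L) :
    cc2 p (μ1 ^ 2 - μ1 + (μ2 ^ 2 - μ2)) ((μ1 ^ 2 - μ1) * (μ2 ^ 2 - μ2))
      = (μ1 ^ p - μ1) ^ 2 * (μ2 ^ p - μ2) ^ 2 := by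
  rw [cc2, PiP_roots, (coeff_quartic _ _).2]

omit hp [CharP L p] in
theorem exists_quad_root [IsAlgClosed L] (a b : L) : ∃ x : L, x ^ 2 - a * x + b = 0 := by
  obtain ⟨x, hx⟩ := IsAlgClosed.exists_root (Polynomial.X ^ 2 - Polynomial.C a * Polynomial.X
    + Polynomial.C b : Polynomial L) (by
      have : (Polynomial.X ^ 2 - Polynomial.C a * Polynomial.X + Polynomial.C b :
        Polynomial L).degree = 2 := by compute_degree!
      rw [this]; simp)
  exact ⟨x, by simpa using hx⟩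

omit hp [CharP L p] in
theorem exists_mu [IsAlgClosed L] (γ1 γ2 : L) : ∃ μ1 μ2 : L,
    γ1 = μ1 ^ 2 - μ1 + (μ2 ^ 2 - μ2) ∧ γ2 = (μ1 ^ 2 - μ1) * (μ2 ^ 2 - μ2) := by
  obtain ⟨x, hx⟩ := exists_quad_root γ1 γ2
  obtain ⟨μ1, h1⟩ := exists_quad_root 1 (-x)
  obtain ⟨μ2, h2⟩ := exists_quad_root 1 (-(γ1 - x))
  have e1 : μ1 ^ 2 - μ1 = x := by linear_combination h1
  have e2 : μ2 ^ 2 - μ2 = γ1 - x := by linear_combination h2
  exact ⟨μ1, μ2, by rw [e1, e2]; ring, by rw [e1, e2]; linear_combination hx⟩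

theorem PiP_eq (γ1 γ2 : L) : PiP p γ1 γ2 = (Polynomial.X ^ p - Polynomial.X) ^ 4
    - Polynomial.C (cc1 p γ1 γ2) * (Polynomial.X ^ p - Polynomial.X) ^ 2
    + Polynomial.C (cc2 p γ1 γ2) := by
  let φ := algebraMap L (AlgebraicClosure L)
  apply Polynomial.map_injective φ φ.injective
  obtain ⟨μ1, μ2, h1, h2⟩ := exists_mu (φ γ1) (φ γ2)
  simp only [map_PiP, Polynomial.map_add, Polynomial.map_sub, Polynomial.map_mul,
    Polynomial.map_pow, Polynomial.map_X, Polynomial.map_C]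
  rw [map_cc1 φ, map_cc2 φ, h1, h2, cc1_roots, cc2_roots, PiP_roots]

end PiP

end Pool.Agent.Lib.MP_75bae7_al
end

-- part Pool.Agent.Lib.MP_75bae7_al.End2
section

/-!
The commutative end of the proof: the quadric bundle cannot carry a Darboux chart.
-/

set_option autoImplicit false
set_option linter.unusedSectionVars false

namespace Pool.Agent.Lib.MP_75bae7_al

open MvPolynomial

theorem isAlgebraic_of_sq {E Z : Type} [Field E] [Field Z] [Algebra E Z] {x : Z}
    (h : IsAlgebraic E (x ^ 2)) : IsAlgebraic E x := IsAlgebraic.of_pow two_pos h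

theorem cc1_mem {Z : Type} [Field Z] (E : Subfield Z) (p : ℕ) {a b : Z} (ha : a ∈ E) (hb : b ∈ E) :
    cc1 p a b ∈ E := by
  have := map_cc1 E.subtype p ⟨a, ha⟩ ⟨b, hb⟩
  change _ = cc1 p a b at this
  rw [← this]; exact Subtype.mem _

theorem cc2_mem {Z : Type} [Field Z] (E : Subfield Z) (p : ℕ) {a b : Z} (ha : a ∈ E) (hb : b ∈ E) :
    cc2 p a b ∈ E := by
  have := map_cc2 E.subtype p ⟨a, ha⟩ ⟨b, hb⟩
  change _ = cc2 p a b at this
  rw [← this]; exact Subtype.mem _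

theorem mem_adjoin_X {σ L : Type} [Field L] (c : FractionRing (MvPolynomial σ L)) :
    c ∈ IntermediateField.adjoin L
      (Set.range fun a => algebraMap (MvPolynomial σ L) (FractionRing (MvPolynomial σ L)) (X a)) := by
  obtain ⟨a, b, -, rfl⟩ := (fr_fractionRing (MvPolynomial σ L)).frac c
  have key : ∀ f : MvPolynomial σ L, algebraMap _ (FractionRing (MvPolynomial σ L)) f
      = aeval (fun a => algebraMap (MvPolynomial σ L) (FractionRing (MvPolynomial σ L)) (X a)) f := by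
    intro f
    have := aeval_algebraMap_apply (FractionRing (MvPolynomial σ L)) (X : σ → MvPolynomial σ L) f
    rw [aeval_X_left_apply] at this
    exact this.symm
  rw [IntermediateField.mem_adjoin_range_iff]
  exact ⟨a, b, by rw [key, key]⟩

theorem indep_X_frac {σ L : Type} [Field L] : AlgebraicIndependent L
    (fun a => algebraMap (MvPolynomial σ L) (FractionRing (MvPolynomial σ L)) (X a)) :=
  (MvPolynomial.algebraicIndependent_X σ L).map'
    (f := IsScalarTower.toAlgHom L (MvPolynomial σ L) (FractionRing (MvPolynomial σ L)))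
    (IsFractionRing.injective _ _)

theorem exists_L {k K : Type} [Field k] [Field K] [Algebra k K] {p : ℕ} [hp : Fact p.Prime]
    [CharP k p] (γ : Fin 2 → K) (hγ : AlgebraicIndependent k γ)
    (hg : ∀ c, c ∈ IntermediateField.adjoin k (Set.range γ)) :
    ∃ (L : Type) (_ : Field L) (φ : K →+* L) (σ : L ≃+* L) (m1 m2 : L), (∀ a, σ (σ a) = a) ∧
      (∀ c, σ (φ c) = φ c) ∧ σ m1 = -m1 ∧ σ m2 = -m2 ∧ m1 ≠ 0 ∧ m2 ≠ 0 ∧ m1 ^ 2 - m2 ^ 2 ≠ 0 ∧
      φ (cc1 p (γ 0) (γ 1)) = m1 ^ 2 + m2 ^ 2 ∧ φ (cc2 p (γ 0) (γ 1)) = m1 ^ 2 * m2 ^ 2 := by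
  let R := MvPolynomial (Fin 2) k
  let L := FractionRing R
  have hL := fr_fractionRing R
  have : CharP L p := charP_of_injective_algebraMap (algebraMap k L).injective p
  let μ : Fin 2 → L := fun a => algebraMap R L (X a)
  let g : Fin 2 → L := ![μ 0 ^ 2 - μ 0 + (μ 1 ^ 2 - μ 1), (μ 0 ^ 2 - μ 0) * (μ 1 ^ 2 - μ 1)]
  have hgi : AlgebraicIndependent k g := by
    refine indep_of_alg' (indep_X_frac (σ := Fin 2) (L := k)) g le_rfl fun c => ?_
    let E := IntermediateField.adjoin k (Set.range g)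
    have h0 : g 0 ∈ E := IntermediateField.subset_adjoin _ _ ⟨0, rfl⟩
    have h1 : g 1 ∈ E := IntermediateField.subset_adjoin _ _ ⟨1, rfl⟩
    have hq : ∀ x : L, (x ^ 2 - x) ^ 2 - g 0 * (x ^ 2 - x) + g 1 = 0 → IsAlgebraic E x := by
      intro x hx
      refine ⟨(Polynomial.X ^ 2 - Polynomial.X) ^ 2 - Polynomial.C ⟨_, h0⟩
        * (Polynomial.X ^ 2 - Polynomial.X) + Polynomial.C ⟨_, h1⟩, ?_, by simpa using hx⟩
      apply Polynomial.Monic.ne_zero
      monicity!
    have hle : IntermediateField.adjoin k (Set.range μ)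
        ≤ (algebraicClosure E L).restrictScalars k := by
      rw [IntermediateField.adjoin_le_iff]
      rintro _ ⟨i, rfl⟩
      apply mem_algebraicClosure_iff.2
      apply hq
      fin_cases i <;> simp [g] <;> ring
    exact mem_algebraicClosure_iff.1 (hle (mem_adjoin_X c))
  obtain ⟨φ, hφ⟩ := (fr_aeval hγ hg).exists_lift (aeval g : R →ₐ[k] L).toRingHom hgi
  have hφ' : ∀ i, φ (γ i) = g i := fun i => by simpa using hφ (X i)
  let s : R →ₐ[k] R := aeval fun i => 1 - X i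
  have hsX : ∀ i, s (X i) = 1 - X i := fun i => aeval_X _ _
  have hs : ∀ a, s (s a) = a := by
    intro a
    have : s.comp s = AlgHom.id k R := by
      apply algHom_ext
      intro i
      rw [AlgHom.comp_apply, hsX, map_sub, map_one, hsX, sub_sub_cancel]; rfl
    exact DFunLike.congr_fun this a
  have hsi : Function.Injective s := fun a b h => by rw [← hs a, h, hs]
  obtain ⟨σ0, hσ0⟩ := hL.exists_lift ((algebraMap R L).comp s.toRingHom) (hL.inj.comp hsi)
  have hσ0' : ∀ a, σ0 (algebraMap R L a) = algebraMap R L (s a) := hσ0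
  have hσ : ∀ a, σ0 (σ0 a) = a := fun a =>
    hL.ext (φ := σ0.comp σ0) (ψ := RingHom.id L) (fun a => by
      change σ0 (σ0 (algebraMap R L a)) = algebraMap R L a
      rw [hσ0', hσ0', hs]) a
  have hμ : ∀ i, σ0 (μ i) = 1 - μ i := fun i => by
    change σ0 (algebraMap R L _) = _
    rw [hσ0', hsX, map_sub, map_one]
  have hm : ∀ i, σ0 (μ i ^ p - μ i) = -(μ i ^ p - μ i) := fun i => by
    rw [map_sub, map_pow, hμ, sub_pow_char, one_pow]; ring
  have hne : ∀ (f : R) (v : Fin 2 → Polynomial k), aeval v f ≠ 0 → algebraMap R L f ≠ 0 := by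
    intro f v h
    apply hL.ne
    rintro rfl
    exact h (map_zero _)
  have hX := FiniteField.X_pow_card_sub_X_ne_zero k hp.out.one_lt
  refine ⟨L, inferInstance, φ, RingEquiv.ofRingHom σ0 σ0 (RingHom.ext hσ) (RingHom.ext hσ),
    μ 0 ^ p - μ 0, μ 1 ^ p - μ 1, hσ, fun c => ?_, hm 0, hm 1, ?_, ?_, ?_, ?_, ?_⟩
  · refine (fr_aeval hγ hg).ext (φ := σ0.comp φ) (ψ := φ) (fun a => ?_) c
    rw [RingHom.comp_apply, hφ]
    change σ0 (aeval g a) = aeval g a
    induction a using poly_ind with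
    | hC c =>
      rw [aeval_C, IsScalarTower.algebraMap_apply k R L, hσ0', AlgHom.commutes]
    | hadd a b ha hb => rw [map_add, map_add, ha, hb]
    | hX a i ha =>
      rw [map_mul, map_mul, ha, aeval_X]
      congr 1
      fin_cases i <;> simp [g, hμ] <;> ring
  · have := hne (X 0 ^ p - X 0) ![Polynomial.X, 0] (by simpa using hX)
    rwa [RingHom.map_sub, RingHom.map_pow] at this
  · have := hne (X 1 ^ p - X 1) ![0, Polynomial.X] (by simpa using hX)
    rwa [RingHom.map_sub, RingHom.map_pow] at this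
  · have := hne ((X 0 ^ p - X 0) ^ 2 - (X 1 ^ p - X 1) ^ 2)
      ![Polynomial.X, 0] (by simpa [hp.out.ne_zero] using hX)
    rwa [RingHom.map_sub, RingHom.map_pow, RingHom.map_pow, RingHom.map_sub, RingHom.map_sub,
      RingHom.map_pow, RingHom.map_pow] at this
  · rw [map_cc1, hφ', hφ']; exact cc1_roots _ _
  · rw [map_cc2, hφ', hφ']; exact cc2_roots _ _

theorem br_poly {K Z τ : Type} [Field K] [Field Z] [Algebra K Z] {z : τ → Z} {B : Z → Z → Z}
    (hB : IsBr B) (hBK : ∀ c x, B (algebraMap K Z c) x = 0)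
    (hBz : ∀ a b, ∃ h : MvPolynomial τ K, B (z a) (z b) = aeval z h) (f g : MvPolynomial τ K) :
    ∃ h : MvPolynomial τ K, B (aeval z f) (aeval z g) = aeval z h := by
  have key : ∀ x : Z, (∀ a, ∃ h : MvPolynomial τ K, B (z a) x = aeval z h) →
      ∀ f : MvPolynomial τ K, ∃ h : MvPolynomial τ K, B (aeval z f) x = aeval z h := by
    intro x hx f
    induction f using poly_ind with
    | hC c => exact ⟨0, by rw [aeval_C, hBK, map_zero]⟩
    | hadd a b ha hb =>
      obtain ⟨a', ha⟩ := ha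
      obtain ⟨b', hb⟩ := hb
      exact ⟨a' + b', by rw [map_add, hB.add, ha, hb, map_add]⟩
    | hX a i ha =>
      obtain ⟨a', ha⟩ := ha
      obtain ⟨b', hb⟩ := hx i
      exact ⟨X i * a' + a * b', by rw [map_mul, hB.mul, ha, aeval_X, hb]; simp⟩
  refine key _ (fun a => ?_) f
  obtain ⟨h, hh⟩ := key (z a) (fun b => hBz b a) g
  exact ⟨-h, by rw [hB.anti, hh, map_neg]⟩

theorem ord_bound {K Z τ : Type} [Field K] [Field Z] {e : MvPolynomial τ K →+* Z} (h : Fr e)
    {π : MvPolynomial τ K} (hπ : Prime π) {p C0 : ℕ} (hp : 0 < p) (hC0 : C0 < p) {W : Z}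
    (hW : W ≠ 0) {G H : MvPolynomial τ K} (hH : e H ≠ 0)
    (eW : W ^ (p ^ 8) * e H ^ p = e G ^ p) (dG : p * G.totalDegree ≤ p ^ 8 * C0)
    (dH : p * H.totalDegree ≤ p ^ 8 * C0) : |h.ord π W| < p := by
  have hH0 : H ≠ 0 := by rintro rfl; exact hH (map_zero _)
  have hG : e G ≠ 0 := by
    intro h0
    rw [h0, zero_pow hp.ne'] at eW
    exact mul_ne_zero (pow_ne_zero _ hW) (pow_ne_zero _ hH) eW
  have hG0 : G ≠ 0 := by rintro rfl; exact hG (map_zero _)
  have o := congrArg (h.ord π) eW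
  rw [h.ord_mul hπ (pow_ne_zero _ hW) (pow_ne_zero _ hH), h.ord_pow hπ hW, h.ord_pow hπ hH,
    h.ord_pow hπ hG, h.ord_e hπ hG0, h.ord_e hπ hH0] at o
  have a1 := (Nat.mul_le_mul_left p (mult_le_totalDegree hπ hG0)).trans dG
  have a2 := (Nat.mul_le_mul_left p (mult_le_totalDegree hπ hH0)).trans dH
  have a3 : p ^ 8 * C0 < p ^ 8 * p := Nat.mul_lt_mul_of_pos_left hC0 (pow_pos hp 8)
  have a4 : (0 : ℤ) < (p ^ 8 : ℕ) := by exact_mod_cast pow_pos hp 8
  generalize p ^ 8 = P at *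
  generalize multiplicity π G = g at *
  generalize multiplicity π H = hh at *
  zify at a1 a2 a3
  have b1 : (0 : ℤ) ≤ p * g := by positivity
  have b2 : (0 : ℤ) ≤ p * hh := by positivity
  rw [abs_lt]
  constructor
  · apply lt_of_mul_lt_mul_left _ a4.le
    nlinarith
  · apply lt_of_mul_lt_mul_left _ a4.le
    nlinarith

theorem mem_of_gen {k K Z τ : Type} [Field k] [Field K] [Field Z] [Algebra k K] [Algebra K Z]
    [Algebra k Z] [IsScalarTower k K Z] (K0 : IntermediateField k K) {w : τ → Z}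
    (hw : AlgebraicIndependent K w)
    (hg : ∀ E : Subfield Z, (∀ c ∈ K0, algebraMap K Z c ∈ E) → (∀ i, w i ∈ E) → ∀ x, x ∈ E)
    (c : K) : c ∈ K0 := by
  have h1 := hg (IntermediateField.adjoin K0 (Set.range w)).toSubfield
    (fun c hc => (IntermediateField.adjoin K0 (Set.range w)).algebraMap_mem ⟨c, hc⟩)
    (fun i => IntermediateField.subset_adjoin _ _ ⟨i, rfl⟩) (algebraMap K Z c)
  by_cases hc : c = 0
  · rw [hc]; exact K0.zero_mem
  obtain ⟨f, g, e⟩ := (IntermediateField.mem_adjoin_range_iff K0 w _).1 h1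
  have hg0 : aeval w g ≠ 0 := by
    intro h0
    rw [h0, div_zero, map_eq_zero] at e
    exact hc e
  rw [eq_div_iff hg0, ← aeval_map_algebraMap K, ← aeval_map_algebraMap K w f] at e
  have e2 : C c * map (algebraMap K0 K) g = map (algebraMap K0 K) f :=
    hw (by rw [map_mul, aeval_C]; exact e)
  have hg1 : g ≠ 0 := by rintro rfl; exact hg0 (map_zero _)
  obtain ⟨n, hn⟩ := ne_zero_iff.1 hg1
  have e3 := congrArg (coeff n) e2
  rw [coeff_C_mul, coeff_map, coeff_map] at e3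
  have : c = algebraMap K0 K (coeff n f / coeff n g) := by
    rw [map_div₀, ← e3, mul_div_cancel_right₀ _ ((map_ne_zero _).2 hn)]
  rw [this]; exact (coeff n f / coeff n g).2

theorem endgame {k K Z τ κ : Type} [Field k] [Field K] [Field Z] [Algebra k K] [Algebra K Z]
    [Algebra k Z] [IsScalarTower k K Z] [Fintype τ] [Fintype κ] {p : ℕ} [hp : Fact p.Prime]
    [CharP k p] (hp2 : p ≠ 2) (hτ : Fintype.card τ = 8) (hκ : 2 ≤ Fintype.card κ)
    {z : τ → Z} (hz : AlgebraicIndependent K z)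
    (hfr : ∀ c : Z, c ∈ IntermediateField.adjoin K (Set.range z))
    {y : κ → K} (hy : AlgebraicIndependent k y) (γ1 γ2 : K) (t : Fin 5 → Z) {J s Δ η W : Z}
    (hgen : ∀ E : Subfield Z, (∀ c : k, algebraMap k Z c ∈ E) → algebraMap K Z γ1 ∈ E →
      algebraMap K Z γ2 ∈ E → (∀ i, t i ∈ E) → J ∈ E → s ∈ E → Δ ∈ E → η ∈ E → ∀ x, x ∈ E)
    (hs : s ≠ 0) (hW : W ≠ 0)
    (rel : Δ ^ 2 - s * η ^ 2 = s ^ 2 - algebraMap K Z (cc1 p γ1 γ2) * s
      + algebraMap K Z (cc2 p γ1 γ2)) (hJ : J ^ 2 = s * W)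
    {B : Z → Z → Z} (hB : IsBr B) (hBK : ∀ c x, B (algebraMap K Z c) x = 0)
    (hBz : ∀ a b, ∃ h : MvPolynomial τ K, B (z a) (z b) = aeval z h)
    (b1 : B s η = -2 * Δ) (b2 : B W η = 0) {C0 : ℕ} (hC0 : C0 < p) {G H : MvPolynomial τ K}
    (hH : aeval z H ≠ 0) (eW : W ^ (p ^ 8) * aeval z H ^ p = aeval z G ^ p)
    (dG : p * G.totalDegree ≤ p ^ 8 * C0) (dH : p * H.totalDegree ≤ p ^ 8 * C0) : False := by
  classical
  have cK : CharP K p := charP_of_injective_algebraMap (algebraMap k K).injective p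
  have cZ : CharP Z p := charP_of_injective_algebraMap (algebraMap k Z).injective p
  have h2K : (2 : K) ≠ 0 := by
    intro h0
    have := (CharP.cast_eq_zero_iff K p 2).1 (by exact_mod_cast h0)
    exact hp2 ((Nat.prime_dvd_prime_iff_eq hp.out Nat.prime_two).1 this)
  have h2Z : (2 : Z) ≠ 0 := by
    have := (map_ne_zero (algebraMap K Z)).2 h2K
    rwa [map_ofNat] at this
  set c1 := cc1 p γ1 γ2 with hc1
  set c2 := cc2 p γ1 γ2 with hc2
  have hcard : Fintype.card (Fin 5 ⊕ Fin 3) ≤ Fintype.card τ := by simp [hτ]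
  have hk : ∀ (E : IntermediateField K Z) (c : k), algebraMap k Z c ∈ E := fun E c => by
    rw [IsScalarTower.algebraMap_apply k K Z]; exact E.algebraMap_mem _
  -- step A
  have hη : Transcendental K η := by
    let w1 : Fin 5 ⊕ Fin 3 → Z := Sum.elim t ![J, s, η]
    let E := IntermediateField.adjoin K (Set.range w1)
    let E' := (algebraicClosure E Z).restrictScalars K
    have hE : ∀ i, w1 i ∈ E' := fun i => (algebraicClosure E Z).algebraMap_mem
      (⟨w1 i, IntermediateField.subset_adjoin _ _ ⟨i, rfl⟩⟩ : E)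
    have hs' : s ∈ E' := hE (.inr 1)
    have hη' : η ∈ E' := hE (.inr 2)
    have h1 := indep_of_alg' hz w1 hcard fun c => mem_algebraicClosure_iff.1
      (hgen E'.toSubfield (hk E') (E'.algebraMap_mem _) (E'.algebraMap_mem _)
        (fun i => hE (.inl i)) (hE (.inr 0)) hs' (by
          apply mem_algebraicClosure_iff.2
          apply isAlgebraic_of_sq
          apply mem_algebraicClosure_iff.1
          rw [eq_add_of_sub_eq rel]
          exact E'.add_mem (E'.add_mem (E'.sub_mem (pow_mem hs' 2)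
            (E'.mul_mem (E'.algebraMap_mem _) hs')) (E'.algebraMap_mem _))
            (E'.mul_mem hs' (pow_mem hη' 2))) hη' c)
    exact h1.transcendental (.inr 2)
  set u := Δ - s with hu
  have rel2 : s * (2 * u - η ^ 2 + algebraMap K Z c1) = algebraMap K Z c2 - u ^ 2 := by
    rw [hu]; linear_combination rel
  have hden : 2 * u - η ^ 2 + algebraMap K Z c1 ≠ 0 := by
    intro h0
    rw [h0, mul_zero] at rel2
    apply hη
    apply isAlgebraic_of_sq
    have a1 : IsAlgebraic K u := by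
      apply isAlgebraic_of_sq
      rw [← sub_eq_zero.1 rel2.symm]
      exact isAlgebraic_algebraMap _
    have : η ^ 2 = u + u + algebraMap K Z c1 := by linear_combination -h0
    rw [this]
    exact (a1.add a1).add (isAlgebraic_algebraMap _)
  have hgen2 : ∀ E : Subfield Z, (∀ c : k, algebraMap k Z c ∈ E) → algebraMap K Z γ1 ∈ E →
      algebraMap K Z γ2 ∈ E → (∀ i, t i ∈ E) → J ∈ E → u ∈ E → η ∈ E → ∀ x, x ∈ E := by
    intro E a1 a2 a3 a4 a5 a6 a7
    have hs' : s ∈ E := by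
      rw [eq_div_of_mul_eq hden rel2, hc1, hc2, map_cc1, map_cc2]
      exact E.div_mem (E.sub_mem (cc2_mem E p a2 a3) (pow_mem a6 2))
        (E.add_mem (E.sub_mem (E.mul_mem (ofNat_mem E 2) a6) (pow_mem a7 2)) (cc1_mem E p a2 a3))
    refine hgen E a1 a2 a3 a4 a5 hs' ?_ a7
    rw [show Δ = u + s by rw [hu]; ring]
    exact E.add_mem a6 hs'
  -- step B
  have hK : ∀ c, c ∈ IntermediateField.adjoin k (Set.range ![γ1, γ2]) := by
    let w2 : Fin 5 ⊕ Fin 3 → Z := Sum.elim t ![J, u, η]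
    let E := IntermediateField.adjoin K (Set.range w2)
    have hE : ∀ i, w2 i ∈ E := fun i => IntermediateField.subset_adjoin _ _ ⟨i, rfl⟩
    have h1 := indep_of_alg' hz w2 hcard fun c => isAlgebraic_algebraMap
      (⟨c, hgen2 E.toSubfield (hk E) (E.algebraMap_mem _) (E.algebraMap_mem _)
        (fun i => hE (.inl i)) (hE (.inr 0)) (hE (.inr 1)) (hE (.inr 2)) c⟩ : E)
    refine mem_of_gen _ h1 fun E' a1 a2 => hgen2 E' (fun c => ?_)
      (a1 _ (IntermediateField.subset_adjoin _ _ ⟨0, rfl⟩))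
      (a1 _ (IntermediateField.subset_adjoin _ _ ⟨1, rfl⟩))
      (fun i => a2 (.inl i)) (a2 (.inr 0)) (a2 (.inr 1)) (a2 (.inr 2))
    rw [IsScalarTower.algebraMap_apply k K Z]
    exact a1 _ (IntermediateField.algebraMap_mem _ _)
  have hγ : AlgebraicIndependent k ![γ1, γ2] := indep_of_alg' hy _ (by simpa using hκ)
    fun c => isAlgebraic_algebraMap (⟨c, hK c⟩ : IntermediateField.adjoin k (Set.range ![γ1, γ2]))
  obtain ⟨L, _, φ, σ, m1, m2, hσ, hσφ, hm1, hm2, n1, n2, n3, e1, e2⟩ := exists_L (p := p) _ hγ hK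
  change φ c1 = _ at e1
  change φ c2 = _ at e2
  have h2L : (2 : L) ≠ 0 := by
    have := (map_ne_zero φ).2 h2K
    rwa [map_ofNat] at this
  -- step C
  have h := fr_aeval hz hfr
  let R' := MvPolynomial τ L
  let Z' := FractionRing R'
  have h' := fr_fractionRing R'
  obtain ⟨ψ, hψ⟩ := h.exists_lift ((algebraMap R' Z').comp (map φ))
    (h'.inj.comp (map_injective φ φ.injective))
  have hψK : ∀ c, ψ (algebraMap K Z c) = algebraMap L Z' (φ c) := fun c => by
    have := hψ (C c)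
    change ψ (aeval z (C c)) = algebraMap R' Z' (map φ (C c)) at this
    rw [aeval_C, map_C] at this
    exact this
  let σ' : R' ≃+* R' := mapEquiv τ σ
  have hσ' : ∀ a, σ' a = map (σ : L →+* L) a := fun _ => rfl
  obtain ⟨θ, hθ⟩ := h'.exists_lift ((algebraMap R' Z').comp σ'.toRingHom) (h'.inj.comp σ'.injective)
  have hθ' : ∀ a, θ (algebraMap R' Z' a) = algebraMap R' Z' (σ' a) := hθ
  have hθL : ∀ c, θ (algebraMap L Z' c) = algebraMap L Z' (σ c) := fun c => by
    rw [IsScalarTower.algebraMap_apply L R' Z', hθ', hσ', algebraMap_eq, map_C]; rfl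
  have hθψ : ∀ x, θ (ψ x) = ψ x := h.ext (φ := θ.comp ψ) (ψ := ψ) fun a => by
    rw [RingHom.comp_apply, hψ, RingHom.comp_apply, hθ', hσ', map_map]
    congr 2
    exact congrArg _ (RingHom.ext hσφ)
  have hpar : ∀ π0, Prime π0 → 0 < h.ord π0 s → Even (h.ord π0 s) := fun π0 hπ0 hpos =>
    parity_lemma h hπ0 hB (br_poly hB hBK hBz) hp.out h2Z (c1 := C c1) (c2 := C c2)
      (IsUnit.map C (Ne.isUnit fun h0 => by
        rw [h0, map_zero] at e2
        exact mul_ne_zero (pow_ne_zero _ n1) (pow_ne_zero _ n2) e2.symm)) hs hW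
      (by simpa using rel) hJ b1 b2 (ord_bound h hπ0 hp.out.pos hC0 hW hH eW dG dH) hpos
  -- the last model
  let w3 : Fin 5 ⊕ Fin 3 → Z' :=
    Sum.elim (fun i => ψ (t i)) ![ψ J, ψ u - algebraMap L Z' (m1 * m2), ψ η]
  have hg3 : ∀ c, c ∈ IntermediateField.adjoin L (Set.range w3) := by
    let E := IntermediateField.adjoin L (Set.range w3)
    have hE : ∀ i, w3 i ∈ E := fun i => IntermediateField.subset_adjoin _ _ ⟨i, rfl⟩
    have hKE : ∀ c, algebraMap K Z c ∈ E.toSubfield.comap ψ := fun c => by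
      rw [Subfield.mem_comap, hψK]; exact E.algebraMap_mem _
    have h1 := hgen2 (E.toSubfield.comap ψ)
      (fun c => by rw [IsScalarTower.algebraMap_apply k K Z]; exact hKE _) (hKE _) (hKE _)
      (fun i => hE (.inl i)) (hE (.inr 0))
      (by simpa [w3] using E.add_mem (hE (.inr 1)) (E.algebraMap_mem (m1 * m2))) (hE (.inr 2))
    intro c
    refine (IntermediateField.adjoin_le_iff.2 ?_ : _ ≤ E) (mem_adjoin_X c)
    rintro _ ⟨a, rfl⟩
    have := hψ (X a)
    change ψ (aeval z (X a)) = algebraMap R' Z' (map φ (X a)) at this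
    rw [aeval_X, map_X] at this
    have h2 := h1 (z a)
    rwa [Subfield.mem_comap, this] at h2
  have hi3 : AlgebraicIndependent L w3 := indep_of_alg' (indep_X_frac (σ := τ) (L := L)) w3 hcard
    fun c => isAlgebraic_algebraMap (⟨c, hg3 c⟩ : IntermediateField.adjoin L (Set.range w3))
  have h3 := fr_aeval hi3 hg3
  let σ3 : MvPolynomial (Fin 5 ⊕ Fin 3) L ≃+* MvPolynomial (Fin 5 ⊕ Fin 3) L := mapEquiv _ σ
  have hσ3 : ∀ a, σ3 a = map (σ : L →+* L) a := fun _ => rfl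
  have hθ3 : ∀ a, θ ((aeval w3).toRingHom a) = (aeval w3).toRingHom (σ3 a) := by
    intro a
    change θ (aeval w3 a) = aeval w3 (σ3 a)
    induction a using poly_ind with
    | hC c => rw [hσ3, map_C, aeval_C, aeval_C, hθL]; rfl
    | hadd a b ha hb => simp only [map_add, ha, hb]
    | hX a i ha =>
      rw [map_mul, map_mul, map_mul, map_mul, ha, hσ3 (X i), map_X, aeval_X]
      congr 1
      rcases i with i | i
      · exact hθψ _
      · fin_cases i
        · exact hθψ _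
        · change θ (_ - _) = _ - _
          rw [map_sub, hθψ, hθL, map_mul, hm1, hm2, neg_mul_neg]
        · exact hθψ _
  have hπ : Prime (X (.inr 1) : MvPolynomial (Fin 5 ⊕ Fin 3) L) := X_prime
  have hev : ∀ (v : L) (f : MvPolynomial (Fin 5 ⊕ Fin 3) L),
      eval (fun i => if i = .inr 2 then v else 0) f ≠ 0 →
        f ≠ 0 ∧ h3.ord (X (.inr 1)) (aeval w3 f) = 0 := by
    intro v f hf
    have h0 : f ≠ 0 := by rintro rfl; exact hf (map_zero _)
    refine ⟨h0, (h3.ord_e hπ h0).trans ?_⟩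
    rw [multiplicity_eq_zero.2]
    · rfl
    · rintro ⟨g, rfl⟩
      simp at hf
  have d1 := hev 0 (-(X (.inr 1) + C (2 * (m1 * m2)))) (by simp [h2L, n1, n2])
  have d2 : (2 * (X (.inr 1) + C (m1 * m2)) - X (.inr 2) ^ 2 + C (m1 ^ 2 + m2 ^ 2) :
      MvPolynomial (Fin 5 ⊕ Fin 3) L) ≠ 0 ∧ h3.ord (X (.inr 1)) (aeval w3
        (2 * (X (.inr 1) + C (m1 * m2)) - X (.inr 2) ^ 2 + C (m1 ^ 2 + m2 ^ 2))) = 0 := by
    by_cases h0 : 2 * (m1 * m2) + (m1 ^ 2 + m2 ^ 2) = 0
    · refine hev 1 _ ?_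
      have : 2 * (m1 * m2) - 1 + (m1 ^ 2 + m2 ^ 2) ≠ 0 := by
        intro h1
        exact one_ne_zero (α := L) (by linear_combination h0 - h1)
      simpa using this
    · exact hev 0 _ (by simpa [map_ofNat] using h0)
  have hs' : ψ s ≠ 0 := (map_ne_zero ψ).2 hs
  have o1 : h3.ord (X (.inr 1)) (ψ s) = 1 := by
    have a1 := congrArg ψ rel2
    simp only [map_mul, map_add, map_sub, map_pow, map_ofNat, hψK, e1, e2] at a1
    have a2 : ψ s * aeval w3 (2 * (X (.inr 1) + C (m1 * m2)) - X (.inr 2) ^ 2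
        + C (m1 ^ 2 + m2 ^ 2) : MvPolynomial (Fin 5 ⊕ Fin 3) L)
        = aeval w3 (X (.inr 1) : MvPolynomial (Fin 5 ⊕ Fin 3) L)
          * aeval w3 (-(X (.inr 1) + C (2 * (m1 * m2))) : MvPolynomial (Fin 5 ⊕ Fin 3) L) := by
      simp only [map_mul, map_add, map_sub, map_pow, map_ofNat, map_neg, aeval_X, aeval_C, w3,
        Sum.elim_inr, Matrix.cons_val_one, Matrix.cons_val_zero, Matrix.cons_val_two,
        Matrix.tail_cons, Matrix.head_cons]
      linear_combination a1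
    have a3 := congrArg (h3.ord (X (.inr 1))) a2
    have ne3 : ∀ f, f ≠ 0 → aeval w3 f ≠ 0 := fun f hf => h3.ne hf
    rw [h3.ord_mul hπ hs' (ne3 _ d2.1), h3.ord_mul hπ (ne3 _ hπ.ne_zero) (ne3 _ d1.1), d1.2,
      d2.2] at a3
    simpa using a3.trans (by rw [add_zero]; exact h3.ord_self hπ)
  have oL : ∀ c : L, c ≠ 0 → h3.ord (X (.inr 1)) (algebraMap L Z' c) = 0 := fun c hc => by
    simpa using (hev 0 (C c) (by simpa using hc)).2
  have nL : ∀ c : L, c ≠ 0 → algebraMap L Z' c ≠ 0 := fun c hc => (map_ne_zero _).2 hc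
  have o2 := h3.ord_sub_of_gt hπ hs' (nL _ (pow_ne_zero 2 n1))
    (by rw [o1, oL _ (pow_ne_zero 2 n1)]; norm_num)
  rw [oL _ (pow_ne_zero 2 n1), map_pow] at o2
  have hC : ∀ c, algebraMap R' Z' (C c) = algebraMap L Z' c := fun c => rfl
  obtain ⟨v, g, hv, hg, e3⟩ := exists_norm_frac σ' h' θ hθ'
    (fun a => by rw [hσ', hσ', map_map]; exact (congrArg (map · a) (RingHom.ext hσ)).trans (map_id a))
    (mul_ne_zero hs' o2.1)
    (by rw [map_mul, map_sub, map_pow, hθψ, hθL, hm1, map_neg, neg_sq])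
    (fun π hπ' ha => even_ord σ' h' θ hθ' (IsUnit.map C h2L.isUnit) hπ' ha (m1 := C m1)
      (m2 := C m2) (IsUnit.map C n1.isUnit) (by simpa using IsUnit.map C n3.isUnit)
      (by rw [hσ', map_C, ← C_neg]; exact congrArg C hm1) (hθψ Δ) (hθψ η) hs' o2.1
      (by
        have a1 := congrArg ψ rel
        simp only [map_mul, map_add, map_sub, map_pow, hψK, e1, e2] at a1
        rw [a1, hC, hC]; ring)
      (parity_transfer φ h h' ψ hψ hs hpar hπ'))
  obtain ⟨c, hc, rfl⟩ := isUnit_iff_eq_C_of_isReduced.1 hv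
  have o3 := congrArg (h3.ord (X (.inr 1))) e3
  rw [hC, h3.ord_mul hπ hs' o2.1, o1, o2.2,
    h3.ord_mul hπ (mul_ne_zero (nL _ hc.ne_zero) hg) ((map_ne_zero θ).2 hg),
    h3.ord_mul hπ (nL _ hc.ne_zero) hg, oL _ hc.ne_zero,
    ord_invol σ3 h3 θ hθ3 hπ (by rw [hσ3, map_X]) hg] at o3
  omega

end Pool.Agent.Lib.MP_75bae7_al
end

-- part Pool.Agent.Lib.MP_75bae7_al.Sys
section

/-!
The reduced system of generators and its matrix form.
-/

set_option autoImplicit false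
set_option linter.unusedSectionVars false

namespace Pool.Agent.Lib.MP_75bae7_al

open Polynomial

section Mat
variable {A : Type} [Ring A]

/-- two by two matrices -/
abbrev M2 (A : Type) := Matrix (Fin 2) (Fin 2) A

/-- the matrix of `a + b * sqrt W` -/
def qm (W a b : A) : M2 A := !![a, b * W; b, a]

/-- scalar matrices -/
def sc : A →+* M2 A := Matrix.scalar (Fin 2)

theorem m2_ext {M N : M2 A} (h00 : M 0 0 = N 0 0) (h01 : M 0 1 = N 0 1) (h10 : M 1 0 = N 1 0)
    (h11 : M 1 1 = N 1 1) : M = N := by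
  ext i j; fin_cases i <;> fin_cases j <;> assumption

theorem m2_mul (M N : M2 A) (i j : Fin 2) : (M * N) i j = M i 0 * N 0 j + M i 1 * N 1 j := by
  rw [Matrix.mul_apply, Fin.sum_univ_two]

@[simp] theorem qm00 (W a b : A) : qm W a b 0 0 = a := rfl
@[simp] theorem qm01 (W a b : A) : qm W a b 0 1 = b * W := rfl
@[simp] theorem qm10 (W a b : A) : qm W a b 1 0 = b := rfl
@[simp] theorem qm11 (W a b : A) : qm W a b 1 1 = a := rfl
@[simp] theorem sc00 (a : A) : sc a 0 0 = a := rfl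
@[simp] theorem sc01 (a : A) : sc a 0 1 = 0 := rfl
@[simp] theorem sc10 (a : A) : sc a 1 0 = 0 := rfl
@[simp] theorem sc11 (a : A) : sc a 1 1 = a := rfl

theorem sc_eq (W a : A) : sc a = qm W a 0 := by apply m2_ext <;> simp

theorem qm_mul {W : A} (a b : A) {c d : A} (hc : Commute c W) (hd : Commute d W) :
    qm W a b * qm W c d = qm W (a * c + b * d * W) (a * d + b * c) := by
  apply m2_ext <;> simp only [m2_mul, qm00, qm01, qm10, qm11]
  · rw [mul_assoc, ← hd.eq, mul_assoc]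
  · rw [mul_assoc b, ← hc.eq]; noncomm_ring
  · rw [add_comm]
  · rw [add_comm, mul_assoc]

theorem qm_add (W a b c d : A) : qm W a b + qm W c d = qm W (a + c) (b + d) := by
  apply m2_ext <;> simp [add_mul]

theorem qm_sub (W a b c d : A) : qm W a b - qm W c d = qm W (a - c) (b - d) := by
  apply m2_ext <;> simp [sub_mul]

theorem sc_mul_qm (W x a b : A) : sc x * qm W a b = qm W (x * a) (x * b) := by
  apply m2_ext <;> simp [m2_mul, mul_assoc]

theorem sc_mul_apply (x : A) (M : M2 A) (i j : Fin 2) : (sc x * M) i j = x * M i j := by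
  fin_cases i <;> simp [m2_mul]

theorem mul_sc_apply (x : A) (M : M2 A) (i j : Fin 2) : (M * sc x) i j = M i j * x := by
  fin_cases j <;> simp [m2_mul]

theorem natCast_mul_apply (n : ℕ) (M : M2 A) (i j : Fin 2) : ((n : M2 A) * M) i j = n * M i j := by
  rw [← map_natCast (sc (A := A)), sc_mul_apply]

theorem commute_sc {x : A} {M : M2 A} : Commute (sc x) M ↔ ∀ i j, Commute x (M i j) := by
  constructor
  · intro h i j
    have := congrFun (congrFun h.eq i) j
    rwa [sc_mul_apply, mul_sc_apply] at this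
  · intro h
    ext i j
    rw [sc_mul_apply, mul_sc_apply, (h i j).eq]

theorem commute_sc_qm {W x a b : A} (h1 : Commute x a) (h2 : Commute x b) (h3 : Commute x W) :
    Commute (sc x) (qm W a b) := by
  rw [commute_sc]
  intro i j
  fin_cases i <;> fin_cases j
  exacts [h1, h2.mul_right h3, h2, h1]

theorem eq_qm {W : A} {M : M2 A} (h : Commute M (qm W 0 1)) :
    M = qm W (M 0 0) (M 1 0) ∧ Commute (M 0 0) W ∧ Commute (M 1 0) W := by
  have h00 := congrFun (congrFun h.eq 0) 0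
  have h01 := congrFun (congrFun h.eq 0) 1
  have h10 := congrFun (congrFun h.eq 1) 0
  have h11 := congrFun (congrFun h.eq 1) 1
  simp only [m2_mul, qm00, qm01, qm10, qm11, mul_zero, zero_mul, mul_one, one_mul, zero_add,
    add_zero] at h00 h01 h10 h11
  refine ⟨m2_ext rfl h11.symm rfl h10, ?_, ?_⟩
  · rw [h10] at h01; exact h01
  · rw [h00] at h11; exact h11

/-- conjugation by `diag (1, -1)` -/
def cj : M2 A →+* M2 A where
  toFun M := !![M 0 0, -M 0 1; -M 1 0, M 1 1]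
  map_one' := by apply m2_ext <;> simp
  map_mul' M N := by apply m2_ext <;> simp [m2_mul, add_comm]
  map_zero' := by apply m2_ext <;> simp
  map_add' M N := by apply m2_ext <;> simp [add_comm]

@[simp] theorem cj00 (M : M2 A) : cj M 0 0 = M 0 0 := rfl
@[simp] theorem cj01 (M : M2 A) : cj M 0 1 = -M 0 1 := rfl
@[simp] theorem cj10 (M : M2 A) : cj M 1 0 = -M 1 0 := rfl
@[simp] theorem cj11 (M : M2 A) : cj M 1 1 = M 1 1 := rfl

theorem cj_qm (W a b : A) : cj (qm W a b) = qm W a (-b) := by apply m2_ext <;> simp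

theorem cj_qm0 (W b : A) : cj (qm W 0 b) = -qm W 0 b := by apply m2_ext <;> simp

theorem cj_sc (a : A) : cj (sc a) = sc a := by apply m2_ext <;> simp

theorem cj_cj (M : M2 A) : cj (cj M) = M := by apply m2_ext <;> simp

theorem map_qm {A' : Type} [Ring A'] (φ : A →+* A') (W a b : A) :
    φ.mapMatrix (qm W a b) = qm (φ W) (φ a) (φ b) := by apply m2_ext <;> simp

end Mat

/-- pairs of indices that commute -/
def cmb (i j : Fin 10) : Bool :=
  !([(0, 1), (1, 0), (2, 3), (3, 2), (4, 5), (5, 4), (4, 6), (6, 4), (4, 7), (7, 4), (6, 7), (7, 6),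
    (6, 8), (8, 6), (7, 8), (8, 7)] : List (Fin 10 × Fin 10)).contains (i, j)

/-- the relations of the reduced system -/
structure Sys {A : Type} [Ring A] (e : Fin 10 → A) : Prop where
  comm : ∀ i j, cmb i j = true → Commute (e i) (e j)
  r01 : e 0 * e 1 - e 1 * e 0 = e 1
  r23 : e 2 * e 3 - e 3 * e 2 = e 3
  r45 : e 4 * e 5 - e 5 * e 4 = 2 * e 5
  r46 : e 4 * e 6 - e 6 * e 4 = -e 6
  r47 : e 4 * e 7 - e 7 * e 4 = -e 7
  r68 : e 6 * e 8 - e 8 * e 6 = e 7
  r67 : (e 6 * e 7 - e 7 * e 6) * e 5 = e 8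
  r87 : e 8 * e 7 - e 7 * e 8 = (2 * (e 6 * e 6 * e 5) - e 9) * e 6

section Defs
variable {A : Type} [Ring A] (e : Fin 10 → A)

/-- the element `s` -/
def ss : A := e 6 * e 6 * e 5
/-- the second central element -/
def gam2 : A := e 8 * e 8 - e 7 * e 7 * e 5 - (ss e * ss e + ss e - e 9 * ss e)
/-- the norm of the quartic -/
def psi : A := (ss e * ss e + ss e - e 9 * ss e + gam2 e) * (ss e * ss e + ss e - e 9 * ss e + gam2 e)
  - (e 9 - 2 * ss e) * (e 9 - 2 * ss e) * ss e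
/-- matrix `t` -/
def tt : M2 A := qm (e 5) 0 (e 6)
/-- matrix `w` -/
def ww : M2 A := qm (e 5) 0 1
/-- matrix `H` -/
def HH : M2 A := !![e 4, 0; 0, e 4 + 1]
/-- raising matrix -/
def ap : M2 A := qm (e 5) (e 8) (e 7)
/-- lowering matrix -/
def am : M2 A := qm (e 5) (e 8) (-e 7)
/-- weights of the four pairs -/
def th : ℕ → M2 A
  | 0 => sc (e 0)
  | 1 => sc (e 2)
  | 2 => HH e
  | _ => tt e
/-- weight vectors of the four pairs -/
def gg : ℕ → M2 A
  | 0 => sc (e 1)
  | 1 => sc (e 3)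
  | 2 => ww e
  | _ => ap e
/-- the quartic -/
def Gq {R : Type} [Ring R] (t a b : R) : R := (t ^ 2 - t) ^ 2 - a * (t ^ 2 - t) + b
/-- the Artin-Schreier element -/
def TT (p : ℕ) : M2 A := tt e ^ p - tt e

end Defs

namespace Sys
variable {A : Type} [Ring A] {e : Fin 10 → A} (S : Sys e)
include S

theorem map {A' : Type} [Ring A'] (φ : A →+* A') : Sys (fun i => φ (e i)) where
  comm i j h := (S.comm i j h).map φ
  r01 := by simpa using congrArg φ S.r01
  r23 := by simpa using congrArg φ S.r23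
  r45 := by simpa [map_ofNat] using congrArg φ S.r45
  r46 := by simpa using congrArg φ S.r46
  r47 := by simpa using congrArg φ S.r47
  r68 := by simpa using congrArg φ S.r68
  r67 := by simpa using congrArg φ S.r67
  r87 := by simpa [map_ofNat] using congrArg φ S.r87

omit S in
theorem of_map {A' : Type} [Ring A'] (φ : A →+* A') (hφ : Function.Injective φ)
    (S : Sys (fun i => φ (e i))) : Sys e where
  comm i j h := hφ (by rw [map_mul, map_mul]; exact (S.comm i j h).eq)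
  r01 := hφ (by simpa using S.r01)
  r23 := hφ (by simpa using S.r23)
  r45 := hφ (by simpa [map_ofNat] using S.r45)
  r46 := hφ (by simpa using S.r46)
  r47 := hφ (by simpa using S.r47)
  r68 := hφ (by simpa using S.r68)
  r67 := hφ (by simpa using S.r67)
  r87 := hφ (by simpa [map_ofNat] using S.r87)

theorem c (i j : Fin 10) (h : cmb i j = true) : Commute (e i) (e j) := S.comm i j h

theorem HH_qm {a b : A} (n : ℤ) (h1 : e 4 * a - a * e 4 = n * a)
    (h2 : e 4 * b - b * e 4 = (n - 1) * b) :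
    HH e * qm (e 5) a b - qm (e 5) a b * HH e = n * qm (e 5) a b := by
  rw [← map_intCast (sc (A := A))]
  apply m2_ext <;> rw [sc_mul_apply] <;> simp only [Matrix.sub_apply, m2_mul, qm00, qm01, qm10,
    qm11, HH, Matrix.of_apply, Matrix.cons_val_zero, Matrix.cons_val_one, Matrix.cons_val', mul_zero,
    zero_mul, add_zero, zero_add, Matrix.cons_val_fin_one]
  · exact h1
  · have : e 4 * (b * e 5) - b * e 5 * (e 4 + 1) = (e 4 * b - b * e 4) * e 5
        + b * (e 4 * e 5 - e 5 * e 4) - b * e 5 := by noncomm_ring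
    rw [this, h2, S.r45]; noncomm_ring
  · have : (e 4 + 1) * b - b * e 4 = (e 4 * b - b * e 4) + b := by noncomm_ring
    rw [this, h2]; noncomm_ring
  · rw [← h1]; noncomm_ring

omit S in
theorem sc_HH {x : A} (h : Commute x (e 4)) : Commute (sc x) (HH e) := by
  rw [commute_sc]
  intro i j
  fin_cases i <;> fin_cases j
  exacts [h, Commute.zero_right _, Commute.zero_right _, h.add_right (Commute.one_right _)]

theorem HH_tt : Commute (HH e) (tt e) := by
  have := S.HH_qm (a := 0) (b := e 6) 0 (by simp) (by simpa using S.r46)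
  rw [Int.cast_zero, zero_mul, sub_eq_zero] at this
  exact this

theorem HH_ap : Commute (HH e) (ap e) := by
  have := S.HH_qm (a := e 8) (b := e 7) 0 (by simpa [sub_eq_zero] using (S.c 4 8 rfl).eq)
    (by simpa using S.r47)
  rw [Int.cast_zero, zero_mul, sub_eq_zero] at this
  exact this

theorem ww_qm {a b : A} (ha : Commute a (e 5)) (hb : Commute b (e 5)) :
    Commute (ww e) (qm (e 5) a b) := by
  change _ = _
  rw [ww, qm_mul _ _ ha hb, qm_mul _ _ (Commute.zero_left _) (Commute.one_left _)]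
  simp

theorem tt_ap : tt e * ap e - ap e * tt e = ap e := by
  rw [tt, ap, qm_mul _ _ (S.c 8 5 rfl) (S.c 7 5 rfl), qm_mul _ _ (Commute.zero_left _) (S.c 6 5 rfl), qm_sub]
  congr 1
  · rw [← S.r67]; noncomm_ring
  · rw [← S.r68]; noncomm_ring

theorem pairs : Pairs 4 (th e) (gg e) := by
  have z := fun i => Commute.zero_right (e i)
  have o := fun i => Commute.one_right (e i)
  have a1 : Commute (sc (e 0)) (tt e) := commute_sc_qm (z _) (S.c 0 6 rfl) (S.c 0 5 rfl)
  have a2 : Commute (sc (e 2)) (tt e) := commute_sc_qm (z _) (S.c 2 6 rfl) (S.c 2 5 rfl)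
  have a3 : Commute (sc (e 1)) (ww e) := commute_sc_qm (z _) (o _) (S.c 1 5 rfl)
  have a4 : Commute (sc (e 3)) (ww e) := commute_sc_qm (z _) (o _) (S.c 3 5 rfl)
  have a5 : Commute (sc (e 1)) (ap e) := commute_sc_qm (S.c 1 8 rfl) (S.c 1 7 rfl) (S.c 1 5 rfl)
  have a6 : Commute (sc (e 3)) (ap e) := commute_sc_qm (S.c 3 8 rfl) (S.c 3 7 rfl) (S.c 3 5 rfl)
  refine ⟨fun j hj => ?_, fun i hi j hj => ?_, fun i hi j hj => ?_, fun i hi j hj hij => ?_⟩
  · interval_cases j
    · simp only [th, gg, ← map_mul, ← map_sub, S.r01]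
    · simp only [th, gg, ← map_mul, ← map_sub, S.r23]
    · have := S.HH_qm (a := 0) (b := 1) 1 (by simp) (by simp)
      rwa [Int.cast_one, one_mul] at this
    · exact S.tt_ap
  · interval_cases i <;> interval_cases j
    exacts [Commute.refl _, (S.c 0 2 rfl).map sc, sc_HH (S.c 0 4 rfl), a1,
      (S.c 2 0 rfl).map sc, Commute.refl _, sc_HH (S.c 2 4 rfl), a2,
      (sc_HH (S.c 0 4 rfl)).symm, (sc_HH (S.c 2 4 rfl)).symm, Commute.refl _, S.HH_tt,
      a1.symm, a2.symm, S.HH_tt.symm, Commute.refl _]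
  · interval_cases i <;> interval_cases j
    exacts [Commute.refl _, (S.c 1 3 rfl).map sc, a3, a5,
      (S.c 3 1 rfl).map sc, Commute.refl _, a4, a6,
      a3.symm, a4.symm, Commute.refl _, S.ww_qm (S.c 8 5 rfl) (S.c 7 5 rfl),
      a5.symm, a6.symm, (S.ww_qm (S.c 8 5 rfl) (S.c 7 5 rfl)).symm, Commute.refl _]
  · interval_cases i <;> interval_cases j
    exacts [absurd rfl hij, (S.c 0 3 rfl).map sc, commute_sc_qm (z _) (o _) (S.c 0 5 rfl),
      commute_sc_qm (S.c 0 8 rfl) (S.c 0 7 rfl) (S.c 0 5 rfl),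
      (S.c 2 1 rfl).map sc, absurd rfl hij, commute_sc_qm (z _) (o _) (S.c 2 5 rfl),
      commute_sc_qm (S.c 2 8 rfl) (S.c 2 7 rfl) (S.c 2 5 rfl),
      (sc_HH (S.c 1 4 rfl)).symm, (sc_HH (S.c 3 4 rfl)).symm, absurd rfl hij, S.HH_ap,
      (commute_sc_qm (z _) (S.c 1 6 rfl) (S.c 1 5 rfl)).symm,
      (commute_sc_qm (z _) (S.c 3 6 rfl) (S.c 3 5 rfl)).symm,
      (S.ww_qm (Commute.zero_left _) (S.c 6 5 rfl)).symm, absurd rfl hij]

theorem tt_sq : tt e ^ 2 = sc (ss e) := by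
  rw [sq, tt, qm_mul _ _ (Commute.zero_left _) (S.c 6 5 rfl), sc_eq (e 5), ss]; simp

theorem ss_comm (i : Fin 10) (h1 : cmb i 6 = true) (h2 : cmb i 5 = true) :
    Commute (e i) (ss e) := ((S.c i 6 h1).mul_right (S.c i 6 h1)).mul_right (S.c i 5 h2)

theorem Gq_eq (x : A) : Gq (tt e) (sc (e 9)) (sc x)
    = qm (e 5) (ss e * ss e + ss e - e 9 * ss e + x) ((e 9 - 2 * ss e) * e 6) := by
  have h1 : tt e ^ 2 - tt e = qm (e 5) (ss e) (-e 6) := by
    rw [S.tt_sq, tt, sc_eq (e 5), qm_sub]; simp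
  rw [Gq, h1, sq, qm_mul _ _ (S.ss_comm 5 rfl rfl).symm (S.c 6 5 rfl).neg_left, sc_mul_qm, sc_eq (e 5) x,
    qm_sub, qm_add]
  congr 1
  · rw [ss]; noncomm_ring
  · rw [neg_mul, (S.ss_comm 6 rfl rfl).eq]; noncomm_ring

theorem ap_am : ap e * am e = Gq (tt e) (sc (e 9)) (sc (gam2 e)) := by
  rw [S.Gq_eq, ap, am, qm_mul _ _ (S.c 8 5 rfl) (S.c 7 5 rfl).neg_left]
  congr 1
  · rw [gam2]; noncomm_ring
  · rw [← neg_sub (2 * ss e), neg_mul (2 * ss e - e 9), ss, ← S.r87]; noncomm_ring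

omit S in
theorem cj_ap : cj (ap e) = am e := cj_qm _ _ _
omit S in
theorem cj_am : cj (am e) = ap e := by rw [← cj_ap, cj_cj]
omit S in
theorem cj_tt : cj (tt e) = -tt e := cj_qm0 _ _

theorem am_ap : am e * ap e = Gq (tt e + 1) (sc (e 9)) (sc (gam2 e)) := by
  have := congrArg cj S.ap_am
  rw [map_mul, cj_ap, cj_am] at this
  rw [this]
  simp only [Gq, map_add, map_sub, map_mul, map_pow, cj_sc, cj_tt]
  noncomm_ring

theorem tt_am : tt e * am e - am e * tt e = -am e := by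
  have := congrArg cj S.tt_ap
  rw [map_sub, map_mul, map_mul, cj_ap, cj_tt] at this
  calc _ = -(-tt e * am e - am e * -tt e) := by noncomm_ring
    _ = _ := by rw [this]

theorem sc9_ap : Commute (sc (e 9)) (ap e) := commute_sc_qm (S.c 9 8 rfl) (S.c 9 7 rfl) (S.c 9 5 rfl)
theorem sc9_tt : Commute (sc (e 9)) (tt e) :=
  commute_sc_qm (Commute.zero_right _) (S.c 9 6 rfl) (S.c 9 5 rfl)

theorem gam2_comm (i : Fin 10) : Commute (gam2 e) (e i) := by
  have gen : ∀ i : Fin 10, cmb i 5 = true → cmb i 6 = true → cmb i 7 = true → cmb i 8 = true →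
      Commute (gam2 e) (e i) := by
    intro i h5 h6 h7 h8
    have h9 : cmb i 9 = true := by revert i; decide
    have hs := S.ss_comm i h6 h5
    exact ((((S.c i 8 h8).mul_right (S.c i 8 h8)).sub_right (((S.c i 7 h7).mul_right
      (S.c i 7 h7)).mul_right (S.c i 5 h5))).sub_right (((hs.mul_right hs).add_right hs).sub_right
        ((S.c i 9 h9).mul_right hs))).symm
  have e0 : sc (gam2 e) = ap e * am e - ((tt e ^ 2 - tt e) ^ 2 - sc (e 9) * (tt e ^ 2 - tt e)) := by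
    rw [S.ap_am, Gq]; noncomm_ring
  have key : ∀ M : M2 A, Commute M (ap e * am e) → Commute M (tt e) → Commute M (sc (e 9)) →
      Commute (sc (gam2 e)) M := by
    intro M h1 h2 h3
    have h4 := (h2.pow_right 2).sub_right h2
    rw [e0]
    exact (h1.sub_right ((h4.pow_right 2).sub_right (h3.mul_right h4))).symm
  have k1 : Commute (sc (gam2 e)) (ap e) := by
    have h1 : ap e * (tt e + 1) = tt e * ap e := by
      rw [mul_add, mul_one]; conv_lhs => rw [← S.tt_ap]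
      rw [S.tt_ap, ← sub_eq_iff_eq_add'.1 S.tt_ap]
    have h2 : ap e * ((tt e + 1) ^ 2 - (tt e + 1)) = (tt e ^ 2 - tt e) * ap e := by
      rw [mul_sub, sub_mul, h1, (SemiconjBy.pow_right h1 2).eq]
    have h3 := mul_assoc (ap e) (am e) (ap e)
    rw [S.ap_am, S.am_ap, Gq, Gq, mul_add, mul_sub (ap e), (SemiconjBy.pow_right h2 2).eq,
      ← mul_assoc (ap e), ← S.sc9_ap.eq, mul_assoc, h2, add_mul, sub_mul _ _ (ap e),
      mul_assoc] at h3
    exact add_left_cancel h3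
  have k2 : Commute (sc (gam2 e)) (tt e) := key _ (by
    change _ = _
    rw [← sub_eq_zero]
    have : tt e * (ap e * am e) - ap e * am e * tt e = (tt e * ap e - ap e * tt e) * am e
      + ap e * (tt e * am e - am e * tt e) := by noncomm_ring
    rw [this, S.tt_ap, S.tt_am]; noncomm_ring) (Commute.refl _) S.sc9_tt.symm
  have k3 : Commute (sc (gam2 e)) (HH e) := key _ (S.HH_ap.mul_right (by
    have := S.HH_ap.map cj
    rwa [cj_ap, show cj (HH e) = HH e by apply m2_ext <;> simp [HH]] at this)) S.HH_tt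
    (sc_HH (S.c 9 4 rfl)).symm
  fin_cases i
  exacts [gen 0 rfl rfl rfl rfl, gen 1 rfl rfl rfl rfl, gen 2 rfl rfl rfl rfl,
    gen 3 rfl rfl rfl rfl, commute_sc.1 k3 0 0, gen 5 rfl rfl rfl rfl, commute_sc.1 k2 1 0,
    commute_sc.1 k1 1 0, commute_sc.1 k1 0 0, gen 9 rfl rfl rfl rfl]

theorem H_ss : Commute (e 4) (ss e) := by
  have := (S.HH_tt.pow_right 2).symm
  rw [S.tt_sq] at this
  exact (commute_sc.1 this 0 0).symm

theorem psi_eq : ap e * am e * (am e * ap e) = sc (psi e) ∧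
    am e * ap e * (ap e * am e) = sc (psi e) := by
  have h0 : am e * ap e = cj (ap e * am e) := by rw [map_mul, cj_ap, cj_am]
  have gs : Commute (gam2 e) (ss e) :=
    ((S.gam2_comm 6).mul_right (S.gam2_comm 6)).mul_right (S.gam2_comm 5)
  have c0 : ∀ x, Commute x (ss e) → Commute x (e 9) → Commute x (gam2 e) →
      Commute x (ss e * ss e + ss e - e 9 * ss e + gam2 e) := fun x h1 h2 h3 =>
    (((h1.mul_right h1).add_right h1).sub_right (h2.mul_right h1)).add_right h3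
  have c1 : ∀ x, Commute x (ss e) → Commute x (e 9) → Commute x (e 9 - 2 * ss e) :=
    fun x h1 h2 => h2.sub_right ((Commute.ofNat_right _ 2).mul_right h1)
  have d0 := (c0 _ (S.ss_comm 5 rfl rfl) (S.c 5 9 rfl) (S.gam2_comm 5).symm).symm
  have d1 := ((c1 _ (S.ss_comm 5 rfl rfl) (S.c 5 9 rfl)).mul_right (S.c 5 6 rfl)).symm
  have d2 := (c1 _ (S.ss_comm 6 rfl rfl) (S.c 6 9 rfl)).eq
  have d3 : Commute (ss e * ss e + ss e - e 9 * ss e + gam2 e) ((e 9 - 2 * ss e) * e 6) :=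
    (c1 _ (c0 _ (Commute.refl _) (S.ss_comm 9 rfl rfl).symm gs.symm).symm
      (c0 _ (S.ss_comm 9 rfl rfl) (Commute.refl _) (S.gam2_comm 9).symm).symm).mul_right
      (c0 _ (S.ss_comm 6 rfl rfl) (S.c 6 9 rfl) (S.gam2_comm 6).symm).symm
  have d4 : (e 9 - 2 * ss e) * e 6 * ((e 9 - 2 * ss e) * e 6) * e 5
      = (e 9 - 2 * ss e) * (e 9 - 2 * ss e) * ss e := by
    rw [mul_assoc _ (e 6), ← mul_assoc (e 6), d2]
    simp only [ss, mul_assoc]
  rw [h0, S.ap_am, S.Gq_eq, cj_qm, qm_mul _ _ d0 d1.neg_left, qm_mul _ _ d0 d1, sc_eq (e 5), psi,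
    ← d4, d3.eq]
  constructor <;> congr 1
  · noncomm_ring
  · rw [mul_neg, d3.eq, neg_add_cancel]
  · noncomm_ring
  · rw [neg_mul, add_neg_cancel]

theorem TT_eq (m : ℕ) : TT e (2 * m + 1) = qm (e 5) 0 ((ss e ^ m - 1) * e 6) := by
  rw [TT, pow_succ, pow_mul, S.tt_sq, ← map_pow, tt, sc_mul_qm, qm_sub, sub_mul]; simp

theorem tau_W (m : ℕ) : Commute ((ss e ^ m - 1) * e 6) (e 5) :=
  ((((S.ss_comm 5 rfl rfl).pow_right m).sub_right (Commute.one_right _)).mul_right (S.c 5 6 rfl)).symm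

theorem TT_sq (m : ℕ) : TT e (2 * m + 1) * TT e (2 * m + 1)
    = sc ((ss e ^ m - 1) * (ss e ^ m - 1) * ss e) := by
  rw [S.TT_eq, qm_mul _ _ (Commute.zero_left _) (S.tau_W m), sc_eq (e 5)]
  congr 1
  · have := (((S.ss_comm 6 rfl rfl).pow_right m).sub_right (Commute.one_right _)).eq
    rw [mul_assoc _ (e 6), ← mul_assoc (e 6), this]
    simp only [ss, mul_assoc, zero_add, mul_zero]
  · simp

theorem ap_pow_tt (n : ℕ) : ap e ^ n * tt e = (tt e - n) * ap e ^ n := by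
  rw [sub_mul, ← shift_pow S.tt_ap n, sub_sub_cancel]

end Sys

theorem T_shift_one {p : ℕ} (hp : p.Prime) (hodd : Odd p) : ∃ r : ℤ[X],
    (X ^ p - X) ^ 2 - ((X - 1) ^ p - (X - 1)) ^ 2 = (p : ℤ[X]) * r := by
  obtain ⟨r, hr⟩ := exists_add_pow_prime_eq hp (X : ℤ[X]) (-1)
  rw [hodd.neg_one_pow, ← sub_eq_add_neg X] at hr
  exact ⟨X * r * (2 * (X ^ p - X) - (p : ℤ[X]) * X * r), by rw [hr]; ring⟩

theorem T_shift_p {p : ℕ} (hp : p.Prime) : ∃ r : ℤ[X],
    (X ^ p - X) ^ 2 - ((X - (p : ℤ[X])) ^ p - (X - (p : ℤ[X]))) ^ 2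
      = (p : ℤ[X]) * (-2 * (X ^ p - X) + (p : ℤ[X]) * r) := by
  obtain ⟨r, hr⟩ := exists_add_pow_prime_eq hp (X : ℤ[X]) (-(p : ℤ[X]))
  obtain ⟨n, hn⟩ : ∃ n, p = n + 2 := ⟨p - 2, by have := hp.two_le; omega⟩
  have h1 : (-(p : ℤ[X])) ^ p = (p : ℤ[X]) ^ 2 * (-(p : ℤ[X])) ^ n := by
    conv_lhs => rw [hn, pow_add, ← hn]
    ring
  rw [h1, ← sub_eq_add_neg X] at hr
  exact ⟨-2 * (X ^ p - X) * ((-(p : ℤ[X])) ^ n - X * r)
    - (1 + (p : ℤ[X]) * ((-(p : ℤ[X])) ^ n - X * r)) ^ 2, by rw [hr]; ring⟩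

namespace Sys
variable {A : Type} [Ring A] {e : Fin 10 → A} (S : Sys e)
include S

theorem TT_shift (p n : ℕ) : TT e p * TT e p * ap e ^ n - ap e ^ n * (TT e p * TT e p)
    = aeval (tt e) ((X ^ p - X) ^ 2 - ((X - (n : ℤ[X])) ^ p - (X - (n : ℤ[X]))) ^ 2 : ℤ[X])
      * ap e ^ n := by
  have h1 := semiconj_aeval (S.ap_pow_tt n) ((X ^ p - X) ^ 2 : ℤ[X])
  simp only [map_sub, map_pow, aeval_X, map_natCast] at h1 ⊢
  rw [sub_mul, ← h1, TT, sq]

theorem br_one {p : ℕ} (hp : p.Prime) (hodd : Odd p) : ∃ M : M2 A,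
    TT e p * TT e p * ap e - ap e * (TT e p * TT e p) = p * M := by
  obtain ⟨r, hr⟩ := T_shift_one hp hodd
  have := S.TT_shift p 1
  rw [Nat.cast_one, hr, pow_one, map_mul, map_natCast, mul_assoc (p : M2 A)] at this
  exact ⟨_, this⟩

theorem br_p {p : ℕ} (hp : p.Prime) : ∃ M : M2 A,
    TT e p * TT e p * (ap e ^ p * TT e p) - ap e ^ p * TT e p * (TT e p * TT e p)
      = p * ((-2 * TT e p + p * M) * ap e ^ p * TT e p) := by
  obtain ⟨r, hr⟩ := T_shift_p hp
  have := S.TT_shift p p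
  rw [hr] at this
  refine ⟨aeval (tt e) r, ?_⟩
  simp only [map_mul, map_add, map_natCast, map_neg, map_ofNat, map_sub, map_pow, aeval_X] at this
  rw [← mul_assoc (p : M2 A), ← mul_assoc (p : M2 A), TT, ← this, ← TT]
  noncomm_ring

end Sys

end Pool.Agent.Lib.MP_75bae7_al
end
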